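import Pool.Agent.N412.PE.Stm

/-!
Project PEND (helper412), part CANON: canonical form of complete graphs with pendant edges.
-/

set_option autoImplicit false

open Finset

namespace Pool.Agent.N412.PE

open Pool.Agent.W297.LP Pool.Agent.N412.LB

namespace CanonAux

/-- a permutation which moves `S` to the first `k` points -/
lemma exists_perm {k t : ℕ} (hkt : k < t) (S : Finset (Fin t)) (hS : S.card = k) :
    ∃ e : Equiv.Perm (Fin t), ∀ v, (e v).val < k ↔ v ∈ S := by
  classical
  let E : Fin k ≃ {i : Fin t // i.val < k} :=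
    { toFun := fun i => ⟨⟨i.val, i.isLt.trans hkt⟩, i.isLt⟩
      invFun := fun i => ⟨i.1.val, i.2⟩
      left_inv := fun i => rfl
      right_inv := fun i => rfl }
  let e0 : {x // x ∈ S} ≃ {i : Fin t // i.val < k} := (S.equivFinOfCardEq hS).trans E
  refine ⟨e0.extendSubtype, fun v => ⟨fun h => ?_, fun h => ?_⟩⟩
  · by_contra hv
    exact e0.extendSubtype_not_mem v hv h
  · exact e0.extendSubtype_mem v h

/-- the number of monochromatic copies does not change under isomorphisms -/
lemma MC_iso {t n : ℕ} {H P : SimpleGraph (Fin t)} (φ : H ≃g P) (G : SimpleGraph (Fin n)) :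
    MC H G = MC P G := by
  classical
  unfold MC
  refine Finset.card_equiv (Equiv.embeddingCongr φ.toEquiv (Equiv.refl _)) fun f => ?_
  simp only [Finset.mem_filter, Finset.mem_univ, true_and]
  have key : ∀ K : SimpleGraph (Fin n), (∀ u v, H.Adj u v → K.Adj (f u) (f v)) ↔
      ∀ u v, P.Adj u v → K.Adj ((Equiv.embeddingCongr φ.toEquiv (Equiv.refl _)) f u)
        ((Equiv.embeddingCongr φ.toEquiv (Equiv.refl _)) f v) := by
    intro K
    have e1 : ∀ u, (Equiv.embeddingCongr φ.toEquiv (Equiv.refl (Fin n))) f u = f (φ.symm u) :=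
      fun u => rfl
    constructor
    · intro h u v huv
      rw [e1, e1]
      exact h _ _ (φ.symm.map_adj_iff.2 huv)
    · intro h u v huv
      have h1 := h (φ u) (φ v) (φ.map_adj_iff.2 huv)
      rw [e1, e1] at h1
      simpa using h1
  rw [key G, key Gᶜ]

lemma Opt_iso {t n : ℕ} {H P : SimpleGraph (Fin t)} (φ : H ≃g P) (G : SimpleGraph (Fin n)) :
    Opt H G ↔ Opt P G := by
  unfold Opt
  simp only [MC_iso φ]

lemma chrom_iso {t : ℕ} {H P : SimpleGraph (Fin t)} (φ : H ≃g P) :
    H.chromaticNumber = P.chromaticNumber := by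
  refine le_antisymm ?_ ?_
  · exact SimpleGraph.chromaticNumber_mono_of_hom φ.toHom
  · exact SimpleGraph.chromaticNumber_mono_of_hom φ.symm.toHom

lemma Bonbon_iso {t : ℕ} {H P : SimpleGraph (Fin t)} (φ : H ≃g P) (hP : Bonbon P) : Bonbon H := by
  obtain ⟨h1, r, h2, N, h3⟩ := hP
  refine ⟨φ.connected_iff.2 h1, r, (chrom_iso φ).trans h2, N, fun n hn G => ?_⟩
  rw [Opt_iso φ]
  exact h3 n hn G

end CanonAux

open CanonAux in
theorem canon : SCanon := by
  classical
  intro k t H hk hkt hP
  obtain ⟨S, hS, hcl, hleaf⟩ := hP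
  obtain ⟨e, he⟩ := exists_perm hkt S hS
  choose! u hu huw using hleaf
  let g : Fin t → Fin t := fun v => if e.symm v ∉ S then e (u (e.symm v)) else v
  have hg : ∀ b, b ∉ S → g (e b) = e (u b) := by
    intro b hb
    show (if e.symm (e b) ∉ S then e (u (e.symm (e b))) else e b) = e (u b)
    rw [Equiv.symm_apply_apply, if_pos hb]
  have hge : ∀ b, k ≤ (e b).val ↔ b ∉ S := by
    intro b
    rw [← he b]
    omega
  refine ⟨g, ?_, ?_⟩
  · intro v hv
    obtain ⟨b, rfl⟩ := e.surjective v
    have hb := (hge b).1 hv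
    rw [hg b hb]
    exact (he _).2 (hu b hb)
  · let φ : H ≃g Pg k t g :=
      { toEquiv := e
        map_rel_iff' := by
          intro a b
          show (e a ≠ e b ∧ (((e a).val < k ∧ (e b).val < k) ∨ (k ≤ (e b).val ∧ g (e b) = e a) ∨
            (k ≤ (e a).val ∧ g (e a) = e b))) ↔ H.Adj a b
          rw [hge, hge, he, he, e.injective.ne_iff]
          constructor
          · rintro ⟨hne, ⟨ha, hb⟩ | ⟨hb, h⟩ | ⟨ha, h⟩⟩
            · exact hcl a ha b hb hne
            · rw [hg b hb] at h
              exact ((huw b hb a).2 (e.injective h).symm).symm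
            · rw [hg a ha] at h
              exact (huw a ha b).2 (e.injective h).symm
          · intro h
            refine ⟨h.ne, ?_⟩
            by_cases ha : a ∈ S
            · by_cases hb : b ∈ S
              · exact Or.inl ⟨ha, hb⟩
              · right
                left
                refine ⟨hb, ?_⟩
                rw [hg b hb, (huw b hb a).1 h.symm]
            · right
              right
              refine ⟨ha, ?_⟩
              rw [hg a ha, (huw a ha b).1 h] }
    exact Bonbon_iso φ

end Pool.Agent.N412.PE
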