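import Pool.Agent.N412.PE.Stm
import Pool.Agent.N412.LB.CntB

/-!
Project PEND (helper412): CNTB, blue copies through a clique vertex.
Adapted from `Pool/Agent/N412/LB/CntB.lean`.
-/

set_option autoImplicit false

open Finset

namespace Pool.Agent.N412.PE

open Pool.Agent.W297.LP Pool.Agent.N412.LB

namespace CntBEAux

open Pool.Agent.N412.LB.CntBAux (ro greedy atyp)

/-- partial blue copies with typical clique vertices -/
def GoodE {r n : ℕ} (k : ℕ) (q : ℕ → ℕ) (G : SimpleGraph (Fin n)) (P : Fin n → Fin r) (x : Fin n)
    (L : ℝ) (m : ℕ) (f : Fin m → Fin n) : Prop :=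
  Function.Injective f ∧ (∀ i : Fin m, i.val = 0 → f i = x) ∧
  (∀ i : Fin m, 1 ≤ i.val → i.val < k → (ro G P (f i) : ℝ) ≤ L) ∧
  (∀ i : Fin m, 1 ≤ i.val → i.val < k → (P (f i)).val + 1 = i.val) ∧
  (∀ i j : Fin m, i.val < j.val → (j.val < k ∨ (q j.val = i.val ∧ k ≤ j.val)) →
    ¬ G.Adj (f i) (f j))

theorem good_snoc {r n : ℕ} (k : ℕ) (q : ℕ → ℕ) (G : SimpleGraph (Fin n)) (P : Fin n → Fin r)
    (x : Fin n)
    (L : ℝ) (m : ℕ) (g : Fin m → Fin n) (hg : GoodE k q G P x L m g) (v : Fin n)
    (h1 : ∀ i, g i ≠ v) (h2 : m = 0 → v = x) (h3 : 1 ≤ m → m < k → (ro G P v : ℝ) ≤ L)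
    (h4 : 1 ≤ m → m < k → (P v).val + 1 = m)
    (h5 : ∀ i : Fin m, (m < k ∨ (q m = i.val ∧ k ≤ m)) → ¬ G.Adj (g i) v) :
    GoodE k q G P x L (m + 1) (Fin.snoc (α := fun _ => Fin n) g v) := by
  obtain ⟨g1, g2, g3, g4, g5⟩ := hg
  refine ⟨?_, ?_, ?_, ?_, ?_⟩
  · intro i j
    refine Fin.lastCases ?_ (fun i => ?_) i <;> refine Fin.lastCases ?_ (fun j => ?_) j
    · intro _; rfl
    · intro h; simp only [Fin.snoc_last, Fin.snoc_castSucc] at h; exact absurd h.symm (h1 j)
    · intro h; simp only [Fin.snoc_last, Fin.snoc_castSucc] at h; exact absurd h (h1 i)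
    · intro h; simp only [Fin.snoc_castSucc] at h; rw [g1 h]
  · intro i
    refine Fin.lastCases ?_ (fun i => ?_) i
    · intro h; simp only [Fin.val_last] at h; simp only [Fin.snoc_last]; exact h2 h
    · intro h; simp only [Fin.val_castSucc] at h; simp only [Fin.snoc_castSucc]; exact g2 i h
  · intro i
    refine Fin.lastCases ?_ (fun i => ?_) i
    · intro h h'; simp only [Fin.val_last] at h h'; simp only [Fin.snoc_last]; exact h3 h h'
    · intro h h'; simp only [Fin.val_castSucc] at h h'; simp only [Fin.snoc_castSucc]; exact g3 i h h'
  · intro i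
    refine Fin.lastCases ?_ (fun i => ?_) i
    · intro h; simp only [Fin.val_last] at h ⊢; simp only [Fin.snoc_last]; exact h4 h
    · intro h; simp only [Fin.val_castSucc] at h ⊢; simp only [Fin.snoc_castSucc]; exact g4 i h
  · intro i j
    refine Fin.lastCases ?_ (fun j => ?_) j
    · refine Fin.lastCases ?_ (fun i => ?_) i
      · intro h; exact absurd h (lt_irrefl _)
      · intro _ h
        simp only [Fin.val_last, Fin.val_castSucc] at h
        simp only [Fin.snoc_last, Fin.snoc_castSucc]
        exact h5 i h
    · refine Fin.lastCases ?_ (fun i => ?_) i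
      · intro h _
        simp only [Fin.val_last, Fin.val_castSucc] at h
        exact absurd j.isLt (by omega)
      · intro h h'
        simp only [Fin.val_castSucc] at h h'
        simp only [Fin.snoc_castSucc]
        exact g5 i j h h'

end CntBEAux

open CntBEAux Pool.Agent.N412.LB.CntBAux in
open Classical in
theorem cntBE : SCntBE := by
  intro k t gg hk hkt hatt ε hε hε3
  have hk' : (4 : ℝ) ≤ k := by exact_mod_cast hk
  set q : ℕ → ℕ := fun v => if h : v < t then (gg ⟨v, h⟩).val else 0 with hq
  have hqk : ∀ v, k ≤ v → v < t → q v < k := by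
    intro v hv hvt
    simp only [hq]
    rw [dif_pos hvt]
    exact hatt ⟨v, hvt⟩ hv
  set η : ℝ := ε / (4 * (k + 1)) with hη
  have hη0 : 0 < η := by positivity
  have hη1 : ((k : ℝ) + 1) * η = ε / 4 := by rw [hη]; field_simp
  have hη2 : η ≤ ε / 20 := by nlinarith
  have hη3 : η ^ 2 ≤ η := by nlinarith
  refine ⟨η ^ 2, ⌈2 * (t : ℝ) / ε⌉₊ + 1, by positivity, ?_⟩
  intro n hn G P hP x hrd hx
  have hn0 : 0 < n := by omega
  have hn' : (0 : ℝ) < n := by exact_mod_cast hn0
  have hnt : 2 * (t : ℝ) ≤ ε * n := by
    have h1 : 2 * (t : ℝ) / ε ≤ n := by
      refine (Nat.le_ceil _).trans ?_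
      exact_mod_cast (by omega : ⌈2 * (t : ℝ) / ε⌉₊ ≤ n)
    rw [div_le_iff₀ hε] at h1
    linarith
  have hmu : mu k ≤ 1 / 3 := by
    unfold mu
    apply one_div_le_one_div_of_le (by norm_num)
    linarith
  have hat := atyp G P η hη0 hn0 hP
  set A := univ.filter fun y => ¬ ((ro G P y : ℝ) ≤ η * n) with hA
  set c : ℕ → ℝ := fun m => if m = 0 then 1 else
    if h : m - 1 < k - 1 then (bp G P ⟨m - 1, h⟩ x : ℝ) - ε * n else (3 / 5 - ε) * n with hc
  have hc0 : ∀ m, 0 ≤ c m := by
    intro m
    simp only [hc]
    split_ifs with h1 h2
    · norm_num
    · have := hx ⟨m - 1, h2⟩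
      linarith
    · have : 0 ≤ 3 / 5 - ε := by linarith
      positivity
  have hstep : ∀ m < t, ∀ g : Fin m → Fin n, GoodE k q G P x (η * n) m g →
      c m ≤ ((univ.filter fun v => GoodE k q G P x (η * n) (m + 1)
        (Fin.snoc (α := fun _ => Fin n) g v)).card : ℝ) := by
    intro m hm g hg
    set S := univ.filter fun v => GoodE k q G P x (η * n) (m + 1)
        (Fin.snoc (α := fun _ => Fin n) g v) with hS
    rcases Nat.eq_zero_or_pos m with h0 | h0
    · -- the first vertex
      subst h0
      have h1 : c 0 = 1 := by simp [hc]
      rw [h1]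
      have h2 : x ∈ S := by
        rw [hS, mem_filter]
        refine ⟨mem_univ _, ?_⟩
        apply good_snoc k q G P x (η * n) 0 g hg x
        · intro i; exact i.elim0
        · intro _; rfl
        · intro h; omega
        · intro h; omega
        · intro i; exact i.elim0
      exact_mod_cast card_pos.2 ⟨x, h2⟩
    · have hm0 : m ≠ 0 := by omega
      by_cases h1 : m - 1 < k - 1
      · -- vertices of the clique
        have hcm : c m = (bp G P ⟨m - 1, h1⟩ x : ℝ) - ε * n := by
          simp only [hc]
          rw [if_neg hm0, dif_pos h1]
        rw [hcm]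
        set B := univ.filter fun y => P y = ⟨m - 1, h1⟩ ∧ y ≠ x ∧ ¬ G.Adj x y with hB
        set C := (univ.filter fun i : Fin m => 1 ≤ i.val).biUnion
          (fun i => univ.filter fun z => P z ≠ P (g i) ∧ G.Adj (g i) z) with hC
        have hCc : (C.card : ℝ) ≤ k * (η * n) := by
          calc (C.card : ℝ) ≤ ∑ i ∈ (univ.filter fun i : Fin m => 1 ≤ i.val),
                ((univ.filter fun z => P z ≠ P (g i) ∧ G.Adj (g i) z).card : ℝ) := by
                exact_mod_cast card_biUnion_le
            _ ≤ ∑ i ∈ (univ.filter fun i : Fin m => 1 ≤ i.val), η * n := by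
                apply sum_le_sum
                intro i hi
                rw [mem_filter] at hi
                exact hg.2.2.1 i hi.2 (by have := i.isLt; omega)
            _ = ((univ.filter fun i : Fin m => 1 ≤ i.val).card : ℝ) * (η * n) := by
                rw [sum_const, nsmul_eq_mul]
            _ ≤ k * (η * n) := by
                apply mul_le_mul_of_nonneg_right _ (by positivity)
                have h2 : (univ.filter fun i : Fin m => 1 ≤ i.val).card ≤ m := by
                  refine (card_le_univ _).trans ?_
                  rw [Fintype.card_fin]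
                exact_mod_cast h2.trans (by omega)
        have hsub : B \ (A ∪ C) ⊆ S := by
          intro v hv
          rw [mem_sdiff, mem_union, not_or, hB, mem_filter] at hv
          obtain ⟨⟨-, hv1, hv2, hv3⟩, hv4, hv5⟩ := hv
          have hv6 : ∀ i : Fin m, 1 ≤ i.val → ¬ G.Adj (g i) v := by
            intro i hi hadj
            apply hv5
            rw [hC, mem_biUnion]
            refine ⟨i, by rw [mem_filter]; exact ⟨mem_univ _, hi⟩, ?_⟩
            rw [mem_filter]
            refine ⟨mem_univ _, ?_, hadj⟩
            intro h2
            have h3 := hg.2.2.2.1 i hi (by have := i.isLt; omega)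
            rw [← h2, hv1] at h3
            simp only at h3
            have := i.isLt
            omega
          have hv7 : ∀ i : Fin m, 1 ≤ i.val → g i ≠ v := by
            intro i hi h2
            have h3 := hg.2.2.2.1 i hi (by have := i.isLt; omega)
            rw [h2, hv1] at h3
            simp only at h3
            have := i.isLt
            omega
          rw [hS, mem_filter]
          refine ⟨mem_univ _, ?_⟩
          apply good_snoc k q G P x (η * n) m g hg v
          · intro i
            rcases Nat.eq_zero_or_pos i.val with h2 | h2
            · rw [hg.2.1 i h2]; exact hv2.symm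
            · exact hv7 i h2
          · intro h2; omega
          · intro _ _
            rw [hA, mem_filter] at hv4
            push Not at hv4
            exact hv4 (mem_univ _)
          · intro _ _
            rw [hv1]
            simp only
            omega
          · intro i _
            rcases Nat.eq_zero_or_pos i.val with h2 | h2
            · rw [hg.2.1 i h2]; exact hv3
            · exact hv6 i h2
        have hcard : (B.card : ℝ) ≤ S.card + (A.card + C.card) := by
          have h2 := card_le_card_sdiff_add_card (s := B) (t := A ∪ C)
          have h3 := card_le_card hsub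
          have h4 := card_union_le A C
          exact_mod_cast (by omega : B.card ≤ S.card + (A.card + C.card))
        have hBc : (B.card : ℝ) = bp G P ⟨m - 1, h1⟩ x := rfl
        rw [hBc] at hcard
        have h5 : η * n + k * (η * n) ≤ ε * n := by
          have : η * n + k * (η * n) = ((k + 1) * η) * n := by ring
          rw [this, hη1]
          nlinarith
        linarith
      · -- leaves
        have hcm : c m = (3 / 5 - ε) * n := by
          simp only [hc]
          rw [if_neg hm0, dif_neg h1]
        rw [hcm]
        have hkm : k ≤ m := by omega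
        have hqm : q m < k := hqk m hkm hm
        set I := univ.image g with hI
        have hIc : I.card ≤ m := by
          refine card_image_le.trans ?_
          rw [card_univ, Fintype.card_fin]
        have hmt : (m : ℝ) ≤ t := by exact_mod_cast hm.le
        set u := g ⟨q m, by omega⟩ with hu
        have hadd : ∀ v, v ∉ I → ¬ G.Adj u v → v ∈ S := by
          intro v hv4 hv3
          rw [hS, mem_filter]
          refine ⟨mem_univ _, ?_⟩
          apply good_snoc k q G P x (η * n) m g hg v
          · intro i h2
            apply hv4
            rw [hI, mem_image]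
            exact ⟨i, mem_univ _, h2⟩
          · intro h2; omega
          · intro _ h2; omega
          · intro _ h2; omega
          · intro i h2 hadj
            rcases h2 with h2 | h2
            · omega
            · apply hv3
              have h3 : g i = u := by
                rw [hu]
                congr 1
                apply Fin.ext
                simp only
                exact h2.1.symm
              rw [h3] at hadj
              exact hadj
        rcases Nat.eq_zero_or_pos (q m) with hq0 | hq0
        · -- leaf at x
          have hux : u = x := hg.2.1 ⟨q m, by omega⟩ hq0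
          set B := univ.filter fun y => ¬ G.Adj x y with hB
          have hsub : B \ I ⊆ S := by
            intro v hv
            rw [mem_sdiff, hB, mem_filter] at hv
            exact hadd v hv.2 (by rw [hux]; exact hv.1.2)
          have hcard : (B.card : ℝ) ≤ S.card + m := by
            have h2 := card_le_card_sdiff_add_card (s := B) (t := I)
            have h3 := card_le_card hsub
            exact_mod_cast (by omega : B.card ≤ S.card + m)
          have hBc : (B.card : ℝ) = n - (rd G x : ℝ) := by
            have h2 := card_filter_add_card_filter_not (s := (univ : Finset (Fin n)))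
              (fun y => G.Adj x y)
            rw [card_univ, Fintype.card_fin] at h2
            have h3 : rd G x + B.card = n := h2
            have h4 : ((rd G x : ℕ) : ℝ) + B.card = n := by exact_mod_cast h3
            linarith
          rw [hBc] at hcard
          have h9 : 0 < ε * n := by positivity
          have h8 : (3 / 5 - ε) * n = 3 / 5 * n - ε * n := by ring
          rw [h8]
          linarith
        · have hut : (ro G P u : ℝ) ≤ η * n := hg.2.2.1 ⟨q m, by omega⟩ hq0 hqm
          set B := univ.filter fun y => ¬ P y = P u with hB
          set C := univ.filter fun z => P z ≠ P u ∧ G.Adj u z with hC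
          have hsub : B \ (C ∪ I) ⊆ S := by
            intro v hv
            rw [mem_sdiff, mem_union, not_or, hB, mem_filter] at hv
            obtain ⟨⟨-, hv1⟩, hv3, hv4⟩ := hv
            refine hadd v hv4 fun hadj => hv3 ?_
            rw [hC, mem_filter]
            exact ⟨mem_univ _, hv1, hadj⟩
          have hcard : (B.card : ℝ) ≤ S.card + (C.card + m) := by
            have h2 := card_le_card_sdiff_add_card (s := B) (t := C ∪ I)
            have h3 := card_le_card hsub
            have h4 := card_union_le C I
            exact_mod_cast (by omega : B.card ≤ S.card + (C.card + m))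
          have hCc : (C.card : ℝ) ≤ η * n := hut
          have hBc : (B.card : ℝ) = n - ((pt P (P u)).card : ℝ) := by
            have h2 := card_filter_add_card_filter_not (s := (univ : Finset (Fin n)))
              (fun y => P y = P u)
            rw [card_univ, Fintype.card_fin] at h2
            have h3 : (pt P (P u)).card + B.card = n := h2
            have h4 : ((pt P (P u)).card : ℝ) + B.card = n := by exact_mod_cast h3
            linarith
          have hpc := (abs_le.1 (hP.1 (P u))).2
          rw [hBc] at hcard
          have h6 : η ^ 2 * n ≤ η * n := mul_le_mul_of_nonneg_right hη3 hn'.le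
          have h7 : η * n ≤ ε / 20 * n := mul_le_mul_of_nonneg_right hη2 hn'.le
          have h8 : (3 / 5 - ε) * n = 3 / 5 * n - ε * n := by ring
          have h9 : 0 < ε * n := by positivity
          have h10 : ε / 20 * n = ε * n / 20 := by ring
          have h11 : mu k * n ≤ 1 / 3 * n := mul_le_mul_of_nonneg_right hmu hn'.le
          rw [h8]
          rw [h10] at h7
          linarith
  have hmain := greedy (GoodE k q G P x (η * n)) c hc0 t ?_ hstep t le_rfl
  · have hprod : ∏ i ∈ range t, c i =
        (∏ j, ((bp G P j x : ℝ) - ε * n)) * ((3 / 5 - ε) * n) ^ (t - k) := by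
      obtain ⟨s, hs⟩ : ∃ s, t = k + s := ⟨t - k, by omega⟩
      rw [hs, prod_range_add, Nat.add_sub_cancel_left]
      congr 1
      · obtain ⟨r, hr⟩ : ∃ r, k = r + 1 := ⟨k - 1, by omega⟩
        have h1 : ∏ i ∈ range k, c i = ∏ i ∈ range (k - 1), c (i + 1) := by
          rw [hr, prod_range_succ']
          simp [hc]
        rw [h1, Finset.prod_range]
        apply prod_congr rfl
        intro i _
        simp only [hc]
        rw [if_neg (by omega), dif_pos (by simp)]
        simp
      · rw [← Finset.card_range s, ← prod_const, Finset.card_range]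
        apply prod_congr rfl
        intro i _
        simp only [hc]
        rw [if_neg (by omega), dif_neg (by omega)]
    rw [hprod] at hmain
    refine hmain.trans ?_
    unfold cx
    have h1 : (univ.filter fun f : Fin t → Fin n => GoodE k q G P x (η * n) t f) ⊆
        ((univ : Finset (Fin t ↪ Fin n)).filter
          (fun f => ((∀ u v, (Pg k t gg).Adj u v → G.Adj (f u) (f v)) ∨
            (∀ u v, (Pg k t gg).Adj u v → Gᶜ.Adj (f u) (f v))) ∧ ∃ v, f v = x)).image
          (fun f : Fin t ↪ Fin n => (f : Fin t → Fin n)) := by
      intro f hf
      rw [mem_filter] at hf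
      obtain ⟨-, f1, f2, f3, f4, f5⟩ := hf
      rw [mem_image]
      refine ⟨⟨f, f1⟩, ?_, rfl⟩
      rw [mem_filter]
      refine ⟨mem_univ _, Or.inr ?_, ⟨⟨0, by omega⟩, f2 _ rfl⟩⟩
      intro u v huv
      rw [SimpleGraph.compl_adj]
      refine ⟨fun h => huv.ne (f1 h), ?_⟩
      simp only [Function.Embedding.coeFn_mk]
      have key : ∀ i j : Fin t, i.val < j.val → (Pg k t gg).Adj i j → ¬ G.Adj (f i) (f j) := by
        intro i j hij hadj
        apply f5 i j hij
        rcases hadj.2 with h2 | h2 | h2
        · exact Or.inl h2.2
        · refine Or.inr ⟨?_, h2.1⟩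
          simp only [hq]
          rw [dif_pos j.isLt]
          exact congrArg Fin.val h2.2
        · exfalso
          have h3 := hatt i h2.1
          rw [h2.2] at h3
          omega
      rcases lt_trichotomy u.val v.val with h2 | h2 | h2
      · exact key u v h2 huv
      · exact absurd (Fin.ext h2) huv.ne
      · intro h3
        exact key v u h2 huv.symm h3.symm
    exact_mod_cast (card_le_card h1).trans card_image_le
  · refine ⟨fun i => i.elim0, fun i => i.elim0, fun i => i.elim0, fun i => i.elim0, fun i => i.elim0⟩

end Pool.Agent.N412.PE
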