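import Pool.Agent.N412.PE.Stm
import Pool.Agent.N412.LB.CntR

/-!
Project PEND (helper412), part CNTL (helper862): red copies with the vertex `x` as a leaf.
Adapted from `Pool/Agent/N412/LB/CntR.lean` (helper359).
-/

set_option autoImplicit false
set_option linter.all false

open Finset

namespace Pool.Agent.N412.PE

open Pool.Agent.W297.LP Pool.Agent.N412.LB

namespace CntLAux

open Pool.Agent.N412.LB.CntRAux (Ok greedy atyp)

/-- adjacency in `Pg`, on natural numbers -/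
def PA (k : ℕ) (gn : ℕ → ℕ) (a b : ℕ) : Prop :=
  a ≠ b ∧ ((a < k ∧ b < k) ∨ (k ≤ b ∧ gn b = a) ∨ (k ≤ a ∧ gn a = b))

/-- the map `g` on natural numbers -/
def gnat {t : ℕ} (g : Fin t → Fin t) (q : ℕ) : ℕ := if h : q < t then (g ⟨q, h⟩).val else 0

theorem gnat_val {t : ℕ} (g : Fin t → Fin t) (q : Fin t) : gnat g q.val = (g q).val := by
  unfold gnat
  rw [dif_pos q.isLt]

theorem pg_adj {k t : ℕ} (g : Fin t → Fin t) (u v : Fin t) :
    (Pg k t g).Adj u v ↔ PA k (gnat g) u.val v.val := by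
  unfold PA
  rw [gnat_val, gnat_val]
  constructor
  · intro h
    refine ⟨fun e => h.1 (Fin.ext e), ?_⟩
    rcases h.2 with h | h | h
    · exact Or.inl h
    · exact Or.inr (Or.inl ⟨h.1, congrArg Fin.val h.2⟩)
    · exact Or.inr (Or.inr ⟨h.1, congrArg Fin.val h.2⟩)
  · intro h
    refine ⟨fun e => h.1 (congrArg Fin.val e), ?_⟩
    rcases h.2 with h | h | h
    · exact Or.inl h
    · exact Or.inr (Or.inl ⟨h.1, Fin.ext h.2⟩)
    · exact Or.inr (Or.inr ⟨h.1, Fin.ext h.2⟩)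

/-- the order of the steps: the leaf `v0`, its neighbour `u0`, the clique, the other leaves -/
def od (k v0 u0 j : ℕ) : ℕ :=
  if j = 0 then v0 else if j = 1 then u0 else
    if j ≤ k then (if j - 2 < u0 then j - 2 else j - 1) else (if j - 1 < v0 then j - 1 else j)

/-- its inverse -/
def ix (k v0 u0 q : ℕ) : ℕ :=
  if q = v0 then 0 else if q = u0 then 1 else
    if q < k then (if q < u0 then q + 2 else q + 1) else (if q < v0 then q + 1 else q)

theorem od_ix {k t v0 u0 q : ℕ} (hk : 4 ≤ k) (h1 : k ≤ v0) (h2 : v0 < t) (h3 : u0 < k)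
    (hq : q < t) : od k v0 u0 (ix k v0 u0 q) = q := by
  unfold ix
  split_ifs with a b c d e
  · unfold od
    rw [if_pos rfl]
    omega
  · unfold od
    rw [if_neg (by omega), if_pos rfl]
    omega
  · unfold od
    rw [if_neg (by omega), if_neg (by omega), if_pos (by omega), if_pos (by omega)]
    omega
  · unfold od
    rw [if_neg (by omega), if_neg (by omega), if_pos (by omega), if_neg (by omega)]
    omega
  · unfold od
    rw [if_neg (by omega), if_neg (by omega), if_neg (by omega), if_pos (by omega)]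
    omega
  · unfold od
    rw [if_neg (by omega), if_neg (by omega), if_neg (by omega), if_neg (by omega)]

theorem ix_od {k t v0 u0 j : ℕ} (hk : 4 ≤ k) (h1 : k ≤ v0) (h2 : v0 < t) (h3 : u0 < k)
    (hj : j < t) : ix k v0 u0 (od k v0 u0 j) = j := by
  unfold ix od
  split_ifs <;> omega

theorem ix_lt {k t v0 u0 q : ℕ} (hk : 4 ≤ k) (h1 : k ≤ v0) (h2 : v0 < t) (h3 : u0 < k)
    (hq : q < t) : ix k v0 u0 q < t := by
  unfold ix
  split_ifs <;> omega

theorem od_lt {k t v0 u0 j : ℕ} (hk : 4 ≤ k) (h1 : k ≤ v0) (h2 : v0 < t) (h3 : u0 < k)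
    (hj : j < t) : od k v0 u0 j < t := by
  unfold od
  split_ifs <;> omega

theorem od_inj {k t v0 u0 i j : ℕ} (hk : 4 ≤ k) (h1 : k ≤ v0) (h2 : v0 < t) (h3 : u0 < k)
    (hi : i < t) (hj : j < t) (h : od k v0 u0 i = od k v0 u0 j) : i = j := by
  rw [← ix_od hk h1 h2 h3 hi, ← ix_od hk h1 h2 h3 hj, h]

theorem od_zero (k v0 u0 : ℕ) : od k v0 u0 0 = v0 := by unfold od; rw [if_pos rfl]

theorem od_one (k v0 u0 : ℕ) : od k v0 u0 1 = u0 := by
  unfold od
  rw [if_neg one_ne_zero, if_pos rfl]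

/-- the clique is chosen in the steps `1, …, k` -/
theorem od_clique {k v0 u0 j : ℕ} (hk : 4 ≤ k) (h3 : u0 < k) (hj : 1 ≤ j) (hj' : j ≤ k) :
    od k v0 u0 j < k := by
  unfold od
  split_ifs <;> omega

theorem od_leaf {k v0 u0 j : ℕ} (hk : 4 ≤ k) (h1 : k ≤ v0) (hj : k < j) :
    k ≤ od k v0 u0 j := by
  unfold od
  split_ifs <;> omega

/-- the neighbours chosen before the step `j ≥ 2` -/
theorem side {k t v0 u0 i j : ℕ} {gn : ℕ → ℕ} (hk : 4 ≤ k) (h1 : k ≤ v0) (h2 : v0 < t)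
    (h3 : u0 < k) (hgn : ∀ q, k ≤ q → q < t → gn q < k) (hu : gn v0 = u0) (hj2 : 2 ≤ j)
    (hij : i < j) (hj : j < t) (h : PA k gn (od k v0 u0 i) (od k v0 u0 j)) :
    1 ≤ i ∧ od k v0 u0 i < k := by
  have hne1 : od k v0 u0 j ≠ u0 := by
    intro e
    rw [← od_one k v0 u0] at e
    have := od_inj (t := t) hk h1 h2 h3 hj (by omega) e
    omega
  have hlt := od_lt hk h1 h2 h3 hj
  have hi : i ≠ 0 := by
    rintro rfl
    rw [od_zero] at h
    rcases h.2 with h | h | h
    · omega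
    · have := hgn _ h.1 hlt
      omega
    · exact hne1 (by omega)
  refine ⟨by omega, ?_⟩
  by_cases hik : i ≤ k
  · exact od_clique hk h3 (by omega) hik
  · exfalso
    have hi' := od_leaf (v0 := v0) (u0 := u0) hk h1 (not_le.1 hik)
    have hj' := od_leaf (v0 := v0) (u0 := u0) hk h1 (show k < j by omega)
    have hlt' := od_lt hk h1 h2 h3 (hij.trans hj)
    rcases h.2 with h | h | h
    · omega
    · have := hgn _ h.1 hlt
      omega
    · have := hgn _ h.1 hlt'
      omega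

section Main

variable {n k : ℕ}

open Classical in
/-- the admissible choices in the step `j` -/
noncomputable def AA (gn : ℕ → ℕ) (v0 u0 : ℕ) (G : SimpleGraph (Fin n)) (P : Fin n → Fin (k - 1))
    (s : ℝ) (x : Fin n) (j : ℕ) (h : Fin j → Fin n) : Finset (Fin n) :=
  if j = 0 then {x} else
    univ.filter (fun v => (bp G P (P v) v : ℝ) ≤ s * n ∧ (∀ i : Fin j, h i ≠ v) ∧
      (∀ i : Fin j, PA k gn (od k v0 u0 i) (od k v0 u0 j) → G.Adj (h i) v) ∧
      (∀ i : Fin j, i.val = 1 → P v = P (h i)))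

open Classical in
theorem mem_AA {gn : ℕ → ℕ} {v0 u0 : ℕ} {G : SimpleGraph (Fin n)} {P : Fin n → Fin (k - 1)} {s : ℝ}
    {x : Fin n} {j : ℕ} {h : Fin j → Fin n} {v : Fin n} (hj : j ≠ 0) :
    v ∈ AA gn v0 u0 G P s x j h ↔ (bp G P (P v) v : ℝ) ≤ s * n ∧ (∀ i : Fin j, h i ≠ v) ∧
      (∀ i : Fin j, PA k gn (od k v0 u0 i) (od k v0 u0 j) → G.Adj (h i) v) ∧
      (∀ i : Fin j, i.val = 1 → P v = P (h i)) := by
  unfold AA
  rw [if_neg hj, Finset.mem_filter]
  exact ⟨fun a => a.2, fun a => ⟨Finset.mem_univ _, a⟩⟩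

open Classical in
theorem ok_zero {gn : ℕ → ℕ} {v0 u0 m : ℕ} {G : SimpleGraph (Fin n)} {P : Fin n → Fin (k - 1)}
    {s : ℝ} {x : Fin n} {g : Fin m → Fin n} (hg : Ok (AA gn v0 u0 G P s x) m g) (hm : 0 < m) :
    g ⟨0, hm⟩ = x := by
  have := hg 0 hm
  unfold AA at this
  rw [if_pos rfl, Finset.mem_singleton] at this
  exact this

theorem ok_step {gn : ℕ → ℕ} {v0 u0 m : ℕ} {G : SimpleGraph (Fin n)} {P : Fin n → Fin (k - 1)}
    {s : ℝ} {x : Fin n} {g : Fin m → Fin n} (hg : Ok (AA gn v0 u0 G P s x) m g) (j : ℕ) (hj : j < m)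
    (hj0 : j ≠ 0) :
    (bp G P (P (g ⟨j, hj⟩)) (g ⟨j, hj⟩) : ℝ) ≤ s * n ∧
    (∀ i (hi : i < j), g ⟨i, hi.trans hj⟩ ≠ g ⟨j, hj⟩) ∧
    (∀ i (hi : i < j), PA k gn (od k v0 u0 i) (od k v0 u0 j) →
      G.Adj (g ⟨i, hi.trans hj⟩) (g ⟨j, hj⟩)) ∧
    (∀ (hi : 1 < j), P (g ⟨j, hj⟩) = P (g ⟨1, hi.trans hj⟩)) := by
  have := hg j hj
  rw [mem_AA hj0] at this
  obtain ⟨a1, a2, a3, a4⟩ := this
  exact ⟨a1, fun i hi => a2 ⟨i, hi⟩, fun i hi => a3 ⟨i, hi⟩, fun hi => a4 ⟨1, hi⟩ rfl⟩

open Classical in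
/-- the number of choices in the first step -/
theorem step_first {gn : ℕ → ℕ} {v0 u0 j : ℕ} {G : SimpleGraph (Fin n)} {P : Fin n → Fin (k - 1)}
    {s δ : ℝ} {x : Fin n} (hs : 0 < s) (hδ : δ ≤ s ^ 2) (hn : 0 < n) (h : NearP k δ G P)
    (hj1 : j = 1) {g : Fin j → Fin n}
    (hg : Ok (AA gn v0 u0 G P s x) j g) :
    (rd G x : ℝ) ≤ ((AA gn v0 u0 G P s x j g).card : ℝ) + s * n := by
  subst hj1
  have ha := atyp hs hδ hn h
  set B := univ.filter (fun y => ¬ (bp G P (P y) y : ℝ) ≤ s * n) with hB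
  have hx : g ⟨0, Nat.one_pos⟩ = x := ok_zero hg Nat.one_pos
  have hsub : univ.filter (fun y => G.Adj x y) ⊆ AA gn v0 u0 G P s x 1 g ∪ B := by
    intro v hv
    rw [Finset.mem_filter] at hv
    by_cases hvB : v ∈ B
    · exact Finset.mem_union_right _ hvB
    apply Finset.mem_union_left
    rw [mem_AA one_ne_zero]
    have hi0 : ∀ i : Fin 1, g i = x := by
      intro i
      have e : i = ⟨0, Nat.one_pos⟩ := Fin.ext (by omega)
      rw [e, hx]
    refine ⟨?_, ?_, ?_, ?_⟩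
    · by_contra hc
      exact hvB (by rw [hB, Finset.mem_filter]; exact ⟨Finset.mem_univ _, hc⟩)
    · intro i hi
      rw [hi0 i] at hi
      exact G.ne_of_adj hv.2 hi
    · intro i _
      rw [hi0 i]
      exact hv.2
    · intro i hi
      have := i.isLt
      omega
  have hcard := (Finset.card_le_card hsub).trans (Finset.card_union_le _ _)
  have hcard4 : ((univ.filter (fun y => G.Adj x y)).card : ℝ) ≤
      ((AA gn v0 u0 G P s x 1 g).card : ℝ) + (B.card : ℝ) := by exact_mod_cast hcard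
  unfold rd
  linarith

open Classical in
/-- the number of choices in the other steps -/
theorem step_later {gn : ℕ → ℕ} {t v0 u0 j : ℕ} {G : SimpleGraph (Fin n)}
    {P : Fin n → Fin (k - 1)} {s δ : ℝ}
    {x : Fin n} (hs : 0 < s) (hδ : δ ≤ s ^ 2) (hn : 0 < n) (h : NearP k δ G P) (hk : 4 ≤ k)
    (h1 : k ≤ v0) (h2 : v0 < t) (h3 : u0 < k) (hgn : ∀ q, k ≤ q → q < t → gn q < k)
    (hu : gn v0 = u0) (hj1 : 2 ≤ j) (hj2 : j < t) {g : Fin j → Fin n}
    (hg : Ok (AA gn v0 u0 G P s x) j g) :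
    (mu k - δ) * n ≤ ((AA gn v0 u0 G P s x j g).card : ℝ) + s * n + (k + 2) * (s * n) + t := by
  have ha := atyp hs hδ hn h
  set B := univ.filter (fun y => ¬ (bp G P (P y) y : ℝ) ≤ s * n) with hB
  -- the part
  obtain ⟨w, hw1, hw2⟩ : ∃ w : Fin (k - 1),
      (∀ i : Fin j, PA k gn (od k v0 u0 i) (od k v0 u0 j) → 1 ≤ i.val ∧ P (g i) = w) ∧
      (∀ v, P v = w → (∀ i : Fin j, i.val = 1 → P v = P (g i))) := by
    refine ⟨P (g ⟨1, by omega⟩), ?_, ?_⟩
    · intro i hi
      obtain ⟨a1, a2⟩ := side hk h1 h2 h3 hgn hu hj1 i.isLt hj2 hi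
      refine ⟨a1, ?_⟩
      rcases Nat.lt_or_ge 1 i.val with h3 | h3
      · exact (ok_step hg i.val i.isLt (by omega)).2.2.2 h3
      · congr 2
        exact Fin.ext (by show i.val = 1; omega)
    · intro v hv i hi
      rw [hv]
      congr 2
      exact Fin.ext hi.symm
  set I : Finset (Fin j) := univ.filter (fun i : Fin j =>
    PA k gn (od k v0 u0 i) (od k v0 u0 j)) with hI
  set U : Finset (Fin n) := I.biUnion (fun i => univ.filter (fun v => P v = w ∧ v ≠ g i ∧
    ¬ G.Adj (g i) v)) with hU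
  set X : Finset (Fin n) := univ.image g with hX
  have hIc : I.card ≤ k := by
    have e1 : I.card ≤ (range k).card := by
      apply Finset.card_le_card_of_injOn (fun i : Fin j => od k v0 u0 i)
      · intro i hi
        rw [Finset.mem_coe, hI, Finset.mem_filter] at hi
        exact Finset.mem_coe.2 (Finset.mem_range.2
          (side hk h1 h2 h3 hgn hu hj1 i.isLt hj2 hi.2).2)
      · intro i _ i' _ hii
        exact Fin.ext (od_inj hk h1 h2 h3 (i.isLt.trans hj2) (i'.isLt.trans hj2) hii)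
    rw [Finset.card_range] at e1
    exact e1
  have hUc : (U.card : ℝ) ≤ (k + 2) * (s * n) := by
    have e1 : U.card ≤ ∑ i ∈ I, (univ.filter (fun v => P v = w ∧ v ≠ g i ∧
      ¬ G.Adj (g i) v)).card := Finset.card_biUnion_le
    have e2 : (U.card : ℝ) ≤ ∑ i ∈ I, ((univ.filter (fun v => P v = w ∧ v ≠ g i ∧
      ¬ G.Adj (g i) v)).card : ℝ) := by exact_mod_cast e1
    have e3 : ∑ i ∈ I, ((univ.filter (fun v => P v = w ∧ v ≠ g i ∧
      ¬ G.Adj (g i) v)).card : ℝ) ≤ ∑ i ∈ I, (s * n) := by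
      apply Finset.sum_le_sum
      intro i hi
      rw [hI, Finset.mem_filter] at hi
      obtain ⟨b1, b2⟩ := hw1 i hi.2
      have b3 := (ok_step hg i.val i.isLt (by omega)).1
      have b4 : (bp G P (P (g i)) (g i) : ℝ) ≤ s * n := b3
      rw [b2] at b4
      exact b4
    rw [Finset.sum_const, nsmul_eq_mul] at e3
    have e4 : (I.card : ℝ) ≤ k + 2 := by
      have : (I.card : ℝ) ≤ k := by exact_mod_cast hIc
      linarith
    have e5 : (I.card : ℝ) * (s * n) ≤ (k + 2) * (s * n) :=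
      mul_le_mul_of_nonneg_right e4 (by positivity)
    linarith
  have hXc : X.card ≤ t := by
    have e1 : X.card ≤ (univ : Finset (Fin j)).card := Finset.card_image_le
    rw [Finset.card_univ, Fintype.card_fin] at e1
    omega
  have hsub : pt P w ⊆ AA gn v0 u0 G P s x j g ∪ B ∪ U ∪ X := by
    intro v hv
    unfold pt at hv
    rw [Finset.mem_filter] at hv
    by_cases hvB : v ∈ B
    · exact Finset.mem_union_left _ (Finset.mem_union_left _ (Finset.mem_union_right _ hvB))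
    by_cases hvU : v ∈ U
    · exact Finset.mem_union_left _ (Finset.mem_union_right _ hvU)
    by_cases hvX : v ∈ X
    · exact Finset.mem_union_right _ hvX
    apply Finset.mem_union_left
    apply Finset.mem_union_left
    apply Finset.mem_union_left
    have hne : ∀ i : Fin j, g i ≠ v := by
      intro i hi
      exact hvX (by rw [hX, Finset.mem_image]; exact ⟨i, Finset.mem_univ _, hi⟩)
    rw [mem_AA (by omega)]
    refine ⟨?_, hne, ?_, hw2 v hv.2⟩
    · by_contra hc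
      exact hvB (by rw [hB, Finset.mem_filter]; exact ⟨Finset.mem_univ _, hc⟩)
    · intro i hi
      by_contra hc
      apply hvU
      rw [hU, Finset.mem_biUnion]
      refine ⟨i, by rw [hI, Finset.mem_filter]; exact ⟨Finset.mem_univ _, hi⟩, ?_⟩
      rw [Finset.mem_filter]
      exact ⟨Finset.mem_univ _, hv.2, (hne i).symm, hc⟩
  have c1 := (Finset.card_le_card hsub).trans (Finset.card_union_le _ _)
  have c2 := Finset.card_union_le (AA gn v0 u0 G P s x j g ∪ B) U
  have c3 := Finset.card_union_le (AA gn v0 u0 G P s x j g) B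
  have c4 : (pt P w).card ≤ (AA gn v0 u0 G P s x j g).card + B.card + U.card + t := by omega
  have c5 : ((pt P w).card : ℝ) ≤ ((AA gn v0 u0 G P s x j g).card : ℝ) + B.card + U.card + t := by
    exact_mod_cast c4
  have c6 := h.1 w
  rw [abs_le] at c6
  linarith [c6.1]

open Classical in
/-- the copies with the leaf `v0` at `x` -/
theorem count_pos {t v0 u0 : ℕ} {gg : Fin t → Fin t} {G : SimpleGraph (Fin n)}
    {P : Fin n → Fin (k - 1)} {s δ ε : ℝ}
    {x : Fin n} (hs : 0 < s) (hδ : δ ≤ s ^ 2) (hn : 0 < n) (h : NearP k δ G P) (hk : 4 ≤ k)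
    (h1 : k ≤ v0) (h2 : v0 < t) (h3 : u0 < k) (hgn : ∀ q, k ≤ q → q < t → gnat gg q < k)
    (hu : gnat gg v0 = u0) (hε2 : ε ≤ mu k) (hrd : ε * n ≤ rd G x)
    (hfirst : s * n ≤ ε * n)
    (hlater : δ * n + s * n + (k + 2) * (s * n) + t ≤ ε * n) :
    ((rd G x : ℝ) - ε * n) * ((mu k - ε) * n) ^ (t - 2) ≤
      ((univ.filter (fun f : Fin t ↪ Fin n => (∀ u v, (Pg k t gg).Adj u v → G.Adj (f u) (f v)) ∧
        ∀ q : Fin t, q.val = v0 → f q = x)).card : ℝ) := by
  have hn' : (0 : ℝ) < n := by exact_mod_cast hn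
  set c : ℕ → ℝ := fun j => if j = 0 then 1 else if j = 1 then (rd G x : ℝ) - ε * n else
    (mu k - ε) * n with hc
  have hc0 : ∀ j, 0 ≤ c j := by
    intro j
    rw [hc]
    dsimp only
    split_ifs
    · norm_num
    · linarith
    · have : 0 ≤ mu k - ε := by linarith
      positivity
  have hgr := greedy (AA (gnat gg) v0 u0 G P s x) c hc0 t (by
    intro j hj g hg
    rw [hc]
    dsimp only
    split_ifs with c1 c2
    · subst c1
      unfold AA
      rw [if_pos rfl, Finset.card_singleton]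
      norm_num
    · have := step_first hs hδ hn h c2 hg
      linarith
    · have := step_later hs hδ hn h hk h1 h2 h3 hgn hu (by omega) hj hg
      linarith)
  have hprod : ∏ j ∈ range t, c j = ((rd G x : ℝ) - ε * n) * ((mu k - ε) * n) ^ (t - 2) := by
    obtain ⟨m, rfl⟩ : ∃ m, t = m + 2 := ⟨t - 2, by omega⟩
    rw [Finset.prod_range_succ', Finset.prod_range_succ']
    have e1 : ∀ i ∈ range m, c (i + 1 + 1) = (mu k - ε) * n := by
      intro i _
      rw [hc]
      dsimp only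
      rw [if_neg (by omega), if_neg (by omega)]
    rw [Finset.prod_congr rfl e1, Finset.prod_const, Finset.card_range]
    have e3 : c (0 + 1) = (rd G x : ℝ) - ε * n := by
      rw [hc]; dsimp only; rw [if_neg (by omega), if_pos (by omega)]
    have e4 : c 0 = 1 := by
      rw [hc]; dsimp only; rw [if_pos rfl]
    rw [e3, e4, show m + 2 - 2 = m by omega]
    ring
  rw [hprod] at hgr
  refine hgr.trans ?_
  norm_cast
  -- the embedding
  have hinj : ∀ g : Fin t → Fin n, Ok (AA (gnat gg) v0 u0 G P s x) t g →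
      Function.Injective g := by
    intro g hg a b hab
    by_contra hne
    rcases lt_or_gt_of_ne (fun e => hne (Fin.ext e) : a.val ≠ b.val) with hlt | hgt
    · exact (ok_step hg b.val b.isLt (by omega)).2.1 a.val hlt hab
    · exact (ok_step hg a.val a.isLt (by omega)).2.1 b.val hgt hab.symm
  have hadj : ∀ g : Fin t → Fin n, Ok (AA (gnat gg) v0 u0 G P s x) t g → ∀ a b : Fin t,
      PA k (gnat gg) (od k v0 u0 a) (od k v0 u0 b) → G.Adj (g a) (g b) := by
    intro g hg a b hab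
    have hne : a.val ≠ b.val := by
      intro e
      rw [e] at hab
      exact hab.1 rfl
    have hsym : PA k (gnat gg) (od k v0 u0 b) (od k v0 u0 a) := by
      refine ⟨hab.1.symm, ?_⟩
      rcases hab.2 with h | h | h
      · exact Or.inl ⟨h.2, h.1⟩
      · exact Or.inr (Or.inr h)
      · exact Or.inr (Or.inl h)
    rcases lt_or_gt_of_ne hne with hlt | hgt
    · exact (ok_step hg b.val b.isLt (by omega)).2.2.1 a.val hlt hab
    · exact ((ok_step hg a.val a.isLt (by omega)).2.2.1 b.val hgt hsym).symm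
  have hixinj : Function.Injective
      (fun q : Fin t => (⟨ix k v0 u0 q, ix_lt hk h1 h2 h3 q.isLt⟩ : Fin t)) := by
    intro a b hab
    have e := congrArg Fin.val hab
    have e' : ix k v0 u0 a = ix k v0 u0 b := e
    apply Fin.ext
    rw [← od_ix hk h1 h2 h3 a.isLt, ← od_ix hk h1 h2 h3 b.isLt, e']
  let F : (Fin t → Fin n) → (Fin t → Fin n) := fun g q =>
    g ⟨ix k v0 u0 q, ix_lt hk h1 h2 h3 q.isLt⟩
  rw [← Finset.card_map (s := univ.filter (fun f : Fin t ↪ Fin n =>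
    (∀ u v, (Pg k t gg).Adj u v → G.Adj (f u) (f v)) ∧ ∀ q : Fin t, q.val = v0 → f q = x))
    (f := ⟨fun f : Fin t ↪ Fin n => (f : Fin t → Fin n), DFunLike.coe_injective⟩)]
  apply Finset.card_le_card_of_injOn F
  · intro g hg
    rw [Finset.mem_coe, Finset.mem_filter] at hg
    rw [Finset.mem_coe, Finset.mem_map]
    refine ⟨⟨F g, (hinj g hg.2).comp hixinj⟩, ?_, rfl⟩
    rw [Finset.mem_filter]
    refine ⟨Finset.mem_univ _, ?_, ?_⟩
    · intro u v huv
      rw [pg_adj] at huv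
      show G.Adj (g ⟨ix k v0 u0 u, _⟩) (g ⟨ix k v0 u0 v, _⟩)
      apply hadj g hg.2
      show PA k (gnat gg) (od k v0 u0 (ix k v0 u0 u)) (od k v0 u0 (ix k v0 u0 v))
      rw [od_ix hk h1 h2 h3 u.isLt, od_ix hk h1 h2 h3 v.isLt]
      exact huv
    · intro q hq
      show g ⟨ix k v0 u0 q, _⟩ = x
      have e : ix k v0 u0 q = 0 := by unfold ix; rw [if_pos hq]
      have e2 : (⟨ix k v0 u0 q, ix_lt hk h1 h2 h3 q.isLt⟩ : Fin t) = ⟨0, by omega⟩ := Fin.ext e
      rw [e2]
      exact ok_zero hg.2 (by omega)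
  · intro g _ g' _ hgg
    funext j
    have hj : od k v0 u0 j < t := od_lt hk h1 h2 h3 j.isLt
    have e := congrFun hgg ⟨od k v0 u0 j, hj⟩
    have e2 : (⟨ix k v0 u0 (od k v0 u0 j), ix_lt hk h1 h2 h3 hj⟩ : Fin t) = j :=
      Fin.ext (ix_od hk h1 h2 h3 j.isLt)
    have e3 : g ⟨ix k v0 u0 (od k v0 u0 j), ix_lt hk h1 h2 h3 hj⟩ =
        g' ⟨ix k v0 u0 (od k v0 u0 j), ix_lt hk h1 h2 h3 hj⟩ := e
    rw [e2] at e3
    exact e3

end Main

end CntLAux

open CntLAux

open Classical in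
theorem cntL : SCntL := by
  intro k t gg hk ht hatt ε hε hε2
  have hk' : (4 : ℝ) ≤ k := by exact_mod_cast hk
  have hmu : mu k ≤ 1 / 3 := by
    unfold mu
    rw [div_le_div_iff₀ (by linarith) (by norm_num)]
    linarith
  have hgn : ∀ q, k ≤ q → q < t → gnat gg q < k := by
    intro q hq1 hq2
    have := hatt ⟨q, hq2⟩ hq1
    have e := gnat_val gg ⟨q, hq2⟩
    have e' : gnat gg q = (gg ⟨q, hq2⟩).val := e
    omega
  set s : ℝ := ε / (4 * (k + 4)) with hs
  have hs0 : 0 < s := by positivity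
  have hs1 : (k + 4) * s = ε / 4 := by
    rw [hs]
    field_simp
  have hs2 : s ≤ 1 := by nlinarith
  refine ⟨s ^ 2, ⌈(2 * t) / ε⌉₊ + 1, by positivity, ?_⟩
  intro n hn G P hP x hrd
  have hn0 : 0 < n := by omega
  have hn' : (0 : ℝ) < n := by exact_mod_cast hn0
  have hnt : 2 * (t : ℝ) ≤ ε * n := by
    have e1 : (2 * (t : ℝ)) / ε ≤ n := by
      have := Nat.le_ceil ((2 * (t : ℝ)) / ε)
      have e2 : ((⌈(2 * (t : ℝ)) / ε⌉₊ : ℕ) : ℝ) ≤ n := by
        have : ⌈(2 * (t : ℝ)) / ε⌉₊ ≤ n := by omega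
        exact_mod_cast this
      linarith
    rw [div_le_iff₀ hε] at e1
    linarith
  have hsn : s * n ≤ ε * n / 4 := by
    have : s ≤ ε / 4 := by nlinarith
    nlinarith
  have hεn : 0 ≤ ε * n := by positivity
  have hfirst : s * n ≤ ε * n := by linarith
  have hlater : s ^ 2 * n + s * n + (k + 2) * (s * n) + t ≤ ε * n := by
    have e1 : s ^ 2 ≤ s := by nlinarith
    have e2 : s ^ 2 * n ≤ s * n := mul_le_mul_of_nonneg_right e1 hn'.le
    have e3 : (k + 4) * s * n = ε / 4 * n := by rw [hs1]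
    nlinarith
  have hcount : ∀ p ∈ Finset.Ico k t,
      ((rd G x : ℝ) - ε * n) * ((mu k - ε) * n) ^ (t - 2) ≤
      ((univ.filter (fun f : Fin t ↪ Fin n => (∀ u v, (Pg k t gg).Adj u v → G.Adj (f u) (f v)) ∧
        ∀ q : Fin t, q.val = p → f q = x)).card : ℝ) := by
    intro p hp
    rw [Finset.mem_Ico] at hp
    exact count_pos hs0 le_rfl hn0 hP hk hp.1 hp.2 (hgn p hp.1 hp.2) hgn rfl hε2 hrd hfirst hlater
  have hsum : ((t : ℝ) - k) * ((rd G x : ℝ) - ε * n) * ((mu k - ε) * n) ^ (t - 2) ≤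
      ∑ p ∈ Finset.Ico k t, ((univ.filter (fun f : Fin t ↪ Fin n =>
        (∀ u v, (Pg k t gg).Adj u v → G.Adj (f u) (f v)) ∧
        ∀ q : Fin t, q.val = p → f q = x)).card : ℝ) := by
    have e1 := Finset.card_nsmul_le_sum (Finset.Ico k t) _ _ hcount
    rw [nsmul_eq_mul, Nat.card_Ico] at e1
    have e2 : ((t - k : ℕ) : ℝ) = (t : ℝ) - k := by
      rw [Nat.cast_sub (by omega)]
    rw [e2] at e1
    calc _ = ((t : ℝ) - k) * (((rd G x : ℝ) - ε * n) * ((mu k - ε) * n) ^ (t - 2)) := by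
          ring
      _ ≤ _ := e1
  refine hsum.trans ?_
  have hbi : ∑ p ∈ Finset.Ico k t, (univ.filter (fun f : Fin t ↪ Fin n =>
        (∀ u v, (Pg k t gg).Adj u v → G.Adj (f u) (f v)) ∧
        ∀ q : Fin t, q.val = p → f q = x)).card ≤ cx (Pg k t gg) G x := by
    rw [← Finset.card_biUnion]
    · unfold cx
      apply Finset.card_le_card
      intro f hf
      rw [Finset.mem_biUnion] at hf
      obtain ⟨p, hp, hf⟩ := hf
      rw [Finset.mem_Ico] at hp
      rw [Finset.mem_filter] at hf ⊢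
      refine ⟨Finset.mem_univ _, Or.inl hf.2.1, ⟨p, by omega⟩, hf.2.2 ⟨p, by omega⟩ rfl⟩
    · intro p hp p' hp' hne
      rw [Finset.mem_coe, Finset.mem_Ico] at hp hp'
      rw [Function.onFun, Finset.disjoint_left]
      intro f hf hf'
      rw [Finset.mem_filter] at hf hf'
      have e1 := hf.2.2 ⟨p, by omega⟩ rfl
      have e2 := hf'.2.2 ⟨p', by omega⟩ rfl
      have e3 := f.injective (e1.trans e2.symm)
      exact hne (congrArg Fin.val e3)
  have : ((∑ p ∈ Finset.Ico k t, (univ.filter (fun f : Fin t ↪ Fin n =>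
        (∀ u v, (Pg k t gg).Adj u v → G.Adj (f u) (f v)) ∧
        ∀ q : Fin t, q.val = p → f q = x)).card : ℕ) : ℝ) ≤ (cx (Pg k t gg) G x : ℝ) := by
    exact_mod_cast hbi
  push_cast at this
  exact this

end Pool.Agent.N412.PE
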