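import Pool.Agent.N412.PE.Stm
import Pool.Agent.N412.LB.Comp

/-!
Project PEND (helper412), COMP: comparison with the completed colouring.
-/

set_option autoImplicit false

open Finset

namespace Pool.Agent.N412.PE

open Pool.Agent.W297.LP Pool.Agent.N412.LB

namespace CompEAux

open Pool.Agent.N412.LB.CompAux (mu_pos mu_le)

theorem mc_eq (k t n : ℕ) (g : Fin t → Fin t) (hk : 4 ≤ k) (hkt : k < t)
    (G : SimpleGraph (Fin n)) :
    MC (Pg k t g) G = ER (Pg k t g) G + ER (Pg k t g) Gᶜ := by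
  classical
  unfold MC ER
  rw [Finset.filter_or]
  have hd : Disjoint
      ((univ : Finset (Fin t ↪ Fin n)).filter
        (fun f => ∀ u v, (Pg k t g).Adj u v → G.Adj (f u) (f v)))
      ((univ : Finset (Fin t ↪ Fin n)).filter
        (fun f => ∀ u v, (Pg k t g).Adj u v → Gᶜ.Adj (f u) (f v))) := by
    rw [Finset.disjoint_left]
    intro f h1 h2
    rw [mem_filter] at h1 h2
    have h3 : (Pg k t g).Adj ⟨0, by omega⟩ ⟨1, by omega⟩ := by
      refine ⟨?_, Or.inl ⟨?_, ?_⟩⟩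
      · intro h
        simp at h
      · change 0 < k; omega
      · change 1 < k; omega
    have h4 := h1.2 _ _ h3
    have h5 := h2.2 _ _ h3
    rw [SimpleGraph.compl_adj] at h5
    exact h5.2 h4
  have h6 := Finset.card_union_of_disjoint hd
  convert h6

theorem pw : ∀ r : ℕ, 20 ≤ r → 16 * (r : ℝ) ^ 2 < (5 / 3 : ℝ) ^ r := by
  intro r hr
  induction r, hr using Nat.le_induction with
  | base => norm_num
  | succ r hr ih =>
    have h1 : (20 : ℝ) ≤ r := by exact_mod_cast hr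
    have h2 : (5 / 3 : ℝ) ^ (r + 1) = (5 / 3) ^ r * (5 / 3) := pow_succ _ _
    rw [h2]
    push_cast
    have h3 : 3 * ((r : ℝ) + 1) ^ 2 ≤ 5 * (r : ℝ) ^ 2 := by
      nlinarith [mul_nonneg (sub_nonneg.2 h1) (sub_nonneg.2 h1)]
    linarith

theorem pw2 (k s : ℕ) (hk : 4 ≤ k) (hs : 1000 * k ^ 3 ≤ s) :
    ((s + k : ℕ) : ℝ) ^ 2 * (21 / 10) ^ (k - 2) < (5 / 3) ^ s := by
  have hk3 : k ≤ k ^ 3 := Nat.le_self_pow (by norm_num) k
  have h1 : 1000 * k ≤ s := le_trans (Nat.mul_le_mul_left _ hk3) hs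
  obtain ⟨r, rfl⟩ : ∃ r, s = r + 2 * k := ⟨s - 2 * k, by omega⟩
  have hr : 20 ≤ r := by omega
  have h2 := pw r hr
  have h3 : (21 / 10 : ℝ) ^ (k - 2) ≤ (5 / 3) ^ (2 * k) := by
    calc (21 / 10 : ℝ) ^ (k - 2) ≤ (25 / 9) ^ (k - 2) :=
          pow_le_pow_left₀ (by norm_num) (by norm_num) _
      _ ≤ (25 / 9) ^ k := pow_le_pow_right₀ (by norm_num) (by omega)
      _ = (5 / 3) ^ (2 * k) := by
          rw [pow_mul]
          norm_num
  have h4 : ((r + 2 * k + k : ℕ) : ℝ) ^ 2 ≤ 16 * (r : ℝ) ^ 2 := by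
    have h5 : ((r + 2 * k + k : ℕ) : ℝ) ≤ 4 * r := by
      have : r + 2 * k + k ≤ 4 * r := by omega
      exact_mod_cast this
    calc ((r + 2 * k + k : ℕ) : ℝ) ^ 2 ≤ (4 * (r : ℝ)) ^ 2 :=
          pow_le_pow_left₀ (Nat.cast_nonneg _) h5 2
      _ = 16 * (r : ℝ) ^ 2 := by ring
  rw [pow_add]
  calc ((r + 2 * k + k : ℕ) : ℝ) ^ 2 * (21 / 10) ^ (k - 2)
      ≤ (16 * (r : ℝ) ^ 2) * (5 / 3) ^ (2 * k) :=
        mul_le_mul h4 h3 (by positivity) (by positivity)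
    _ < (5 / 3) ^ r * (5 / 3) ^ (2 * k) := mul_lt_mul_of_pos_right h2 (by positivity)

theorem const_lt (k t : ℕ) (hk : 4 ≤ k) (ht : 1000 * k ^ 3 + k ≤ t) :
    (t : ℝ) ^ 2 * (21 / 20 * mu k) ^ (t - 2) <
      (mu k / 2) ^ (k - 2) * (1 - 5 / 4 * mu k) ^ (t - k) := by
  have hm := mu_pos k hk
  have hm' := mu_le k hk
  obtain ⟨s, rfl⟩ : ∃ s, t = s + k := ⟨t - k, by omega⟩
  have hs : 1000 * k ^ 3 ≤ s := by omega
  have e1 : s + k - 2 = s + (k - 2) := by omega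
  have e2 : s + k - k = s := by omega
  rw [e1, e2, pow_add (21 / 20 * mu k)]
  have hq : (0 : ℝ) < 1 - 5 / 4 * mu k := by linarith
  have h5 : (21 / 20 * mu k) ^ s ≤ (3 / 5 * (1 - 5 / 4 * mu k)) ^ s :=
    pow_le_pow_left₀ (by positivity) (by linarith) s
  rw [mul_pow (3 / 5 : ℝ)] at h5
  have h6 : (21 / 20 * mu k) ^ (k - 2) = (21 / 10) ^ (k - 2) * (mu k / 2) ^ (k - 2) := by
    rw [← mul_pow]; congr 1; ring
  rw [h6]
  have h7 : ((s + k : ℕ) : ℝ) ^ 2 * (3 / 5) ^ s * (21 / 10) ^ (k - 2) < 1 := by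
    have h8 := pw2 k s hk hs
    have h9 : (0 : ℝ) < (3 / 5) ^ s := by positivity
    calc ((s + k : ℕ) : ℝ) ^ 2 * (3 / 5) ^ s * (21 / 10) ^ (k - 2)
        = (((s + k : ℕ) : ℝ) ^ 2 * (21 / 10) ^ (k - 2)) * (3 / 5) ^ s := by ring
      _ < (5 / 3) ^ s * (3 / 5) ^ s := mul_lt_mul_of_pos_right h8 h9
      _ = 1 := by
          rw [← mul_pow]
          norm_num
  have h12 : (0 : ℝ) < (mu k / 2) ^ (k - 2) * (1 - 5 / 4 * mu k) ^ s := by positivity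
  calc ((s + k : ℕ) : ℝ) ^ 2 * ((21 / 20 * mu k) ^ s * ((21 / 10) ^ (k - 2) * (mu k / 2) ^ (k - 2)))
      ≤ ((s + k : ℕ) : ℝ) ^ 2 * (((3 / 5) ^ s * (1 - 5 / 4 * mu k) ^ s) *
          ((21 / 10) ^ (k - 2) * (mu k / 2) ^ (k - 2))) := by
        apply mul_le_mul_of_nonneg_left _ (by positivity)
        apply mul_le_mul_of_nonneg_right h5 (by positivity)
    _ = (((s + k : ℕ) : ℝ) ^ 2 * (3 / 5) ^ s * (21 / 10) ^ (k - 2)) *
          ((mu k / 2) ^ (k - 2) * (1 - 5 / 4 * mu k) ^ s) := by ring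
    _ < 1 * ((mu k / 2) ^ (k - 2) * (1 - 5 / 4 * mu k) ^ s) := mul_lt_mul_of_pos_right h7 h12
    _ = (mu k / 2) ^ (k - 2) * (1 - 5 / 4 * mu k) ^ s := one_mul _

end CompEAux

open CompEAux in
theorem compE (h1 : SCompRE) (h2 : SCompBE) : SCompE := by
  intro k t g hk hg ht
  have hkt : k < t := by
    have : 1 ≤ k ^ 3 := Nat.one_le_pow _ _ (by omega)
    omega
  obtain ⟨N1, hN1⟩ := h1 k t g hk hkt hg
  obtain ⟨N2, hN2⟩ := h2 k t g hk hkt hg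
  have hc := const_lt k t hk ht
  refine ⟨max (max N1 N2) 1, fun n hn G P hG => ?_⟩
  have hn1 : N1 ≤ n := le_trans (le_trans (le_max_left _ _) (le_max_left _ _)) hn
  have hn2 : N2 ≤ n := le_trans (le_trans (le_max_right _ _) (le_max_left _ _)) hn
  have hn3 : 1 ≤ n := le_trans (le_max_right _ _) hn
  have e1 := hN1 n hn1 G P hG
  have e2 := hN2 n hn2 G P hG
  have e3 : (MC (Pg k t g) G : ℝ) = ER (Pg k t g) G + ER (Pg k t g) Gᶜ := by
    rw [mc_eq k t n g hk hkt G]; push_cast; ring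
  have hnp : (0 : ℝ) < (n : ℝ) ^ (t - 2) := by
    have : (0 : ℝ) < n := by exact_mod_cast hn3
    positivity
  have e4 : (21 / 20 * mu k * (n : ℝ)) ^ (t - 2) = (21 / 20 * mu k) ^ (t - 2) * (n : ℝ) ^ (t - 2) :=
    mul_pow _ _ _
  have e5 : (mu k / 2 * (n : ℝ)) ^ (k - 2) * ((1 - 5 / 4 * mu k) * (n : ℝ)) ^ (t - k) =
      (mu k / 2) ^ (k - 2) * (1 - 5 / 4 * mu k) ^ (t - k) * (n : ℝ) ^ (t - 2) := by
    have : t - 2 = (k - 2) + (t - k) := by omega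
    rw [this, mul_pow, mul_pow, pow_add]; ring
  rw [e4] at e1
  rw [mul_assoc, e5] at e2
  have hna : (0 : ℝ) ≤ na G P := Nat.cast_nonneg _
  have hnb : (0 : ℝ) ≤ nb G P := Nat.cast_nonneg _
  have e6 : (SD t P : ℝ) + nb G P + na G P * (((mu k / 2) ^ (k - 2) * (1 - 5 / 4 * mu k) ^ (t - k) -
      (t : ℝ) ^ 2 * (21 / 20 * mu k) ^ (t - 2)) * (n : ℝ) ^ (t - 2)) ≤ MC (Pg k t g) G := by
    rw [e3]
    nlinarith [e1, e2]
  have e7 : 0 < ((mu k / 2) ^ (k - 2) * (1 - 5 / 4 * mu k) ^ (t - k) -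
      (t : ℝ) ^ 2 * (21 / 20 * mu k) ^ (t - 2)) * (n : ℝ) ^ (t - 2) :=
    mul_pos (sub_pos.2 hc) hnp
  generalize ((mu k / 2) ^ (k - 2) * (1 - 5 / 4 * mu k) ^ (t - k) -
      (t : ℝ) ^ 2 * (21 / 20 * mu k) ^ (t - 2)) * (n : ℝ) ^ (t - 2) = c at e6 e7
  have e8 : 0 ≤ (na G P : ℝ) * c := mul_nonneg hna e7.le
  refine ⟨?_, fun hle => ?_⟩
  · have : (SD t P : ℝ) ≤ MC (Pg k t g) G := by linarith
    exact_mod_cast this
  · have hle' : (MC (Pg k t g) G : ℝ) ≤ SD t P := by exact_mod_cast hle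
    have f1 : (nb G P : ℝ) = 0 := by linarith
    have f2 : (na G P : ℝ) * c = 0 := by linarith
    have f3 : (na G P : ℝ) = 0 := by
      rcases mul_eq_zero.1 f2 with h | h
      · exact h
      · exact absurd h e7.ne'
    exact Pool.Agent.N412.LB.CompAux.of_zero G P (by exact_mod_cast f3) (by exact_mod_cast f1)

end Pool.Agent.N412.PE
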