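import Pool.Agent.N412.PE.Stm
import Pool.Agent.N412.LB.CompR

/-!
Project PEND (helper412), problem MP_333fa2_co: COMPR, red copies in a structured colouring.
-/

set_option autoImplicit false

open Finset

namespace Pool.Agent.N412.PE

open Pool.Agent.W297.LP Pool.Agent.N412.LB

namespace CompREAux

/-- the greedy construction -/
theorem greedy {k n : ℕ} (t : ℕ) (hk : 4 ≤ k) (hkt : k < t) (g : Fin t → Fin t) (hg : Att k t g)
    (G : SimpleGraph (Fin n)) (P : Fin n → Fin (k - 1)) (hS : Str k G P)
    (hn : (2 * t * (k - 1) : ℝ) < n) (a b : Fin n) (hP : P a ≠ P b) (hab : G.Adj a b)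
    (c0 l : Fin t) (hl : l.val = t - 1) (hc0 : g l = c0) : ∀ m : ℕ, m ≤ t - 1 →
    ∃ h : Fin t → Fin n, h l = b ∧ h c0 = a ∧
      (∀ u : Fin t, (u.val < m ∨ u = c0) → P (h u) = P a) ∧
      (∀ u v : Fin t, (u.val < m ∨ u = c0 ∨ u = l) → (v.val < m ∨ v = c0 ∨ v = l) → u ≠ v →
        h u ≠ h v) ∧
      ∀ u v : Fin t, (u.val < m ∨ u = c0 ∨ u = l) → (v.val < m ∨ v = c0 ∨ v = l) →
        (Pg k t g).Adj u v → G.Adj (h u) (h v) := by
  classical
  have hlk : k ≤ l.val := by omega
  have hc0k : c0.val < k := by rw [← hc0]; exact hg l hlk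
  have hcl : c0 ≠ l := by
    intro h
    rw [h] at hc0k
    omega
  intro m
  induction m with
  | zero =>
    intro _
    refine ⟨fun u => if u = l then b else a, if_pos rfl, if_neg hcl, ?_, ?_, ?_⟩
    · rintro u (hu | rfl)
      · omega
      · show P (if u = l then b else a) = P a
        rw [if_neg hcl]
    · rintro u v (hu | rfl | rfl) (hv | rfl | rfl) huv
      · omega
      · omega
      · omega
      · omega
      · exact absurd rfl huv
      · show (if u = v then b else a) ≠ (if v = v then b else a)
        rw [if_neg hcl, if_pos rfl]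
        exact hab.ne
      · omega
      · show (if u = u then b else a) ≠ (if v = u then b else a)
        rw [if_neg hcl, if_pos rfl]
        exact hab.ne.symm
      · exact absurd rfl huv
    · rintro u v (hu | rfl | rfl) (hv | rfl | rfl) huv
      · omega
      · omega
      · omega
      · omega
      · exact absurd rfl huv.ne
      · show G.Adj (if u = v then b else a) (if v = v then b else a)
        rw [if_neg hcl, if_pos rfl]
        exact hab
      · omega
      · show G.Adj (if u = u then b else a) (if v = u then b else a)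
        rw [if_neg hcl, if_pos rfl]
        exact hab.symm
      · exact absurd rfl huv.ne
  | succ m ih =>
    intro hm
    obtain ⟨h, h1, h2, h3, h4, h5⟩ := ih (by omega)
    obtain ⟨w, hw⟩ : ∃ w : Fin t, w.val = m := ⟨⟨m, by omega⟩, rfl⟩
    have hwl : w ≠ l := by
      intro h
      rw [h, hl] at hw
      omega
    by_cases hwc : w = c0
    · have hm1 : ∀ u : Fin t, (u.val < m + 1 ∨ u = c0) → (u.val < m ∨ u = c0) := by
        rintro u (hu | hu)
        · by_cases h' : u.val = m
          · right
            rw [← hwc]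
            exact Fin.ext (h'.trans hw.symm)
          · left
            omega
        · exact Or.inr hu
      have hm2 : ∀ u : Fin t, (u.val < m + 1 ∨ u = c0 ∨ u = l) → (u.val < m ∨ u = c0 ∨ u = l) := by
        rintro u (hu | hu | hu)
        · rcases hm1 u (Or.inl hu) with h' | h'
          · exact Or.inl h'
          · exact Or.inr (Or.inl h')
        · exact Or.inr (Or.inl hu)
        · exact Or.inr (Or.inr hu)
      exact ⟨h, h1, h2, fun u hu => h3 u (hm1 u hu),
        fun u v hu hv => h4 u v (hm2 u hu) (hm2 v hv),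
        fun u v hu hv => h5 u v (hm2 u hu) (hm2 v hv)⟩
    · obtain ⟨c, hc1, hc2, hc3⟩ := LB.CompRAux.step t hk G P hS hn (univ.image h)
        ((univ.filter (fun u : Fin t => u.val < k ∧ (u.val < m ∨ u = c0) ∧
          (m < k ∨ g w = u))).image h)
        (Finset.card_image_le.trans (by rw [Finset.card_univ, Fintype.card_fin]))
        (Finset.card_image_le.trans (by
          have h6 : ((univ.filter (fun u : Fin t => u.val < k ∧ (u.val < m ∨ u = c0) ∧
              (m < k ∨ g w = u))).card) ≤ (Finset.range k).card := by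
            refine Finset.card_le_card_of_injOn (fun u => u.val) ?_ ?_
            · intro u hu
              rw [Finset.mem_coe, Finset.mem_filter] at hu
              rw [Finset.mem_coe, Finset.mem_range]
              exact hu.2.1
            · intro u _ v _ huv
              exact Fin.ext huv
          rwa [Finset.card_range] at h6)) (P a) (by
          intro v hv
          obtain ⟨u, hu, rfl⟩ := Finset.mem_image.1 hv
          exact h3 u (Finset.mem_filter.1 hu).2.2.1)
      have hcne : ∀ u, h u ≠ c := by
        rintro u rfl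
        exact hc2 (Finset.mem_image_of_mem _ (Finset.mem_univ _))
      have hne : ∀ u, u ≠ w → Function.update h w c u = h u := fun u hu =>
        Function.update_of_ne hu _ _
      have hlow : ∀ u : Fin t, u ≠ w → (u.val < m + 1 ∨ u = c0 ∨ u = l) →
          (u.val < m ∨ u = c0 ∨ u = l) := by
        rintro u huw (hu | hu)
        · left
          have : u.val ≠ m := fun h' => huw (Fin.ext (h'.trans hw.symm))
          omega
        · exact Or.inr hu
      have hadj : ∀ u : Fin t, u ≠ w → (u.val < m ∨ u = c0 ∨ u = l) → (Pg k t g).Adj u w →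
          G.Adj (h u) c := by
        intro u huw hu hadj
        refine hc3 (h u) (Finset.mem_image_of_mem _ (Finset.mem_filter.2
          ⟨Finset.mem_univ _, ?_⟩)) (hcne u)
        rcases hadj.2 with h' | h' | h'
        · refine ⟨h'.1, ?_, Or.inl (hw ▸ h'.2)⟩
          rcases hu with hu | hu | hu
          · exact Or.inl hu
          · exact Or.inr hu
          · rw [hu] at h'
            omega
        · have h6 := hg w h'.1
          rw [h'.2] at h6
          exact ⟨h6, Or.inl (by omega), Or.inr h'.2⟩
        · exfalso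
          have h6 := hg u h'.1
          rw [h'.2] at h6
          rcases hu with hu | hu | hu
          · omega
          · rw [hu] at h'
            omega
          · rw [hu, hc0] at h'
            exact hwc h'.2.symm
      refine ⟨Function.update h w c, ?_, ?_, ?_, ?_, ?_⟩
      · rw [hne _ (Ne.symm hwl), h1]
      · rw [hne _ (Ne.symm hwc), h2]
      · intro u hu
        by_cases huw : u = w
        · rw [huw, Function.update_self, hc1]
        · rw [hne u huw]
          apply h3
          rcases hu with hu | hu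
          · left
            have : u.val ≠ m := fun h' => huw (Fin.ext (h'.trans hw.symm))
            omega
          · exact Or.inr hu
      · intro u v hu hv huv
        by_cases huw : u = w
        · subst huw
          rw [Function.update_self, hne v (Ne.symm huv)]
          exact (hcne v).symm
        · by_cases hvw : v = w
          · subst hvw
            rw [Function.update_self, hne u huw]
            exact hcne u
          · rw [hne u huw, hne v hvw]
            exact h4 u v (hlow u huw hu) (hlow v hvw hv) huv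
      · intro u v hu hv huv
        by_cases huw : u = w
        · subst huw
          rw [Function.update_self, hne v huv.ne.symm]
          exact (hadj v huv.ne.symm (hlow v huv.ne.symm hv) huv.symm).symm
        · by_cases hvw : v = w
          · subst hvw
            rw [Function.update_self, hne u huw]
            exact hadj u huw (hlow u huw hu) huv
          · rw [hne u huw, hne v hvw]
            exact h5 u v (hlow u huw hu) (hlow v hvw hv) huv

/-- a red copy through a given red pair between two parts -/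
theorem exists_copy {k n : ℕ} (t : ℕ) (hk : 4 ≤ k) (hkt : k < t) (g : Fin t → Fin t)
    (hg : Att k t g) (G : SimpleGraph (Fin n))
    (P : Fin n → Fin (k - 1)) (hS : Str k G P) (hn : (2 * t * (k - 1) : ℝ) < n) (a b : Fin n)
    (hP : P a ≠ P b) (hab : G.Adj a b) :
    ∃ f : Fin t ↪ Fin n, (∀ u v, (Pg k t g).Adj u v → G.Adj (f u) (f v)) ∧
      f (g ⟨t - 1, by omega⟩) = a ∧ f ⟨t - 1, by omega⟩ = b := by
  obtain ⟨h, h1, h2, -, h4, h5⟩ := greedy t hk hkt g hg G P hS hn a b hP hab
    (g ⟨t - 1, by omega⟩) ⟨t - 1, by omega⟩ rfl rfl (t - 1) le_rfl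
  have hall : ∀ u : Fin t, (u.val < t - 1 ∨ u = g ⟨t - 1, by omega⟩ ∨ u = ⟨t - 1, by omega⟩) := by
    intro u
    by_cases h : u.val < t - 1
    · exact Or.inl h
    · right
      right
      apply Fin.ext
      show u.val = t - 1
      omega
  refine ⟨⟨h, fun u v huv => ?_⟩, fun u v huv => h5 u v (hall u) (hall v) huv, h2, h1⟩
  by_contra hne
  exact h4 u v (hall u) (hall v) hne huv

open Classical in
/-- red copies which are not inside one part -/
theorem card_B {k n : ℕ} (t : ℕ) (hk : 4 ≤ k) (hkt : k < t) (g : Fin t → Fin t)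
    (hg : Att k t g) (G : SimpleGraph (Fin n))
    (P : Fin n → Fin (k - 1)) (hS : Str k G P) (hn : (2 * t * (k - 1) : ℝ) < n) :
    nb G P ≤ ((univ : Finset (Fin t ↪ Fin n)).filter (fun f => (¬ ∀ u v, P (f u) = P (f v)) ∧
      ∀ u v, (Pg k t g).Adj u v → G.Adj (f u) (f v))).card := by
  have hsub : (univ.filter (fun p : Fin n × Fin n => P p.1 ≠ P p.2 ∧ G.Adj p.1 p.2)) ⊆
      ((univ : Finset (Fin t ↪ Fin n)).filter (fun f => (¬ ∀ u v, P (f u) = P (f v)) ∧
      ∀ u v, (Pg k t g).Adj u v → G.Adj (f u) (f v))).image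
        (fun f => (f (g ⟨t - 1, by omega⟩), f ⟨t - 1, by omega⟩)) := by
    rintro ⟨a, b⟩ hp
    obtain ⟨-, hP, hab⟩ := Finset.mem_filter.1 hp
    obtain ⟨f, hf1, hf2, hf3⟩ := exists_copy t hk hkt g hg G P hS hn a b hP hab
    refine Finset.mem_image.2 ⟨f, Finset.mem_filter.2 ⟨Finset.mem_univ _, ?_, hf1⟩, ?_⟩
    · intro h
      have := h (g ⟨t - 1, by omega⟩) ⟨t - 1, by omega⟩
      rw [hf2, hf3] at this
      exact hP this
    · rw [hf2, hf3]
  exact (Finset.card_le_card hsub).trans Finset.card_image_le

end CompREAux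

open LB.CompRAux CompREAux in
theorem compRE : SCompRE := by
  classical
  intro k t g hk hkt hg
  refine ⟨2 * t * k + 1, fun n hn G P hS => ?_⟩
  have hk4 : (4 : ℝ) ≤ k := by exact_mod_cast hk
  have hmu : 0 < mu k := by
    unfold mu
    have : (0 : ℝ) < (k : ℝ) - 1 := by linarith
    positivity
  have hn' : (2 * t * (k - 1) : ℝ) < n := by
    have h1 : (2 * t * k + 1 : ℝ) ≤ n := by exact_mod_cast hn
    have h2 : (0 : ℝ) ≤ t := Nat.cast_nonneg t
    nlinarith
  obtain ⟨B, hB⟩ : ∃ B : ℝ, B = (21 / 20 * mu k) * n := ⟨_, rfl⟩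
  have hB0 : 0 ≤ B := by rw [hB]; positivity
  have hM : ∀ i, (pt P i).card ≤ ⌊B⌋₊ := by
    intro i
    apply Nat.le_floor
    have h1 := (abs_le.1 (hS.1 i)).2
    rw [hB]
    linarith
  have h1 := card_A (by omega : 0 < t) P
  have h2 := card_AB (Pg k t g) G P ⌊B⌋₊ hM
  have h3 := card_B t hk hkt g hg G P hS hn'
  have h4 : (((univ : Finset (Fin t ↪ Fin n)).filter (fun f => ∀ u v, P (f u) = P (f v))).card) +
      ((univ : Finset (Fin t ↪ Fin n)).filter (fun f => (¬ ∀ u v, P (f u) = P (f v)) ∧
        ∀ u v, (Pg k t g).Adj u v → G.Adj (f u) (f v))).card =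
      ER (Pg k t g) G +
      ((univ : Finset (Fin t ↪ Fin n)).filter (fun f => (∀ u v, P (f u) = P (f v)) ∧
        ¬ ∀ u v, (Pg k t g).Adj u v → G.Adj (f u) (f v))).card := by
    unfold ER
    rw [← Finset.card_filter_add_card_filter_not (s := (univ : Finset (Fin t ↪ Fin n)).filter
      (fun f => ∀ u v, P (f u) = P (f v))) (fun f => ∀ u v, (Pg k t g).Adj u v → G.Adj (f u) (f v)),
      ← Finset.card_filter_add_card_filter_not (s := (univ : Finset (Fin t ↪ Fin n)).filter
      (fun f => ∀ u v, (Pg k t g).Adj u v → G.Adj (f u) (f v))) (fun f => ∀ u v, P (f u) = P (f v)),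
      Finset.filter_filter, Finset.filter_filter, Finset.filter_filter, Finset.filter_filter]
    have e1 : ((univ : Finset (Fin t ↪ Fin n)).filter (fun f => (∀ u v, P (f u) = P (f v)) ∧
        ∀ u v, (Pg k t g).Adj u v → G.Adj (f u) (f v))) =
        ((univ : Finset (Fin t ↪ Fin n)).filter (fun f =>
        (∀ u v, (Pg k t g).Adj u v → G.Adj (f u) (f v)) ∧ ∀ u v, P (f u) = P (f v))) :=
      Finset.filter_congr fun f _ => and_comm
    have e2 : ((univ : Finset (Fin t ↪ Fin n)).filter (fun f => (¬ ∀ u v, P (f u) = P (f v)) ∧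
        ∀ u v, (Pg k t g).Adj u v → G.Adj (f u) (f v))) =
        ((univ : Finset (Fin t ↪ Fin n)).filter (fun f =>
        (∀ u v, (Pg k t g).Adj u v → G.Adj (f u) (f v)) ∧ ¬ ∀ u v, P (f u) = P (f v))) :=
      Finset.filter_congr fun f _ => and_comm
    rw [e1, e2]
    omega
  have h5 : SD t P + nb G P ≤ ER (Pg k t g) G + t ^ 2 * na G P * ⌊B⌋₊ ^ (t - 2) := by
    omega
  have h6 : ((SD t P : ℕ) : ℝ) + ((nb G P : ℕ) : ℝ) ≤
      (ER (Pg k t g) G : ℝ) + (t : ℝ) ^ 2 * na G P * (⌊B⌋₊ : ℝ) ^ (t - 2) := by
    exact_mod_cast h5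
  have h7 : (⌊B⌋₊ : ℝ) ^ (t - 2) ≤ B ^ (t - 2) :=
    pow_le_pow_left₀ (Nat.cast_nonneg _) (Nat.floor_le hB0) _
  have h8 : (t : ℝ) ^ 2 * na G P * (⌊B⌋₊ : ℝ) ^ (t - 2) ≤
      (t : ℝ) ^ 2 * na G P * B ^ (t - 2) :=
    mul_le_mul_of_nonneg_left h7 (by positivity)
  rw [← hB]
  linarith

end Pool.Agent.N412.PE
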