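import Pool.Agent.N412.PE.Stm
import Pool.Agent.N412.LB.CntB
import Pool.Agent.W28.LP.Cost
import Pool.Agent.W315.LP.Glue

/-!
Project PEND (helper412), part COST (helper865): a partition which is not the Turan partition costs
blue cliques with pendant edges; explicit constants.
-/

set_option autoImplicit false

open Finset

namespace Pool.Agent.N412.PE

open Pool.Agent.W297.LP Pool.Agent.N412.LB Pool.Agent.W28.LP

namespace CostEAux

open Classical in
/-- greedy choice of blue cliques in a box -/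
theorem box_greedy {V : Type} [Fintype V] {K : ℕ} (W : V → V → ℝ) (hW : Ker W)
    (B : Fin K → Finset V) (δ c : Fin K → ℝ) (hc : ∀ r, 0 ≤ c r) (hδ : ∀ r, 0 ≤ δ r)
    (h1 : ∀ j r, j ≠ r → ∀ z ∈ B j, ∑ y ∈ B r, W z y ≤ δ r)
    (h2 : ∀ r, c r + (K : ℝ) * δ r ≤ ((B r).card : ℝ)) :
    ∏ r, c r ≤ (((Fintype.piFinset B).filter
        (fun z => ∀ j l, j ≠ l → co W (z j) (z l) = 1)).card : ℝ) := by
  let Good : (m : ℕ) → (Fin m → V) → Prop := fun m f =>
    (∀ (i : Fin m) (h : i.val < K), f i ∈ B ⟨i.val, h⟩) ∧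
      ∀ i j : Fin m, i ≠ j → co W (f i) (f j) = 1
  let c' : ℕ → ℝ := fun m => if h : m < K then c ⟨m, h⟩ else 1
  have hc' : ∀ m, 0 ≤ c' m := by
    intro m
    simp only [c']
    split_ifs with h
    · exact hc _
    · exact zero_le_one
  have hg := CntBAux.greedy Good c' hc' K ?_ ?_ K le_rfl
  · have hp : ∏ i ∈ range K, c' i = ∏ r, c r := by
      rw [Finset.prod_range]
      apply Finset.prod_congr rfl
      intro i _
      simp [c']
    rw [hp] at hg
    have : (univ.filter fun f : Fin K → V => Good K f) ⊆ (Fintype.piFinset B).filter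
        (fun z => ∀ j l, j ≠ l → co W (z j) (z l) = 1) := by
      intro f hf
      rw [mem_filter] at hf
      rw [mem_filter, Fintype.mem_piFinset]
      exact ⟨fun r => hf.2.1 r r.isLt, hf.2.2⟩
    have h3 : (((univ.filter fun f : Fin K → V => Good K f).card : ℕ) : ℝ) ≤
        (((Fintype.piFinset B).filter
          (fun z => ∀ j l, j ≠ l → co W (z j) (z l) = 1)).card : ℝ) :=
      Nat.cast_le.2 (card_le_card this)
    have h4 : ∏ r, c r ≤ (((univ.filter fun f : Fin K → V => Good K f).card : ℕ) : ℝ) := by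
      convert hg
    exact le_trans h4 h3
  · exact ⟨fun i => i.elim0, fun i => i.elim0⟩
  · intro m hm g hg
    have hcm : c' m = c ⟨m, hm⟩ := by simp [c', hm]
    rw [hcm]
    set r : Fin K := ⟨m, hm⟩ with hr
    set S := univ.filter fun v => Good (m + 1) (Fin.snoc (α := fun _ => V) g v) with hS
    let C : Fin m → Finset V := fun i => (B r).filter (fun v => W (g i) v = 1)
    have hCc : ∀ i : Fin m, ((C i).card : ℝ) ≤ δ r := by
      intro i
      have h3 : ((C i).card : ℝ) = ∑ y ∈ B r, W (g i) y := card_one (B r) (W (g i)) (hW.zo (g i))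
      rw [h3]
      have hiK : i.val < K := lt_trans i.isLt hm
      apply h1 ⟨i.val, hiK⟩ r
      · intro h
        have := congrArg Fin.val h
        simp only [hr] at this
        exact absurd this (ne_of_lt i.isLt)
      · exact hg.1 i hiK
    have hCU : ((univ.biUnion C).card : ℝ) ≤ (K : ℝ) * δ r := by
      calc ((univ.biUnion C).card : ℝ) ≤ ∑ i, ((C i).card : ℝ) := by
            exact_mod_cast card_biUnion_le
        _ ≤ ∑ _i : Fin m, δ r := sum_le_sum fun i _ => hCc i
        _ = (m : ℝ) * δ r := by simp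
        _ ≤ (K : ℝ) * δ r := by
            apply mul_le_mul_of_nonneg_right _ (hδ r)
            exact_mod_cast hm.le
    have hsub : B r \ univ.biUnion C ⊆ S := by
      intro v hv
      rw [mem_sdiff, mem_biUnion] at hv
      obtain ⟨hv1, hv2⟩ := hv
      have hv3 : ∀ i : Fin m, co W (g i) v = 1 := by
        intro i
        rcases hW.zo (g i) v with h | h
        · simp [co, h]
        · exact absurd ⟨i, mem_univ _, by simp only [C, mem_filter]; exact ⟨hv1, h⟩⟩ hv2
      rw [hS, mem_filter]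
      refine ⟨mem_univ _, ?_, ?_⟩
      · intro i
        refine Fin.lastCases ?_ (fun i => ?_) i
        · intro _
          rw [Fin.snoc_last]
          exact hv1
        · intro h
          rw [Fin.snoc_castSucc]
          exact hg.1 i h
      · intro i j
        refine Fin.lastCases ?_ (fun i => ?_) i <;> refine Fin.lastCases ?_ (fun j => ?_) j
        · intro h; exact absurd rfl h
        · intro _; rw [Fin.snoc_last, Fin.snoc_castSucc, (co_ker hW).symm]; exact hv3 j
        · intro _; rw [Fin.snoc_last, Fin.snoc_castSucc]; exact hv3 i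
        · intro h
          rw [Fin.snoc_castSucc, Fin.snoc_castSucc]
          exact hg.2 i j (fun h' => h (by rw [h']))
    have hcard : ((B r).card : ℝ) ≤ (S.card : ℝ) + ((univ.biUnion C).card : ℝ) := by
      have h3 := card_le_card_sdiff_add_card (s := B r) (t := univ.biUnion C)
      have h4 := card_le_card hsub
      exact_mod_cast (by omega : (B r).card ≤ S.card + (univ.biUnion C).card)
    have h5 := h2 r
    have h6 : c r ≤ (S.card : ℝ) := by linarith
    convert h6

open Classical in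
/-- the vertices of the part `i` with few red neighbours in the other parts -/
noncomputable def gd {K : ℕ} {V : Type} [Fintype V] (W : V → V → ℝ) (s : ℝ)
    (Vi : Fin (K + 1 - 1) → Finset V) (i : Fin (K + 1 - 1)) : Finset V :=
  (Vi i).filter (fun y => ∀ j, j ≠ i → ∑ z ∈ Vi j, W y z ≤ s)

/-- almost all the vertices are good -/
theorem bad_le {K : ℕ} {e d : ℝ} {V : Type} [Fintype V] [DecidableEq V]
    {W : V → V → ℝ} (hW : Ker W) {Vi : Fin (K + 1 - 1) → Finset V} {A1 A2 : Finset V}
    (hn : 0 < Fintype.card V) (hT : Typ (K + 1) e d W Vi A1 A2) (s : ℝ) (hs : 0 < s)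
    (hd : 0 ≤ d) (i : Fin (K + 1 - 1)) :
    (((Vi i \ gd W (s * (Fintype.card V : ℝ)) Vi i).card : ℕ) : ℝ) ≤
      (K : ℝ) * (d / s) * (Fintype.card V : ℝ) := by
  classical
  set n : ℝ := (Fintype.card V : ℝ) with hn'
  have hn0 : 0 < n := by rw [hn']; exact_mod_cast hn
  let C : Fin (K + 1 - 1) → Finset V := fun j => if j = i then ∅ else
    (Vi i).filter (fun y => s * n < ∑ z ∈ Vi j, W y z)
  have hC : ∀ j, ((C j).card : ℝ) ≤ (d / s) * n := by
    intro j
    by_cases hj : j = i
    · simp only [C, if_pos hj, card_empty, Nat.cast_zero]; positivity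
    · have h1 := cross_le hW hn hT i j (Ne.symm hj) (C j) (Vi j)
        (by simp only [C, if_neg hj]; exact filter_subset _ _) (Subset.refl _)
      have h2 : ((C j).card : ℝ) * (s * n) ≤ ∑ a ∈ C j, ∑ b ∈ Vi j, W a b := by
        rw [← nsmul_eq_mul, ← sum_const]
        apply sum_le_sum
        intro a ha
        simp only [C, if_neg hj, mem_filter] at ha
        exact ha.2.le
      have h3 : ((C j).card : ℝ) * (s * n) ≤ d * n ^ 2 := h2.trans h1
      have h4 : ((C j).card : ℝ) * s ≤ d * n := by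
        have h5 : (((C j).card : ℝ) * s) * n ≤ (d * n) * n := by nlinarith
        exact le_of_mul_le_mul_right h5 hn0
      rw [div_mul_eq_mul_div, le_div_iff₀ hs]
      exact h4
  have hsub : Vi i \ gd W (s * n) Vi i ⊆ univ.biUnion C := by
    intro y hy
    rw [mem_sdiff] at hy
    unfold gd at hy
    rw [mem_filter, not_and] at hy
    have h1 := hy.2 hy.1
    push Not at h1
    obtain ⟨j, hj, h1⟩ := h1
    rw [mem_biUnion]
    refine ⟨j, mem_univ _, ?_⟩
    simp only [C, if_neg hj, mem_filter]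
    exact ⟨hy.1, h1⟩
  calc (((Vi i \ gd W (s * n) Vi i).card : ℕ) : ℝ) ≤ ((univ.biUnion C).card : ℝ) := by
        exact_mod_cast card_le_card hsub
    _ ≤ ∑ j, ((C j).card : ℝ) := by exact_mod_cast card_biUnion_le
    _ ≤ ∑ _j : Fin (K + 1 - 1), (d / s) * n := sum_le_sum fun j _ => hC j
    _ = (K : ℝ) * (d / s) * n := by
        rw [sum_const, card_univ, Fintype.card_fin, nsmul_eq_mul, Nat.add_sub_cancel]
        ring

/-- case (2): the first vertex is in `A2` -/
theorem case2' {K : ℕ} {e d : ℝ} {V : Type} [Fintype V] [DecidableEq V]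
    {W : V → V → ℝ} (hW : Ker W) {Vi : Fin (K + 1 - 1) → Finset V} {A1 A2 : Finset V}
    (hn : 0 < Fintype.card V) (he0 : 0 < e) (hd0 : 0 < d)
    (hT : Typ (K + 1) e d W Vi A1 A2) (s : ℝ) (hs : 0 < s) (hs1 : (K : ℝ) * s ≤ e / 32)
    (hs2 : (K : ℝ) * (d / s) ≤ e / 16) (v : V) (hv : v ∈ A2) :
    (e / 8) ^ K * (Fintype.card V : ℝ) ^ K ≤ ((Gs (K := K) (co W) A1ᶜ v).card : ℝ) := by
  classical
  set n : ℝ := (Fintype.card V : ℝ) with hn'
  have hn0 : 0 < n := by rw [hn']; exact_mod_cast hn
  let B : Fin K → Finset V := fun r => (gd W (s * n) Vi r).filter (fun z => co W v z = 1)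
  have hgV : ∀ r : Fin K, gd W (s * n) Vi r ⊆ Vi r := fun r => filter_subset _ _
  have hBV : ∀ r, B r ⊆ Vi r := fun r => (filter_subset _ _).trans (hgV r)
  have hB : ∀ r, 3 * e / 16 * n ≤ ((B r).card : ℝ) := by
    intro r
    have h1 : ∑ z ∈ Vi r, co W v z ≤ ((B r).card : ℝ) +
        (((Vi r \ gd W (s * n) Vi r).card : ℕ) : ℝ) := by
      have h2 : ((B r).card : ℝ) = ∑ z ∈ gd W (s * n) Vi r, co W v z :=
        card_one (gd W (s * n) Vi r) (co W v) ((co_ker hW).zo v)
      rw [h2, ← sum_sdiff (hgV r), add_comm]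
      gcongr
      calc ∑ z ∈ Vi r \ gd W (s * n) Vi r, co W v z ≤ ∑ _z ∈ Vi r \ gd W (s * n) Vi r, (1 : ℝ) :=
            sum_le_sum fun z _ => ker_le (co_ker hW) v z
        _ = _ := by simp
    have h3 := hT.atyp v hv r
    have h4 := bad_le hW hn hT s hs hd0.le r
    rw [← hn'] at h3 h4
    have h5 : (K : ℝ) * (d / s) * n ≤ e / 16 * n := mul_le_mul_of_nonneg_right hs2 hn0.le
    linarith
  have h := box_greedy W hW B (fun _ => s * n) (fun _ => e / 8 * n) (fun _ => by positivity)
    (fun _ => by positivity)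
    (fun j r hjr z hz => by
      have h1 := (mem_filter.1 hz).1
      unfold gd at h1
      have h2 := (mem_filter.1 h1).2 r (Ne.symm hjr)
      refine le_trans ?_ h2
      exact sum_le_sum_of_subset_of_nonneg (hBV r) fun b _ _ => ker_nn hW z b)
    (fun r => by
      have h1 := hB r
      have h2 : (K : ℝ) * (s * n) ≤ e / 32 * n := by
        have := mul_le_mul_of_nonneg_right hs1 hn0.le
        linarith
      have h3 : 0 < e * n := by positivity
      nlinarith)
  rw [prod_const, card_univ, Fintype.card_fin, mul_pow] at h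
  refine le_trans h ?_
  have : (Fintype.piFinset B).filter (fun z => ∀ j l, j ≠ l → co W (z j) (z l) = 1) ⊆
      Gs (K := K) (co W) A1ᶜ v := by
    intro z hz
    simp only [Finset.mem_filter, Fintype.mem_piFinset] at hz
    simp only [Gs, Finset.mem_filter, Finset.mem_univ, true_and, Finset.mem_compl]
    refine ⟨fun j hj => ?_, fun j => (mem_filter.1 (hz.1 j)).2, hz.2⟩
    exact Finset.disjoint_left.mp (hT.d1 j) (hBV j (hz.1 j)) hj
  exact_mod_cast Finset.card_le_card this

/-- case (1): the first vertex and the `i`-th vertex are in the part `i` -/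
theorem case1' {K : ℕ} (hK : 3 ≤ K) {e d : ℝ} {V : Type} [Fintype V] [DecidableEq V]
    {W : V → V → ℝ} (hW : Ker W) {Vi : Fin (K + 1 - 1) → Finset V} {A1 A2 : Finset V}
    (hn : 0 < Fintype.card V) (he0 : 0 < e) (he : e ≤ mu (K + 1) ^ 2 / 16) (hd0 : 0 < d)
    (hd : d ≤ mu (K + 1) ^ 2 / 16)
    (hT : Typ (K + 1) e d W Vi A1 A2) (s : ℝ) (hs : 0 < s) (hs1 : (K : ℝ) * s ≤ e / 32)
    (hs2 : (K : ℝ) * (d / s) ≤ e / 16) (i : Fin K) (v y : V) (hv : v ∈ Vi i) (hy : y ∈ Vi i)
    (hvy : co W v y = 1) :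
    (e / 8) ^ K * (Fintype.card V : ℝ) ^ K ≤
      (((Gs (K := K) (co W) A1ᶜ v).filter (fun z => z i = y)).card : ℝ) *
        (Fintype.card V : ℝ) := by
  classical
  set n : ℝ := (Fintype.card V : ℝ) with hn'
  have hn0 : 0 < n := by rw [hn']; exact_mod_cast hn
  have hm : mu (K + 1) ≤ 1 / 3 := by
    unfold mu
    push_cast
    have : (3 : ℝ) ≤ K := by exact_mod_cast hK
    rw [add_sub_cancel_right]
    exact one_div_le_one_div_of_le (by norm_num) this
  have hm0 : 0 < mu (K + 1) := by
    unfold mu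
    push_cast
    have : (3 : ℝ) ≤ K := by exact_mod_cast hK
    rw [add_sub_cancel_right]
    positivity
  have hgV : ∀ r : Fin K, gd W (s * n) Vi r ⊆ Vi r := fun r => filter_subset _ _
  let B : Fin K → Finset V := fun r => if r = i then {y} else
    (gd W (s * n) Vi r).filter (fun z => co W v z = 1 ∧ co W y z = 1)
  have hBi : B i = {y} := by simp [B]
  have hBr : ∀ r, r ≠ i →
      B r = (gd W (s * n) Vi r).filter (fun z => co W v z = 1 ∧ co W y z = 1) := by
    intro r hr; simp [B, hr]
  have hBs : ∀ r, B r ⊆ Vi r := by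
    intro r
    by_cases hr : r = i
    · rw [hr, hBi]; simpa using hy
    · rw [hBr r hr]; exact (Finset.filter_subset _ _).trans (hgV r)
  have hBc : ∀ r, r ≠ i → 5 * e / 32 * n ≤ ((B r).card : ℝ) := by
    intro r hr
    have h1 := out_le hW hn hT i r (Ne.symm hr) v hv
    have h2 := out_le hW hn hT i r (Ne.symm hr) y hy
    have h5 := (abs_le.mp (hT.size r)).1
    unfold ms at h5
    have h6 : (mu (K + 1) - d) * n ≤ ((Vi r).card : ℝ) := by
      have : mu (K + 1) - d ≤ ((Vi r).card : ℝ) / n := by linarith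
      rwa [le_div_iff₀ hn0] at this
    have h7 : ((gd W (s * n) Vi r).card : ℝ) ≤
        ((B r).card : ℝ) + ∑ z ∈ Vi r, W v z + ∑ z ∈ Vi r, W y z := by
      have h8 : ((gd W (s * n) Vi r).card : ℝ) ≤ ((B r).card : ℝ) +
          ∑ z ∈ gd W (s * n) Vi r, W v z + ∑ z ∈ gd W (s * n) Vi r, W y z := by
        rw [hBr r hr, Finset.card_filter, Nat.cast_sum, ← Finset.sum_add_distrib,
          ← Finset.sum_add_distrib, Finset.card_eq_sum_ones, Nat.cast_sum]
        apply Finset.sum_le_sum
        intro z _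
        rcases hW.zo v z with h | h <;> rcases hW.zo y z with h' | h' <;> simp [co, h, h']
      have h9 := sum_le_sum_of_subset_of_nonneg (f := fun z => W v z) (hgV r)
        (fun z _ _ => ker_nn hW v z)
      have h10 := sum_le_sum_of_subset_of_nonneg (f := fun z => W y z) (hgV r)
        (fun z _ _ => ker_nn hW y z)
      linarith
    have h8 : ((Vi r).card : ℝ) = ((gd W (s * n) Vi r).card : ℝ) +
        (((Vi r \ gd W (s * n) Vi r).card : ℕ) : ℝ) := by
      have := card_sdiff_add_card_eq_card (hgV r)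
      rw [← this]
      push_cast
      ring
    have h9 := bad_le hW hn hT s hs hd0.le r
    rw [← hn'] at h1 h2 h9
    have h10 : (K : ℝ) * (d / s) * n ≤ e / 16 * n := mul_le_mul_of_nonneg_right hs2 hn0.le
    have h11 : mu (K + 1) - d - 2 * (mu (K + 1) ^ 2 / 4 + d + e) - e / 16 ≥ 5 * e / 32 := by
      nlinarith
    nlinarith
  let c : Fin K → ℝ := fun r => if r = i then 1 else e / 8 * n
  let δ : Fin K → ℝ := fun r => if r = i then 0 else s * n
  have hci : c i = 1 := by simp [c]
  have hcr : ∀ r, r ≠ i → c r = e / 8 * n := by intro r hr; simp [c, hr]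
  have hδi : δ i = 0 := by simp [δ]
  have hδr : ∀ r, r ≠ i → δ r = s * n := by intro r hr; simp [δ, hr]
  have h := box_greedy W hW B δ c
    (fun r => by
      by_cases hr : r = i
      · rw [hr, hci]; exact zero_le_one
      · rw [hcr r hr]; positivity)
    (fun r => by
      by_cases hr : r = i
      · rw [hr, hδi]
      · rw [hδr r hr]; positivity)
    (fun j r hjr z hz => by
      by_cases hr : r = i
      · rw [hr, hδi, hBi, sum_singleton]
        rw [hBr j (fun h => hjr (h.trans hr.symm))] at hz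
        have h1 := (mem_filter.1 hz).2.2
        simp only [co] at h1
        rw [hW.symm]
        linarith
      · rw [hδr r hr]
        by_cases hj : j = i
        · rw [hj, hBi, mem_singleton] at hz
          rw [hz]
          have h1 : ∑ b ∈ B r, W y b = 0 := by
            apply sum_eq_zero
            intro b hb
            rw [hBr r hr] at hb
            have h1 := (mem_filter.1 hb).2.2
            simp only [co] at h1
            linarith
          rw [h1]
          positivity
        · rw [hBr j hj] at hz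
          have h1 := (mem_filter.1 hz).1
          unfold gd at h1
          have h2 := (mem_filter.1 h1).2 r (Ne.symm hjr)
          refine le_trans ?_ h2
          exact sum_le_sum_of_subset_of_nonneg (hBs r) fun b _ _ => ker_nn hW z b)
    (fun r => by
      by_cases hr : r = i
      · rw [hr, hci, hδi, hBi, card_singleton]; norm_num
      · rw [hcr r hr, hδr r hr]
        have h1 := hBc r hr
        have h2 : (K : ℝ) * (s * n) ≤ e / 32 * n := by
          have := mul_le_mul_of_nonneg_right hs1 hn0.le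
          linarith
        linarith)
  have hcp : (e / 8) ^ K * n ^ K ≤ (∏ r, c r) * n := by
    have h1 : (e / 8) ^ K * n ^ K = ∏ _r : Fin K, (e / 8 * n) := by
      rw [prod_const, card_univ, Fintype.card_fin, mul_pow]
    rw [h1, ← mul_prod_erase univ _ (mem_univ i), ← mul_prod_erase univ c (mem_univ i), hci,
      one_mul]
    have h2 : ∏ r ∈ univ.erase i, c r = ∏ _r ∈ univ.erase i, (e / 8 * n) := by
      apply prod_congr rfl
      intro r hr
      exact hcr r (mem_erase.1 hr).1
    rw [h2]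
    have h3 : 0 ≤ ∏ _r ∈ univ.erase i, (e / 8 * n) := prod_nonneg fun _ _ => by positivity
    have h4 : e / 8 * n ≤ n := by
      have h5 : e / 8 ≤ 1 := by nlinarith
      nlinarith
    calc e / 8 * n * ∏ _r ∈ univ.erase i, (e / 8 * n)
        ≤ n * ∏ _r ∈ univ.erase i, (e / 8 * n) := mul_le_mul_of_nonneg_right h4 h3
      _ = (∏ _r ∈ univ.erase i, (e / 8 * n)) * n := mul_comm _ _
  refine le_trans hcp ?_
  apply mul_le_mul_of_nonneg_right _ hn0.le
  refine le_trans h ?_
  have : (Fintype.piFinset B).filter (fun z => ∀ j l, j ≠ l → co W (z j) (z l) = 1) ⊆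
      (Gs (K := K) (co W) A1ᶜ v).filter (fun z => z i = y) := by
    intro z hz
    simp only [Finset.mem_filter, Fintype.mem_piFinset] at hz
    have hzi : z i = y := by
      have := hz.1 i
      rw [hBi] at this
      simpa using this
    simp only [Gs, Finset.mem_filter, Finset.mem_univ, true_and, Finset.mem_compl]
    refine ⟨⟨fun j hj => ?_, fun j => ?_, hz.2⟩, hzi⟩
    · exact Finset.disjoint_left.mp (hT.d1 j) (hBs j (hz.1 j)) hj
    · by_cases hj : j = i
      · rw [hj, hzi]; exact hvy
      · have := hz.1 j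
        rw [hBr j hj] at this
        exact (Finset.mem_filter.mp this).2.1
  exact_mod_cast Finset.card_le_card this

/-- the number of blue cliques -/
theorem cl_low {K : ℕ} (hK : 3 ≤ K) {e d : ℝ} {V : Type} [Fintype V] [DecidableEq V]
    {W : V → V → ℝ} (hW : Ker W) {Vi : Fin (K + 1 - 1) → Finset V} {A1 A2 : Finset V}
    (hn : 0 < Fintype.card V) (he0 : 0 < e) (he : e ≤ mu (K + 1) ^ 2 / 16) (hd0 : 0 < d)
    (hd : d ≤ mu (K + 1) ^ 2 / 16)
    (hT : Typ (K + 1) e d W Vi A1 A2) (s : ℝ) (hs : 0 < s) (hs1 : (K : ℝ) * s ≤ e / 32)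
    (hs2 : (K : ℝ) * (d / s) ≤ e / 16) :
    (e / 8) ^ K / 2 * (bl W Vi + ms A2) * (Fintype.card V : ℝ) ^ (K + 1) ≤
      ((cl (co W) A1ᶜ (K + 1)).card : ℝ) := by
  set n : ℝ := (Fintype.card V : ℝ) with hn'
  have hn0 : 0 < n := by rw [hn']; exact_mod_cast hn
  have hN := cons_le (K := K) (co W) (co_ker hW) A1ᶜ
  have hN' : ∑ v ∈ A1ᶜ, ((Gs (K := K) (co W) A1ᶜ v).card : ℝ) ≤
      ((cl (co W) A1ᶜ (K + 1)).card : ℝ) := by exact_mod_cast hN
  have h2 : (e / 8) ^ K * n ^ (K + 1) * ms A2 ≤ ((cl (co W) A1ᶜ (K + 1)).card : ℝ) := by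
    calc (e / 8) ^ K * n ^ (K + 1) * ms A2
        = ∑ _v ∈ A2, (e / 8) ^ K * n ^ K := by
          rw [Finset.sum_const, nsmul_eq_mul]
          unfold ms
          rw [← hn']
          field_simp
          ring
      _ ≤ ∑ v ∈ A2, ((Gs (K := K) (co W) A1ᶜ v).card : ℝ) :=
          Finset.sum_le_sum fun v hv => case2' hW hn he0 hd0 hT s hs hs1 hs2 v hv
      _ ≤ ∑ v ∈ A1ᶜ, ((Gs (K := K) (co W) A1ᶜ v).card : ℝ) := by
          apply Finset.sum_le_sum_of_subset_of_nonneg
          · intro v hv
            rw [Finset.mem_compl]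
            exact Finset.disjoint_right.mp hT.d12 hv
          · intro v _ _; exact Nat.cast_nonneg _
      _ ≤ _ := hN'
  have hc1 : ∀ i, ∀ v ∈ Vi i, (e / 8) ^ K * n ^ K * ∑ y ∈ Vi i, co W v y ≤
      ((Gs (K := K) (co W) A1ᶜ v).card : ℝ) * n := by
    classical
    intro i v hv
    have h3 : ∑ y ∈ Vi i, (((Gs (K := K) (co W) A1ᶜ v).filter (fun z => z i = y)).card : ℝ) ≤
        ((Gs (K := K) (co W) A1ᶜ v).card : ℝ) := by
      have : ∑ y ∈ Vi i, ((Gs (K := K) (co W) A1ᶜ v).filter (fun z => z i = y)).card ≤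
          (Gs (K := K) (co W) A1ᶜ v).card := by
        rw [← Finset.card_biUnion]
        · apply Finset.card_le_card
          intro z hz
          rw [Finset.mem_biUnion] at hz
          obtain ⟨y, _, hz⟩ := hz
          exact (Finset.mem_filter.mp hz).1
        · intro y _ y' _ hyy
          rw [Function.onFun, Finset.disjoint_left]
          intro z hz hz'
          exact hyy ((Finset.mem_filter.mp hz).2.symm.trans (Finset.mem_filter.mp hz').2)
      exact_mod_cast this
    calc (e / 8) ^ K * n ^ K * ∑ y ∈ Vi i, co W v y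
        = ∑ y ∈ Vi i, (e / 8) ^ K * n ^ K * co W v y := by rw [Finset.mul_sum]
      _ ≤ ∑ y ∈ Vi i,
          (((Gs (K := K) (co W) A1ᶜ v).filter (fun z => z i = y)).card : ℝ) * n := by
          apply Finset.sum_le_sum
          intro y hy
          rcases (co_ker hW).zo v y with h | h
          · rw [h, mul_zero]; positivity
          · rw [h, mul_one]
            exact case1' hK hW hn he0 he hd0 hd hT s hs hs1 hs2 i v y hv hy h
      _ = (∑ y ∈ Vi i,
          (((Gs (K := K) (co W) A1ᶜ v).filter (fun z => z i = y)).card : ℝ)) * n := by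
          rw [Finset.sum_mul]
      _ ≤ _ := mul_le_mul_of_nonneg_right h3 hn0.le
  have h1 : (e / 8) ^ K * n ^ (K + 1) * bl W Vi ≤
      ((cl (co W) A1ᶜ (K + 1)).card : ℝ) := by
    have h4 : (e / 8) ^ K * n ^ K * (∑ i, ∑ v ∈ Vi i, ∑ y ∈ Vi i, co W v y) ≤
        ((cl (co W) A1ᶜ (K + 1)).card : ℝ) * n := by
      calc (e / 8) ^ K * n ^ K * (∑ i, ∑ v ∈ Vi i, ∑ y ∈ Vi i, co W v y)
          = ∑ i, ∑ v ∈ Vi i, (e / 8) ^ K * n ^ K * ∑ y ∈ Vi i, co W v y := by
            rw [Finset.mul_sum]
            apply Finset.sum_congr rfl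
            intro i _
            rw [Finset.mul_sum]
        _ ≤ ∑ i, ∑ v ∈ Vi i, ((Gs (K := K) (co W) A1ᶜ v).card : ℝ) * n :=
            Finset.sum_le_sum (fun i _ => Finset.sum_le_sum (fun v hv => hc1 i v hv))
        _ = (∑ i, ∑ v ∈ Vi i, ((Gs (K := K) (co W) A1ᶜ v).card : ℝ)) * n := by
            rw [Finset.sum_mul]
            apply Finset.sum_congr rfl
            intro i _
            rw [Finset.sum_mul]
        _ ≤ (∑ v ∈ A1ᶜ, ((Gs (K := K) (co W) A1ᶜ v).card : ℝ)) * n := by
            apply mul_le_mul_of_nonneg_right _ hn0.le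
            rw [← Finset.sum_biUnion]
            · apply Finset.sum_le_sum_of_subset_of_nonneg
              · intro v hv
                rw [Finset.mem_biUnion] at hv
                obtain ⟨i, _, hv⟩ := hv
                rw [Finset.mem_compl]
                exact Finset.disjoint_left.mp (hT.d1 i) hv
              · intro v _ _; exact Nat.cast_nonneg _
            · intro i _ j _ hij
              exact hT.disj i j hij
        _ ≤ _ := mul_le_mul_of_nonneg_right hN' hn0.le
    have h5 : bl W Vi * n ^ 2 = ∑ i, ∑ v ∈ Vi i, ∑ y ∈ Vi i, co W v y := by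
      unfold bl ee
      rw [Finset.sum_mul]
      apply Finset.sum_congr rfl
      intro i _
      rw [div_mul_cancel₀ _ (by positivity)]
    rw [← h5] at h4
    have h6 : (e / 8) ^ K * n ^ K * (bl W Vi * n ^ 2) =
        (e / 8) ^ K * n ^ (K + 1) * bl W Vi * n := by ring
    rw [h6] at h4
    exact le_of_mul_le_mul_right h4 hn0
  nlinarith

theorem sz_star (a : ℕ) : (star a).sz = a := by
  induction a with
  | zero => rfl
  | succ a ih => simp [star, Tr.sz, ih]

theorem tot_St {k : ℕ} (a : Fin k → ℕ) : tot (St a) = ∑ i, a i := by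
  unfold tot St
  exact sum_congr rfl fun i _ => sz_star (a i)

end CostEAux

open CostEAux in
/-- COST -/
theorem costE : SCostE := by
  intro k hk V _ _ W Vi A1 A2 hW hn hT a
  obtain ⟨K, rfl⟩ : ∃ K, k = K + 1 := ⟨k - 1, by omega⟩
  have hK : 3 ≤ K := by omega
  have hKr : (3 : ℝ) ≤ K := by exact_mod_cast hK
  have hmK : mu (K + 1) = 1 / (K : ℝ) := by
    unfold mu
    push_cast
    rw [add_sub_cancel_right]
  have hm0 : 0 < mu (K + 1) := by rw [hmK]; positivity
  have hm : mu (K + 1) ≤ 1 / 3 := by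
    rw [hmK]
    exact one_div_le_one_div_of_le (by norm_num) hKr
  have hmK1 : (K : ℝ) * mu (K + 1) = 1 := by rw [hmK]; field_simp
  set m := mu (K + 1) with hmdef
  have he0 : 0 < ek (K + 1) := by unfold ek; positivity
  have hd0 : 0 < dk (K + 1) := by unfold dk; positivity
  have hee : ek (K + 1) = m ^ 3 / 100 := rfl
  have hdd : dk (K + 1) = m ^ 8 / 10 ^ 9 := rfl
  have hm3 : m ^ 3 ≤ m ^ 2 := by nlinarith [sq_nonneg m]
  have hm8 : m ^ 8 ≤ m ^ 2 := pow_le_pow_of_le_one hm0.le (by linarith) (by norm_num)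
  have hm2 : 0 < m ^ 2 := by positivity
  have he : ek (K + 1) ≤ m ^ 2 / 16 := by rw [hee]; linarith
  have hd : dk (K + 1) ≤ m ^ 2 / 16 := by rw [hdd]; linarith
  -- the threshold for good vertices
  have hs : 0 < m ^ 4 / 3200 := by positivity
  have hs1 : (K : ℝ) * (m ^ 4 / 3200) ≤ ek (K + 1) / 32 := by
    rw [hee]
    have : (K : ℝ) * (m ^ 4 / 3200) = ((K : ℝ) * m) * m ^ 3 / 3200 := by ring
    rw [this, hmK1]
    linarith
  have hs2 : (K : ℝ) * (dk (K + 1) / (m ^ 4 / 3200)) ≤ ek (K + 1) / 16 := by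
    rw [hee, hdd]
    have : (K : ℝ) * (m ^ 8 / 10 ^ 9 / (m ^ 4 / 3200)) = ((K : ℝ) * m) * m ^ 3 * (3200 / 10 ^ 9) := by
      field_simp
    rw [this, hmK1]
    have : 0 < m ^ 3 := by positivity
    nlinarith
  have h1 := cl_low hK hW hn he0 he hd0 hd hT (m ^ 4 / 3200) hs hs1 hs2
  have h7 := lol_low Pool.Agent.W315.LPGlue.core hK hW hn hd hT (St a)
  rw [tot_St] at h7
  set n : ℝ := (Fintype.card V : ℝ) with hn'
  have hn0 : 0 < n := by rw [hn']; exact_mod_cast hn
  have hcc : ck (K + 1) ≤ (ek (K + 1) / 8) ^ K / 2 := by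
    unfold ck
    rw [← hmdef, pow_succ]
    have h2 : ek (K + 1) / 8 = m ^ 3 / 800 := by rw [hee]; ring
    rw [h2]
    have h3 : m ^ 3 / 800 ≤ 1 / 2 := by nlinarith
    have h4 : 0 < (m ^ 3 / 800) ^ K := by positivity
    nlinarith
  have hbl : 0 ≤ bl W Vi := by
    unfold bl ee
    apply sum_nonneg
    intro i _
    apply div_nonneg _ (by positivity)
    exact sum_nonneg fun x _ => sum_nonneg fun y _ => ker_nn (co_ker hW) x y
  have hms : 0 ≤ ms A2 := by unfold ms; positivity
  have h8 : ck (K + 1) * (bl W Vi + ms A2) * n ^ (K + 1) ≤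
      ((cl (co W) A1ᶜ (K + 1)).card : ℝ) := by
    refine le_trans ?_ h1
    gcongr
  have h9 : ck (K + 1) * (bl W Vi + ms A2) * (3 / 5 : ℝ) ^ (∑ i, a i) * n ^ (K + 1) ≤
      lol (co W) (St a) * n ^ (K + 1) := by
    calc _ = (ck (K + 1) * (bl W Vi + ms A2) * n ^ (K + 1)) * (3 / 5 : ℝ) ^ (∑ i, a i) := by
          ring
      _ ≤ ((cl (co W) A1ᶜ (K + 1)).card : ℝ) * (3 / 5 : ℝ) ^ (∑ i, a i) :=
          mul_le_mul_of_nonneg_right h8 (by positivity)
      _ ≤ _ := h7
  exact le_of_mul_le_mul_right h9 (by positivity)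

end Pool.Agent.N412.PE
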