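import Pool.Agent.N412.PE.Stm
import Pool.Agent.W440.LP.DENS
import Pool.Agent.W790.LP.Moon

/-!
Project PEND (helper412), part DENS: edge density of kernels with few cliques, explicit constants
(by helper91).
-/

set_option autoImplicit false

open Finset

namespace Pool.Agent.N412.PE

open Pool.Agent.W297.LP Pool.Agent.N412.LB

namespace DensEAux

theorem mu_eq (m : ℕ) : mu (m + 1) = 1 / (m : ℝ) := by
  unfold mu
  push_cast
  congr 1
  ring

theorem prod_ge (m : ℕ) (hm : 1 ≤ m) (h : ℝ) (h0 : 0 < h) (hq : h ≤ 1 / (m : ℝ)) :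
    (1 / (m : ℝ)) ^ m * h ≤ ∏ i ∈ range (m + 1), (1 - (i : ℝ) * (1 / (m : ℝ) - h)) := by
  have hm0 : (0 : ℝ) < m := by exact_mod_cast hm
  have hq0 : 0 < 1 / (m : ℝ) := by positivity
  rw [prod_range_succ]
  refine mul_le_mul ?_ ?_ h0.le ?_
  · calc (1 / (m : ℝ)) ^ m = ∏ _i ∈ range m, (1 / (m : ℝ)) := by simp
      _ ≤ ∏ i ∈ range m, (1 - (i : ℝ) * (1 / (m : ℝ) - h)) := by
        refine prod_le_prod (fun _ _ => hq0.le) fun i hi => ?_
        have hi1 : (i : ℝ) + 1 ≤ m := by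
          have := mem_range.1 hi
          exact_mod_cast this
        have hi0 : (0 : ℝ) ≤ i := Nat.cast_nonneg i
        have e1 : (i : ℝ) * (1 / (m : ℝ) - h) ≤ (i : ℝ) * (1 / (m : ℝ)) := by
          apply mul_le_mul_of_nonneg_left _ hi0
          linarith
        have e2 : ((i : ℝ) + 1) * (1 / (m : ℝ)) ≤ m * (1 / (m : ℝ)) :=
          mul_le_mul_of_nonneg_right hi1 hq0.le
        have e3 : (m : ℝ) * (1 / (m : ℝ)) = 1 := by field_simp
        linarith
  · have e3 : (m : ℝ) * (1 / (m : ℝ)) = 1 := by field_simp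
    have hm1 : (1 : ℝ) ≤ m := by exact_mod_cast hm
    nlinarith
  · refine prod_nonneg fun i hi => ?_
    have hi1 : (i : ℝ) + 1 ≤ m := by
      have := mem_range.1 hi
      exact_mod_cast this
    have hi0 : (0 : ℝ) ≤ i := Nat.cast_nonneg i
    have e1 : (i : ℝ) * (1 / (m : ℝ) - h) ≤ (i : ℝ) * (1 / (m : ℝ)) := by
      apply mul_le_mul_of_nonneg_left _ hi0
      linarith
    have e2 : ((i : ℝ) + 1) * (1 / (m : ℝ)) ≤ m * (1 / (m : ℝ)) :=
      mul_le_mul_of_nonneg_right hi1 hq0.le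
    have e3 : (m : ℝ) * (1 / (m : ℝ)) = 1 := by field_simp
    linarith

end DensEAux

open DensEAux in
theorem densE : SDensE := by
  intro k hk h h0 hq V _ W hW hN D hcl
  obtain ⟨m, rfl⟩ : ∃ m, k = m + 1 := ⟨k - 1, by omega⟩
  have hm : 3 ≤ m := by omega
  have hmR : (3 : ℝ) ≤ m := by exact_mod_cast hm
  have hm0 : (0 : ℝ) < m := by linarith
  rw [mu_eq] at hq hcl ⊢
  obtain ⟨q, hqd⟩ : ∃ q : ℝ, q = 1 / (m : ℝ) := ⟨_, rfl⟩
  have hq0 : 0 < q := by rw [hqd]; positivity
  have hq1 : q ≤ 1 := by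
    rw [hqd, div_le_one hm0]; linarith
  have hh1 : h ≤ 1 := by rw [← hqd] at hq; linarith
  have hNR : (0 : ℝ) < Fintype.card V := by exact_mod_cast hN
  by_contra hcon
  push Not at hcon
  rw [← hqd] at hq hcl hcon
  have hms0 : 0 ≤ ms D := by unfold ms; positivity
  have hms1 : ms D ≤ 1 := by
    unfold ms
    rw [div_le_one hNR]
    exact_mod_cast card_le_univ D
  have hms2 : ms D ^ 2 ≤ 1 := by nlinarith
  have hS : ∑ x ∈ D, ∑ y ∈ D, W x y ≤ (D.card : ℝ) ^ 2 := by
    calc ∑ x ∈ D, ∑ y ∈ D, W x y ≤ ∑ _x ∈ D, ∑ _y ∈ D, (1 : ℝ) := by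
          refine sum_le_sum fun x _ => sum_le_sum fun y _ => ?_
          rcases hW.zo x y with h1 | h1 <;> rw [h1] <;> norm_num
      _ = (D.card : ℝ) ^ 2 := by simp [sq]
  have hee : ee W D D ≤ ms D ^ 2 := by
    unfold ee ms
    rw [div_pow]
    exact div_le_div_of_nonneg_right hS (by positivity)
  have hgt : h < ms D ^ 2 := by nlinarith
  have hlt : h < q := by
    by_contra hc
    push Not at hc
    nlinarith
  have hmsgt : h ≤ ms D := by nlinarith
  have hr : 0 < 1 / (q - h) := by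
    have : 0 < q - h := by linarith
    positivity
  have h1r : 1 / (1 / (q - h)) = q - h := by rw [one_div_one_div]
  have hdens := Pool.Agent.W440.LP.dens Pool.Agent.W790.LP.moon V W hW D (1 / (q - h)) hr (by
    rw [h1r]
    have e1 : (1 - (q - h)) * ms D ^ 2 ≤ ee W D D := by nlinarith
    unfold ms ee at e1
    rw [div_pow, ← mul_div_assoc, div_le_div_iff_of_pos_right (by positivity)] at e1
    exact e1) (m + 1) (by
    push_cast
    rw [add_sub_cancel_right, le_div_iff₀ (by linarith)]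
    have : (m : ℝ) * q = 1 := by rw [hqd]; field_simp
    nlinarith)
  have hprod : q ^ (m + 1) * h ≤ ∏ i ∈ range (m + 1), (1 - (i : ℝ) / (1 / (q - h))) := by
    have e1 := prod_ge m (by omega) h h0 (by rw [← hqd]; exact hq)
    rw [← hqd] at e1
    have e2 : ∏ i ∈ range (m + 1), (1 - (i : ℝ) / (1 / (q - h))) =
        ∏ i ∈ range (m + 1), (1 - (i : ℝ) * (q - h)) := by
      refine prod_congr rfl fun i _ => ?_
      rw [div_eq_mul_one_div, h1r]
    rw [e2]
    refine le_trans ?_ e1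
    apply mul_le_mul_of_nonneg_right _ h0.le
    exact pow_le_pow_of_le_one hq0.le hq1 (Nat.le_succ m)
  have hmsp : h ^ m ≤ ms D ^ (m + 1) := by
    obtain ⟨l, rfl⟩ : ∃ l, m = l + 1 := ⟨m - 1, by omega⟩
    have e1 : ms D ^ (l + 1 + 1) = ms D ^ l * ms D ^ 2 := by ring
    rw [e1, pow_succ]
    exact mul_le_mul (pow_le_pow_left₀ h0.le hmsgt l) hgt.le h0.le (by positivity)
  have hcard : (D.card : ℝ) ^ (m + 1) = ms D ^ (m + 1) * (Fintype.card V : ℝ) ^ (m + 1) := by
    unfold ms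
    rw [div_pow, div_mul_cancel₀ _ (by positivity)]
  have hfin : (q * h) ^ (m + 1) * (Fintype.card V : ℝ) ^ (m + 1) ≤ ((cl W D (m + 1)).card : ℝ) := by
    refine le_trans ?_ hdens
    rw [hcard, ← mul_assoc]
    apply mul_le_mul_of_nonneg_right _ (by positivity)
    calc (q * h) ^ (m + 1) = (q ^ (m + 1) * h) * h ^ m := by ring
      _ ≤ _ := mul_le_mul hprod hmsp (by positivity) (le_trans (by positivity) hprod)
  linarith

end Pool.Agent.N412.PE
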