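import Pool.Agent.N412.PE.Stm

/-!
Project PEND (helper412): DICH, the dichotomy (helper344)
-/

set_option autoImplicit false
set_option linter.unusedSectionVars false

open Finset

namespace Pool.Agent.N412.PE

open Pool.Agent.W297.LP Pool.Agent.N412.LB

namespace DichEAux

section

variable {V : Type} [Fintype V]

lemma ker_co {W : V → V → ℝ} (hW : Ker W) : Ker (co W) :=
  ⟨fun x y => by unfold co; rw [hW.symm x y], fun x y => by
    unfold co
    rcases hW.zo x y with h | h <;> rw [h] <;> simp⟩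

lemma W_nonneg {W : V → V → ℝ} (hW : Ker W) (x y : V) : 0 ≤ W x y := by
  rcases hW.zo x y with h | h <;> rw [h]
  exact zero_le_one

lemma W_le {W : V → V → ℝ} (hW : Ker W) (x y : V) : W x y ≤ 1 := by
  rcases hW.zo x y with h | h <;> rw [h]
  exact zero_le_one

lemma dg_add (W : V → V → ℝ) (hN : 0 < Fintype.card V) (y : V) : dg W y + dg (co W) y = 1 := by
  unfold dg co
  have hN' : (Fintype.card V : ℝ) ≠ 0 := by exact_mod_cast hN.ne'
  rw [← add_div, ← Finset.sum_add_distrib, div_eq_one_iff_eq hN']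
  simp

lemma cl_mono (W : V → V → ℝ) {D D' : Finset V} (h : D ⊆ D') (k : ℕ) :
    (cl W D k).card ≤ (cl W D' k).card := by
  classical
  apply Finset.card_le_card
  intro x hx
  unfold cl at *
  rw [Finset.mem_filter] at *
  exact ⟨hx.1, fun i => h (hx.2.1 i), hx.2.2⟩

lemma ms_nonneg (D : Finset V) : 0 ≤ ms D := by
  unfold ms
  positivity

lemma ms_mul (hN : 0 < Fintype.card V) (P Q : Finset V) :
    (∑ _x ∈ P, ∑ _y ∈ Q, (1 : ℝ)) / (Fintype.card V : ℝ) ^ 2 = ms P * ms Q := by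
  unfold ms
  have hN' : (Fintype.card V : ℝ) ≠ 0 := by exact_mod_cast hN.ne'
  simp only [Finset.sum_const, nsmul_eq_mul, mul_one]
  field_simp

lemma ee_le {W : V → V → ℝ} (hW : Ker W) (hN : 0 < Fintype.card V) (P Q : Finset V) :
    ee W P Q ≤ ms P * ms Q := by
  rw [← ms_mul hN]
  unfold ee
  apply div_le_div_of_nonneg_right _ (by positivity)
  exact Finset.sum_le_sum fun x _ => Finset.sum_le_sum fun y _ => W_le hW x y

lemma ee_add (W : V → V → ℝ) (hN : 0 < Fintype.card V) (P Q : Finset V) :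
    ee W P Q + ee (co W) P Q = ms P * ms Q := by
  rw [← ms_mul hN]
  unfold ee co
  rw [← add_div, ← Finset.sum_add_distrib]
  congr 1
  refine Finset.sum_congr rfl fun x _ => ?_
  rw [← Finset.sum_add_distrib]
  refine Finset.sum_congr rfl fun y _ => ?_
  ring

lemma ee_symm {W : V → V → ℝ} (hW : Ker W) (P Q : Finset V) : ee W P Q = ee W Q P := by
  unfold ee
  rw [Finset.sum_comm]
  congr 1
  exact Finset.sum_congr rfl fun x _ => Finset.sum_congr rfl fun y _ => hW.symm _ _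

lemma mu_pos {k : ℕ} (hk : 4 ≤ k) : 0 < mu k := by
  unfold mu
  have : (4 : ℝ) ≤ k := by exact_mod_cast hk
  have : (0 : ℝ) < (k : ℝ) - 1 := by linarith
  positivity

lemma mu_le {k : ℕ} (hk : 4 ≤ k) : mu k ≤ 1 / 3 := by
  unfold mu
  have : (4 : ℝ) ≤ k := by exact_mod_cast hk
  exact one_div_le_one_div_of_le (by norm_num) (by linarith)

lemma xk_pos {k : ℕ} (hk : 4 ≤ k) : 0 < xk k := by
  unfold xk nk
  have := mu_pos hk
  positivity

lemma xk_le {k : ℕ} (hk : 4 ≤ k) : xk k ≤ mu k / 1000 := by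
  unfold xk nk
  have h0 := mu_pos hk
  have h1 := mu_le hk
  have h2 : (mu k ^ 11 / 10 ^ 12) ^ 2 ≤ mu k := by
    have h3 : mu k ^ (11 * 2) ≤ mu k ^ 1 := pow_le_pow_of_le_one h0.le (by linarith) (by norm_num)
    rw [pow_one] at h3
    rw [div_pow, ← pow_mul, div_le_iff₀ (by positivity)]
    have h4 : mu k * 1 ≤ mu k * (10 ^ 12) ^ 2 := mul_le_mul_of_nonneg_left (by norm_num) h0.le
    linarith
  linarith

/-- the one-sided estimate -/
lemma half (hD : SDensE) {k : ℕ} (hk : 4 ≤ k) {W : V → V → ℝ} (hW : Ker W)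
    (hN : 0 < Fintype.card V) {x : ℝ} (hx0 : 0 < x) (hxq : x ≤ mu k) {R B C : Finset V}
    (hdec : ∀ f : V → ℝ, ∑ z, f z = ∑ z ∈ R, f z + ∑ z ∈ B, f z + ∑ z ∈ C, f z)
    (hsum : ms R + ms B + ms C = 1)
    (hC : ms C ≤ x) (hcl : ((cl W R k).card : ℝ) < (mu k * x) ^ k * (Fintype.card V : ℝ) ^ k)
    (hdeg : ∀ y ∈ R, 1 - (1 + x) * mu k ≤ dg W y) :
    (1 - mu k) * (ms R * ms B) - 3 * x ≤ ee W R B := by
  have hN' : (0 : ℝ) < (Fintype.card V : ℝ) := by exact_mod_cast hN
  have hq0 := mu_pos hk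
  have hq1 := mu_le hk
  have E1 : ee W R univ = ee W R R + ee W R B + ee W R C := by
    unfold ee
    rw [← add_div, ← add_div, ← Finset.sum_add_distrib, ← Finset.sum_add_distrib]
    congr 1
    exact Finset.sum_congr rfl fun y _ => hdec (W y)
  have E2 : (1 - (1 + x) * mu k) * ms R ≤ ee W R univ := by
    have h1 : ∑ y ∈ R, (1 - (1 + x) * mu k) ≤ ∑ y ∈ R, dg W y := Finset.sum_le_sum hdeg
    have h2 : ee W R univ = (∑ y ∈ R, dg W y) / (Fintype.card V : ℝ) := by
      unfold ee dg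
      rw [← Finset.sum_div, div_div, sq]
    rw [h2]
    unfold ms
    rw [← mul_div_assoc]
    apply div_le_div_of_nonneg_right _ hN'.le
    rw [Finset.sum_const, nsmul_eq_mul] at h1
    linarith
  have E3 := hD k hk x hx0 hxq V W hW hN R hcl
  have E4 := ee_le hW hN R C
  have r0 := ms_nonneg R
  have b0 := ms_nonneg B
  have c0 := ms_nonneg C
  obtain ⟨r, hr⟩ : ∃ r, r = ms R := ⟨_, rfl⟩
  obtain ⟨b, hb⟩ : ∃ b, b = ms B := ⟨_, rfl⟩
  obtain ⟨c, hc⟩ : ∃ c, c = ms C := ⟨_, rfl⟩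
  obtain ⟨q, hq⟩ : ∃ q, q = mu k := ⟨_, rfl⟩
  rw [← hr] at E2 E3 E4 r0 hsum ⊢
  rw [← hb] at b0 hsum ⊢
  rw [← hc] at E4 c0 hsum hC
  rw [← hq] at E2 E3 hq0 hq1 ⊢
  have hr1 : r ≤ 1 := by linarith
  have h1 : x * q * r ≤ x := by
    have : q * r ≤ 1 := by nlinarith
    nlinarith
  have h2 : r * c ≤ x := by nlinarith
  have h3 : (1 - q) * (r * b) ≤ (1 - q) * (r * (1 - r)) := by
    apply mul_le_mul_of_nonneg_left _ (by linarith)
    apply mul_le_mul_of_nonneg_left _ r0
    linarith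
  nlinarith

end

end DichEAux

namespace DichEAux

lemma hk_lt {k : ℕ} (hk : 4 ≤ k) : PE.hk k < (mu k * xk k) ^ k := by
  unfold PE.hk
  have hq0 := mu_pos hk
  have hx0 := xk_pos hk
  apply pow_lt_pow_left₀ _ (by positivity) (by omega)
  rw [mul_comm (mu k)]
  apply div_lt_self (by positivity)
  exact one_lt_pow₀ (by norm_num) (by omega)

lemma ram_num (k : ℕ) (n : ℝ) :
    ((4 : ℝ) ^ k) ^ k * (PE.hk k * n ^ k + PE.hk k * n ^ k) =
      2 * (xk k * mu k / 4 * n) ^ k := by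
  unfold PE.hk
  rw [mul_pow (xk k * mu k / 4), ← two_mul]
  have h1 : ((4 : ℝ) ^ k) ^ k * (xk k * mu k / 4 ^ (k + 1)) ^ k = (xk k * mu k / 4) ^ k := by
    rw [← mul_pow, pow_succ]
    congr 1
    field_simp
  rw [← h1]
  ring

end DichEAux

open DichEAux in
/-- **DICH** -/
theorem dichE (h1 : SRamE) (h2 : SDensE) : SDichE := by
  intro k hk4 V _ _ W hW hN hc1 hc2
  have hN' : (0 : ℝ) < (Fintype.card V : ℝ) := by exact_mod_cast hN
  have hq0 := mu_pos hk4
  have hq1 := mu_le hk4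
  have hx0 := xk_pos hk4
  have hx1 := xk_le hk4
  have hlt := hk_lt hk4
  obtain ⟨s, hs⟩ : ∃ s : ℝ, s = (1 + xk k) * mu k := ⟨_, rfl⟩
  rw [← hs] at hc1 hc2 ⊢
  have hs1 : 2 * s < 1 := by
    rw [hs]
    nlinarith
  have hm1 : ∀ y, y ∈ Dh W s ↔ s ≤ dg W y := by
    intro y
    unfold Dh
    simp
  have hm2 : ∀ y, y ∈ Dh (co W) s ↔ s ≤ dg (co W) y := by
    intro y
    unfold Dh
    simp
  obtain ⟨D1, hD1⟩ : ∃ D : Finset V, D = Dh W s := ⟨_, rfl⟩
  obtain ⟨D2, hD2⟩ : ∃ D : Finset V, D = Dh (co W) s := ⟨_, rfl⟩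
  rw [← hD1] at hc1 hm1 ⊢
  rw [← hD2] at hc2 hm2 ⊢
  have hsub1 : D2ᶜ ⊆ D1 := by
    intro y hy
    rw [Finset.mem_compl, hm2] at hy
    rw [hm1]
    have := dg_add W hN y
    linarith
  have hsub2 : D1ᶜ ⊆ D2 := by
    intro y hy
    rw [Finset.mem_compl, hm1] at hy
    rw [hm2]
    have := dg_add W hN y
    linarith
  have hun : D1 = D2ᶜ ∪ (D1 ∩ D2) := by
    ext y
    rw [Finset.mem_union, Finset.mem_inter, Finset.mem_compl]
    constructor
    · intro h
      by_cases h' : y ∈ D2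
      · exact Or.inr ⟨h, h'⟩
      · exact Or.inl h'
    · rintro (h | h)
      · exact hsub1 (Finset.mem_compl.2 h)
      · exact h.1
  have hdj : Disjoint D2ᶜ (D1 ∩ D2) := by
    rw [Finset.disjoint_left]
    intro y hy hy'
    exact (Finset.mem_compl.1 hy) (Finset.mem_inter.1 hy').2
  have hdec : ∀ f : V → ℝ, ∑ z, f z = ∑ z ∈ D2ᶜ, f z + ∑ z ∈ D1ᶜ, f z + ∑ z ∈ D1 ∩ D2, f z := by
    intro f
    have e1 := Finset.sum_add_sum_compl D1 f
    have e2 : ∑ z ∈ D1, f z = ∑ z ∈ D2ᶜ, f z + ∑ z ∈ D1 ∩ D2, f z := by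
      conv_lhs => rw [hun]
      rw [Finset.sum_union hdj]
    linarith
  have hdec' : ∀ f : V → ℝ, ∑ z, f z = ∑ z ∈ D1ᶜ, f z + ∑ z ∈ D2ᶜ, f z + ∑ z ∈ D1 ∩ D2, f z := by
    intro f
    rw [hdec f]
    ring
  have hsum : ms D2ᶜ + ms D1ᶜ + ms (D1 ∩ D2) = 1 := by
    have e1 := hdec (fun _ => 1)
    simp only [Finset.sum_const, nsmul_eq_mul, mul_one, Finset.card_univ] at e1
    unfold ms
    rw [← add_div, ← add_div, ← e1, div_self hN'.ne']
  have hcompl : ∀ D : Finset V, ms D = 1 - ms Dᶜ := by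
    intro D
    unfold ms
    have e1 := Finset.card_add_card_compl D
    have e2 : (D.card : ℝ) + (Dᶜ.card : ℝ) = (Fintype.card V : ℝ) := by exact_mod_cast e1
    rw [eq_sub_iff_add_eq, ← add_div, e2, div_self hN'.ne']
  -- Ramsey
  have hC : ms (D1 ∩ D2) ≤ xk k := by
    have e1 := h1 k V W hW (D1 ∩ D2)
    have e2 : ((cl W (D1 ∩ D2) k).card : ℝ) ≤ PE.hk k * (Fintype.card V : ℝ) ^ k := by
      refine le_trans ?_ hc1
      exact_mod_cast cl_mono W Finset.inter_subset_left k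
    have e3 : ((cl (co W) (D1 ∩ D2) k).card : ℝ) ≤ PE.hk k * (Fintype.card V : ℝ) ^ k := by
      refine le_trans ?_ hc2
      exact_mod_cast cl_mono (co W) Finset.inter_subset_right k
    have e4 : ((D1 ∩ D2).card : ℝ) ^ k ≤ 2 * (xk k * mu k / 4 * (Fintype.card V : ℝ)) ^ k := by
      rw [← ram_num k]
      refine e1.trans (mul_le_mul_of_nonneg_left (add_le_add e2 e3) (by positivity))
    have e5 : 2 * (xk k * mu k / 4 * (Fintype.card V : ℝ)) ^ k ≤
        (xk k * (Fintype.card V : ℝ)) ^ k := by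
      have e6 : xk k * mu k / 4 * (Fintype.card V : ℝ) ≤ (1 / 2) * (xk k * (Fintype.card V : ℝ)) := by
        have e7 : 0 < xk k * (Fintype.card V : ℝ) := by positivity
        nlinarith
      have e8 : (xk k * mu k / 4 * (Fintype.card V : ℝ)) ^ k ≤
          ((1 / 2) * (xk k * (Fintype.card V : ℝ))) ^ k := pow_le_pow_left₀ (by positivity) e6 k
      have e9 : (1 / 2 : ℝ) ^ k ≤ (1 / 2) ^ 1 := pow_le_pow_of_le_one (by norm_num) (by norm_num)
        (by omega)
      rw [mul_pow (1 / 2 : ℝ)] at e8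
      have e10 : 0 ≤ (xk k * (Fintype.card V : ℝ)) ^ k := by positivity
      nlinarith
    have e11 : ((D1 ∩ D2).card : ℝ) ≤ xk k * (Fintype.card V : ℝ) :=
      le_of_pow_le_pow_left₀ (by omega) (by positivity) (e4.trans e5)
    unfold ms
    rwa [div_le_iff₀ hN']
  -- the two one-sided estimates
  have hNk : 0 < (Fintype.card V : ℝ) ^ k := by positivity
  have H1 := half h2 hk4 hW hN hx0 (by linarith) hdec hsum hC (by
      have e1 : ((cl W D2ᶜ k).card : ℝ) ≤ ((cl W D1 k).card : ℝ) := by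
        exact_mod_cast cl_mono W hsub1 k
      nlinarith) (by
      intro y hy
      rw [Finset.mem_compl, hm2] at hy
      have := dg_add W hN y
      rw [← hs]
      linarith)
  have H2 := half h2 hk4 (ker_co hW) hN hx0 (by linarith) hdec' (by linarith) hC (by
      have e1 : ((cl (co W) D1ᶜ k).card : ℝ) ≤ ((cl (co W) D2 k).card : ℝ) := by
        exact_mod_cast cl_mono (co W) hsub2 k
      nlinarith) (by
      intro y hy
      rw [Finset.mem_compl, hm1] at hy
      have := dg_add W hN y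
      rw [← hs]
      linarith)
  have H3 := ee_add W hN D2ᶜ D1ᶜ
  rw [ee_symm (ker_co hW)] at H2
  have g1 := hcompl D1
  have g2 := hcompl D2
  have r0 := ms_nonneg D2ᶜ
  have b0 := ms_nonneg D1ᶜ
  rw [g1, g2]
  generalize ms D2ᶜ = r at *
  generalize ms D1ᶜ = b at *
  generalize ms (D1 ∩ D2) = c at *
  generalize xk k = x at *
  generalize mu k = q at *
  have hrb : r * b ≤ 18 * x := by nlinarith [mul_nonneg r0 b0]
  have hxs : x ≤ 1 / 10 := by linarith
  rcases le_total r b with h | h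
  · left
    have h40 : r ≤ 40 * x := by
      by_contra hcon
      push Not at hcon
      have hb : (1 - x) / 2 ≤ b := by linarith
      have : 40 * x * ((1 - x) / 2) ≤ r * b := mul_le_mul hcon.le hb (by linarith) r0
      nlinarith
    constructor <;> linarith
  · right
    have h40 : b ≤ 40 * x := by
      by_contra hcon
      push Not at hcon
      have hr : (1 - x) / 2 ≤ r := by linarith
      have : (1 - x) / 2 * (40 * x) ≤ r * b := mul_le_mul hr hcon.le (by positivity) r0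
      nlinarith
    constructor <;> linarith

end Pool.Agent.N412.PE
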