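import Pool.Agent.N412.PE.Stm
import Pool.Agent.N412.LB.EmbP

/-!
Project PEND (helper412), part EMBP (helper199): copies in disjoint red cliques.
-/

set_option autoImplicit false

open Finset

namespace Pool.Agent.N412.PE

open Pool.Agent.W297.LP Pool.Agent.N412.LB

namespace EmbPEAux

/-- a blue copy of the clique does not exist -/
lemma no_blue {k t n : ℕ} {g : Fin t → Fin t} (hk : 4 ≤ k) (ht : k < t) {G : SimpleGraph (Fin n)}
    {P : Fin n → Fin (k - 1)} (hG : ∀ x y, x ≠ y → (G.Adj x y ↔ P x = P y)) (f : Fin t ↪ Fin n)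
    (h : ∀ u v, (Pg k t g).Adj u v → Gᶜ.Adj (f u) (f v)) : False := by
  have hinj : Function.Injective fun i : Fin k => P (f ⟨i.1, i.2.trans ht⟩) := by
    intro i j hij
    by_contra hne
    have hne' : (⟨i.1, i.2.trans ht⟩ : Fin t) ≠ ⟨j.1, j.2.trans ht⟩ := by
      intro h1
      exact hne (Fin.ext (Fin.mk.inj_iff.1 h1))
    have h1 := h ⟨i.1, i.2.trans ht⟩ ⟨j.1, j.2.trans ht⟩ ⟨hne', Or.inl ⟨i.2, j.2⟩⟩
    rw [SimpleGraph.compl_adj] at h1
    exact h1.2 ((hG _ _ h1.1).2 hij)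
  have h2 := Fintype.card_le_of_injective _ hinj
  rw [Fintype.card_fin, Fintype.card_fin] at h2
  omega

/-- a red copy is an embedding into one part -/
lemma red_iff {k t n : ℕ} {g : Fin t → Fin t} (hk : 4 ≤ k) (ht : k < t) (hatt : Att k t g)
    {G : SimpleGraph (Fin n)} {P : Fin n → Fin (k - 1)}
    (hG : ∀ x y, x ≠ y → (G.Adj x y ↔ P x = P y)) (f : Fin t ↪ Fin n) :
    (∀ u v, (Pg k t g).Adj u v → G.Adj (f u) (f v)) ↔
      ∀ i, P (f i) = P (f ⟨0, (Nat.zero_lt_of_lt ht)⟩) := by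
  constructor
  · intro h
    have h0 : ∀ v : Fin t, v.val < k → P (f v) = P (f ⟨0, (Nat.zero_lt_of_lt ht)⟩) := by
      intro v hv
      by_cases hv0 : v = ⟨0, (Nat.zero_lt_of_lt ht)⟩
      · rw [hv0]
      · have h1 := h v ⟨0, (Nat.zero_lt_of_lt ht)⟩ ⟨hv0, Or.inl ⟨hv, (by show 0 < k; omega)⟩⟩
        exact (hG _ _ h1.ne).1 h1
    intro v
    by_cases hv : v.val < k
    · exact h0 v hv
    · have hv' : k ≤ v.val := not_lt.1 hv
      have h2 := hatt v hv'
      have h3 : g v ≠ v := by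
        intro h4
        rw [h4] at h2
        omega
      have h5 := h (g v) v ⟨h3, Or.inr (Or.inl ⟨hv', rfl⟩)⟩
      rw [← h0 (g v) h2]
      exact ((hG _ _ h5.ne).1 h5).symm
  · intro h u v huv
    exact (hG _ _ (f.injective.ne huv.ne)).2 ((h u).trans (h v).symm)

end EmbPEAux

open EmbPEAux in
theorem embPE : SEmbPE := by
  classical
  intro k t n g hk ht hatt G P hG
  unfold MC SD
  set s0 : Fin t := ⟨0, (Nat.zero_lt_of_lt ht)⟩ with hs0
  rw [Finset.card_eq_sum_card_fiberwise (f := fun f : Fin t ↪ Fin n => P (f s0))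
    (t := (Finset.univ : Finset (Fin (k - 1)))) (fun _ _ => Finset.mem_coe.2 (Finset.mem_univ _))]
  refine Finset.sum_congr rfl fun c _ => ?_
  refine Pool.Agent.N412.LB.EmbPAux.card_emb (pt P c) _ fun f => ?_
  rw [Finset.mem_filter, Finset.mem_filter]
  constructor
  · rintro ⟨⟨-, h1⟩, h2⟩ i
    rcases h1 with h1 | h1
    · have h3 := (red_iff hk ht hatt hG f).1 h1 i
      unfold pt
      rw [Finset.mem_filter]
      exact ⟨Finset.mem_univ _, h3.trans h2⟩
    · exact (no_blue hk ht hG f h1).elim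
  · intro h
    have h' : ∀ i, P (f i) = c := fun i => by
      have h1 := h i
      unfold pt at h1
      rw [Finset.mem_filter] at h1
      exact h1.2
    exact ⟨⟨Finset.mem_univ _,
      Or.inl ((red_iff hk ht hatt hG f).2 fun i => (h' i).trans (h' _).symm)⟩, h' _⟩

end Pool.Agent.N412.PE
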