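import Pool.Agent.N412.LB.Stm

/-!
Project PEND (helper412), problem MP_333fa2_co: a complete graph `K_k` with at least polynomially
many pendant edges is a two-colour bonbon: definitions and statements of the parts.  The constants
are explicit because the final threshold has to be a polynomial in `k`.
Built on project LP (`Pool.Agent.W297.LP`) and project BONBON (`Pool.Agent.N412.LB`).
-/

set_option autoImplicit false

open Finset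

namespace Pool.Agent.N412.PE

open Pool.Agent.W297.LP Pool.Agent.N412.LB

/-- the star with `a` edges, rooted at its centre -/
def star : ℕ → Tr
  | 0 => .pt
  | a + 1 => .br (star a) .pt

/-- stars attached to the vertices of the clique -/
def St {k : ℕ} (a : Fin k → ℕ) : Fin k → Tr := fun i => star (a i)

/-- `K_k` with pendant edges: clique `0,…,k-1`, the vertex `v ≥ k` is a leaf attached to `g v` -/
def Pg (k t : ℕ) (g : Fin t → Fin t) : SimpleGraph (Fin t) where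
  Adj u v := u ≠ v ∧ ((u.val < k ∧ v.val < k) ∨ (k ≤ v.val ∧ g v = u) ∨ (k ≤ u.val ∧ g u = v))
  symm := ⟨by
    intro u v h
    refine ⟨h.1.symm, ?_⟩
    rcases h.2 with h | h | h
    · exact Or.inl ⟨h.2, h.1⟩
    · exact Or.inr (Or.inr h)
    · exact Or.inr (Or.inl h)⟩
  loopless := ⟨fun _ h => h.1 rfl⟩

/-- the leaves are attached to the clique -/
def Att (k t : ℕ) (g : Fin t → Fin t) : Prop := ∀ v : Fin t, k ≤ v.val → (g v).val < k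

open Classical in
/-- number of leaves at the clique vertex `i` -/
noncomputable def al (k t : ℕ) (g : Fin t → Fin t) : Fin k → ℕ := fun i =>
  (univ.filter (fun v : Fin t => k ≤ v.val ∧ (g v).val = i.val)).card

/-! ### constants -/

noncomputable def ek (k : ℕ) : ℝ := mu k ^ 3 / 100
noncomputable def dk (k : ℕ) : ℝ := mu k ^ 8 / 10 ^ 9
noncomputable def c3k (k : ℕ) : ℝ := mu k ^ 3 / 1000
noncomputable def ck (k : ℕ) : ℝ := (mu k ^ 3 / 800) ^ k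
noncomputable def cuk (k : ℕ) : ℝ := ck k * (c3k k / (1 + c3k k)) / 2
/-- closeness needed for the local part -/
noncomputable def nk (k : ℕ) : ℝ := mu k ^ 11 / 10 ^ 12
/-- relative excess of the degrees -/
noncomputable def xk (k : ℕ) : ℝ := nk k ^ 2 / 1000
/-- clique densities -/
noncomputable def hk (k : ℕ) : ℝ := (xk k * mu k / 4 ^ (k + 1)) ^ k

open Classical in
/-- vertices of large degree -/
noncomputable def Dh {V : Type} [Fintype V] (W : V → V → ℝ) (s : ℝ) : Finset V :=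
  univ.filter (fun x => s ≤ dg W x)

/-! ### stability -/

/-- RAM -/
def SRamE : Prop := ∀ (k : ℕ) (V : Type) [Fintype V] (W : V → V → ℝ), Ker W → ∀ D : Finset V,
  (D.card : ℝ) ^ k ≤ ((4 : ℝ) ^ k) ^ k * (((cl W D k).card : ℝ) + ((cl (co W) D k).card : ℝ))

/-- DENS -/
def SDensE : Prop := ∀ k : ℕ, 4 ≤ k → ∀ h : ℝ, 0 < h → h ≤ mu k →
  ∀ (V : Type) [Fintype V] (W : V → V → ℝ), Ker W → 0 < Fintype.card V → ∀ D : Finset V,
    ((cl W D k).card : ℝ) < (mu k * h) ^ k * (Fintype.card V : ℝ) ^ k →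
    ee W D D ≤ (1 - mu k) * (ms D) ^ 2 + h

/-- DICH: from RAM, DENS -/
def SDichE : Prop := ∀ k : ℕ, 4 ≤ k → ∀ (V : Type) [Fintype V] [DecidableEq V] (W : V → V → ℝ),
  Ker W → 0 < Fintype.card V →
  ((cl W (Dh W ((1 + xk k) * mu k)) k).card : ℝ) ≤ hk k * (Fintype.card V : ℝ) ^ k →
  ((cl (co W) (Dh (co W) ((1 + xk k) * mu k)) k).card : ℝ) ≤ hk k * (Fintype.card V : ℝ) ^ k →
  (1 - 40 * xk k ≤ ms (Dh (co W) ((1 + xk k) * mu k)) ∧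
      ms (Dh W ((1 + xk k) * mu k)) ≤ 41 * xk k) ∨
    (1 - 40 * xk k ≤ ms (Dh W ((1 + xk k) * mu k)) ∧
      ms (Dh (co W) ((1 + xk k) * mu k)) ≤ 41 * xk k)

/-- FUR: Furedi's stability argument for kernels with few cliques -/
def SFurE : Prop := ∀ (r : ℕ), 1 ≤ r → ∀ (η θ : ℝ), 0 ≤ η → 0 < θ → θ ≤ 1 →
  ∀ (V : Type) [Fintype V] [DecidableEq V] (W : V → V → ℝ), Ker W → 0 < Fintype.card V →
  ∀ D : Finset V, ((cl W D (r + 1)).card : ℝ) ≤ η * (Fintype.card V : ℝ) ^ (r + 1) →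
    ∃ U : Fin r → Finset V, (∀ i j, i ≠ j → Disjoint (U i) (U j)) ∧ (∀ i, U i ⊆ D) ∧
      (∀ x ∈ D, ∃ i, x ∈ U i) ∧
      ee W D D + ∑ i, ee W (U i) (U i) ≤
        (ms D) ^ 2 - ∑ i, (ms (U i)) ^ 2 + 2 * r * θ + 2 * η / θ ^ r

/-- NEAR: from FUR -/
def SNearE : Prop := ∀ k : ℕ, 4 ≤ k → ∀ (V : Type) [Fintype V] [DecidableEq V] (W : V → V → ℝ),
  Ker W → 0 < Fintype.card V →
  ((cl (co W) (Dh (co W) ((1 + xk k) * mu k)) k).card : ℝ) ≤ hk k * (Fintype.card V : ℝ) ^ k →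
  1 - 40 * xk k ≤ ms (Dh (co W) ((1 + xk k) * mu k)) →
  ms (Dh W ((1 + xk k) * mu k)) ≤ 41 * xk k → Near k (nk k) W

/-- TYP -/
def STypE : Prop := ∀ k : ℕ, 4 ≤ k → ∀ (V : Type) [Fintype V] [DecidableEq V] (W : V → V → ℝ),
  Ker W → 0 < Fintype.card V → Near k (nk k) W →
  ∃ (Vi : Fin (k - 1) → Finset V) (A1 A2 : Finset V), Typ k (ek k) (dk k) W Vi A1 A2

/-- COST -/
def SCostE : Prop := ∀ k : ℕ, 4 ≤ k → ∀ (V : Type) [Fintype V] [DecidableEq V] (W : V → V → ℝ)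
  (Vi : Fin (k - 1) → Finset V) (A1 A2 : Finset V), Ker W → 0 < Fintype.card V →
  Typ k (ek k) (dk k) W Vi A1 A2 → ∀ a : Fin k → ℕ,
    ck k * (bl W Vi + ms A2) * (3 / 5 : ℝ) ^ (∑ i, a i) ≤ lol (co W) (St a)

/-- normalised red degree into the set `A` -/
noncomputable def ra {V : Type} [Fintype V] (W : V → V → ℝ) (A : Finset V) (x : V) : ℝ :=
  (∑ y ∈ A, W x y) / (Fintype.card V : ℝ)

/-- GA: inside one part -/
def SGaE : Prop := ∀ k : ℕ, 4 ≤ k → ∀ (V : Type) [Fintype V] [DecidableEq V] (W : V → V → ℝ)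
  (D A : Finset V), Ker W → 0 < Fintype.card V → Disjoint D A →
  |ms D - mu k| ≤ dk k → ms A ≤ dk k →
  (∀ x ∈ D, ∑ y ∈ D, co W x y ≤ ek k * (Fintype.card V : ℝ)) →
  ee (co W) D D ≤ c3k k * dk k → ∀ a : Fin k → ℕ,
    (ms D) ^ ((∑ i, a i) + k) *
      Real.exp ((((∑ i, a i : ℕ) : ℝ) * ((1 - mu k / 20) * ee W D A - 3 * ee (co W) D D) -
        2 * (k : ℝ) ^ 2 * ee (co W) D D) / (ms D) ^ 2) ≤
    (∑ x ∈ cl W D k, ∏ i, (dg W (x i)) ^ (a i)) / (Fintype.card V : ℝ) ^ k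

/-- GB: weights -/
def SGbE : Prop := ∀ (k s : ℕ), 4 ≤ k → 2 ≤ s → ∀ (v c : Fin (k - 1) → ℝ), (∀ i, 0 < v i) →
  (s : ℝ) * Real.log (∑ i, v i) + ((s : ℝ) - 1) * Real.log (mu k) +
    (∑ i, c i) / ∑ i, (v i) ^ 2 ≤ Real.log (∑ i, (v i) ^ s * Real.exp (c i / (v i) ^ 2))

/-- GC: from GA, GB -/
def SGainE : Prop := ∀ k : ℕ, 4 ≤ k → ∀ (V : Type) [Fintype V] [DecidableEq V] (W : V → V → ℝ)
  (Vi : Fin (k - 1) → Finset V) (A1 A2 : Finset V), Ker W → 0 < Fintype.card V →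
  Typ k (ek k) (dk k) W Vi A1 A2 → bl W Vi + ms A2 ≤ c3k k * ms A1 → 0 < ms A1 →
  ∀ a : Fin k → ℕ, 20 * k ^ 2 ≤ ∑ i, a i →
    mu k ^ ((∑ i, a i) + (k - 1)) * (1 + ms A1) ≤ lol W (St a)

/-- the numerical conditions on the number `m` of pendant edges -/
def Big (k m : ℕ) : Prop := (1 / (1 + xk k)) ^ m ≤ hk k ∧
  ((k : ℝ) ^ 2 + m) * (2 / 5 : ℝ) ^ m ≤ cuk k * (3 / 5 : ℝ) ^ m ∧ 1000 * k ^ 3 ≤ m

/-- NUM -/
def SNumE : Prop := ∃ C : ℕ, ∀ k : ℕ, 4 ≤ k → ∀ m : ℕ, C * k ^ 30 ≤ m → Big k m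

/-- STAB -/
def SStabE : Prop := ∀ k : ℕ, 4 ≤ k → ∀ a : Fin k → ℕ, Big k (∑ i, a i) → ∀ δ : ℝ, 0 < δ →
  ∃ (η : ℝ) (n0 : ℕ), 0 < η ∧ ∀ (V : Type) [Fintype V] (W : V → V → ℝ), Ker W →
    n0 ≤ Fintype.card V →
    lol W (St a) + lol (co W) (St a) ≤ mu k ^ ((∑ i, a i) + (k - 1)) + η →
      Near k δ W ∨ Near k δ (co W)

/-! ### the finite part -/

/-- LPF -/
def SLpfE : Prop := ∀ (k t : ℕ) (g : Fin t → Fin t), 4 ≤ k → k < t → Att k t g →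
  (Pg k t g).Connected ∧ (Pg k t g).chromaticNumber = (k : ℕ∞) ∧
  ∃ S : Finset (Fin t), S.card = k ∧ (∀ u ∈ S, ∀ v ∈ S, u ≠ v → (Pg k t g).Adj u v) ∧
    (Pg k t g).edgeSet.ncard = k.choose 2 + (t - k)

open Classical in
/-- HOM -/
def SHomE : Prop := ∀ (k t : ℕ) (g : Fin t → Fin t), 4 ≤ k → k < t → Att k t g →
  (∑ i, al k t g i) + k = t ∧ ∀ (V : Type) [Fintype V] (W : V → V → ℝ), Ker W →
    (((Finset.univ : Finset (Fin t → V)).filter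
      (fun f => ∀ u v, (Pg k t g).Adj u v → W (f u) (f v) = 1)).card : ℝ) =
      lol W (St (al k t g)) * (Fintype.card V : ℝ) ^ t

/-- HOMC: from HOM -/
def SHomcE : Prop := ∀ (k t : ℕ) (g : Fin t → Fin t), 4 ≤ k → k < t → Att k t g →
  ∀ n : ℕ, 0 < n → ∀ G : SimpleGraph (Fin n),
    (lol (ad G) (St (al k t g)) + lol (co (ad G)) (St (al k t g))) * (n : ℝ) ^ t ≤
      (MC (Pg k t g) G : ℝ) + 2 * (t : ℝ) ^ 2 * (n : ℝ) ^ (t - 1)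

/-- UPB: from UP, LPF -/
def SUpbE : Prop := ∀ (k t : ℕ) (g : Fin t → Fin t), 4 ≤ k → k < t → Att k t g → ∀ ε : ℝ, 0 < ε →
  ∃ N : ℕ, ∀ n : ℕ, N ≤ n → ∃ G : SimpleGraph (Fin n),
    (MC (Pg k t g) G : ℝ) ≤ (mu k ^ (t - 1) + ε) * (n : ℝ) ^ t

/-- CNTL: red copies with the vertex `x` as a leaf -/
def SCntL : Prop := ∀ (k t : ℕ) (g : Fin t → Fin t), 4 ≤ k → k < t → Att k t g →
  ∀ ε : ℝ, 0 < ε → ε ≤ mu k → ∃ (δ : ℝ) (N : ℕ), 0 < δ ∧ ∀ n : ℕ, N ≤ n →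
  ∀ (G : SimpleGraph (Fin n)) (P : Fin n → Fin (k - 1)), NearP k δ G P → ∀ x, ε * n ≤ rd G x →
    ((t : ℝ) - k) * ((rd G x : ℝ) - ε * n) * ((mu k - ε) * n) ^ (t - 2) ≤ cx (Pg k t g) G x

/-- CNTB: blue copies with the vertex `x` in the clique -/
def SCntBE : Prop := ∀ (k t : ℕ) (g : Fin t → Fin t), 4 ≤ k → k < t → Att k t g →
  ∀ ε : ℝ, 0 < ε → ε ≤ 1 / 10 → ∃ (δ : ℝ) (N : ℕ), 0 < δ ∧ ∀ n : ℕ, N ≤ n →
  ∀ (G : SimpleGraph (Fin n)) (P : Fin n → Fin (k - 1)), NearP k δ G P → ∀ x,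
    (rd G x : ℝ) ≤ 2 / 5 * n → (∀ j, ε * n ≤ bp G P j x) →
      (∏ j, ((bp G P j x : ℝ) - ε * n)) * ((3 / 5 - ε) * n) ^ (t - k) ≤ cx (Pg k t g) G x

/-- PAT -/
def SPatE : Prop := ∀ (k t : ℕ) (g : Fin t → Fin t), 4 ≤ k → Att k t g → 1000 * k ^ 3 + k ≤ t →
  ∃ (δ : ℝ) (N : ℕ), 0 < δ ∧
  ∀ n : ℕ, N ≤ n → ∀ (G : SimpleGraph (Fin n)) (P : Fin n → Fin (k - 1)), Opt (Pg k t g) G →
    NearP k δ G P → ∀ x, ∃ j, (bp G P j x : ℝ) ≤ mu k / (32 * k) * n ∧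
      ∑ i ∈ univ.erase j, (rp G P i x : ℝ) ≤ mu k / (32 * k) * n

/-- COMPR -/
def SCompRE : Prop := ∀ (k t : ℕ) (g : Fin t → Fin t), 4 ≤ k → k < t → Att k t g →
  ∃ N : ℕ, ∀ n : ℕ, N ≤ n → ∀ (G : SimpleGraph (Fin n)) (P : Fin n → Fin (k - 1)), Str k G P →
    (SD t P : ℝ) + nb G P ≤
      ER (Pg k t g) G + (t : ℝ) ^ 2 * na G P * ((21 / 20 * mu k) * n) ^ (t - 2)

/-- COMPB -/
def SCompBE : Prop := ∀ (k t : ℕ) (g : Fin t → Fin t), 4 ≤ k → k < t → Att k t g →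
  ∃ N : ℕ, ∀ n : ℕ, N ≤ n → ∀ (G : SimpleGraph (Fin n)) (P : Fin n → Fin (k - 1)), Str k G P →
    (na G P : ℝ) * ((mu k / 2) * n) ^ (k - 2) * ((1 - 5 / 4 * mu k) * n) ^ (t - k) ≤
      ER (Pg k t g) Gᶜ

/-- COMP: from COMPR, COMPB -/
def SCompE : Prop := ∀ (k t : ℕ) (g : Fin t → Fin t), 4 ≤ k → Att k t g → 1000 * k ^ 3 + k ≤ t →
  ∃ N : ℕ, ∀ n : ℕ, N ≤ n → ∀ (G : SimpleGraph (Fin n)) (P : Fin n → Fin (k - 1)), Str k G P →
    SD t P ≤ MC (Pg k t g) G ∧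
    (MC (Pg k t g) G ≤ SD t P → ∀ x y, x ≠ y → (G.Adj x y ↔ P x = P y))

/-- EMBP -/
def SEmbPE : Prop := ∀ (k t n : ℕ) (g : Fin t → Fin t), 4 ≤ k → k < t → Att k t g →
  ∀ (G : SimpleGraph (Fin n)) (P : Fin n → Fin (k - 1)),
    (∀ x y, x ≠ y → (G.Adj x y ↔ P x = P y)) → MC (Pg k t g) G = SD t P

/-- `H` is obtained from `K_k` by adding pendant edges -/
def Pend (k : ℕ) {t : ℕ} (H : SimpleGraph (Fin t)) : Prop :=
  ∃ S : Finset (Fin t), S.card = k ∧ (∀ u ∈ S, ∀ v ∈ S, u ≠ v → H.Adj u v) ∧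
    ∀ v, v ∉ S → ∃ u ∈ S, ∀ w, H.Adj v w ↔ w = u

/-- CANON -/
def SCanon : Prop := ∀ (k t : ℕ) (H : SimpleGraph (Fin t)), 4 ≤ k → k < t → Pend k H →
  ∃ g : Fin t → Fin t, Att k t g ∧ (Bonbon (Pg k t g) → Bonbon H)

/-- MAIN -/
def SMainE : Prop := ∃ C : ℕ, ∀ k : ℕ, 4 ≤ k → ∀ t : ℕ, C * k ^ 30 ≤ t →
  ∀ H : SimpleGraph (Fin t), Pend k H → Bonbon H

end Pool.Agent.N412.PE
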