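import Pool.Agent.N412.LB.Fin
import Pool.Agent.N412.PE.Stm

/-!
Project PEND (helper412), part FIN: the final assembly from the parts.
-/

set_option autoImplicit false

open Finset

namespace Pool.Agent.N412.PE

open Pool.Agent.W297.LP Pool.Agent.N412.LB Pool.Agent.N412.LB.FinAux

theorem bonE (hStab : SStabE) (hLpf : SLpfE) (hHom0 : SHomE) (hHomc : SHomcE) (hUpb : SUpbE)
    (hPat : SPatE) (hRep : SRep) (hComp : SCompE) (hEmb : SEmbPE) (hBal : SBal) (hIso : SIso)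
    (hInv : SInv) (k t : ℕ) (g : Fin t → Fin t) (hk : 4 ≤ k) (hg : Att k t g)
    (hkt : k ≤ t) (hbig : Big k (t - k)) : Bonbon (Pg k t g) := by
  have hk3 : 0 < k ^ 3 := by positivity
  have ht3 : 1000 * k ^ 3 + k ≤ t := by
    have := hbig.2.2
    omega
  have ht1 : k < t := by omega
  obtain ⟨hcon, hchr, -⟩ := hLpf k t g hk ht1 hg
  obtain ⟨δ2, N2, hδ2, hRep⟩ := hRep k hk
  refine ⟨hcon, k - 1, ?_, ?_⟩
  · rw [hchr]
    congr 1
    omega
  have hm := mu_pos hk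
  obtain ⟨T, hTdef⟩ : ∃ T : Fin k → Tr, T = St (al k t g) := ⟨_, rfl⟩
  have hHom := hHomc k t g hk ht1 hg
  have htot : (∑ i, al k t g i) + k = t := (hHom0 k t g hk ht1 hg).1
  have hbig' : Big k (∑ i, al k t g i) := by
    have : (∑ i, al k t g i) = t - k := by omega
    rw [this]
    exact hbig
  rw [← hTdef] at hHom
  obtain ⟨δ1, N1, hδ1, hPat⟩ := hPat k t g hk hg ht3
  obtain ⟨N3, hComp⟩ := hComp k t g hk hg ht3
  obtain ⟨N4, hBal⟩ := hBal k t hk (by omega)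
  obtain ⟨δ, hδdef⟩ : ∃ δ : ℝ, δ = min δ1 δ2 / 2 := ⟨_, rfl⟩
  have hδ : 0 < δ := by rw [hδdef]; exact half_pos (lt_min hδ1 hδ2)
  have hδa : 2 * δ ≤ δ1 := by
    have := min_le_left δ1 δ2
    linarith
  have hδb : 2 * δ ≤ δ2 := by
    have := min_le_right δ1 δ2
    linarith
  obtain ⟨η, n0, hη, hStab⟩ := hStab k hk (al k t g) hbig' δ hδ
  rw [← hTdef] at hStab
  obtain ⟨N5, hUpb⟩ := hUpb k t g hk ht1 hg (η / 2) (by linarith)
  -- monotonicity of NearP
  have hmono : ∀ {n : ℕ} {d d' : ℝ} (G : SimpleGraph (Fin n)) (P : Fin n → Fin (k - 1)), d ≤ d' →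
      NearP k d G P → NearP k d' G P := by
    intro n d d' G P hdd h
    refine ⟨fun i => (h.1 i).trans (mul_le_mul_of_nonneg_right hdd (Nat.cast_nonneg _)),
      h.2.trans (mul_le_mul_of_nonneg_right hdd (by positivity))⟩
  obtain ⟨N6, hN6⟩ := exists_nat_ge (4 * (t : ℝ) ^ 2 / η)
  obtain ⟨N7, hN7⟩ := exists_nat_ge (1 / δ)
  refine ⟨max 1 (max n0 (max N1 (max N2 (max N3 (max N4 (max N5 (max N6 N7))))))), fun n hn => ?_⟩
  simp only [max_le_iff] at hn
  obtain ⟨hn1, hn2, hn3, hn4, hn5, hn6, hn7, hn8, hn9⟩ := hn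
  have hn' : (0 : ℝ) < (n : ℝ) := by exact_mod_cast hn1
  -- the structure of optimal colourings close to the Turan colouring
  have key0 : ∀ (G : SimpleGraph (Fin n)) (P : Fin n → Fin (k - 1)), Opt (Pg k t g) G →
      NearP k (2 * δ) G P → Nonempty (Gᶜ ≃g SimpleGraph.turanGraph n (k - 1)) := by
    intro G P hopt hP
    have h1 := hPat n hn3 G P hopt (hmono G P hδa hP)
    obtain ⟨P', hP'⟩ := hRep n hn4 G P (hmono G P hδb hP) h1
    obtain ⟨-, h2⟩ := hComp n hn5 G P' hP'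
    have hcg : ∀ Q : Fin n → Fin (k - 1), MC (Pg k t g) (cg Q) = SD t Q := by
      intro Q
      exact hEmb k t n g hk ht1 hg (cg Q) Q fun x y hxy => ⟨fun h => h.2, fun h => ⟨hxy, h⟩⟩
    have h3 : ∀ x y, x ≠ y → (G.Adj x y ↔ P' x = P' y) := by
      apply h2
      rw [← hcg P']
      exact hopt _
    have h4 : MC (Pg k t g) G = SD t P' := hEmb k t n g hk ht1 hg G P' h3
    have h5 : ∀ i j, (pt P' i).card ≤ (pt P' j).card + 1 := by
      apply hBal n hn6 P' hP'.1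
      intro Q
      rw [← h4, ← hcg Q]
      exact hopt _
    exact hIso (k - 1) n (by omega) P' h5 G h3
  have key : ∀ G : SimpleGraph (Fin n), Opt (Pg k t g) G →
      (Nonempty (G ≃g SimpleGraph.turanGraph n (k - 1)) ∨
        Nonempty (Gᶜ ≃g SimpleGraph.turanGraph n (k - 1))) := by
    intro G hopt
    obtain ⟨Gu, hGu⟩ := hUpb n hn7
    have h1 := hHom n hn1 G
    have h2 : (MC (Pg k t g) G : ℝ) ≤ MC (Pg k t g) Gu := by exact_mod_cast hopt Gu
    have h3 : 2 * (t : ℝ) ^ 2 * (n : ℝ) ^ (t - 1) ≤ η / 2 * (n : ℝ) ^ t := by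
      have e1 : (n : ℝ) ^ t = (n : ℝ) ^ (t - 1) * n := by
        rw [← pow_succ]
        congr 1
        omega
      have e2 : 4 * (t : ℝ) ^ 2 ≤ η * n := by
        have e3 : 4 * (t : ℝ) ^ 2 / η ≤ n := hN6.trans (by exact_mod_cast hn8)
        rw [div_le_iff₀ hη] at e3
        linarith
      have e4 : 0 ≤ (n : ℝ) ^ (t - 1) := by positivity
      rw [e1]
      nlinarith
    have h4 : (lol (ad G) T + lol (co (ad G)) T) * (n : ℝ) ^ t ≤
        (mu k ^ (t - 1) + η) * (n : ℝ) ^ t := by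
      have e5 : (mu k ^ (t - 1) + η) * (n : ℝ) ^ t =
        (mu k ^ (t - 1) + η / 2) * (n : ℝ) ^ t + η / 2 * (n : ℝ) ^ t := by ring
      linarith
    have h5 := le_of_mul_le_mul_right h4 (by positivity)
    have h6 : (∑ i, al k t g i) + (k - 1) = t - 1 := by omega
    rw [← h6] at h5
    rcases hStab (Fin n) (ad G) (ker_ad G) (by rw [Fintype.card_fin]; exact hn2) h5 with hN | hN
    · obtain ⟨P, hP⟩ := nearP_of hn1 hN
      exact Or.inr (key0 G P hopt (hmono G P (by linarith) hP))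
    · have h7 : 1 ≤ δ * n := by
        have e3 : 1 / δ ≤ n := hN7.trans (by exact_mod_cast hn9)
        rw [div_le_iff₀ hδ] at e3
        linarith
      obtain ⟨P, hP⟩ := nearP_of_co hn1 h7 hN
      have h8 := key0 Gᶜ P (opt_compl hInv hopt) hP
      rw [compl_compl] at h8
      exact Or.inl h8
  intro G
  refine ⟨key G, fun h => ?_⟩
  obtain ⟨G0, hG0⟩ := exists_opt (n := n) (Pg k t g)
  have e1 : ∀ G1 : SimpleGraph (Fin n), (Nonempty (G1 ≃g SimpleGraph.turanGraph n (k - 1)) ∨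
        Nonempty (G1ᶜ ≃g SimpleGraph.turanGraph n (k - 1))) →
      MC (Pg k t g) G1 = MC (Pg k t g) (SimpleGraph.turanGraph n (k - 1)) := by
    intro G1 h1
    rcases h1 with h1 | h1
    · exact (hInv t n (Pg k t g) G1 _).2 h1
    · rw [← (hInv t n (Pg k t g) G1 G1).1]
      exact (hInv t n (Pg k t g) G1ᶜ _).2 h1
  intro G'
  rw [e1 G h, ← e1 G0 (key G0 hG0)]
  exact hG0 G'

theorem mainE (hStab : SStabE) (hLpf : SLpfE) (hHom0 : SHomE) (hHomc : SHomcE) (hUpb : SUpbE)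
    (hPat : SPatE) (hRep : SRep) (hComp : SCompE) (hEmb : SEmbPE) (hBal : SBal) (hIso : SIso)
    (hInv : SInv) (hCanon : SCanon) (hNum : SNumE) : SMainE := by
  obtain ⟨C, hC⟩ := hNum
  refine ⟨C + 1, fun k hk t ht H hH => ?_⟩
  have h1 : k ≤ k ^ 30 := Nat.le_self_pow (by norm_num) k
  have h2 : (C + 1) * k ^ 30 = C * k ^ 30 + k ^ 30 := by ring
  have h3 : C * k ^ 30 ≤ t - k := by omega
  have hbig := hC k hk (t - k) h3
  have hk3 : 0 < k ^ 3 := by positivity
  have h4 := hbig.2.2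
  have hkt : k < t := by omega
  obtain ⟨g, hg, hb⟩ := hCanon k t H hk hkt hH
  exact hb (bonE hStab hLpf hHom0 hHomc hUpb hPat hRep hComp hEmb hBal hIso hInv k t g hk hg
    hkt.le hbig)

end Pool.Agent.N412.PE
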