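import Pool.Agent.N412.PE.Stm

/-!
FUR: Furedi's stability argument for kernels with few cliques
-/

set_option autoImplicit false

open Finset

namespace Pool.Agent.N412.PE

open Pool.Agent.W297.LP Pool.Agent.N412.LB

namespace FurEAux

variable {V : Type} [Fintype V] [DecidableEq V] (W : V → V → ℝ)

/-- unnormalised number of pairs -/
noncomputable def e2 (P Q : Finset V) : ℝ := ∑ x ∈ P, ∑ y ∈ Q, W x y

open Classical in
/-- neighbours in `D` -/
noncomputable def nb2 (D : Finset V) (x : V) : Finset V := D.filter (fun y => W x y = 1)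

omit [Fintype V] [DecidableEq V] in
lemma nb2_sub (D : Finset V) (x : V) : nb2 W D x ⊆ D := filter_subset _ _

omit [Fintype V] [DecidableEq V] in
lemma card_nb2 (hW : Ker W) (D : Finset V) (x : V) : ((nb2 W D x).card : ℝ) = ∑ y ∈ D, W x y := by
  classical
  unfold nb2
  rw [card_eq_sum_ones, Nat.cast_sum, sum_filter]
  refine sum_congr rfl fun y _ => ?_
  rcases hW.zo x y with h | h <;> simp [h]

omit [DecidableEq V] in
lemma cons_count (hW : Ker W) (D : Finset V) (s : ℕ) :
    ∑ x ∈ D, (cl W (nb2 W D x) s).card ≤ (cl W D (s + 1)).card := by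
  classical
  rw [← card_sigma]
  refine card_le_card_of_injOn (fun p => (Fin.cons p.1 p.2 : Fin (s + 1) → V)) ?_ ?_
  · rintro ⟨x, f⟩ hp
    have hp' := mem_sigma.1 hp
    obtain ⟨hx, hf⟩ := hp'
    simp only at hx hf
    unfold cl at hf ⊢
    rw [mem_filter] at hf
    obtain ⟨-, h1, h2⟩ := hf
    have h3 : ∀ i, f i ∈ D ∧ W x (f i) = 1 := fun i => by
      have := h1 i
      unfold nb2 at this
      exact mem_filter.1 this
    rw [mem_coe, mem_filter]
    refine ⟨mem_univ _, fun i => ?_, fun i j hij => ?_⟩
    · refine Fin.cases ?_ (fun i => ?_) i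
      · simpa using hx
      · simpa using (h3 i).1
    · revert hij
      refine Fin.cases ?_ (fun i => ?_) i
      · refine Fin.cases ?_ (fun j => ?_) j
        · intro h; exact absurd rfl h
        · intro _
          simpa using (h3 j).2
      · refine Fin.cases ?_ (fun j => ?_) j
        · intro _
          simp only [Fin.cons_succ, Fin.cons_zero]
          rw [hW.symm]
          exact (h3 i).2
        · intro h
          simp only [Fin.cons_succ]
          exact h2 i j (fun h' => h (by rw [h']))
  · rintro ⟨x, f⟩ _ ⟨y, g⟩ _ h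
    simp only at h
    have h0 : x = y := by
      have := congrFun h 0
      simpa using this
    have h1 : f = g := by
      funext i
      have := congrFun h i.succ
      simpa using this
    rw [h0, h1]

omit [DecidableEq V] in
lemma card_cl_one (D : Finset V) : D.card ≤ (cl W D 1).card := by
  classical
  refine card_le_card_of_injOn (fun y => (fun _ => y : Fin 1 → V)) ?_ ?_
  · intro y hy
    unfold cl
    rw [mem_coe, mem_filter]
    refine ⟨mem_univ _, fun _ => hy, fun i j hij => absurd (Subsingleton.elim i j) hij⟩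
  · intro x _ y _ h
    exact congrFun h 0

omit [Fintype V] [DecidableEq V] in
lemma e2_nonneg (hW : Ker W) (P Q : Finset V) : 0 ≤ e2 W P Q :=
  sum_nonneg fun x _ => sum_nonneg fun y _ => by rcases hW.zo x y with h | h <;> simp [h]

omit [Fintype V] [DecidableEq V] in
lemma e2_le (hW : Ker W) (P Q : Finset V) : e2 W P Q ≤ (P.card : ℝ) * Q.card := by
  unfold e2
  calc ∑ x ∈ P, ∑ y ∈ Q, W x y ≤ ∑ _x ∈ P, ∑ _y ∈ Q, (1 : ℝ) := by
        refine sum_le_sum fun x _ => sum_le_sum fun y _ => ?_
        rcases hW.zo x y with h | h <;> simp [h]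
    _ = (P.card : ℝ) * Q.card := by simp

omit [Fintype V] in
lemma e2_split {D D' : Finset V} (hW : Ker W) (h : D' ⊆ D) :
    e2 W D D + e2 W (D \ D') (D \ D') = e2 W D' D' + 2 * e2 W (D \ D') D := by
  have h1 : ∀ x, ∑ y ∈ D, W x y = ∑ y ∈ D', W x y + ∑ y ∈ D \ D', W x y := fun x => by
    rw [add_comm]; exact (sum_sdiff h).symm
  have h2 : ∀ f : V → ℝ, ∑ x ∈ D, f x = ∑ x ∈ D', f x + ∑ x ∈ D \ D', f x := fun f => by
    rw [add_comm]; exact (sum_sdiff h).symm
  have h3 : ∑ x ∈ D', ∑ y ∈ D \ D', W x y = ∑ x ∈ D \ D', ∑ y ∈ D', W x y := by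
    rw [sum_comm]
    exact sum_congr rfl fun x _ => sum_congr rfl fun y _ => hW.symm _ _
  unfold e2
  simp only [h1, sum_add_distrib]
  rw [h2, h2 (fun x => ∑ y ∈ D \ D', W x y), h3]
  ring

/-- the unnormalised form -/
lemma main (hW : Ker W) (hN : 0 < Fintype.card V) {θ : ℝ} (hθ : 0 < θ) (hθ1 : θ ≤ 1) :
    ∀ (r : ℕ) (η : ℝ), 0 ≤ η → ∀ D : Finset V,
      ((cl W D (r + 2)).card : ℝ) ≤ η * (Fintype.card V : ℝ) ^ (r + 2) →
      ∃ U : Fin (r + 1) → Finset V, (∀ i j, i ≠ j → Disjoint (U i) (U j)) ∧ (∀ i, U i ⊆ D) ∧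
        (∀ x ∈ D, ∃ i, x ∈ U i) ∧
        e2 W D D + ∑ i, e2 W (U i) (U i) ≤ (D.card : ℝ) ^ 2 - ∑ i, ((U i).card : ℝ) ^ 2 +
          (2 * ((r : ℝ) + 1) * θ + 2 * η / θ ^ (r + 1)) * (Fintype.card V : ℝ) ^ 2 := by
  classical
  have hN0 : (0 : ℝ) < Fintype.card V := by exact_mod_cast hN
  intro r
  induction r with
  | zero =>
    intro η hη D hD
    refine ⟨fun _ => D, fun i j hij => absurd (Fin.ext (by omega)) hij, fun _ => Subset.rfl,
      fun x hx => ⟨0, hx⟩, ?_⟩
    have h1 : e2 W D D ≤ η * (Fintype.card V : ℝ) ^ 2 := by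
      calc e2 W D D = ∑ x ∈ D, ((nb2 W D x).card : ℝ) := by
            unfold e2
            exact sum_congr rfl fun x _ => (card_nb2 W hW D x).symm
        _ ≤ ∑ x ∈ D, ((cl W (nb2 W D x) 1).card : ℝ) :=
            sum_le_sum fun x _ => by exact_mod_cast card_cl_one W _
        _ ≤ ((cl W D 2).card : ℝ) := by exact_mod_cast cons_count W hW D 1
        _ ≤ _ := hD
    have h2 : η ≤ η / θ := by
      rw [le_div_iff₀ hθ]
      nlinarith
    have h3 : (0 : ℝ) ≤ (Fintype.card V : ℝ) ^ 2 := by positivity
    have hs : ∀ c : ℝ, ∑ _i : Fin (0 + 1), c = c := fun c => by simp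
    rw [hs, hs]
    simp only [zero_add, pow_one, Nat.cast_zero]
    have h4 : η * (Fintype.card V : ℝ) ^ 2 ≤ η / θ * (Fintype.card V : ℝ) ^ 2 :=
      mul_le_mul_of_nonneg_right h2 h3
    have h5 : 2 * η / θ = 2 * (η / θ) := by ring
    rw [h5]
    nlinarith [mul_nonneg hθ.le h3]
  | succ r ih =>
    intro η hη D hD
    have hsum : ∑ x ∈ D, ((cl W (nb2 W D x) (r + 2)).card : ℝ) ≤ η * (Fintype.card V : ℝ) ^ (r + 3) := by
      refine le_trans ?_ hD
      exact_mod_cast cons_count W hW D (r + 2)
    set bad : Finset V := D.filter (fun x => η / θ * (Fintype.card V : ℝ) ^ (r + 2) <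
      ((cl W (nb2 W D x) (r + 2)).card : ℝ)) with hbad
    have hbadc : (bad.card : ℝ) ≤ θ * Fintype.card V := by
      rcases hη.eq_or_lt with h0 | h0
      · have : bad = ∅ := by
          rw [hbad, filter_eq_empty_iff]
          intro x hx hlt
          rw [← h0] at hlt hsum
          have h1 := single_le_sum (f := fun x => ((cl W (nb2 W D x) (r + 2)).card : ℝ))
            (fun _ _ => Nat.cast_nonneg _) hx
          simp only [zero_div, zero_mul] at hlt hsum h1
          linarith
        rw [this]
        simp only [card_empty, Nat.cast_zero]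
        positivity
      · have h1 : (bad.card : ℝ) * (η / θ * (Fintype.card V : ℝ) ^ (r + 2)) ≤
            η * (Fintype.card V : ℝ) ^ (r + 3) := by
          refine le_trans ?_ hsum
          calc (bad.card : ℝ) * (η / θ * (Fintype.card V : ℝ) ^ (r + 2))
              = ∑ _x ∈ bad, (η / θ * (Fintype.card V : ℝ) ^ (r + 2)) := by simp
            _ ≤ ∑ x ∈ bad, ((cl W (nb2 W D x) (r + 2)).card : ℝ) :=
                sum_le_sum fun x hx => (mem_filter.1 hx).2.le
            _ ≤ ∑ x ∈ D, ((cl W (nb2 W D x) (r + 2)).card : ℝ) :=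
                sum_le_sum_of_subset_of_nonneg (filter_subset _ _) fun _ _ _ => Nat.cast_nonneg _
        have h2 : 0 < η / θ * (Fintype.card V : ℝ) ^ (r + 2) := by positivity
        have h3 : η * (Fintype.card V : ℝ) ^ (r + 3) =
            θ * Fintype.card V * (η / θ * (Fintype.card V : ℝ) ^ (r + 2)) := by
          field_simp
          ring
        rw [h3] at h1
        exact le_of_mul_le_mul_right h1 h2
    by_cases hall : D ⊆ bad
    · -- all vertices are bad
      have hDc : (D.card : ℝ) ≤ θ * Fintype.card V := by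
        refine le_trans ?_ hbadc
        exact_mod_cast card_le_card hall
      refine ⟨Fin.cons D (fun _ => ∅), ?_, ?_, ?_, ?_⟩
      · intro i j
        refine Fin.cases ?_ (fun i => ?_) i <;> refine Fin.cases ?_ (fun j => ?_) j <;> simp
      · intro i
        refine Fin.cases ?_ (fun i => ?_) i <;> simp
      · intro x hx
        exact ⟨0, by simpa using hx⟩
      · have hA : ∑ i : Fin (r + 1 + 1), e2 W ((Fin.cons D (fun _ => ∅) : Fin (r + 1 + 1) → Finset V) i)
            ((Fin.cons D (fun _ => ∅) : Fin (r + 1 + 1) → Finset V) i) = e2 W D D := by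
          rw [Fin.sum_univ_succ]
          simp [e2]
        have hB : ∑ i : Fin (r + 1 + 1), ((((Fin.cons D (fun _ => ∅) : Fin (r + 1 + 1) → Finset V) i).card : ℕ) : ℝ) ^ 2 =
            (D.card : ℝ) ^ 2 := by
          rw [Fin.sum_univ_succ]
          simp
        rw [hA, hB]
        have h2 := e2_le W hW D D
        have h3 : (D.card : ℝ) * D.card ≤ θ * (Fintype.card V : ℝ) ^ 2 := by
          have h4 : (D.card : ℝ) ≤ Fintype.card V := by exact_mod_cast card_le_univ D
          calc (D.card : ℝ) * D.card ≤ (θ * Fintype.card V) * Fintype.card V :=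
                mul_le_mul hDc h4 (Nat.cast_nonneg _) (by positivity)
            _ = _ := by ring
        have h5 : 0 ≤ 2 * η / θ ^ (r + 1 + 1) * (Fintype.card V : ℝ) ^ 2 := by positivity
        have h6 : 0 ≤ ((r : ℝ) + 1) * θ * (Fintype.card V : ℝ) ^ 2 := by positivity
        push_cast
        nlinarith
    · -- a good vertex
      have hgood : (D \ bad).Nonempty := by
        rw [sdiff_nonempty]
        exact hall
      obtain ⟨x1, hx1, hmax⟩ := exists_max_image (D \ bad) (fun x => (nb2 W D x).card) hgood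
      have hx1D : x1 ∈ D := (mem_sdiff.1 hx1).1
      have hx1g : ((cl W (nb2 W D x1) (r + 2)).card : ℝ) ≤ η / θ * (Fintype.card V : ℝ) ^ (r + 2) := by
        by_contra hcon
        push Not at hcon
        exact (mem_sdiff.1 hx1).2 (mem_filter.2 ⟨hx1D, hcon⟩)
      set D' := nb2 W D x1 with hD'
      have hsub : D' ⊆ D := nb2_sub W D x1
      obtain ⟨U, hdis, hUD, hcov, hineq⟩ := ih (η / θ) (by positivity) D' hx1g
      have hU0 : ∀ i, Disjoint (D \ D') (U i) := fun i =>
        disjoint_of_subset_right (hUD i) sdiff_disjoint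
      refine ⟨Fin.cons (D \ D') U, ?_, ?_, ?_, ?_⟩
      · intro i j
        refine Fin.cases ?_ (fun i => ?_) i
        · refine Fin.cases ?_ (fun j => ?_) j
          · intro h; exact absurd rfl h
          · intro _
            simpa using hU0 j
        · refine Fin.cases ?_ (fun j => ?_) j
          · intro _
            simpa using (hU0 i).symm
          · intro h
            simpa using hdis i j (fun h' => h (by rw [h']))
      · intro i
        refine Fin.cases ?_ (fun i => ?_) i
        · simp only [Fin.cons_zero]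
          exact sdiff_subset
        · simp only [Fin.cons_succ]
          exact (hUD i).trans hsub
      · intro x hx
        by_cases hxD : x ∈ D'
        · obtain ⟨i, hi⟩ := hcov x hxD
          exact ⟨i.succ, by simpa using hi⟩
        · exact ⟨0, by simpa using ⟨hx, hxD⟩⟩
      · have hA : ∑ i : Fin (r + 1 + 1), e2 W ((Fin.cons (D \ D') U : Fin (r + 1 + 1) → Finset V) i)
            ((Fin.cons (D \ D') U : Fin (r + 1 + 1) → Finset V) i) =
            e2 W (D \ D') (D \ D') + ∑ i, e2 W (U i) (U i) := by
          rw [Fin.sum_univ_succ]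
          simp
        have hB : ∑ i : Fin (r + 1 + 1), ((((Fin.cons (D \ D') U : Fin (r + 1 + 1) → Finset V) i).card : ℕ) : ℝ) ^ 2 =
            ((D \ D').card : ℝ) ^ 2 + ∑ i, ((U i).card : ℝ) ^ 2 := by
          rw [Fin.sum_univ_succ]
          simp
        rw [hA, hB]
        have hsplit := e2_split W hW hsub
        have hcard : (D.card : ℝ) = D'.card + (D \ D').card := by
          have := card_sdiff_add_card_eq_card hsub
          rw [← this]
          push_cast
          ring
        -- pairs from the first part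
        have hU0D : e2 W (D \ D') D ≤ ((D \ D').card : ℝ) * D'.card + θ * (Fintype.card V : ℝ) ^ 2 := by
          have h1 : ∀ x ∈ D \ D', ∑ y ∈ D, W x y ≤
              (D'.card : ℝ) + (if x ∈ bad then (Fintype.card V : ℝ) else 0) := by
            intro x hx
            rw [← card_nb2 W hW D x]
            split_ifs with hb
            · have h2 : ((nb2 W D x).card : ℝ) ≤ Fintype.card V := by exact_mod_cast card_le_univ _
              have h3 : (0 : ℝ) ≤ D'.card := Nat.cast_nonneg _
              linarith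
            · have h2 : ((nb2 W D x).card : ℝ) ≤ (D'.card : ℝ) := by
                exact_mod_cast hmax x (mem_sdiff.2 ⟨(mem_sdiff.1 hx).1, hb⟩)
              linarith
          calc e2 W (D \ D') D ≤ ∑ x ∈ D \ D', ((D'.card : ℝ) + (if x ∈ bad then (Fintype.card V : ℝ) else 0)) :=
                sum_le_sum h1
            _ = ((D \ D').card : ℝ) * D'.card + ∑ x ∈ (D \ D').filter (fun x => x ∈ bad), (Fintype.card V : ℝ) := by
                rw [sum_add_distrib, sum_filter]
                simp
            _ ≤ ((D \ D').card : ℝ) * D'.card + θ * (Fintype.card V : ℝ) ^ 2 := by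
                have h2 : (((D \ D').filter (fun x => x ∈ bad)).card : ℝ) ≤ bad.card := by
                  exact_mod_cast card_le_card (fun x hx => (mem_filter.1 hx).2)
                rw [sum_const, nsmul_eq_mul]
                nlinarith
        have hpow : 2 * (η / θ) / θ ^ (r + 1) = 2 * η / θ ^ (r + 1 + 1) := by
          rw [pow_succ θ (r + 1), ← mul_div_assoc, div_div, mul_comm θ]
        rw [hpow] at hineq
        rw [hcard]
        push_cast
        nlinarith

end FurEAux

theorem furE : SFurE := by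
  intro r hr η θ hη hθ hθ1 V _ _ W hW hN D hD
  obtain ⟨s, rfl⟩ : ∃ s, r = s + 1 := ⟨r - 1, by omega⟩
  obtain ⟨U, h1, h2, h3, h4⟩ := FurEAux.main W hW hN hθ hθ1 s η hη D hD
  refine ⟨U, h1, h2, h3, ?_⟩
  have hN0 : (0 : ℝ) < Fintype.card V := by exact_mod_cast hN
  have hN2 : (0 : ℝ) < (Fintype.card V : ℝ) ^ 2 := by positivity
  have e1 : ∀ P : Finset V, ee W P P = FurEAux.e2 W P P / (Fintype.card V : ℝ) ^ 2 := fun P => rfl
  have e2 : ∀ P : Finset V, (ms P) ^ 2 = (P.card : ℝ) ^ 2 / (Fintype.card V : ℝ) ^ 2 := fun P => by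
    unfold ms
    rw [div_pow]
  simp only [e1, e2]
  rw [← sum_div, ← sum_div, ← add_div, ← sub_div]
  rw [div_le_iff₀ hN2]
  refine h4.trans (le_of_eq ?_)
  push_cast
  field_simp
  ring

end Pool.Agent.N412.PE
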