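import Pool.Agent.N412.PE.Stm
import Pool.Agent.W604.LP.Part

/-!
Project PEND (helper412), problem MP_333fa2_co: part GA (helper362).
-/

set_option autoImplicit false

open Finset

namespace Pool.Agent.N412.PE

open Pool.Agent.W297.LP Pool.Agent.N412.LB

namespace GaEAux

open Pool.Agent.W604.LP (ker_nonneg ker_le_one be cl_card sum_two sum_one)

variable {V : Type} [Fintype V]

/-- normalised blue degree into `D` -/
noncomputable def bb (W : V → V → ℝ) (D : Finset V) (x : V) : ℝ :=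
  (∑ y ∈ D, co W x y) / (Fintype.card V : ℝ)

lemma co_nonneg {W : V → V → ℝ} (hW : Ker W) (x y : V) : 0 ≤ co W x y := by
  simp only [co]; linarith [ker_le_one hW x y]

omit [Fintype V] in
lemma co_symm {W : V → V → ℝ} (hW : Ker W) (x y : V) : co W x y = co W y x := by
  simp only [co]; rw [hW.symm x y]

lemma bb_nonneg {W : V → V → ℝ} (hW : Ker W) (D : Finset V) (x : V) : 0 ≤ bb W D x :=
  div_nonneg (sum_nonneg fun y _ => co_nonneg hW x y) (Nat.cast_nonneg _)

lemma ra_nonneg {W : V → V → ℝ} (hW : Ker W) (A : Finset V) (x : V) : 0 ≤ ra W A x :=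
  div_nonneg (sum_nonneg fun y _ => ker_nonneg hW x y) (Nat.cast_nonneg _)

lemma ra_le {W : V → V → ℝ} (hW : Ker W) (A : Finset V) (x : V) : ra W A x ≤ ms A := by
  apply div_le_div_of_nonneg_right _ (Nat.cast_nonneg _)
  calc ∑ y ∈ A, W x y ≤ ∑ y ∈ A, (1 : ℝ) := sum_le_sum fun y _ => ker_le_one hW x y
    _ = (A.card : ℝ) := by simp

lemma dg_ge [DecidableEq V] {W : V → V → ℝ} (hW : Ker W) (D A : Finset V) (hDA : Disjoint D A)
    (x : V) : ms D - bb W D x + ra W A x ≤ dg W x := by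
  simp only [ms, bb, ra, dg]
  rw [← sub_div, ← add_div]
  apply div_le_div_of_nonneg_right _ (Nat.cast_nonneg _)
  have h1 : ∑ y ∈ D, co W x y = (D.card : ℝ) - ∑ y ∈ D, W x y := by
    simp only [co]
    rw [sum_sub_distrib]
    simp
  have h2 : ∑ y ∈ D, W x y + ∑ y ∈ A, W x y ≤ ∑ y, W x y := by
    rw [← sum_union hDA]
    exact sum_le_sum_of_subset_of_nonneg (subset_univ _) fun y _ _ => ker_nonneg hW x y
  linarith

lemma expo {v d e a b : ℝ} (hv : 0 < v) (ha : 0 ≤ a) (had : a ≤ d) (hb : 0 ≤ b)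
    (hbe : b ≤ e) (hev : e < v) :
    v * Real.exp (a / (v + d) - b / (v - e)) ≤ v - b + a := by
  have hg : 0 < v - b + a := by linarith
  have h1 : 1 - (v - b + a)⁻¹ * v ≤ Real.log ((v - b + a) / v) := by
    have := Real.one_sub_inv_le_log_of_pos (div_pos hg hv)
    rwa [inv_div, div_eq_inv_mul] at this
  have h2 : a / (v + d) ≤ a / (v - b + a) :=
    div_le_div_of_nonneg_left ha hg (by linarith)
  have h3 : b / (v - b + a) ≤ b / (v - e) :=
    div_le_div_of_nonneg_left hb (by linarith) (by linarith)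
  have h4 : a / (v - b + a) - b / (v - b + a) = 1 - (v - b + a)⁻¹ * v := by
    field_simp
    ring
  have h5 : Real.exp (a / (v + d) - b / (v - e)) ≤ (v - b + a) / v := by
    calc Real.exp (a / (v + d) - b / (v - e)) ≤ Real.exp (Real.log ((v - b + a) / v)) := by
          apply Real.exp_le_exp.mpr
          linarith
      _ = (v - b + a) / v := Real.exp_log (div_pos hg hv)
  calc v * Real.exp (a / (v + d) - b / (v - e)) ≤ v * ((v - b + a) / v) :=
        mul_le_mul_of_nonneg_left h5 hv.le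
    _ = v - b + a := by field_simp

lemma one_sub_ge {t : ℝ} (h0 : 0 ≤ t) (h1 : t ≤ 1 / 2) : Real.exp (-(2 * t)) ≤ 1 - t := by
  have hp : 0 < 1 - t := by linarith
  have h2 := Real.one_sub_inv_le_log_of_pos hp
  have h3 : (1 - t)⁻¹ ≤ 1 + 2 * t := by
    rw [inv_le_comm₀ hp (by linarith)]
    rw [inv_eq_one_div, div_le_iff₀ (by linarith)]
    nlinarith
  calc Real.exp (-(2 * t)) ≤ Real.exp (Real.log (1 - t)) := by
        apply Real.exp_le_exp.mpr
        linarith
    _ = 1 - t := Real.exp_log hp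

lemma jensen {ι : Type} (S : Finset ι) (hS : 0 < S.card) (f : ι → ℝ) (r : ℝ)
    (h : (S.card : ℝ) * r ≤ ∑ x ∈ S, f x) :
    (S.card : ℝ) * Real.exp r ≤ ∑ x ∈ S, Real.exp (f x) := by
  have hS' : (0 : ℝ) < (S.card : ℝ) := by exact_mod_cast hS
  have h1 := convexOn_exp.map_sum_le (t := S) (w := fun _ => (S.card : ℝ)⁻¹) (p := f)
    (fun i _ => by positivity) (by simp [hS'.ne']) (fun i _ => Set.mem_univ _)
  simp only [smul_eq_mul, ← mul_sum] at h1
  have h2 : r ≤ (S.card : ℝ)⁻¹ * ∑ x ∈ S, f x := by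
    rw [← div_eq_inv_mul, le_div_iff₀ hS']
    linarith
  calc (S.card : ℝ) * Real.exp r ≤ (S.card : ℝ) * Real.exp ((S.card : ℝ)⁻¹ * ∑ x ∈ S, f x) :=
        mul_le_mul_of_nonneg_left (Real.exp_le_exp.mpr h2) hS'.le
    _ ≤ (S.card : ℝ) * ((S.card : ℝ)⁻¹ * ∑ x ∈ S, Real.exp (f x)) :=
        mul_le_mul_of_nonneg_left h1 hS'.le
    _ = ∑ x ∈ S, Real.exp (f x) := by
        rw [← mul_assoc, mul_inv_cancel₀ hS'.ne', one_mul]

open Classical in
lemma cl_eq {k : ℕ} (W : V → V → ℝ) (D : Finset V) :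
    cl W D k = (Fintype.piFinset (fun _ : Fin k => D)).filter
      (fun x => ∀ i j, i ≠ j → W (x i) (x j) = 1) := by
  ext x
  simp [cl, Fintype.mem_piFinset]

open Classical in
lemma cl_sub {k : ℕ} (W : V → V → ℝ) (D : Finset V) :
    cl W D k ⊆ Fintype.piFinset (fun _ : Fin k => D) := by
  rw [cl_eq]
  exact filter_subset _ _

open Classical in
lemma cl_le {k : ℕ} (W : V → V → ℝ) (D : Finset V) :
    ((cl W D k).card : ℝ) ≤ (D.card : ℝ) ^ k := by
  have h := card_le_card (cl_sub (k := k) W D)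
  have h3 : ((Fintype.piFinset (fun _ : Fin k => D)).card : ℝ) = (D.card : ℝ) ^ k := by
    simp [Fintype.card_piFinset]
  rw [← h3]
  exact_mod_cast h

open Classical in
/-- weighted union bound -/
lemma sumA {k : ℕ} {W : V → V → ℝ} (hW : Ker W) (D : Finset V) (hD : 0 < D.card) (f : V → ℝ)
    (F E d : ℝ) (hf0 : ∀ x, 0 ≤ f x) (hfd : ∀ x, f x ≤ d) (hE : 0 ≤ E)
    (hE' : ∀ x ∈ D, ∑ y ∈ D, co W x y ≤ E) (hF : ∑ x ∈ D, f x = F) (i : Fin k) :
    (D.card : ℝ) ^ k * (F / (D.card : ℝ) - 2 * (k : ℝ) * (E * F / (D.card : ℝ) ^ 2) -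
      (k : ℝ) ^ 2 * (d * be W D)) ≤ ∑ x ∈ cl W D k, f (x i) := by
  have hD' : (0 : ℝ) < (D.card : ℝ) := by exact_mod_cast hD
  have hbe : 0 ≤ be W D := by
    apply div_nonneg _ (by positivity)
    exact sum_nonneg fun x _ => sum_nonneg fun y _ => co_nonneg hW x y
  have hF0 : 0 ≤ F := by rw [← hF]; exact sum_nonneg fun x _ => hf0 x
  have hd0 : 0 ≤ d := by
    obtain ⟨x, _⟩ := card_pos.mp hD
    exact (hf0 x).trans (hfd x)
  have h1 : ∑ x ∈ Fintype.piFinset (fun _ : Fin k => D), f (x i) - ∑ x ∈ cl W D k, f (x i) ≤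
      ∑ x ∈ Fintype.piFinset (fun _ : Fin k => D),
        ∑ j : Fin k, ∑ l : Fin k, (if j ≠ l then f (x i) * co W (x j) (x l) else 0) := by
    rw [cl_eq, sum_filter, ← sum_sub_distrib]
    apply sum_le_sum
    intro x _
    have hnn : ∀ j l : Fin k, 0 ≤ (if j ≠ l then f (x i) * co W (x j) (x l) else 0) := by
      intro j l
      split_ifs
      · exact mul_nonneg (hf0 _) (co_nonneg hW _ _)
      · exact le_rfl
    by_cases hx : ∀ i j, i ≠ j → W (x i) (x j) = 1
    · rw [if_pos hx]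
      simp only [sub_self]
      exact sum_nonneg fun i _ => sum_nonneg fun j _ => hnn i j
    · rw [if_neg hx, sub_zero]
      push Not at hx
      obtain ⟨j, l, hij, hne⟩ := hx
      have hz : W (x j) (x l) = 0 := by
        rcases hW.zo (x j) (x l) with h | h
        · exact h
        · exact absurd h hne
      calc f (x i) = (if j ≠ l then f (x i) * co W (x j) (x l) else 0) := by
            rw [if_pos hij]; simp [co, hz]
        _ ≤ ∑ l : Fin k, (if j ≠ l then f (x i) * co W (x j) (x l) else 0) :=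
            single_le_sum (f := fun l => (if j ≠ l then f (x i) * co W (x j) (x l) else 0))
              (fun l _ => hnn j l) (mem_univ l)
        _ ≤ ∑ j : Fin k, ∑ l : Fin k, (if j ≠ l then f (x i) * co W (x j) (x l) else 0) :=
            single_le_sum
              (f := fun j => ∑ l : Fin k, (if j ≠ l then f (x i) * co W (x j) (x l) else 0))
              (fun j _ => sum_nonneg fun l _ => hnn j l) (mem_univ j)
  -- the three types of pairs
  have hD2 : (0 : ℝ) < (D.card : ℝ) ^ 2 := by positivity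
  have hDk : (0 : ℝ) ≤ (D.card : ℝ) ^ k := by positivity
  have hP : (0 : ℝ) ≤ (D.card : ℝ) ^ k * (E * F / (D.card : ℝ) ^ 2) := by positivity
  have hQ : (0 : ℝ) ≤ (D.card : ℝ) ^ k * (d * be W D) := by positivity
  have hT : ∀ j l : Fin k, ∑ x ∈ Fintype.piFinset (fun _ : Fin k => D),
      (if j ≠ l then f (x i) * co W (x j) (x l) else 0) ≤
      (if j = i then (D.card : ℝ) ^ k * (E * F / (D.card : ℝ) ^ 2) else 0) +
      (if l = i then (D.card : ℝ) ^ k * (E * F / (D.card : ℝ) ^ 2) else 0) +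
      (D.card : ℝ) ^ k * (d * be W D) := by
    intro j l
    have hnn1 : (0 : ℝ) ≤ (if j = i then (D.card : ℝ) ^ k * (E * F / (D.card : ℝ) ^ 2) else 0) := by
      split_ifs
      · exact hP
      · exact le_rfl
    have hnn2 : (0 : ℝ) ≤ (if l = i then (D.card : ℝ) ^ k * (E * F / (D.card : ℝ) ^ 2) else 0) := by
      split_ifs
      · exact hP
      · exact le_rfl
    by_cases hjl : j = l
    · subst hjl
      simp only [ne_eq, not_true_eq_false, if_false, sum_const_zero]
      linarith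
    · simp only [ne_eq, hjl, not_false_eq_true, if_true]
      by_cases hj : j = i
      · subst hj
        have h2 := sum_two D j l hjl (fun a b => f a * co W a b)
        have h3 : ∑ a ∈ D, ∑ b ∈ D, f a * co W a b ≤ E * F := by
          rw [← hF, mul_sum]
          apply sum_le_sum
          intro a ha
          rw [← mul_sum, mul_comm E]
          exact mul_le_mul_of_nonneg_left (hE' a ha) (hf0 a)
        have h4 : ∑ x ∈ Fintype.piFinset (fun _ : Fin k => D), f (x j) * co W (x j) (x l) ≤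
            (D.card : ℝ) ^ k * (E * F / (D.card : ℝ) ^ 2) := by
          rw [← mul_div_assoc, le_div_iff₀ hD2, mul_comm, h2]
          exact mul_le_mul_of_nonneg_left h3 hDk
        simp only [if_true]
        linarith
      · by_cases hl : l = i
        · subst hl
          have h2 := sum_two D j l hjl (fun a b => f b * co W a b)
          have h3 : ∑ a ∈ D, ∑ b ∈ D, f b * co W a b ≤ E * F := by
            rw [sum_comm, ← hF, mul_sum]
            apply sum_le_sum
            intro b hb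
            rw [← mul_sum, mul_comm E]
            apply mul_le_mul_of_nonneg_left _ (hf0 b)
            calc ∑ a ∈ D, co W a b = ∑ a ∈ D, co W b a := sum_congr rfl fun a _ => co_symm hW a b
              _ ≤ E := hE' b hb
          have h4 : ∑ x ∈ Fintype.piFinset (fun _ : Fin k => D), f (x l) * co W (x j) (x l) ≤
              (D.card : ℝ) ^ k * (E * F / (D.card : ℝ) ^ 2) := by
            rw [← mul_div_assoc, le_div_iff₀ hD2, mul_comm, h2]
            exact mul_le_mul_of_nonneg_left h3 hDk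
          simp only [if_true]
          linarith
        · have h2 := sum_two D j l hjl (co W)
          have h4 : ∑ x ∈ Fintype.piFinset (fun _ : Fin k => D), co W (x j) (x l) =
              (D.card : ℝ) ^ k * be W D := by
            rw [be]
            field_simp
            linarith
          calc ∑ x ∈ Fintype.piFinset (fun _ : Fin k => D), f (x i) * co W (x j) (x l)
              ≤ ∑ x ∈ Fintype.piFinset (fun _ : Fin k => D), d * co W (x j) (x l) := by
                apply sum_le_sum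
                intro x _
                exact mul_le_mul_of_nonneg_right (hfd _) (co_nonneg hW _ _)
            _ = (D.card : ℝ) ^ k * (d * be W D) := by
                rw [← mul_sum, h4]
                ring
            _ ≤ _ := by linarith
  have h2 : ∑ x ∈ Fintype.piFinset (fun _ : Fin k => D),
        ∑ j : Fin k, ∑ l : Fin k, (if j ≠ l then f (x i) * co W (x j) (x l) else 0) ≤
      2 * (k : ℝ) * ((D.card : ℝ) ^ k * (E * F / (D.card : ℝ) ^ 2)) +
        (k : ℝ) ^ 2 * ((D.card : ℝ) ^ k * (d * be W D)) := by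
    rw [sum_comm]
    calc ∑ j : Fin k, ∑ x ∈ Fintype.piFinset (fun _ : Fin k => D),
          ∑ l : Fin k, (if j ≠ l then f (x i) * co W (x j) (x l) else 0)
        ≤ ∑ j : Fin k, ∑ l : Fin k,
          ((if j = i then (D.card : ℝ) ^ k * (E * F / (D.card : ℝ) ^ 2) else 0) +
          (if l = i then (D.card : ℝ) ^ k * (E * F / (D.card : ℝ) ^ 2) else 0) +
          (D.card : ℝ) ^ k * (d * be W D)) := by
          apply sum_le_sum
          intro j _
          rw [sum_comm]
          apply sum_le_sum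
          intro l _
          exact hT j l
      _ = 2 * (k : ℝ) * ((D.card : ℝ) ^ k * (E * F / (D.card : ℝ) ^ 2)) +
        (k : ℝ) ^ 2 * ((D.card : ℝ) ^ k * (d * be W D)) := by
          simp only [sum_add_distrib, sum_const, card_univ, Fintype.card_fin, nsmul_eq_mul,
            sum_ite_eq', mem_univ, if_true]
          rw [← mul_sum]
          simp only [sum_ite_eq', mem_univ, if_true]
          ring
  have h3 : ∑ x ∈ Fintype.piFinset (fun _ : Fin k => D), f (x i) =
      (D.card : ℝ) ^ k * (F / (D.card : ℝ)) := by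
    have := sum_one D i f
    rw [hF] at this
    field_simp
    linarith
  rw [h3] at h1
  nlinarith [h1, h2]

open Classical in
lemma sumB {k : ℕ} {W : V → V → ℝ} (D : Finset V) (hD : 0 < D.card) (f : V → ℝ)
    (F : ℝ) (hf0 : ∀ x, 0 ≤ f x) (hF : ∑ x ∈ D, f x = F) (i : Fin k) :
    ∑ x ∈ cl W D k, f (x i) ≤ (D.card : ℝ) ^ k * (F / (D.card : ℝ)) := by
  have hD' : (0 : ℝ) < (D.card : ℝ) := by exact_mod_cast hD
  have h3 : ∑ x ∈ Fintype.piFinset (fun _ : Fin k => D), f (x i) =
      (D.card : ℝ) ^ k * (F / (D.card : ℝ)) := by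
    have := sum_one D i f
    rw [hF] at this
    field_simp
    linarith
  rw [← h3]
  exact sum_le_sum_of_subset_of_nonneg (cl_sub W D) fun x _ _ => hf0 _

lemma numer {K q v e d : ℝ} (hq : 0 < q) (hq3 : q ≤ 1 / 3) (hK0 : 0 < K) (hK : K * q ≤ 4 / 3)
    (he : e = q ^ 3 / 100) (hd : d = q ^ 8 / 10 ^ 9) (hv : |v - q| ≤ d) :
    0 < v ∧ 0 < d ∧ 0 < e ∧ e < v ∧ 2 * K * e + d ≤ q * v / 20 ∧ 5 / 4 * e ≤ 1 / 4 * v ∧
      K ^ 2 * d ≤ 1 / 4 * v ∧ K ^ 2 * (q ^ 3 / 1000 * d) ≤ 1 / 2 * v ^ 2 := by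
  have hd0 : 0 < d := by rw [hd]; positivity
  have he0 : 0 < e := by rw [he]; positivity
  have hq2 : q ^ 2 ≤ 1 / 9 := by nlinarith
  have hq1 : q ≤ 1 := by linarith
  have hq6 : q ^ 6 ≤ 1 := pow_le_one₀ hq.le hq1
  have hq5 : q ^ 5 ≤ 1 := pow_le_one₀ hq.le hq1
  have hd2 : d ≤ q ^ 2 / 10 ^ 9 := by
    rw [hd]
    have : q ^ 8 = q ^ 2 * q ^ 6 := by ring
    rw [this]
    have : q ^ 2 * q ^ 6 ≤ q ^ 2 * 1 := mul_le_mul_of_nonneg_left hq6 (by positivity)
    linarith
  have hd1 : d ≤ q / 10 ^ 9 := by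
    have : q ^ 2 ≤ q := by nlinarith
    linarith
  have h1 := abs_le.mp hv
  have hv1 : 99 / 100 * q ≤ v := by linarith
  have hvpos : 0 < v := by linarith
  have hKd : K ^ 2 * d ≤ q / 10 ^ 8 := by
    have e1 : K ^ 2 * d = (K * q) ^ 2 * q ^ 5 * q / 10 ^ 9 := by rw [hd]; ring
    rw [e1]
    have hKq : (K * q) ^ 2 ≤ 2 := by nlinarith [mul_pos hK0 hq]
    have : (K * q) ^ 2 * q ^ 5 ≤ 2 * 1 := mul_le_mul hKq hq5 (by positivity) (by norm_num)
    have h3 : (K * q) ^ 2 * q ^ 5 * q ≤ 2 * 1 * q := mul_le_mul_of_nonneg_right this hq.le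
    linarith
  have he1 : e ≤ q / 900 := by
    rw [he]
    have : q ^ 3 ≤ 1 / 9 * q := by nlinarith
    linarith
  have hKe : K * e ≤ 4 / 3 * (q ^ 2 / 100) := by
    have e1 : K * e = (K * q) * (q ^ 2 / 100) := by rw [he]; ring
    rw [e1]
    exact mul_le_mul_of_nonneg_right hK (by positivity)
  have hqv : 99 / 100 * q ^ 2 ≤ q * v := by nlinarith
  have hv2 : 98 / 100 * q ^ 2 ≤ v ^ 2 := by nlinarith
  refine ⟨hvpos, hd0, he0, by linarith, by linarith, by linarith, by linarith, ?_⟩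
  have e2 : K ^ 2 * (q ^ 3 / 1000 * d) = (K ^ 2 * d) * (q ^ 3 / 1000) := by ring
  rw [e2]
  have h4 : q ^ 3 / 1000 ≤ q / 1000 := by nlinarith
  calc (K ^ 2 * d) * (q ^ 3 / 1000) ≤ (q / 10 ^ 8) * (q / 1000) :=
        mul_le_mul hKd h4 (by positivity) (by positivity)
    _ = q ^ 2 / 10 ^ 11 := by ring
    _ ≤ 1 / 2 * v ^ 2 := by linarith [sq_nonneg q]

/-- the numerical comparison of the exponents -/
lemma numer2 {K q v e d I t M c : ℝ} (hq : 0 < q) (hq3 : q ≤ 1 / 3) (hv : 0 < v) (hd : 0 < d)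
    (hev : e < v) (h1 : 2 * K * e + d ≤ q * v / 20) (h2 : 5 / 4 * e ≤ 1 / 4 * v)
    (h3 : K ^ 2 * d ≤ 1 / 4 * v) (hI : 0 ≤ I) (ht : 0 ≤ t) (hM : 0 ≤ M) (hc1 : c ≤ M)
    (hc2 : M / 2 ≤ c) :
    c * (((1 - q / 20) * I - 3 * (t * v ^ 2)) / v ^ 2) ≤
      M * (I / v - 2 * K * (e * I / v ^ 2) - K ^ 2 * (d * t)) / (v + d) -
        M * (t * v) / (v - e) := by
  have hve : 0 < v - e := by linarith
  have hvd : 0 < v + d := by linarith
  have hX : 0 ≤ (1 - q / 20) * I / v ^ 2 := by
    apply div_nonneg _ (by positivity)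
    apply mul_nonneg _ hI
    linarith
  have e1 : ((1 - q / 20) * I - 3 * (t * v ^ 2)) / v ^ 2 = (1 - q / 20) * I / v ^ 2 - 3 * t := by
    field_simp
  have h4 : (1 - q / 20) * I / v ^ 2 - 1 / 4 * t ≤
      (I / v - 2 * K * (e * I / v ^ 2) - K ^ 2 * (d * t)) / (v + d) := by
    rw [le_div_iff₀ hvd]
    have e2 : I / v - 2 * K * (e * I / v ^ 2) = (I / v ^ 2) * (v - 2 * K * e) := by
      field_simp
    have e3 : (1 - q / 20) * I / v ^ 2 = (I / v ^ 2) * (1 - q / 20) := by ring
    rw [e2, e3]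
    have hIv : 0 ≤ I / v ^ 2 := by positivity
    have h5 : (1 - q / 20) * (v + d) ≤ v - 2 * K * e := by nlinarith
    have h6 : (I / v ^ 2) * ((1 - q / 20) * (v + d)) ≤ (I / v ^ 2) * (v - 2 * K * e) :=
      mul_le_mul_of_nonneg_left h5 hIv
    have h7 : (K ^ 2 * d) * t ≤ (1 / 4 * v) * t := mul_le_mul_of_nonneg_right h3 ht
    nlinarith [mul_nonneg hd.le ht]
  have h5 : t * v / (v - e) ≤ 5 / 4 * t := by
    rw [div_le_iff₀ hve]
    nlinarith
  have h6 : M * ((1 - q / 20) * I / v ^ 2 - 3 / 2 * t) ≤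
      M * (I / v - 2 * K * (e * I / v ^ 2) - K ^ 2 * (d * t)) / (v + d) -
        M * (t * v) / (v - e) := by
    have e4 : M * (I / v - 2 * K * (e * I / v ^ 2) - K ^ 2 * (d * t)) / (v + d) -
        M * (t * v) / (v - e) =
        M * ((I / v - 2 * K * (e * I / v ^ 2) - K ^ 2 * (d * t)) / (v + d) -
          t * v / (v - e)) := by ring
    rw [e4]
    apply mul_le_mul_of_nonneg_left _ hM
    linarith
  refine le_trans ?_ h6
  rw [e1]
  nlinarith [mul_le_mul_of_nonneg_right hc1 hX, mul_le_mul_of_nonneg_right hc2 ht]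

end GaEAux

open GaEAux in
open Classical in
theorem gaE : SGaE := by
  intro k hk V _ _ W D A hW hN hDA hv hA hb hβ a
  have hN' : (0 : ℝ) < (Fintype.card V : ℝ) := by exact_mod_cast hN
  have hk4 : (4 : ℝ) ≤ (k : ℝ) := by exact_mod_cast hk
  have hK0 : (0 : ℝ) < (k : ℝ) := by linarith
  have hq : 0 < mu k := by
    rw [mu]
    apply div_pos one_pos
    linarith
  have hq3 : mu k ≤ 1 / 3 := by
    rw [mu]
    apply div_le_div_of_nonneg_left (by norm_num) (by norm_num)
    linarith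
  have hKq : (k : ℝ) * mu k ≤ 4 / 3 := by
    rw [mu, mul_one_div, div_le_iff₀ (by linarith)]
    linarith
  obtain ⟨hv0, hd0, he0, hev, n1, n2, n3, n4⟩ := numer hq hq3 hK0 hKq (e := ek k) rfl
    (d := dk k) rfl hv
  have hDc : (D.card : ℝ) = ms D * (Fintype.card V : ℝ) := by
    rw [ms]
    field_simp
  have hD' : (0 : ℝ) < (D.card : ℝ) := by
    rw [hDc]
    positivity
  have hD : 0 < D.card := by exact_mod_cast hD'
  -- the quantities
  have hI0 : 0 ≤ ee W D A := by
    apply div_nonneg _ (by positivity)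
    exact sum_nonneg fun x _ => sum_nonneg fun y _ => W604.LP.ker_nonneg hW x y
  have hB0 : 0 ≤ ee (co W) D D := by
    apply div_nonneg _ (by positivity)
    exact sum_nonneg fun x _ => sum_nonneg fun y _ => co_nonneg hW x y
  have hbe : W604.LP.be W D = ee (co W) D D / (ms D) ^ 2 := by
    rw [W604.LP.be, ee, ms]
    field_simp
  have hbe0 : 0 ≤ W604.LP.be W D := by
    rw [hbe]
    positivity
  have hB : ee (co W) D D = W604.LP.be W D * (ms D) ^ 2 := by
    rw [hbe]
    field_simp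
  have hFa : ∑ x ∈ D, ra W A x = ee W D A * (Fintype.card V : ℝ) := by
    simp only [ra, ee]
    rw [← sum_div]
    field_simp
  have hFb : ∑ x ∈ D, bb W D x = ee (co W) D D * (Fintype.card V : ℝ) := by
    simp only [bb, ee]
    rw [← sum_div]
    field_simp
  -- the number of cliques
  have hMp : (0 : ℝ) < (D.card : ℝ) ^ k := pow_pos hD' k
  have hM : (0 : ℝ) ≤ (D.card : ℝ) ^ k := hMp.le
  have hkt : (k : ℝ) ^ 2 * W604.LP.be W D ≤ 1 / 2 := by
    have h1 : (k : ℝ) ^ 2 * ee (co W) D D ≤ 1 / 2 * (ms D) ^ 2 := by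
      refine le_trans (mul_le_mul_of_nonneg_left hβ (by positivity)) ?_
      exact n4
    rw [hB] at h1
    have h2 : 0 < (ms D) ^ 2 := by positivity
    nlinarith
  have hc1 : ((cl W D k).card : ℝ) ≤ (D.card : ℝ) ^ k := cl_le W D
  have hc3 := W604.LP.cl_card (k := k) hW D hD
  have hc2 : (D.card : ℝ) ^ k / 2 ≤ ((cl W D k).card : ℝ) := by
    refine le_trans ?_ hc3
    rw [div_eq_mul_one_div]
    apply mul_le_mul_of_nonneg_left _ hM
    linarith
  have hcpos : (0 : ℝ) < ((cl W D k).card : ℝ) := by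
    linarith
  have hcpos' : 0 < (cl W D k).card := by exact_mod_cast hcpos
  -- pointwise bound
  obtain ⟨L, hL⟩ : ∃ L : V → ℝ, ∀ x, L x = ra W A x / (ms D + dk k) - bb W D x / (ms D - ek k) :=
    ⟨_, fun _ => rfl⟩
  have hpt : ∀ x ∈ D, ms D * Real.exp (L x) ≤ dg W x := by
    intro x hx
    refine le_trans ?_ (dg_ge hW D A hDA x)
    rw [hL]
    apply expo hv0 (ra_nonneg hW A x) ((ra_le hW A x).trans hA) (bb_nonneg hW D x) _ hev
    rw [bb, div_le_iff₀ hN']
    exact hb x hx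
  have hprod : ∀ x ∈ cl W D k, (ms D) ^ (∑ i, a i) * Real.exp (∑ i, (a i : ℝ) * L (x i)) ≤
      ∏ i, (dg W (x i)) ^ (a i) := by
    intro x hx
    rw [← prod_pow_eq_pow_sum, Real.exp_sum, ← prod_mul_distrib]
    apply prod_le_prod
    · intro i _
      positivity
    · intro i _
      rw [Real.exp_nat_mul, ← mul_pow]
      apply pow_le_pow_left₀ (by positivity)
      apply hpt
      exact Fintype.mem_piFinset.mp (cl_sub W D hx) i
  -- the mean of the exponents
  obtain ⟨R, hR⟩ : ∃ R : ℝ, R =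
      ((1 - mu k / 20) * ee W D A - 3 * (W604.LP.be W D * (ms D) ^ 2)) / (ms D) ^ 2 := ⟨_, rfl⟩
  have hmean : ∀ i : Fin k, ((cl W D k).card : ℝ) * R ≤ ∑ x ∈ cl W D k, L (x i) := by
    intro i
    have hA1 := sumA (k := k) hW D hD (ra W A) (ee W D A * (Fintype.card V : ℝ))
      (ek k * (Fintype.card V : ℝ)) (dk k) (ra_nonneg hW A)
      (fun x => (ra_le hW A x).trans hA) (by positivity) hb hFa i
    have hB1 := sumB (k := k) (W := W) D hD (bb W D) (ee (co W) D D * (Fintype.card V : ℝ))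
      (bb_nonneg hW D) hFb i
    have e1 : ee W D A * (Fintype.card V : ℝ) / (D.card : ℝ) = ee W D A / ms D := by
      rw [hDc]
      field_simp
    have e2 : ek k * (Fintype.card V : ℝ) * (ee W D A * (Fintype.card V : ℝ)) / (D.card : ℝ) ^ 2 =
        ek k * ee W D A / (ms D) ^ 2 := by
      rw [hDc]
      field_simp
    have e3 : ee (co W) D D * (Fintype.card V : ℝ) / (D.card : ℝ) = W604.LP.be W D * ms D := by
      rw [hDc, hB]
      field_simp
    rw [e1, e2] at hA1
    rw [e3] at hB1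
    have h2 := numer2 (K := (k : ℝ)) hq hq3 hv0 hd0 hev n1 n2 n3 hI0 hbe0 hM hc1 hc2
    rw [← hR] at h2
    refine h2.trans ?_
    have e4 : ∑ x ∈ cl W D k, L (x i) = (∑ x ∈ cl W D k, ra W A (x i)) / (ms D + dk k) -
        (∑ x ∈ cl W D k, bb W D (x i)) / (ms D - ek k) := by
      rw [sum_div, sum_div, ← sum_sub_distrib]
      exact sum_congr rfl fun x _ => hL _
    rw [e4]
    apply sub_le_sub
    · exact div_le_div_of_nonneg_right hA1 (by linarith)
    · exact div_le_div_of_nonneg_right hB1 (by linarith)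
  have hJ := jensen (cl W D k) hcpos' (fun x => ∑ i, (a i : ℝ) * L (x i))
    ((∑ i, (a i : ℝ)) * R) (by
      rw [sum_comm]
      simp only [← mul_sum]
      calc ((cl W D k).card : ℝ) * ((∑ i, (a i : ℝ)) * R)
          = ∑ i, (a i : ℝ) * (((cl W D k).card : ℝ) * R) := by
            rw [← sum_mul]
            ring
        _ ≤ ∑ i, (a i : ℝ) * ∑ x ∈ cl W D k, L (x i) :=
            sum_le_sum fun i _ => mul_le_mul_of_nonneg_left (hmean i) (Nat.cast_nonneg _))
  -- conclusion
  have hNk : (0 : ℝ) < (Fintype.card V : ℝ) ^ k := by positivity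
  rw [le_div_iff₀ hNk]
  have e5 : Real.exp ((((∑ i, a i : ℕ) : ℝ) * ((1 - mu k / 20) * ee W D A -
        3 * ee (co W) D D) - 2 * (k : ℝ) ^ 2 * ee (co W) D D) / (ms D) ^ 2) =
      Real.exp ((∑ i, (a i : ℝ)) * R) * Real.exp (-(2 * ((k : ℝ) ^ 2 * W604.LP.be W D))) := by
    rw [← Real.exp_add, hR]
    congr 1
    rw [hB]
    push_cast
    field_simp
    ring
  rw [e5]
  have h6 := one_sub_ge (mul_nonneg (by positivity : (0 : ℝ) ≤ (k : ℝ) ^ 2) hbe0) hkt
  have hmk : 0 ≤ (ms D) ^ (∑ i, a i) := by positivity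
  calc (ms D) ^ ((∑ i, a i) + k) * (Real.exp ((∑ i, (a i : ℝ)) * R) *
        Real.exp (-(2 * ((k : ℝ) ^ 2 * W604.LP.be W D)))) * (Fintype.card V : ℝ) ^ k
      = (ms D) ^ (∑ i, a i) * (((D.card : ℝ) ^ k *
          Real.exp (-(2 * ((k : ℝ) ^ 2 * W604.LP.be W D)))) *
          Real.exp ((∑ i, (a i : ℝ)) * R)) := by
        rw [hDc, mul_pow, pow_add]
        ring
    _ ≤ (ms D) ^ (∑ i, a i) * (((cl W D k).card : ℝ) * Real.exp ((∑ i, (a i : ℝ)) * R)) := by
        apply mul_le_mul_of_nonneg_left _ hmk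
        apply mul_le_mul_of_nonneg_right _ (Real.exp_pos _).le
        exact (mul_le_mul_of_nonneg_left h6 hM).trans hc3
    _ ≤ (ms D) ^ (∑ i, a i) * ∑ x ∈ cl W D k, Real.exp (∑ i, (a i : ℝ) * L (x i)) :=
        mul_le_mul_of_nonneg_left hJ hmk
    _ = ∑ x ∈ cl W D k, (ms D) ^ (∑ i, a i) * Real.exp (∑ i, (a i : ℝ) * L (x i)) := by
        rw [mul_sum]
    _ ≤ ∑ x ∈ cl W D k, ∏ i, (dg W (x i)) ^ (a i) := sum_le_sum hprod

end Pool.Agent.N412.PE
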