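import Pool.Agent.N412.PE.Stm
import Pool.Agent.N412.LB.Union2

set_option autoImplicit false

/-!
PEND/GAIN: gain from vertices of large red degree.
-/

open Finset

namespace Pool.Agent.N412.PE

namespace GainEAux

open Pool.Agent.W297.LP Pool.Agent.N412.LB
open Pool.Agent.N412.LB.Union2Aux (ker_nonneg co_nonneg td_nonneg ee_nonneg ms_nonneg mem_cl)

theorem td_star {V : Type} [Fintype V] (W : V → V → ℝ) (a : ℕ) (x : V) :
    td W (star a) x = (dg W x) ^ a := by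
  induction a with
  | zero => simp [star, td]
  | succ a ih =>
    simp only [star, td, ih, mul_one, pow_succ]
    rfl

/-- the disjoint parts -/
theorem low {k : ℕ} (hk : 0 < k) {V : Type} [Fintype V] [DecidableEq V] {W : V → V → ℝ}
    (hW : Ker W) (Vi : Fin (k - 1) → Finset V) (hdisj : ∀ i j, i ≠ j → Disjoint (Vi i) (Vi j))
    (T : Fin k → Tr) :
    ∑ i, (∑ x ∈ cl W (Vi i) k, ∏ j, td W (T j) (x j)) / (Fintype.card V : ℝ) ^ k ≤ lol W T := by
  classical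
  rw [← sum_div]
  unfold lol
  apply div_le_div_of_nonneg_right _ (by positivity)
  have hdis : ((univ : Finset (Fin (k - 1))) : Set (Fin (k - 1))).PairwiseDisjoint
      (fun i => cl W (Vi i) k) := by
    intro i _ j _ hij
    refine Finset.disjoint_left.2 fun x hx hy => ?_
    rw [mem_cl] at hx hy
    exact Finset.disjoint_left.1 (hdisj i j hij) (hx.1 ⟨0, hk⟩) (hy.1 ⟨0, hk⟩)
  rw [← sum_biUnion hdis]
  apply sum_le_sum_of_subset_of_nonneg
  · intro x hx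
    obtain ⟨i, -, hx⟩ := mem_biUnion.1 hx
    rw [mem_cl] at hx ⊢
    exact ⟨fun _ => mem_univ _, hx.2⟩
  · intro x _ _
    exact prod_nonneg fun j _ => td_nonneg hW _ _

/-- sums over the covering sets -/
theorem cover_sum {r : ℕ} {V : Type} [Fintype V] [DecidableEq V] (Vi : Fin r → Finset V)
    (A1 A2 : Finset V) (hcov : ∀ x, x ∈ A1 ∨ x ∈ A2 ∨ ∃ i, x ∈ Vi i) (f : V → ℝ)
    (hf : ∀ x, 0 ≤ f x) : ∑ x, f x ≤ ∑ x ∈ A1, f x + ∑ x ∈ A2, f x + ∑ i, ∑ x ∈ Vi i, f x := by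
  have h1 : ∀ x, f x ≤ (if x ∈ A1 then f x else 0) + (if x ∈ A2 then f x else 0) +
      ∑ i, (if x ∈ Vi i then f x else 0) := by
    intro x
    have e1 : 0 ≤ (if x ∈ A1 then f x else 0) := by split_ifs <;> simp [hf x]
    have e2 : 0 ≤ (if x ∈ A2 then f x else 0) := by split_ifs <;> simp [hf x]
    have e3 : 0 ≤ ∑ i, (if x ∈ Vi i then f x else 0) :=
      sum_nonneg fun i _ => by split_ifs <;> simp [hf x]
    rcases hcov x with h | h | ⟨i, h⟩
    · rw [if_pos h]; linarith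
    · rw [if_pos h]; linarith
    · have e4 : (if x ∈ Vi i then f x else 0) ≤ ∑ i, (if x ∈ Vi i then f x else 0) :=
        single_le_sum (f := fun i => if x ∈ Vi i then f x else 0)
          (fun i _ => by split_ifs <;> simp [hf x]) (mem_univ i)
      rw [if_pos h] at e4
      linarith
  have h2 : ∀ A : Finset V, ∑ x, (if x ∈ A then f x else 0) = ∑ x ∈ A, f x := by
    intro A
    rw [sum_ite_mem, univ_inter]
  calc ∑ x, f x ≤ ∑ x, ((if x ∈ A1 then f x else 0) + (if x ∈ A2 then f x else 0) +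
        ∑ i, (if x ∈ Vi i then f x else 0)) := sum_le_sum fun x _ => h1 x
    _ = _ := by
      rw [sum_add_distrib, sum_add_distrib, h2, h2, sum_comm]
      congr 1
      exact sum_congr rfl fun i _ => h2 (Vi i)

/-- the cover by the parts -/
theorem cover_ms {r : ℕ} {V : Type} [Fintype V] [DecidableEq V] (hn : 0 < Fintype.card V)
    (Vi : Fin r → Finset V) (A1 A2 : Finset V)
    (hcov : ∀ x, x ∈ A1 ∨ x ∈ A2 ∨ ∃ i, x ∈ Vi i) :
    1 - (ms A1 + ms A2) ≤ ∑ i, ms (Vi i) := by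
  have hn' : (0 : ℝ) < Fintype.card V := by exact_mod_cast hn
  have h := cover_sum Vi A1 A2 hcov (fun _ => 1) (fun _ => zero_le_one)
  simp only [sum_const, nsmul_eq_mul, mul_one, card_univ] at h
  have h4 : (ms A1 + ms A2) + ∑ i, ms (Vi i) =
      (((A1.card : ℝ) + A2.card) + ∑ i, ((Vi i).card : ℝ)) / Fintype.card V := by
    unfold ms
    rw [← sum_div]
    ring
  have h5 : 1 ≤ (ms A1 + ms A2) + ∑ i, ms (Vi i) := by
    rw [h4, le_div_iff₀ hn']
    linarith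
  linarith

/-- the red pairs between the parts and `A1` -/
theorem pairs {r : ℕ} {V : Type} [Fintype V] [DecidableEq V] (hn : 0 < Fintype.card V)
    {W : V → V → ℝ} (hW : Ker W) (Vi : Fin r → Finset V) (A1 A2 : Finset V)
    (hcov : ∀ x, x ∈ A1 ∨ x ∈ A2 ∨ ∃ i, x ∈ Vi i) (t : ℝ) (hbig : ∀ x ∈ A1, t ≤ dg W x) :
    ms A1 * (t - (ms A1 + ms A2)) ≤ ∑ i, ee W (Vi i) A1 := by
  have hn' : (0 : ℝ) < Fintype.card V := by exact_mod_cast hn
  have hW1 : ∀ x y, W x y ≤ 1 := by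
    intro x y
    rcases hW.zo x y with h | h <;> rw [h]
    norm_num
  have h1 : ∀ y ∈ A1, (t - (ms A1 + ms A2)) * (Fintype.card V : ℝ) ≤
      ∑ i, ∑ x ∈ Vi i, W x y := by
    intro y hy
    have h2 := cover_sum Vi A1 A2 hcov (fun x => W x y) (fun x => ker_nonneg hW x y)
    have h3 : ∑ x, W x y = dg W y * (Fintype.card V : ℝ) := by
      unfold dg
      rw [div_mul_cancel₀ _ hn'.ne']
      exact sum_congr rfl fun x _ => hW.symm x y
    have h4 : ∑ x ∈ A1, W x y ≤ (A1.card : ℝ) := by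
      calc ∑ x ∈ A1, W x y ≤ ∑ _x ∈ A1, (1 : ℝ) := sum_le_sum fun x _ => hW1 x y
        _ = _ := by simp
    have h5 : ∑ x ∈ A2, W x y ≤ (A2.card : ℝ) := by
      calc ∑ x ∈ A2, W x y ≤ ∑ _x ∈ A2, (1 : ℝ) := sum_le_sum fun x _ => hW1 x y
        _ = _ := by simp
    have h6 : ms A1 * (Fintype.card V : ℝ) = A1.card := by
      unfold ms
      rw [div_mul_cancel₀ _ hn'.ne']
    have h7 : ms A2 * (Fintype.card V : ℝ) = A2.card := by
      unfold ms
      rw [div_mul_cancel₀ _ hn'.ne']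
    have h8 := mul_le_mul_of_nonneg_right (hbig y hy) hn'.le
    rw [h3] at h2
    nlinarith
  have h9 : ∑ i, ee W (Vi i) A1 =
      (∑ y ∈ A1, ∑ i, ∑ x ∈ Vi i, W x y) / (Fintype.card V : ℝ) ^ 2 := by
    unfold ee
    rw [← sum_div]
    congr 1
    rw [sum_comm (s := A1)]
    exact sum_congr rfl fun i _ => sum_comm
  rw [h9, le_div_iff₀ (by positivity)]
  have h10 : (A1.card : ℝ) * ((t - (ms A1 + ms A2)) * (Fintype.card V : ℝ)) ≤
      ∑ y ∈ A1, ∑ i, ∑ x ∈ Vi i, W x y := by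
    rw [← nsmul_eq_mul]
    exact card_nsmul_le_sum _ _ _ h1
  refine le_trans (le_of_eq ?_) h10
  unfold ms
  field_simp

/-- the sum of the squares of the sizes -/
theorem squares {k : ℕ} (hk : 4 ≤ k) {q d : ℝ} (hq : q * ((k : ℝ) - 1) = 1) (hd0 : 0 ≤ d)
    (hdq : d ≤ q / 4) (v : Fin (k - 1) → ℝ) (hv : ∀ i, |v i - q| ≤ d) :
    ∑ i, (v i) ^ 2 ≤ q + 3 * d ∧ q / 2 ≤ ∑ i, (v i) ^ 2 := by
  have hk' : (4 : ℝ) ≤ k := by exact_mod_cast hk
  have hk1 : ((k - 1 : ℕ) : ℝ) = (k : ℝ) - 1 := by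
    rw [Nat.cast_sub (by omega)]
    simp
  have hq0 : 0 < q := by
    by_contra h
    push Not at h
    nlinarith
  have h1 : ∑ i, (v i) ^ 2 ≤ ((k : ℝ) - 1) * (q + d) ^ 2 := by
    calc ∑ i, (v i) ^ 2 ≤ ∑ _i : Fin (k - 1), (q + d) ^ 2 := by
          refine sum_le_sum fun i _ => ?_
          have h2 := abs_le.1 (hv i)
          exact pow_le_pow_left₀ (by linarith) (by linarith) 2
      _ = _ := by rw [sum_const, card_univ, Fintype.card_fin, nsmul_eq_mul, hk1]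
  have h2 : ((k : ℝ) - 1) * (q - d) ^ 2 ≤ ∑ i, (v i) ^ 2 := by
    calc ((k : ℝ) - 1) * (q - d) ^ 2 = ∑ _i : Fin (k - 1), (q - d) ^ 2 := by
          rw [sum_const, card_univ, Fintype.card_fin, nsmul_eq_mul, hk1]
      _ ≤ _ := by
          refine sum_le_sum fun i _ => ?_
          have h2 := abs_le.1 (hv i)
          exact pow_le_pow_left₀ (by linarith) (by linarith) 2
  have h3 : ((k : ℝ) - 1) * (q + d) ^ 2 = q * (q * ((k : ℝ) - 1)) + 2 * d * (q * ((k : ℝ) - 1)) +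
      ((k : ℝ) - 1) * d ^ 2 := by ring
  have h4 : ((k : ℝ) - 1) * (q - d) ^ 2 = q * (q * ((k : ℝ) - 1)) - 2 * d * (q * ((k : ℝ) - 1)) +
      ((k : ℝ) - 1) * d ^ 2 := by ring
  rw [hq] at h3 h4
  have h5 : ((k : ℝ) - 1) * d ^ 2 ≤ d := by
    have h6 : ((k : ℝ) - 1) * d ^ 2 ≤ ((k : ℝ) - 1) * (q * d) := by
      apply mul_le_mul_of_nonneg_left _ (by linarith)
      nlinarith
    have h7 : ((k : ℝ) - 1) * (q * d) = (q * ((k : ℝ) - 1)) * d := by ring
    rw [h7, hq, one_mul] at h6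
    exact h6
  have h6 : 0 ≤ ((k : ℝ) - 1) * d ^ 2 := by
    apply mul_nonneg (by linarith) (by positivity)
  constructor <;> linarith

/-- the numerical part -/
theorem numeric {q k m a1 a2 b S Q al d c3 : ℝ} (hk : 4 ≤ k) (hq : q * (k - 1) = 1)
    (hd : d = q ^ 8 / 10 ^ 9) (hc3 : c3 = q ^ 3 / 1000) (ha1 : 0 < a1) (ha2 : 0 ≤ a2)
    (ha : a1 + a2 ≤ d) (hb0 : 0 ≤ b) (hb : b + a2 ≤ c3 * a1) (hS : 1 - (a1 + a2) ≤ S)
    (hQ1 : Q ≤ q + 3 * d) (hQ2 : q / 2 ≤ Q)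
    (hal : a1 * (q + q ^ 2 / 4 - (a1 + a2)) ≤ al) (hm : 20 * k ^ 2 ≤ m) :
    a1 ≤ (m + k) * Real.log S + (m * ((1 - q / 20) * al - 3 * b) - 2 * k ^ 2 * b) / Q := by
  have hq0 : 0 < q := by
    by_contra h
    push Not at h
    nlinarith
  have hq3 : q ≤ 1 / 3 := by nlinarith
  have hkq : 1 ≤ k * q := by nlinarith
  have hkq2 : k * q ≤ 4 / 3 := by nlinarith
  have hm0 : 0 < m := by nlinarith
  have hQ0 : 0 < Q := by linarith
  have hq2 : q ^ 2 ≤ q / 3 := by nlinarith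
  have hq2' : 0 < q ^ 2 := by positivity
  have hd0 : 0 < d := by rw [hd]; positivity
  have hdq2 : d ≤ q ^ 2 / 10 ^ 9 := by
    rw [hd]
    have h1 : q ^ 8 ≤ q ^ 2 := pow_le_pow_of_le_one hq0.le (by linarith) (by norm_num)
    linarith
  have hc0 : 0 < c3 := by rw [hc3]; positivity
  have hc1 : c3 ≤ q / 9000 := by
    rw [hc3]
    have h1 : q ^ 3 = q * q ^ 2 := by ring
    have h2 : q ^ 2 ≤ 1 / 9 := by nlinarith
    nlinarith
  -- the logarithm
  have hlog : -(a1 * (1 + q / 8000)) ≤ Real.log S := by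
    have hx1 : a1 + a2 ≤ 1 / 2 := by nlinarith
    have hS0 : 0 < S := by linarith
    have h1 : Real.log (1 - (a1 + a2)) ≤ Real.log S :=
      Real.log_le_log (by linarith) hS
    have h2 := Real.one_sub_inv_le_log_of_pos (show 0 < 1 - (a1 + a2) by linarith)
    have h3 : (1 - (a1 + a2))⁻¹ ≤ 1 + (a1 + a2) * (1 + 2 * (a1 + a2)) := by
      rw [inv_eq_one_div, div_le_iff₀ (by linarith)]
      have h4 : 0 ≤ a1 + a2 := by linarith
      nlinarith [mul_nonneg h4 h4]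
    have h5 : (a1 + a2) * (1 + 2 * (a1 + a2)) ≤ a1 * (1 + q / 8000) := by
      have h6 : a1 + a2 ≤ a1 * (1 + c3) := by nlinarith
      have h7 : 1 + 2 * (a1 + a2) ≤ 1 + 2 * d := by linarith
      have h8 : (a1 + a2) * (1 + 2 * (a1 + a2)) ≤ (a1 * (1 + c3)) * (1 + 2 * d) :=
        mul_le_mul h6 h7 (by linarith) (by positivity)
      have h9 : (1 + c3) * (1 + 2 * d) ≤ 1 + q / 8000 := by nlinarith
      have h10 : (a1 * (1 + c3)) * (1 + 2 * d) ≤ a1 * (1 + q / 8000) := by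
        rw [mul_assoc]
        exact mul_le_mul_of_nonneg_left h9 ha1.le
      linarith
    linarith
  -- the main term
  have hmain : m * (a1 * (1 + 195 / 1000 * q)) ≤ m * ((1 - q / 20) * al) / Q := by
    rw [mul_div_assoc]
    apply mul_le_mul_of_nonneg_left _ hm0.le
    rw [le_div_iff₀ hQ0]
    have h1 : a1 * (1 + 195 / 1000 * q) * Q ≤ a1 * (1 + 195 / 1000 * q) * (q + 3 * d) :=
      mul_le_mul_of_nonneg_left hQ1 (by positivity)
    have h2 : (1 - q / 20) * (a1 * (q + q ^ 2 / 4 - d)) ≤ (1 - q / 20) * al := by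
      apply mul_le_mul_of_nonneg_left _ (by linarith)
      refine le_trans ?_ hal
      apply mul_le_mul_of_nonneg_left _ ha1.le
      linarith
    have h3 : (1 + 195 / 1000 * q) * (q + 3 * d) ≤ (1 - q / 20) * (q + q ^ 2 / 4 - d) := by
      have h4 : q ^ 3 ≤ q ^ 2 / 3 := by
        have : q ^ 3 = q ^ 2 * q := by ring
        nlinarith
      nlinarith [mul_pos hq0 hd0]
    have h5 : a1 * ((1 + 195 / 1000 * q) * (q + 3 * d)) ≤
        a1 * ((1 - q / 20) * (q + q ^ 2 / 4 - d)) := mul_le_mul_of_nonneg_left h3 ha1.le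
    calc a1 * (1 + 195 / 1000 * q) * Q ≤ a1 * (1 + 195 / 1000 * q) * (q + 3 * d) := h1
      _ = a1 * ((1 + 195 / 1000 * q) * (q + 3 * d)) := by ring
      _ ≤ a1 * ((1 - q / 20) * (q + q ^ 2 / 4 - d)) := h5
      _ = (1 - q / 20) * (a1 * (q + q ^ 2 / 4 - d)) := by ring
      _ ≤ _ := h2
  -- the blue pairs
  have hblue : (3 * m + 2 * k ^ 2) * b / Q ≤ (3 * m + 2 * k ^ 2) * (a1 * (q ^ 2 / 500)) := by
    rw [div_le_iff₀ hQ0]
    have h1 : b ≤ c3 * a1 := by linarith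
    have h2 : c3 * a1 ≤ a1 * (q ^ 2 / 500) * (q / 2) := by
      rw [hc3]
      apply le_of_eq
      ring
    have h3 : a1 * (q ^ 2 / 500) * (q / 2) ≤ a1 * (q ^ 2 / 500) * Q :=
      mul_le_mul_of_nonneg_left hQ2 (by positivity)
    have h4 : 0 ≤ 3 * m + 2 * k ^ 2 := by positivity
    calc (3 * m + 2 * k ^ 2) * b ≤ (3 * m + 2 * k ^ 2) * (a1 * (q ^ 2 / 500) * Q) :=
          mul_le_mul_of_nonneg_left (by linarith) h4
      _ = _ := by ring
  have hsplit : (m * ((1 - q / 20) * al - 3 * b) - 2 * k ^ 2 * b) / Q =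
      m * ((1 - q / 20) * al) / Q - (3 * m + 2 * k ^ 2) * b / Q := by
    rw [← sub_div]
    congr 1
    ring
  have hlog2 : -((m + k) * (a1 * (1 + q / 8000))) ≤ (m + k) * Real.log S := by
    have h1 := mul_le_mul_of_nonneg_left hlog (show 0 ≤ m + k by linarith)
    linarith
  have hfin : 1 ≤ m * (1 + 195 / 1000 * q) - (3 * m + 2 * k ^ 2) * (q ^ 2 / 500) -
      (m + k) * (1 + q / 8000) := by
    have h1 : (k * q) ^ 2 ≤ 16 / 9 := by nlinarith
    have h2 : m * q ^ 2 ≤ m * (q / 3) := mul_le_mul_of_nonneg_left hq2 hm0.le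
    have h3 : 20 * k ≤ m * q := by
      have h4 : 20 * k ^ 2 * q ≤ m * q := mul_le_mul_of_nonneg_right hm hq0.le
      nlinarith
    have h5 : m * (1 + 195 / 1000 * q) - (3 * m + 2 * k ^ 2) * (q ^ 2 / 500) -
        (m + k) * (1 + q / 8000) = (195 / 1000 - 1 / 8000) * (m * q) - 3 / 500 * (m * q ^ 2) -
        1 / 250 * (k * q) ^ 2 - k - (k * q) / 8000 := by ring
    rw [h5]
    nlinarith
  have hfin2 := mul_le_mul_of_nonneg_left hfin ha1.le
  rw [hsplit]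
  nlinarith

end GainEAux

open Pool.Agent.W297.LP Pool.Agent.N412.LB GainEAux in
/-- **GAIN.** -/
theorem gainE (h1 : SGaE) (h2 : SGbE) : SGainE := by
  intro k hk V _ _ W Vi A1 A2 hW hn hT hb ha1 a hm
  have hk' : (4 : ℝ) ≤ k := by exact_mod_cast hk
  have hk1 : (k : ℝ) - 1 ≠ 0 := by
    have : (0 : ℝ) < (k : ℝ) - 1 := by linarith
    exact this.ne'
  have hq : mu k * ((k : ℝ) - 1) = 1 := by
    unfold mu
    field_simp
  have hdk : dk k = mu k ^ 8 / 10 ^ 9 := rfl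
  have hc3 : c3k k = mu k ^ 3 / 1000 := rfl
  obtain ⟨q, hqd⟩ : ∃ q, q = mu k := ⟨_, rfl⟩
  rw [← hqd] at hq hdk hc3
  have hq0 : 0 < q := by
    by_contra h
    push Not at h
    nlinarith
  have hq3 : q ≤ 1 / 3 := by nlinarith
  have hd0 : 0 < dk k := by rw [hdk]; positivity
  have hc0 : 0 < c3k k := by rw [hc3]; positivity
  have hdq : dk k ≤ q / 4 := by
    rw [hdk]
    have e1 : q ^ 8 ≤ q ^ 1 := pow_le_pow_of_le_one hq0.le (by linarith) (by norm_num)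
    rw [pow_one] at e1
    linarith
  obtain ⟨m, hmd⟩ : ∃ m : ℕ, m = ∑ i, a i := ⟨_, rfl⟩
  rw [← hmd] at hm ⊢
  have hm' : 20 * (k : ℝ) ^ 2 ≤ (m : ℝ) := by exact_mod_cast hm
  have ha2 : 0 ≤ ms A2 := Union2Aux.ms_nonneg _
  have hb0 : 0 ≤ bl W Vi := sum_nonneg fun i _ => Union2Aux.ee_nonneg (Union2Aux.co_nonneg hW) _ _
  have hsmall := hT.small
  have hsize : ∀ i, |ms (Vi i) - q| ≤ dk k := by
    rw [hqd]
    exact hT.size
  have hv : ∀ i, 0 < ms (Vi i) := by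
    intro i
    have e1 := (abs_le.1 (hsize i)).1
    linarith
  obtain ⟨c, hc⟩ : ∃ c : Fin (k - 1) → ℝ, ∀ i, c i =
      (m : ℝ) * ((1 - q / 20) * ee W (Vi i) A1 - 3 * ee (co W) (Vi i) (Vi i)) -
        2 * (k : ℝ) ^ 2 * ee (co W) (Vi i) (Vi i) := ⟨_, fun _ => rfl⟩
  have hGA : ∀ i, (ms (Vi i)) ^ (m + k) * Real.exp (c i / (ms (Vi i)) ^ 2) ≤
      (∑ x ∈ cl W (Vi i) k, ∏ j, (dg W (x j)) ^ (a j)) / (Fintype.card V : ℝ) ^ k := by
    intro i
    have e1 : ee (co W) (Vi i) (Vi i) ≤ bl W Vi :=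
      single_le_sum (f := fun i => ee (co W) (Vi i) (Vi i))
        (fun i _ => Union2Aux.ee_nonneg (Union2Aux.co_nonneg hW) _ _) (mem_univ i)
    have e2 : c3k k * ms A1 ≤ c3k k * dk k := mul_le_mul_of_nonneg_left (by linarith) hc0.le
    have e3 := h1 k hk V W (Vi i) A1 hW hn (hT.d1 i) (hT.size i) (by linarith) (hT.typ i)
      (by linarith) a
    rw [← hmd, ← hqd] at e3
    rw [hc]
    exact e3
  have hsum : ∑ i, (ms (Vi i)) ^ (m + k) * Real.exp (c i / (ms (Vi i)) ^ 2) ≤ lol W (St a) := by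
    refine le_trans (sum_le_sum fun i _ => hGA i) ?_
    have e1 := low (by omega) hW Vi hT.disj (St a)
    simpa only [St, td_star] using e1
  have hpos : 0 < ∑ i, (ms (Vi i)) ^ (m + k) * Real.exp (c i / (ms (Vi i)) ^ 2) := by
    have : Nonempty (Fin (k - 1)) := ⟨⟨0, by omega⟩⟩
    exact sum_pos (fun i _ => mul_pos (pow_pos (hv i) _) (Real.exp_pos _)) univ_nonempty
  have hlol := hpos.trans_le hsum
  have hGB := (h2 k (m + k) hk (by omega) (fun i => ms (Vi i)) c hv).trans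
    (Real.log_le_log hpos hsum)
  rw [← hqd] at hGB ⊢
  have hcs : ∑ i, c i = (m : ℝ) * ((1 - q / 20) * (∑ i, ee W (Vi i) A1) - 3 * bl W Vi) -
      2 * (k : ℝ) ^ 2 * bl W Vi := by
    have e1 : bl W Vi = ∑ i, ee (co W) (Vi i) (Vi i) := rfl
    rw [e1, sum_congr rfl fun i _ => hc i, sum_sub_distrib, ← mul_sum, sum_sub_distrib, ← mul_sum,
      ← mul_sum, ← mul_sum]
  have hsq := squares hk hq hd0.le hdq (fun i => ms (Vi i)) hsize
  have hnum := numeric (S := ∑ i, ms (Vi i)) (Q := ∑ i, (ms (Vi i)) ^ 2)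
    (al := ∑ i, ee W (Vi i) A1) (b := bl W Vi) (m := (m : ℝ)) hk' hq hdk hc3 ha1 ha2 hsmall hb0
    (by linarith) (cover_ms hn Vi A1 A2 hT.cov) hsq.1 hsq.2
    (by
      have e1 := pairs hn hW Vi A1 A2 hT.cov (mu k + mu k ^ 2 / 4) hT.big
      rw [← hqd] at e1
      exact e1) hm'
  rw [← hcs] at hnum
  have hlog : Real.log (1 + ms A1) ≤ ms A1 := by
    have e1 := Real.log_le_sub_one_of_pos (show 0 < 1 + ms A1 by linarith)
    linarith
  rw [← Real.log_le_log_iff (by positivity) hlol, Real.log_mul (by positivity) (by positivity),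
    Real.log_pow]
  have hcast : ((m + (k - 1) : ℕ) : ℝ) = ((m + k : ℕ) : ℝ) - 1 := by
    have : ((m + k : ℕ) : ℝ) = ((m + (k - 1) + 1 : ℕ) : ℝ) := by
      congr 1
      omega
    rw [this]
    push_cast
    ring
  rw [hcast]
  have hcast2 : ((m + k : ℕ) : ℝ) = (m : ℝ) + k := by push_cast; ring
  rw [hcast2] at hGB ⊢
  linarith

end Pool.Agent.N412.PE
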