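import Pool.Agent.N412.PE.Stm

/-!
Project PEND, part GB: the weighted inequality. By helper106.
-/

set_option autoImplicit false

namespace Pool.Agent.N412.PE

open Finset

namespace GbEAux

lemma jensen {ι : Type} [Fintype ι] (w y : ι → ℝ) (hw : ∀ i, 0 ≤ w i) (h1 : ∑ i, w i = 1)
    (hy : ∀ i, 0 < y i) : ∑ i, w i * Real.log (y i) ≤ Real.log (∑ i, w i * y i) := by
  have h := strictConcaveOn_log_Ioi.concaveOn.le_map_sum (t := (univ : Finset ι)) (w := w) (p := y)
    (fun i _ => hw i) h1 (fun i _ => hy i)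
  simpa only [smul_eq_mul] using h

lemma main {n : ℕ} (hn : 0 < n) (s : ℕ) (hs : 2 ≤ s) (v c : Fin n → ℝ) (hv : ∀ i, 0 < v i) :
    (s : ℝ) * Real.log (∑ i, v i) + ((s : ℝ) - 1) * Real.log (1 / (n : ℝ)) +
    (∑ i, c i) / ∑ i, (v i) ^ 2 ≤ Real.log (∑ i, (v i) ^ s * Real.exp (c i / (v i) ^ 2)) := by
  have : Nonempty (Fin n) := ⟨⟨0, hn⟩⟩
  have hnR : (0 : ℝ) < n := by exact_mod_cast hn
  have hsR : (2 : ℝ) ≤ s := by exact_mod_cast hs
  obtain ⟨S, hS⟩ : ∃ S, S = ∑ i, v i := ⟨_, rfl⟩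
  obtain ⟨Q, hQ⟩ : ∃ Q, Q = ∑ i, (v i) ^ 2 := ⟨_, rfl⟩
  have hS0 : 0 < S := by rw [hS]; exact sum_pos (fun i _ => hv i) univ_nonempty
  have hQ0 : 0 < Q := by rw [hQ]; exact sum_pos (fun i _ => pow_pos (hv i) 2) univ_nonempty
  obtain ⟨w, hw⟩ : ∃ w : Fin n → ℝ, w = fun i => (v i) ^ 2 / Q := ⟨_, rfl⟩
  have hw0 : ∀ i, 0 < w i := fun i => by rw [hw]; have := hv i; positivity
  have hw1 : ∑ i, w i = 1 := by
    rw [hw, ← sum_div, ← hQ, div_self hQ0.ne']
  rw [← hS, ← hQ]
  -- first use of Jensen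
  have h1 : ((s : ℝ) - 2) * (∑ i, w i * Real.log (v i)) + Real.log Q + (∑ i, c i) / Q ≤
      Real.log (∑ i, (v i) ^ s * Real.exp (c i / (v i) ^ 2)) := by
    have h := jensen w (fun i => (v i) ^ s * Real.exp (c i / (v i) ^ 2) / w i)
      (fun i => (hw0 i).le) hw1 (fun i => by have := hv i; have := hw0 i; positivity)
    have e1 : ∑ i, w i * ((v i) ^ s * Real.exp (c i / (v i) ^ 2) / w i) =
        ∑ i, (v i) ^ s * Real.exp (c i / (v i) ^ 2) := by
      refine sum_congr rfl fun i _ => ?_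
      rw [mul_div_cancel₀ _ (hw0 i).ne']
    rw [e1] at h
    refine le_trans (le_of_eq ?_) h
    have e2 : ∀ i, w i * Real.log ((v i) ^ s * Real.exp (c i / (v i) ^ 2) / w i) =
        ((s : ℝ) - 2) * (w i * Real.log (v i)) + w i * Real.log Q + c i / Q := by
      intro i
      have hvi := hv i
      have e3 : w i * (c i / (v i) ^ 2) = c i / Q := by
        rw [hw]
        field_simp
      rw [Real.log_div (by positivity) (hw0 i).ne', Real.log_mul (by positivity)
        (Real.exp_pos _).ne', Real.log_pow, Real.log_exp, ← e3]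
      have e4 : Real.log (w i) = 2 * Real.log (v i) - Real.log Q := by
        rw [hw]
        simp only
        rw [Real.log_div (by positivity) hQ0.ne', Real.log_pow]
        norm_num
      rw [e4]
      ring
    rw [sum_congr rfl fun i _ => e2 i, sum_add_distrib, sum_add_distrib, ← mul_sum, ← sum_mul,
      hw1, one_mul, ← sum_div]
  -- second use of Jensen
  have h2 : Real.log Q - Real.log S ≤ ∑ i, w i * Real.log (v i) := by
    have h := jensen w (fun i => (v i)⁻¹) (fun i => (hw0 i).le) hw1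
      (fun i => inv_pos.2 (hv i))
    have e1 : ∑ i, w i * (v i)⁻¹ = S / Q := by
      rw [hS, sum_div]
      refine sum_congr rfl fun i _ => ?_
      have hvi := (hv i).ne'
      rw [hw]
      field_simp
    rw [e1, Real.log_div hS0.ne' hQ0.ne'] at h
    have e2 : ∑ i, w i * Real.log (v i)⁻¹ = - ∑ i, w i * Real.log (v i) := by
      rw [← sum_neg_distrib]
      refine sum_congr rfl fun i _ => ?_
      rw [Real.log_inv, mul_neg]
    rw [e2] at h
    linarith
  have h3 : 2 * Real.log S + Real.log (1 / (n : ℝ)) ≤ Real.log Q := by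
    have h := sq_sum_le_card_mul_sum_sq (s := (univ : Finset (Fin n))) (f := v)
    rw [card_univ, Fintype.card_fin, ← hS, ← hQ] at h
    have e1 : 2 * Real.log S + Real.log (1 / (n : ℝ)) = Real.log (S ^ 2 * (1 / n)) := by
      rw [Real.log_mul (by positivity) (by positivity), Real.log_pow]
      norm_num
    rw [e1]
    refine Real.log_le_log (by positivity) ?_
    rw [mul_one_div, div_le_iff₀ hnR]
    linarith
  have h4 : ((s : ℝ) - 2) * (Real.log Q - Real.log S) ≤
      ((s : ℝ) - 2) * ∑ i, w i * Real.log (v i) :=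
    mul_le_mul_of_nonneg_left h2 (by linarith)
  have h5 : ((s : ℝ) - 1) * (2 * Real.log S + Real.log (1 / (n : ℝ))) ≤
      ((s : ℝ) - 1) * Real.log Q := mul_le_mul_of_nonneg_left h3 (by linarith)
  linarith

end GbEAux

theorem gbE : SGbE := by
  intro k s hk hs v c hv
  have h := GbEAux.main (n := k - 1) (by omega) s hs v c hv
  have e : ((k - 1 : ℕ) : ℝ) = (k : ℝ) - 1 := by
    rw [Nat.cast_sub (by omega), Nat.cast_one]
  rw [e] at h
  exact h

end Pool.Agent.N412.PE
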