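import Pool.Agent.N412.PE.Stm

/-!
Project PEND: homomorphisms of `K_k` with pendant edges (by helper386).
-/

set_option autoImplicit false

open Finset

namespace Pool.Agent.N412.PE

open Pool.Agent.W297.LP Pool.Agent.N412.LB

namespace HomEAux

theorem td_star {V : Type} [Fintype V] (W : V → V → ℝ) (a : ℕ) (x : V) :
    td W (star a) x = (dg W x) ^ a := by
  induction a with
  | zero => simp [star, td]
  | succ a ih =>
    rw [star, td, ih, pow_succ]
    simp [td, dg]

variable {k s : ℕ}

/-- the clique vertex of a leaf -/
def hh (g : Fin (k + s) → Fin (k + s)) (hg : Att k (k + s) g) (v : Fin s) : Fin k :=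
  ⟨(g (Fin.natAdd k v)).val, hg _ (by simp)⟩

open Classical in
theorem al_eq (g : Fin (k + s) → Fin (k + s)) (hg : Att k (k + s) g) (i : Fin k) :
    al k (k + s) g i = (univ.filter (fun v : Fin s => hh g hg v = i)).card := by
  unfold al
  symm
  refine Finset.card_bij (fun v _ => Fin.natAdd k v) ?_ ?_ ?_
  · intro v hv
    rw [mem_filter] at hv ⊢
    exact ⟨mem_univ _, by simp, congrArg Fin.val hv.2⟩
  · intro a _ b _ hab
    have h1 := congrArg Fin.val hab
    simp only [Fin.val_natAdd] at h1
    exact Fin.ext (by omega)
  · intro u hu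
    rw [mem_filter] at hu
    obtain ⟨_, h1, h2⟩ := hu
    have h3 : Fin.natAdd k (⟨u.val - k, by omega⟩ : Fin s) = u := by
      apply Fin.ext
      simp only [Fin.val_natAdd]
      omega
    refine ⟨⟨u.val - k, by omega⟩, ?_, h3⟩
    rw [mem_filter]
    refine ⟨mem_univ _, ?_⟩
    apply Fin.ext
    show (g (Fin.natAdd k (⟨u.val - k, by omega⟩ : Fin s))).val = i.val
    rw [h3, h2]

theorem adj_iff {V : Type} {W : V → V → ℝ} (hW : Ker W) (g : Fin (k + s) → Fin (k + s))
    (hg : Att k (k + s) g) (x : Fin k → V) (y : Fin s → V) :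
    (∀ u v, (Pg k (k + s) g).Adj u v → W (Fin.append x y u) (Fin.append x y v) = 1) ↔
      (∀ i j, i ≠ j → W (x i) (x j) = 1) ∧ ∀ v, W (x (hh g hg v)) (y v) = 1 := by
  constructor
  · intro H
    constructor
    · intro i j hij
      have h1 := H (Fin.castAdd s i) (Fin.castAdd s j)
        ⟨fun h => hij (Fin.castAdd_injective k s h), Or.inl ⟨i.2, j.2⟩⟩
      rwa [Fin.append_left, Fin.append_left] at h1
    · intro v
      have h1 := H (Fin.castAdd s (hh g hg v)) (Fin.natAdd k v) ⟨?_, Or.inr (Or.inl ⟨by simp, ?_⟩)⟩
      · rwa [Fin.append_left, Fin.append_right] at h1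
      · intro h
        have h2 := congrArg Fin.val h
        have h3 := (hh g hg v).2
        simp only [Fin.val_natAdd, Fin.val_castAdd] at h2
        omega
      · exact Fin.ext rfl
  · rintro ⟨H1, H2⟩ u v huv
    obtain ⟨hne, huv⟩ := huv
    induction u using Fin.addCases with
    | left i =>
      induction v using Fin.addCases with
      | left j =>
        rw [Fin.append_left, Fin.append_left]
        exact H1 i j fun h => hne (congrArg _ h)
      | right w =>
        rw [Fin.append_left, Fin.append_right]
        rcases huv with ⟨_, h⟩ | ⟨_, h⟩ | ⟨h, _⟩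
        · simp only [Fin.val_natAdd] at h
          omega
        · have h3 : hh g hg w = i := Fin.ext (by
            have h4 := congrArg Fin.val h
            exact h4)
          rw [← h3]
          exact H2 w
        · simp only [Fin.val_castAdd] at h
          have := i.2
          omega
    | right w =>
      induction v using Fin.addCases with
      | left i =>
        rw [Fin.append_left, Fin.append_right]
        rcases huv with ⟨h, _⟩ | ⟨h, _⟩ | ⟨_, h⟩
        · simp only [Fin.val_natAdd] at h
          omega
        · simp only [Fin.val_castAdd] at h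
          have := i.2
          omega
        · have h3 : hh g hg w = i := Fin.ext (by
            have h4 := congrArg Fin.val h
            exact h4)
          rw [← h3, hW.symm]
          exact H2 w
      | right w' =>
        exfalso
        rcases huv with ⟨h, _⟩ | ⟨h, h'⟩ | ⟨h, h'⟩
        · simp only [Fin.val_natAdd] at h
          omega
        · have h3 := hg _ h
          rw [h'] at h3
          simp only [Fin.val_natAdd] at h3
          omega
        · have h3 := hg _ h
          rw [h'] at h3
          simp only [Fin.val_natAdd] at h3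
          omega

theorem prod_zo {V : Type} {W : V → V → ℝ} (hW : Ker W) (a b : Fin s → V) :
    (∀ v, W (a v) (b v) = 1) ∧ ∏ v, W (a v) (b v) = 1 ∨
      (¬ ∀ v, W (a v) (b v) = 1) ∧ ∏ v, W (a v) (b v) = 0 := by
  by_cases h : ∀ v, W (a v) (b v) = 1
  · exact Or.inl ⟨h, prod_eq_one fun v _ => h v⟩
  · refine Or.inr ⟨h, ?_⟩
    push Not at h
    obtain ⟨v, hv⟩ := h
    exact prod_eq_zero (mem_univ v) ((hW.zo _ _).resolve_right hv)

end HomEAux

open HomEAux

/-- HOM -/
theorem homE : SHomE := by
  classical
  intro k t g _ hkt hg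
  obtain ⟨s, rfl⟩ : ∃ s, t = k + s := ⟨t - k, by omega⟩
  constructor
  · have h1 : ∑ i, al k (k + s) g i = s := by
      simp_rw [al_eq g hg]
      have h2 := Finset.card_eq_sum_card_fiberwise (f := hh g hg) (s := (univ : Finset (Fin s)))
        (t := (univ : Finset (Fin k))) (fun _ _ => by simp)
      rw [card_univ, Fintype.card_fin] at h2
      refine Eq.trans (Finset.sum_congr rfl fun i _ => ?_) h2.symm
      congr
    rw [h1, add_comm]
  · intro V _ W hW
    by_cases hN : Fintype.card V = 0
    · have hV : IsEmpty V := Fintype.card_eq_zero_iff.1 hN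
      have hk : 0 < k + s := by omega
      have : IsEmpty (Fin (k + s) → V) := ⟨fun f => hV.elim (f ⟨0, hk⟩)⟩
      rw [hN, Nat.cast_zero, zero_pow hk.ne', mul_zero]
      rw [Nat.cast_eq_zero, card_eq_zero]
      exact eq_empty_of_isEmpty _
    have hN' : (Fintype.card V : ℝ) ≠ 0 := by exact_mod_cast hN
    have hdg : ∀ a : V, ∑ z, W a z = (Fintype.card V : ℝ) * dg W a := by
      intro a
      unfold dg
      field_simp
    -- the sum over the leaves
    have hleaf : ∀ x : Fin k → V, ∑ y : Fin s → V, ∏ v, W (x (hh g hg v)) (y v) =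
        (Fintype.card V : ℝ) ^ s * ∏ i, (dg W (x i)) ^ (al k (k + s) g i) := by
      intro x
      have h1 := Finset.prod_univ_sum (fun _ : Fin s => (univ : Finset V))
        (fun v z => W (x (hh g hg v)) z)
      rw [Fintype.piFinset_univ] at h1
      rw [← h1]
      simp_rw [hdg]
      rw [prod_mul_distrib, prod_const, card_univ, Fintype.card_fin]
      congr 1
      rw [← Finset.prod_fiberwise' (univ : Finset (Fin s)) (hh g hg) fun i => dg W (x i)]
      refine prod_congr rfl fun i _ => ?_
      rw [prod_const, al_eq g hg]
    have hcard : (((Finset.univ : Finset (Fin (k + s) → V)).filter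
        (fun f => ∀ u v, (Pg k (k + s) g).Adj u v → W (f u) (f v) = 1)).card : ℝ) =
        ∑ x ∈ cl W univ k, ∑ y : Fin s → V, ∏ v, W (x (hh g hg v)) (y v) := by
      rw [card_filter]
      push_cast
      rw [← Equiv.sum_comp (Fin.appendEquiv k s), Fintype.sum_prod_type]
      rw [cl, sum_filter]
      refine sum_congr rfl fun x _ => ?_
      split_ifs with hx
      · refine sum_congr rfl fun y _ => ?_
        have h2 := adj_iff hW g hg x y
        rcases prod_zo hW (fun v => x (hh g hg v)) y with ⟨h3, h4⟩ | ⟨h3, h4⟩
        · rw [h4, if_pos]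
          exact h2.2 ⟨hx.2, h3⟩
        · rw [h4, if_neg]
          exact fun h => h3 (h2.1 h).2
      · refine sum_eq_zero fun y _ => ?_
        rw [if_neg]
        intro h
        exact hx ⟨fun _ => mem_univ _, ((adj_iff hW g hg x y).1 h).1⟩
    rw [hcard]
    simp_rw [hleaf]
    rw [← mul_sum]
    unfold lol St
    simp_rw [td_star]
    rw [pow_add]
    field_simp

end Pool.Agent.N412.PE
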