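import Pool.Agent.N412.PE.Stm
import Pool.Agent.N412.LB.Homc

/-!
Project PEND (helper412), problem MP_333fa2_co, part HOMC: homomorphisms against copies (helper306).
-/

set_option autoImplicit false

open Finset

namespace Pool.Agent.N412.PE

open Pool.Agent.W297.LP Pool.Agent.N412.LB

open Pool.Agent.N412.LB.HomcAux in
theorem homcE (h1 : SHomE) : SHomcE := by
  classical
  intro k t g hk ht hg n hn G
  obtain ⟨-, hW⟩ := h1 k t g hk ht hg
  have hr := hW (Fin n) (ad G) (ker_ad G)
  have hb := hW (Fin n) (co (ad G)) (ker_co G)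
  rw [Fintype.card_fin] at hr hb
  rw [add_mul, ← hr, ← hb]
  have e1 : ((univ : Finset (Fin t → Fin n)).filter
      (fun f => ∀ u v, (Pg k t g).Adj u v → ad G (f u) (f v) = 1)) =
      ((univ : Finset (Fin t → Fin n)).filter
      (fun f => ∀ u v, (Pg k t g).Adj u v → G.Adj (f u) (f v))) := by
    apply Finset.filter_congr
    intro f _
    simp only [ad_one]
  have e2 : ((univ : Finset (Fin t → Fin n)).filter
      (fun f => ∀ u v, (Pg k t g).Adj u v → co (ad G) (f u) (f v) = 1)) =
      ((univ : Finset (Fin t → Fin n)).filter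
      (fun f => ∀ u v, (Pg k t g).Adj u v → ¬ G.Adj (f u) (f v))) := by
    apply Finset.filter_congr
    intro f _
    simp only [co_one]
  have hab : (Pg k t g).Adj ⟨0, by omega⟩ ⟨1, by omega⟩ := by
    refine ⟨?_, Or.inl ⟨?_, ?_⟩⟩
    · intro h
      simp at h
    · show 0 < k
      omega
    · show 1 < k
      omega
  obtain ⟨A, hA⟩ : ∃ A, A = ((univ : Finset (Fin t ↪ Fin n)).filter
        (fun f => ∀ u v, (Pg k t g).Adj u v → G.Adj (f u) (f v))).card := ⟨_, rfl⟩
  obtain ⟨B, hB⟩ : ∃ B, B = ((univ : Finset (Fin t ↪ Fin n)).filter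
        (fun f => ∀ u v, (Pg k t g).Adj u v → ¬ G.Adj (f u) (f v))).card := ⟨_, rfl⟩
  have hmc : MC (Pg k t g) G = A + B := by
    rw [hA, hB]
    convert mc_eq (Pg k t g) G _ _ hab
  have l1 : ((univ : Finset (Fin t → Fin n)).filter
      (fun f => ∀ u v, (Pg k t g).Adj u v → ad G (f u) (f v) = 1)).card ≤
      A + t ^ 2 * n ^ (t - 1) := by
    rw [e1, hA]
    convert card_map_le (t := t) (n := n) (fun f => ∀ u v, (Pg k t g).Adj u v → G.Adj (f u) (f v))
  have l2 : ((univ : Finset (Fin t → Fin n)).filter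
      (fun f => ∀ u v, (Pg k t g).Adj u v → co (ad G) (f u) (f v) = 1)).card ≤
      B + t ^ 2 * n ^ (t - 1) := by
    rw [e2, hB]
    convert card_map_le (t := t) (n := n)
      (fun f => ∀ u v, (Pg k t g).Adj u v → ¬ G.Adj (f u) (f v))
  have key : ((univ : Finset (Fin t → Fin n)).filter
      (fun f => ∀ u v, (Pg k t g).Adj u v → ad G (f u) (f v) = 1)).card +
      ((univ : Finset (Fin t → Fin n)).filter
      (fun f => ∀ u v, (Pg k t g).Adj u v → co (ad G) (f u) (f v) = 1)).card ≤
      MC (Pg k t g) G + 2 * t ^ 2 * n ^ (t - 1) := by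
    rw [hmc]
    nlinarith [l1, l2]
  have key' : ((((univ : Finset (Fin t → Fin n)).filter
      (fun f => ∀ u v, (Pg k t g).Adj u v → ad G (f u) (f v) = 1)).card +
      ((univ : Finset (Fin t → Fin n)).filter
      (fun f => ∀ u v, (Pg k t g).Adj u v → co (ad G) (f u) (f v) = 1)).card : ℕ) : ℝ) ≤
      ((MC (Pg k t g) G + 2 * t ^ 2 * n ^ (t - 1) : ℕ) : ℝ) := by
    exact_mod_cast key
  push_cast at key'
  convert key' using 2

end Pool.Agent.N412.PE
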