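import Pool.Agent.N412.PE.Stm

/-!
Project PEND (helper412): LPF, basic facts on complete graphs with pendant edges
(written by helper971, adapted from `Pool/Agent/N412/LB/Lpf.lean` of helper865).
-/

set_option autoImplicit false

open Finset

namespace Pool.Agent.N412.PE

namespace LpfEAux

/-- the clique -/
def S0 (k t : ℕ) (h : k ≤ t) : Finset (Fin t) := (univ : Finset (Fin k)).map (Fin.castLEEmb h)

lemma mem_S0 {k t : ℕ} (h : k ≤ t) (i : Fin t) : i ∈ S0 k t h ↔ i.val < k := by
  unfold S0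
  rw [mem_map]
  constructor
  · rintro ⟨j, -, rfl⟩
    exact j.2
  · intro hi
    exact ⟨⟨i.val, hi⟩, mem_univ _, Fin.ext rfl⟩

lemma card_S0 {k t : ℕ} (h : k ≤ t) : (S0 k t h).card = k := by
  unfold S0
  rw [card_map, card_univ, Fintype.card_fin]

/-- the leaves -/
def lf (k t : ℕ) (h : k < t) (j : Fin (t - k)) : Fin t := ⟨k + j.val, by have := j.2; omega⟩

/-- the pendant edges -/
def pe (k t : ℕ) (g : Fin t → Fin t) (h : k < t) (j : Fin (t - k)) : Sym2 (Fin t) :=
  s(lf k t h j, g (lf k t h j))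

lemma pe_inj {k t : ℕ} {g : Fin t → Fin t} (h : k < t) (hg : Att k t g) :
    Function.Injective (pe k t g h) := by
  intro a b hab
  unfold pe at hab
  rw [Sym2.eq_iff] at hab
  rcases hab with ⟨h1, -⟩ | ⟨h1, -⟩
  · have h2 := congrArg Fin.val h1
    simp only [lf] at h2
    apply Fin.ext
    omega
  · have h2 := hg (lf k t h b) (by simp only [lf]; omega)
    rw [← h1] at h2
    simp only [lf] at h2
    omega

lemma clique {k t : ℕ} {g : Fin t → Fin t} (h : k < t) : ∀ u ∈ S0 k t h.le, ∀ v ∈ S0 k t h.le,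
    u ≠ v → (Pg k t g).Adj u v := by
  intro u hu v hv huv
  exact ⟨huv, Or.inl ⟨(mem_S0 h.le u).1 hu, (mem_S0 h.le v).1 hv⟩⟩

lemma leaf_adj {k t : ℕ} {g : Fin t → Fin t} (hg : Att k t g) {v : Fin t} (hv : k ≤ v.val) :
    (Pg k t g).Adj v (g v) := by
  refine ⟨?_, Or.inr (Or.inr ⟨hv, rfl⟩)⟩
  intro h1
  have h2 := hg v hv
  rw [← h1] at h2
  omega

lemma connected {k t : ℕ} {g : Fin t → Fin t} (hk : 4 ≤ k) (h : k < t) (hg : Att k t g) :
    (Pg k t g).Connected := by
  rw [SimpleGraph.connected_iff_exists_forall_reachable]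
  refine ⟨⟨0, by omega⟩, ?_⟩
  have key : ∀ v : Fin t, v.val < k → (Pg k t g).Reachable ⟨0, by omega⟩ v := by
    intro v hv
    by_cases h0 : v = ⟨0, by omega⟩
    · rw [h0]
    · apply SimpleGraph.Adj.reachable
      exact ⟨fun h' => h0 h'.symm, Or.inl ⟨by simp only; omega, hv⟩⟩
  intro v
  by_cases hv : v.val < k
  · exact key v hv
  · push Not at hv
    exact (key (g v) (hg v hv)).trans (leaf_adj hg hv).symm.reachable

lemma colorable {k t : ℕ} {g : Fin t → Fin t} (hk : 4 ≤ k) (hg : Att k t g) :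
    (Pg k t g).Colorable k := by
  refine ⟨SimpleGraph.Coloring.mk (fun i => if hi : i.val < k then (⟨i.val, hi⟩ : Fin k) else
    if (g i).val = 0 then ⟨1, by omega⟩ else ⟨0, by omega⟩) ?_⟩
  have key : ∀ i : Fin t, k ≤ i.val →
      (if hi : i.val < k then (⟨i.val, hi⟩ : Fin k) else
        if (g i).val = 0 then ⟨1, by omega⟩ else ⟨0, by omega⟩) ≠
      (if hi : (g i).val < k then (⟨(g i).val, hi⟩ : Fin k) else
        if (g (g i)).val = 0 then ⟨1, by omega⟩ else ⟨0, by omega⟩) := by
    intro i hi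
    have h1 : ¬ i.val < k := by omega
    rw [dif_neg h1, dif_pos (hg i hi)]
    by_cases h0 : (g i).val = 0
    · rw [if_pos h0]
      intro h'
      have := Fin.mk.inj_iff.1 h'
      omega
    · rw [if_neg h0]
      intro h'
      have := Fin.mk.inj_iff.1 h'
      omega
  intro i j hij
  obtain ⟨hne, ⟨h1, h2⟩ | ⟨h1, h2⟩ | ⟨h1, h2⟩⟩ := hij
  · rw [dif_pos h1, dif_pos h2]
    intro h'
    exact hne (Fin.ext (Fin.mk.inj_iff.1 h'))
  · subst h2
    exact (key j h1).symm
  · subst h2
    exact key i h1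

lemma chromatic {k t : ℕ} {g : Fin t → Fin t} (hk : 4 ≤ k) (h : k < t) (hg : Att k t g) :
    (Pg k t g).chromaticNumber = (k : ℕ∞) := by
  apply le_antisymm
  · exact (colorable hk hg).chromaticNumber_le
  · have h1 : (Pg k t g).IsClique (S0 k t h.le : Set (Fin t)) := by
      intro u hu v hv huv
      exact clique h u hu v hv huv
    have h2 := h1.card_le_chromaticNumber
    rwa [card_S0] at h2

lemma edges {k t : ℕ} {g : Fin t → Fin t} (h : k < t) (hg : Att k t g) :
    (Pg k t g).edgeSet.ncard = k.choose 2 + (t - k) := by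
  classical
  have hlf : ∀ v : Fin t, k ≤ v.val → ∃ j : Fin (t - k), lf k t h j = v := by
    intro v hv
    refine ⟨⟨v.val - k, by have := v.2; omega⟩, ?_⟩
    apply Fin.ext
    simp only [lf]
    omega
  have hlk : ∀ j : Fin (t - k), k ≤ (lf k t h j).val := by
    intro j
    simp only [lf]
    omega
  have h1 : (Pg k t g).edgeSet = (((S0 k t h.le).offDiag.image (fun p => s(p.1, p.2)) ∪
      univ.image (pe k t g h) : Finset (Sym2 (Fin t))) : Set (Sym2 (Fin t))) := by
    ext e
    induction e using Sym2.ind with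
    | _ i j =>
      rw [SimpleGraph.mem_edgeSet, Finset.mem_coe, mem_union, mem_image, mem_image]
      constructor
      · rintro ⟨hne, ⟨h1, h2⟩ | ⟨h1, h2⟩ | ⟨h1, h2⟩⟩
        · left
          exact ⟨(i, j), mem_offDiag.2 ⟨(mem_S0 _ _).2 h1, (mem_S0 _ _).2 h2, hne⟩, rfl⟩
        · right
          obtain ⟨l, hl⟩ := hlf j h1
          refine ⟨l, mem_univ _, ?_⟩
          unfold pe
          rw [hl, h2]
          exact Sym2.eq_swap
        · right
          obtain ⟨l, hl⟩ := hlf i h1
          refine ⟨l, mem_univ _, ?_⟩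
          unfold pe
          rw [hl, h2]
      · rintro (⟨⟨a, b⟩, hab, he⟩ | ⟨a, -, he⟩)
        · rw [mem_offDiag] at hab
          have h4 : (Pg k t g).Adj a b := clique h a hab.1 b hab.2.1 hab.2.2
          rw [Sym2.eq_iff] at he
          rcases he with ⟨rfl, rfl⟩ | ⟨rfl, rfl⟩
          · exact h4
          · exact h4.symm
        · unfold pe at he
          have h4 : (Pg k t g).Adj (lf k t h a) (g (lf k t h a)) := leaf_adj hg (hlk a)
          rw [Sym2.eq_iff] at he
          rcases he with ⟨h5, h6⟩ | ⟨h5, h6⟩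
          · rw [h6, h5] at h4
            exact h4
          · rw [h6, h5] at h4
            exact h4.symm
  rw [h1, Set.ncard_coe_finset, card_union_of_disjoint]
  · congr 1
    · have := Sym2.card_image_offDiag (S0 k t h.le)
      rw [card_S0] at this
      exact this
    · rw [card_image_of_injective _ (pe_inj h hg), card_univ, Fintype.card_fin]
  · rw [Finset.disjoint_left]
    intro e he he'
    rw [mem_image] at he he'
    obtain ⟨⟨a, b⟩, hab, rfl⟩ := he
    obtain ⟨c, -, hc⟩ := he'
    rw [mem_offDiag] at hab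
    have ha := (mem_S0 h.le _).1 hab.1
    have hb := (mem_S0 h.le _).1 hab.2.1
    unfold pe at hc
    rw [Sym2.eq_iff] at hc
    have h9 := hlk c
    simp only at ha hb hc
    rcases hc with ⟨h5, -⟩ | ⟨h5, -⟩
    · have h6 := congrArg Fin.val h5
      omega
    · have h6 := congrArg Fin.val h5
      omega

end LpfEAux

theorem lpfE : SLpfE := by
  intro k t g hk h hg
  exact ⟨LpfEAux.connected hk h hg, LpfEAux.chromatic hk h hg, LpfEAux.S0 k t h.le,
    LpfEAux.card_S0 h.le, LpfEAux.clique h, LpfEAux.edges h hg⟩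

end Pool.Agent.N412.PE
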