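import Pool.Agent.N412.PE.Stm
import Pool.Agent.N412.LB.Stab2

/-!
PEND/NEAR (helper833): a kernel in which almost all vertices have blue degree at least
`(1+x)/(k-1)`, with few blue cliques among them, is close to the Turan colouring.
-/

set_option autoImplicit false

open Finset

namespace Pool.Agent.N412.PE

open Pool.Agent.W297.LP Pool.Agent.N412.LB

namespace NearEAux

open Stab2Aux

theorem ms_cover {r : ℕ} {V : Type} [Fintype V] [DecidableEq V] {U : Fin r → Finset V}
    {D : Finset V} (hd : ∀ i j, i ≠ j → Disjoint (U i) (U j)) (hD : D = univ.biUnion U) :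
    ∑ i, ms (U i) = ms D := by
  unfold ms
  rw [← sum_div, hD, card_biUnion (fun i _ j _ h => hd i j h)]
  push_cast
  rfl

theorem ee_cover {r : ℕ} {V : Type} [Fintype V] [DecidableEq V] {U : Fin r → Finset V}
    {D : Finset V} (W : V → V → ℝ) (hd : ∀ i j, i ≠ j → Disjoint (U i) (U j))
    (hD : D = univ.biUnion U) : ∑ i, ∑ j, ee W (U i) (U j) = ee W D D := by
  unfold ee
  simp only [← sum_div]
  rw [hD, sum_biUnion (fun i _ j _ h => hd i j h)]
  congr 1
  refine sum_congr rfl fun i _ => ?_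
  rw [sum_comm]
  refine sum_congr rfl fun x _ => ?_
  rw [sum_biUnion (fun i _ j _ h => hd i j h)]

theorem ee_add_co {V : Type} [Fintype V] (W : V → V → ℝ) (P : Finset V) :
    ee W P P + ee (co W) P P = (ms P) ^ 2 := by
  unfold ee ms co
  rw [← add_div, ← sum_add_distrib]
  have : ∀ x ∈ P, ∑ y ∈ P, W x y + ∑ y ∈ P, (1 - W x y) = (P.card : ℝ) := by
    intro x _
    rw [← sum_add_distrib]
    simp
  rw [sum_congr rfl this, sum_const, nsmul_eq_mul, div_pow, sq (P.card : ℝ)]

theorem ee_univ_le {V : Type} [Fintype V] {W : V → V → ℝ} (hW : Ker W)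
    (hV : 0 < Fintype.card V) {s : ℝ} (hs : 0 ≤ s) :
    ee W univ univ ≤ s + ms (Dh W s) := by
  classical
  have hn : (0 : ℝ) < (Fintype.card V : ℝ) := by exact_mod_cast hV
  have h1 : ∀ x, dg W x ≤ s + (if x ∈ Dh W s then 1 else 0) := by
    intro x
    by_cases h : x ∈ Dh W s
    · rw [if_pos h]
      have : dg W x ≤ 1 := by
        unfold dg
        rw [div_le_one hn]
        calc ∑ y, W x y ≤ ∑ _y : V, (1 : ℝ) := sum_le_sum fun y _ => le1 hW x y
          _ = (Fintype.card V : ℝ) := by simp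
      linarith
    · rw [if_neg h]
      have : dg W x < s := by
        by_contra h2
        apply h
        unfold Dh
        rw [mem_filter]
        exact ⟨mem_univ _, not_lt.1 h2⟩
      linarith
  have h2 : ee W univ univ = (∑ x, dg W x) / (Fintype.card V : ℝ) := by
    unfold ee dg
    rw [← sum_div, div_div, sq]
  rw [h2, div_le_iff₀ hn]
  calc ∑ x, dg W x ≤ ∑ x : V, (s + (if x ∈ Dh W s then 1 else 0)) :=
        sum_le_sum fun x _ => h1 x
    _ = (s + ms (Dh W s)) * (Fintype.card V : ℝ) := by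
      rw [sum_add_distrib, sum_const, card_univ, nsmul_eq_mul, sum_ite_mem, univ_inter, sum_const,
        nsmul_eq_mul]
      unfold ms
      field_simp

theorem ee_univ_sub {V : Type} [Fintype V] {W : V → V → ℝ} (hW : Ker W)
    (hV : 0 < Fintype.card V) (D : Finset V) :
    ee W univ univ ≤ ee W D D + 2 * (1 - ms D) := by
  classical
  have hn : (0 : ℝ) < (Fintype.card V : ℝ) := by exact_mod_cast hV
  have hN2 : (0 : ℝ) < (Fintype.card V : ℝ) ^ 2 := by positivity
  have hle : (D.card : ℝ) ≤ (Fintype.card V : ℝ) := by exact_mod_cast card_le_univ D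
  have hc : ((Dᶜ).card : ℝ) = (Fintype.card V : ℝ) - D.card := by
    rw [card_compl, Nat.cast_sub (card_le_univ _)]
  have h1 : ∑ x, ∑ y, W x y ≤ ∑ x ∈ D, ∑ y ∈ D, W x y +
      2 * ((Fintype.card V : ℝ) - D.card) * (Fintype.card V : ℝ) := by
    have a1 : ∀ x, ∑ y, W x y ≤ ∑ y ∈ D, W x y + ((Fintype.card V : ℝ) - D.card) := by
      intro x
      rw [← sum_add_sum_compl D]
      have : ∑ y ∈ Dᶜ, W x y ≤ ∑ _y ∈ Dᶜ, (1 : ℝ) := sum_le_sum fun y _ => le1 hW x y
      rw [sum_const, nsmul_eq_mul, mul_one, hc] at this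
      linarith
    have a2 : ∀ x, ∑ y, W x y ≤ (Fintype.card V : ℝ) := by
      intro x
      calc ∑ y, W x y ≤ ∑ _y : V, (1 : ℝ) := sum_le_sum fun y _ => le1 hW x y
        _ = (Fintype.card V : ℝ) := by simp
    rw [← sum_add_sum_compl D]
    have b1 : ∑ x ∈ D, ∑ y, W x y ≤
        ∑ x ∈ D, (∑ y ∈ D, W x y + ((Fintype.card V : ℝ) - D.card)) :=
      sum_le_sum fun x _ => a1 x
    have b2 : ∑ x ∈ Dᶜ, ∑ y, W x y ≤ ∑ _x ∈ Dᶜ, (Fintype.card V : ℝ) :=
      sum_le_sum fun x _ => a2 x
    rw [sum_add_distrib, sum_const, nsmul_eq_mul] at b1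
    rw [sum_const, nsmul_eq_mul, hc] at b2
    have b3 : (D.card : ℝ) * ((Fintype.card V : ℝ) - D.card) ≤
        ((Fintype.card V : ℝ) - D.card) * (Fintype.card V : ℝ) := by
      rw [mul_comm]
      exact mul_le_mul_of_nonneg_left hle (by linarith)
    linarith
  unfold ee ms
  rw [div_le_iff₀ hN2, add_mul, div_mul_cancel₀ _ hN2.ne']
  have : 2 * (1 - (D.card : ℝ) / (Fintype.card V : ℝ)) * (Fintype.card V : ℝ) ^ 2 =
      2 * ((Fintype.card V : ℝ) - D.card) * (Fintype.card V : ℝ) := by
    field_simp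
  rw [this]
  exact h1

theorem xk_pos {k : ℕ} (hk : 4 ≤ k) : 0 < nk k ∧ 0 < xk k ∧ nk k ≤ 1 := by
  have hm := mu_pos hk
  have hm1 := mu_le hk
  have h1 : 0 < nk k := by unfold nk; positivity
  refine ⟨h1, by unfold xk; positivity, ?_⟩
  unfold nk
  rw [div_le_one (by positivity)]
  exact (pow_le_one₀ hm.le (by linarith)).trans (by norm_num)

theorem hk_le {k : ℕ} (hk4 : 4 ≤ k) :
    2 * hk k / (xk k * mu k / 4) ^ (k - 1) ≤ xk k / 2 := by
  have hm := mu_pos hk4
  have hm1 := mu_le hk4
  obtain ⟨-, hx, -⟩ := xk_pos hk4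
  obtain ⟨θ, hθ⟩ : ∃ θ : ℝ, θ = xk k * mu k / 4 := ⟨_, rfl⟩
  have hθ0 : 0 < θ := by rw [hθ]; positivity
  have e : hk k = θ ^ k / ((4 : ℝ) ^ k) ^ k := by
    unfold hk
    rw [← div_pow]
    congr 1
    rw [hθ, pow_succ]
    field_simp
  have hk' : θ ^ k = θ ^ (k - 1) * θ := by
    rw [← pow_succ]; congr 1; omega
  rw [← hθ, e, hk', div_le_iff₀ (pow_pos hθ0 _)]
  have h4 : (1 : ℝ) ≤ ((4 : ℝ) ^ k) ^ k := one_le_pow₀ (one_le_pow₀ (by norm_num))
  have h5 : 0 < θ ^ (k - 1) := pow_pos hθ0 _
  have h6 : θ ^ (k - 1) * θ / ((4 : ℝ) ^ k) ^ k ≤ θ ^ (k - 1) * θ :=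
    div_le_self (by positivity) h4
  have h7 : θ ≤ xk k / 12 := by rw [hθ]; nlinarith
  have h8 : θ ^ (k - 1) * θ ≤ θ ^ (k - 1) * (xk k / 12) := mul_le_mul_of_nonneg_left h7 h5.le
  nlinarith

/-- from parts of a large set back to a partition -/
theorem back {k : ℕ} (hk : 4 ≤ k) {a b c s δ : ℝ} {V : Type} [Fintype V] [DecidableEq V]
    {W : V → V → ℝ} {Vi : Fin (k - 1) → Finset V} {D : Finset V} (hW : Ker W)
    (hV : 0 < Fintype.card V) (hdis : ∀ i j, i ≠ j → Disjoint (Vi i) (Vi j))
    (hcov : ∀ x ∈ D, ∃ i, x ∈ Vi i) (hD : 1 - a ≤ ms D)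
    (hs : ∀ i, |ms (Vi i) - mu k| ≤ s) (hb : ∑ i, ee (co W) (Vi i) (Vi i) ≤ b)
    (hc : ∑ i, ∑ j ∈ univ.erase i, ee W (Vi i) (Vi j) ≤ c) (h1 : s + a ≤ δ)
    (h2 : b + c + 2 * a ≤ δ) (h3 : 0 ≤ a) : Near k δ W := by
  classical
  have hn : (0 : ℝ) < (Fintype.card V : ℝ) := by exact_mod_cast hV
  have hk1 : 0 < k - 1 := by omega
  obtain ⟨A, hA⟩ : ∃ A : Finset V, A = Dᶜ := ⟨_, rfl⟩
  have hAc : (A.card : ℝ) ≤ a * (Fintype.card V : ℝ) := by
    rw [hA, card_compl, Nat.cast_sub (card_le_univ _)]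
    unfold ms at hD
    rw [le_div_iff₀ hn] at hD
    linarith
  have hcov' : ∀ x, x ∈ A ∨ ∃ i, x ∈ Vi i := by
    intro x
    by_cases h : x ∈ D
    · exact Or.inr (hcov x h)
    · left; rw [hA, mem_compl]; exact h
  obtain ⟨P, hP⟩ : ∃ P : V → Fin (k - 1), ∀ i, ∀ x ∈ Vi i, P x = i := by
    refine ⟨fun x => if h : ∃ i, x ∈ Vi i then h.choose else ⟨0, hk1⟩, fun i x hx => ?_⟩
    have h : ∃ i, x ∈ Vi i := ⟨i, hx⟩
    simp only [h, dif_pos]
    by_contra hne
    exact Finset.disjoint_left.1 (hdis _ _ hne) h.choose_spec hx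
  refine ⟨P, fun i => ?_, ?_⟩
  · have h1' : Vi i ⊆ univ.filter (fun x => P x = i) := by
      intro x hx
      rw [mem_filter]
      exact ⟨mem_univ _, hP i x hx⟩
    have h2' : univ.filter (fun x => P x = i) ⊆ Vi i ∪ A := by
      intro x hx
      rw [mem_filter] at hx
      rcases hcov' x with h | ⟨j, h⟩
      · exact mem_union_right _ h
      · have := hP j x h
        rw [hx.2] at this
        subst this
        exact mem_union_left _ h
    have c1 : ((Vi i).card : ℝ) ≤ ((univ.filter (fun x => P x = i)).card : ℝ) := by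
      exact_mod_cast card_le_card h1'
    have c2 : ((univ.filter (fun x => P x = i)).card : ℝ) ≤
        ((Vi i).card : ℝ) + (A.card : ℝ) := by
      have := (card_le_card h2').trans (card_union_le _ _)
      exact_mod_cast this
    have d1 : ms (Vi i) ≤ ms (univ.filter (fun x => P x = i)) :=
      div_le_div_of_nonneg_right c1 hn.le
    have d2 : ms (univ.filter (fun x => P x = i)) ≤ ms (Vi i) + a := by
      unfold ms
      rw [div_le_iff₀ hn, add_mul, div_mul_cancel₀ _ hn.ne']
      linarith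
    have h3' := abs_le.1 (hs i)
    rw [abs_le]
    constructor <;> linarith [h3'.1, h3'.2]
  · have hpt : ∀ x y, (if P x = P y then 1 - W x y else W x y) ≤
        (∑ i, (if x ∈ Vi i then (if y ∈ Vi i then co W x y else 0) else 0)) +
        (∑ i, ∑ j ∈ univ.erase i, (if x ∈ Vi i then (if y ∈ Vi j then W x y else 0) else 0)) +
        (if x ∈ A then 1 else 0) + (if y ∈ A then 1 else 0) := by
      intro x y
      have hco := nn (ker_co hW) x y
      have hww := nn hW x y
      have n1 : 0 ≤ (∑ i, (if x ∈ Vi i then (if y ∈ Vi i then co W x y else 0) else 0)) :=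
        sum_nonneg fun i _ => by split_ifs <;> first | exact hco | exact le_rfl
      have n2 : 0 ≤ (∑ i, ∑ j ∈ univ.erase i,
          (if x ∈ Vi i then (if y ∈ Vi j then W x y else 0) else 0)) :=
        sum_nonneg fun i _ => sum_nonneg fun j _ => by
          split_ifs <;> first | exact hww | exact le_rfl
      have n3 : (0 : ℝ) ≤ (if x ∈ A then 1 else 0) := by split_ifs <;> norm_num
      have n4 : (0 : ℝ) ≤ (if y ∈ A then 1 else 0) := by split_ifs <;> norm_num
      have hle : (if P x = P y then 1 - W x y else W x y) ≤ 1 := by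
        split_ifs
        · linarith
        · exact le1 hW x y
      by_cases hx : x ∈ A
      · rw [if_pos hx]
        linarith
      by_cases hy : y ∈ A
      · rw [if_pos hy]
        linarith
      obtain ⟨i, hi⟩ : ∃ i, x ∈ Vi i := by
        rcases hcov' x with h | h
        · exact absurd h hx
        · exact h
      obtain ⟨j, hj⟩ : ∃ j, y ∈ Vi j := by
        rcases hcov' y with h | h
        · exact absurd h hy
        · exact h
      rw [hP i x hi, hP j y hj]
      by_cases hij : i = j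
      · subst hij
        rw [if_pos rfl]
        have : co W x y ≤ (∑ i, (if x ∈ Vi i then (if y ∈ Vi i then co W x y else 0) else 0)) := by
          refine le_trans ?_ (single_le_sum (f := fun i =>
            (if x ∈ Vi i then (if y ∈ Vi i then co W x y else 0) else 0))
            (fun i _ => ?_) (mem_univ i))
          · simp only [if_pos hi, if_pos hj]
            exact le_rfl
          · try dsimp only
            split_ifs <;> first | exact hco | exact le_rfl
        have h0 : co W x y = 1 - W x y := rfl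
        linarith
      · rw [if_neg hij]
        have : W x y ≤ (∑ i, ∑ j ∈ univ.erase i,
            (if x ∈ Vi i then (if y ∈ Vi j then W x y else 0) else 0)) := by
          refine le_trans ?_ (single_le_sum (f := fun i => ∑ j ∈ univ.erase i,
            (if x ∈ Vi i then (if y ∈ Vi j then W x y else 0) else 0))
            (fun i _ => ?_) (mem_univ i))
          · refine le_trans ?_ (single_le_sum (f := fun j =>
              (if x ∈ Vi i then (if y ∈ Vi j then W x y else 0) else 0))
              (fun i _ => ?_) (mem_erase.2 ⟨fun h => hij h.symm, mem_univ j⟩))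
            · simp only [if_pos hi, if_pos hj]
              exact le_rfl
            · try dsimp only
              split_ifs <;> first | exact hww | exact le_rfl
          · exact sum_nonneg fun j _ => by
              split_ifs <;> first | exact hww | exact le_rfl
        linarith
    have hsum := sum_le_sum fun (x : V) (_ : x ∈ univ) =>
      sum_le_sum fun (y : V) (_ : y ∈ univ) => hpt x y
    refine hsum.trans ?_
    simp only [sum_add_distrib]
    have t1 : ∑ x : V, ∑ y : V, ∑ i, (if x ∈ Vi i then (if y ∈ Vi i then co W x y else 0) else 0) =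
        (∑ i, ee (co W) (Vi i) (Vi i)) * (Fintype.card V : ℝ) ^ 2 := by
      have : ∀ i, ∑ x : V, ∑ y : V, (if x ∈ Vi i then (if y ∈ Vi i then co W x y else 0) else 0) =
          ee (co W) (Vi i) (Vi i) * (Fintype.card V : ℝ) ^ 2 := by
        intro i
        unfold ee
        rw [div_mul_cancel₀ _ (by positivity)]
        rw [← sum_filter_add_sum_filter_not univ (fun x => x ∈ Vi i)]
        rw [filter_mem_eq_inter, univ_inter]
        rw [sum_eq_zero (s := univ.filter (fun x => ¬ x ∈ Vi i)), add_zero]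
        · refine sum_congr rfl fun x hx => ?_
          simp only [if_pos hx]
          rw [sum_ite_mem, univ_inter]
        · intro x hx
          rw [mem_filter] at hx
          simp only [if_neg hx.2, sum_const_zero]
      rw [sum_mul, ← sum_congr rfl fun i _ => this i]
      rw [sum_comm]
      rw [← sum_comm]
      rw [sum_congr rfl fun x _ => sum_comm]
      rw [sum_comm]
    have t2 : ∑ x : V, ∑ y : V, ∑ i, ∑ j ∈ univ.erase i,
        (if x ∈ Vi i then (if y ∈ Vi j then W x y else 0) else 0) =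
        (∑ i, ∑ j ∈ univ.erase i, ee W (Vi i) (Vi j)) * (Fintype.card V : ℝ) ^ 2 := by
      have : ∀ i j, ∑ x : V, ∑ y : V, (if x ∈ Vi i then (if y ∈ Vi j then W x y else 0) else 0) =
          ee W (Vi i) (Vi j) * (Fintype.card V : ℝ) ^ 2 := by
        intro i j
        unfold ee
        rw [div_mul_cancel₀ _ (by positivity)]
        rw [← sum_filter_add_sum_filter_not univ (fun x => x ∈ Vi i)]
        rw [filter_mem_eq_inter, univ_inter]
        rw [sum_eq_zero (s := univ.filter (fun x => ¬ x ∈ Vi i)), add_zero]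
        · refine sum_congr rfl fun x hx => ?_
          simp only [if_pos hx]
          rw [sum_ite_mem, univ_inter]
        · intro x hx
          rw [mem_filter] at hx
          simp only [if_neg hx.2, sum_const_zero]
      rw [sum_mul]
      rw [sum_congr rfl fun i _ => sum_mul _ _ _]
      rw [← sum_congr rfl fun i _ => sum_congr rfl fun j _ => this i j]
      rw [sum_congr rfl fun x _ => sum_comm]
      rw [sum_comm]
      refine sum_congr rfl fun i _ => ?_
      rw [sum_congr rfl fun x _ => sum_comm]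
      rw [sum_comm]
    have hA' : ∑ x : V, (if x ∈ A then (1 : ℝ) else 0) ≤ a * (Fintype.card V : ℝ) := by
      rw [sum_ite_mem, univ_inter, sum_const, nsmul_eq_mul, mul_one]
      exact hAc
    have t3 : ∑ x : V, ∑ _y : V, (if x ∈ A then (1 : ℝ) else 0) ≤
        a * (Fintype.card V : ℝ) ^ 2 := by
      simp only [sum_const, card_univ, nsmul_eq_mul]
      rw [← mul_sum]
      calc (Fintype.card V : ℝ) * ∑ x : V, (if x ∈ A then (1 : ℝ) else 0) ≤
          (Fintype.card V : ℝ) * (a * (Fintype.card V : ℝ)) :=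
            mul_le_mul_of_nonneg_left hA' hn.le
        _ = _ := by ring
    have t4 : ∑ _x : V, ∑ y : V, (if y ∈ A then (1 : ℝ) else 0) ≤
        a * (Fintype.card V : ℝ) ^ 2 := by
      simp only [sum_const, card_univ, nsmul_eq_mul]
      calc (Fintype.card V : ℝ) * ∑ x : V, (if x ∈ A then (1 : ℝ) else 0) ≤
          (Fintype.card V : ℝ) * (a * (Fintype.card V : ℝ)) :=
            mul_le_mul_of_nonneg_left hA' hn.le
        _ = _ := by ring
    rw [t1, t2]
    have hn2 : (0 : ℝ) < (Fintype.card V : ℝ) ^ 2 := by positivity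
    have q : (∑ i, ee (co W) (Vi i) (Vi i)) + (∑ i, ∑ j ∈ univ.erase i, ee W (Vi i) (Vi j)) +
        a + a ≤ δ := by linarith
    have q2 := mul_le_mul_of_nonneg_right q hn2.le
    nlinarith [q2, t3, t4]

end NearEAux

open NearEAux Stab2Aux

theorem nearE (h1 : SFurE) : SNearE := by
  intro k hk4 V _ _ W hW hV hcl hD2 hD1
  classical
  have hn : (0 : ℝ) < (Fintype.card V : ℝ) := by exact_mod_cast hV
  have hm := mu_pos hk4
  have hm1 := mu_le hk4
  obtain ⟨hnk, hx, hnk1⟩ := xk_pos hk4
  have hk' : (4 : ℝ) ≤ k := by exact_mod_cast hk4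
  obtain ⟨D, hD⟩ : ∃ D, D = Dh (co W) ((1 + xk k) * mu k) := ⟨_, rfl⟩
  rw [← hD] at hcl hD2
  obtain ⟨x, hxd⟩ : ∃ x, x = xk k := ⟨_, rfl⟩
  obtain ⟨q, hqd⟩ : ∃ q, q = mu k := ⟨_, rfl⟩
  have hr : ((k - 1 : ℕ) : ℝ) * mu k = 1 := by
    rw [Nat.cast_sub (by omega), Nat.cast_one]
    unfold mu
    rw [mul_one_div, div_self (by linarith)]
  have hkk : k - 1 + 1 = k := by omega
  have hx1 : xk k ≤ 1 / 1000 := by
    unfold xk
    nlinarith
  obtain ⟨U, hdis, hsub, hcov, hfur⟩ := h1 (k - 1) (by omega) (hk k) (xk k * mu k / 4)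
    (by unfold hk; positivity) (by positivity) (by nlinarith) V (co W) (ker_co hW) hV D
    (by rw [hkk]; exact hcl)
  have hDU : D = univ.biUnion U := by
    ext v
    rw [mem_biUnion]
    constructor
    · intro h
      obtain ⟨i, hi⟩ := hcov v h
      exact ⟨i, mem_univ _, hi⟩
    · rintro ⟨i, -, hi⟩
      exact hsub i hi
  have hsum := ms_cover hdis hDU
  have hle1 : ms D ≤ 1 := by
    unfold ms
    rw [div_le_one hn]
    exact_mod_cast card_le_univ D
  have hD0 := ms_nonneg D
  have hE1 := hk_le hk4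
  have hE2 : 2 * ((k - 1 : ℕ) : ℝ) * (xk k * mu k / 4) = xk k / 2 := by
    have : 2 * ((k - 1 : ℕ) : ℝ) * (xk k * mu k / 4) = (((k - 1 : ℕ) : ℝ) * mu k) * (xk k / 2) := by
      ring
    rw [this, hr, one_mul]
  -- red total
  have hred : ee W univ univ ≤ mu k + 42 * xk k := by
    have := ee_univ_le (W := W) hW hV (s := (1 + xk k) * mu k) (by positivity)
    nlinarith
  have hadd := ee_add_co W (univ : Finset V)
  have hms1 : ms (univ : Finset V) = 1 := by
    unfold ms
    rw [card_univ, div_self hn.ne']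
  rw [hms1] at hadd
  have hblue := ee_univ_sub (ker_co hW) hV D
  have hbD : 1 - mu k - 122 * xk k ≤ ee (co W) D D := by linarith
  have hsq : (ms D) ^ 2 ≤ 1 := by nlinarith
  rw [hE2] at hfur
  have hmain : ∑ i, ee (co W) (U i) (U i) + ∑ i, (ms (U i)) ^ 2 ≤ mu k + 123 * xk k := by
    linarith
  have hF0 : ∀ i, 0 ≤ ee (co W) (U i) (U i) := fun i => ee_nonneg (nn (ker_co hW)) _ _
  have hF0s : 0 ≤ ∑ i, ee (co W) (U i) (U i) := sum_nonneg fun i _ => hF0 i
  have hvar : ∑ i, (ms (U i) - mu k) ^ 2 = ∑ i, (ms (U i)) ^ 2 - 2 * mu k * ms D + mu k := by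
    have : ∀ i : Fin (k - 1), (ms (U i) - mu k) ^ 2 =
        (ms (U i)) ^ 2 - 2 * mu k * ms (U i) + mu k ^ 2 := fun i => by ring
    rw [sum_congr rfl fun i _ => this i, sum_add_distrib, sum_sub_distrib, ← mul_sum, hsum,
      sum_const, card_univ, Fintype.card_fin, nsmul_eq_mul]
    have : ((k - 1 : ℕ) : ℝ) * mu k ^ 2 = mu k := by
      rw [sq, ← mul_assoc, hr, one_mul]
    rw [this]
  have hv0 : 0 ≤ ∑ i, (ms (U i) - mu k) ^ 2 := sum_nonneg fun i _ => sq_nonneg _
  have hqD : mu k * (1 - 40 * xk k) ≤ mu k * ms D := mul_le_mul_of_nonneg_left hD2 hm.le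
  have hqx : mu k * xk k ≤ 1 / 3 * xk k := mul_le_mul_of_nonneg_right hm1 hx.le
  have hvle : ∑ i, (ms (U i) - mu k) ^ 2 ≤ 150 * xk k := by
    rw [hvar]; nlinarith
  have hp2 : mu k - 27 * xk k ≤ ∑ i, (ms (U i)) ^ 2 := by
    rw [hvar] at hv0
    nlinarith
  have hF : ∑ i, ee (co W) (U i) (U i) ≤ 150 * xk k := by linarith
  have hxe : xk k = nk k ^ 2 / 1000 := rfl
  have hsz : ∀ i, |ms (U i) - mu k| ≤ nk k / 2 := by
    intro i
    have h2 : (ms (U i) - mu k) ^ 2 ≤ ∑ i, (ms (U i) - mu k) ^ 2 :=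
      single_le_sum (f := fun i => (ms (U i) - mu k) ^ 2) (fun i _ => sq_nonneg _) (mem_univ i)
    have h3 : (ms (U i) - mu k) ^ 2 ≤ (nk k / 2) ^ 2 := by
      have h4 : 0 < nk k ^ 2 := pow_pos hnk 2
      have h5 : (nk k / 2) ^ 2 = nk k ^ 2 / 4 := by ring
      rw [h5]
      linarith
    exact abs_le_of_sq_le_sq h3 (half_pos hnk).le
  have hcross : ∑ i, ∑ j ∈ univ.erase i, ee W (U i) (U j) ≤ 220 * xk k := by
    have e1 := ee_cover W hdis hDU
    have e2 : ∑ i, ∑ j, ee W (U i) (U j) =
        ∑ i, ee W (U i) (U i) + ∑ i, ∑ j ∈ univ.erase i, ee W (U i) (U j) := by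
      rw [← sum_add_distrib]
      exact sum_congr rfl fun i _ => (add_sum_erase univ (fun j => ee W (U i) (U j))
        (mem_univ i)).symm
    have e3 : ∑ i, ee W (U i) (U i) = ∑ i, (ms (U i)) ^ 2 - ∑ i, ee (co W) (U i) (U i) := by
      rw [← sum_sub_distrib]
      refine sum_congr rfl fun i _ => ?_
      linarith [ee_add_co W (U i)]
    have e4 : ee W D D ≤ ee W univ univ := by
      unfold ee
      apply div_le_div_of_nonneg_right _ (by positivity)
      refine (sum_le_sum fun x _ => sum_le_sum_of_subset_of_nonneg (subset_univ D)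
        fun y _ _ => nn hW x y).trans ?_
      exact sum_le_sum_of_subset_of_nonneg (subset_univ D)
        fun x _ _ => sum_nonneg fun y _ => nn hW x y
    linarith
  have hx2 : nk k ^ 2 ≤ nk k := by nlinarith
  refine back hk4 hW hV hdis hcov hD2 hsz hF hcross ?_ ?_ (by positivity)
  · rw [hxe]; linarith
  · rw [hxe]; linarith

end Pool.Agent.N412.PE
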