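import Pool.Agent.N412.PE.Stm

/-!
Project PEND, part NUM: the numerical conditions (helper340).
-/

set_option autoImplicit false

namespace Pool.Agent.N412.PE

open Pool.Agent.W297.LP Pool.Agent.N412.LB

namespace NumEAux

theorem mu_pos {k : ℕ} (hk : 4 ≤ k) : 0 < mu k := by
  have h : (4 : ℝ) ≤ k := by exact_mod_cast hk
  unfold mu
  exact div_pos one_pos (by linarith)

theorem mu_le {k : ℕ} (hk : 4 ≤ k) : mu k ≤ 1 := by
  have h : (4 : ℝ) ≤ k := by exact_mod_cast hk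
  unfold mu
  rw [div_le_one (by linarith)]
  linarith

theorem one_le_mu_mul {k : ℕ} (hk : 4 ≤ k) : 1 ≤ mu k * k := by
  have h : (4 : ℝ) ≤ k := by exact_mod_cast hk
  unfold mu
  rw [div_mul_eq_mul_div, le_div_iff₀ (by linarith)]
  linarith

theorem mu_ge {k : ℕ} (hk : 4 ≤ k) : (1 / 2 : ℝ) ^ k ≤ mu k := by
  have h : (4 : ℝ) ≤ k := by exact_mod_cast hk
  have h1 : (k : ℝ) ≤ 2 ^ k := by
    exact_mod_cast (Nat.lt_two_pow_self (n := k)).le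
  have h2 := one_le_mu_mul hk
  have h3 := mu_pos hk
  rw [one_div_pow, div_le_iff₀ (by positivity)]
  exact h2.trans (mul_le_mul_of_nonneg_left h1 h3.le)

theorem xk_eq (k : ℕ) : xk k = mu k ^ 22 / 10 ^ 27 := by
  unfold xk nk
  rw [div_pow, div_div]
  congr 1
  · ring
  · norm_num

theorem xk_pos {k : ℕ} (hk : 4 ≤ k) : 0 < xk k := by
  have := mu_pos hk
  rw [xk_eq]
  positivity

theorem aux {k : ℕ} (hk : 4 ≤ k) (c d : ℕ) {A : ℝ} (hA : 0 < A) (hAd : A ≤ 2 ^ d) :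
    (1 / 2 : ℝ) ^ (c * k + d) ≤ mu k ^ c / A := by
  have h1 : (1 / 2 : ℝ) ^ (c * k) ≤ mu k ^ c := by
    rw [mul_comm c k, pow_mul]
    exact pow_le_pow_left₀ (by positivity) (mu_ge hk) c
  have h2 : 0 ≤ mu k ^ c := pow_nonneg (mu_pos hk).le _
  rw [le_div_iff₀ hA, pow_add]
  calc (1 / 2 : ℝ) ^ (c * k) * (1 / 2 : ℝ) ^ d * A ≤ mu k ^ c * (1 / 2 : ℝ) ^ d * 2 ^ d := by
        gcongr
    _ = mu k ^ c * (1 / 2 * 2 : ℝ) ^ d := by
        rw [mul_pow]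
        ring
    _ = mu k ^ c := by norm_num

theorem xk_ge {k : ℕ} (hk : 4 ≤ k) : (1 / 2 : ℝ) ^ (22 * k + 90) ≤ xk k := by
  rw [xk_eq]
  exact aux hk 22 90 (by norm_num) (by norm_num)

theorem hk_ge {k : ℕ} (hk : 4 ≤ k) : (1 / 2 : ℝ) ^ (48 * k * k) ≤ Pool.Agent.N412.PE.hk k := by
  unfold Pool.Agent.N412.PE.hk
  rw [pow_mul]
  refine pow_le_pow_left₀ (by positivity) ?_ k
  have h1 : (1 / 2 : ℝ) ^ (48 * k) ≤ (1 / 2 : ℝ) ^ ((22 * k + 90) + k + 2 * (k + 1)) :=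
    pow_le_pow_of_le_one (by norm_num) (by norm_num) (by omega)
  refine h1.trans ?_
  rw [le_div_iff₀ (by positivity), pow_add, pow_add]
  have h2 : (1 / 2 : ℝ) ^ (2 * (k + 1)) * 4 ^ (k + 1) = 1 := by
    rw [pow_mul, ← mul_pow]
    norm_num
  rw [mul_assoc, h2, mul_one]
  exact mul_le_mul (xk_ge hk) (mu_ge hk) (by positivity) (xk_pos hk).le

theorem part1 {k : ℕ} (hk : 4 ≤ k) {m : ℕ} (hm : 10 ^ 27 * k ^ 22 * (48 * k * k) ≤ m) :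
    (1 / (1 + xk k)) ^ m ≤ Pool.Agent.N412.PE.hk k := by
  have hx := xk_pos hk
  have hb0 : 0 ≤ 1 / (1 + xk k) := by positivity
  have hb1 : 1 / (1 + xk k) ≤ 1 := by
    rw [div_le_one (by positivity)]
    linarith
  have h1 : 1 ≤ xk k * ((10 ^ 27 * k ^ 22 : ℕ) : ℝ) := by
    have h2 : xk k * ((10 ^ 27 * k ^ 22 : ℕ) : ℝ) = (mu k * k) ^ 22 := by
      rw [xk_eq]
      push_cast
      field_simp
      norm_num
    rw [h2]
    exact one_le_pow₀ (one_le_mu_mul hk)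
  have h2 : (2 : ℝ) ≤ (1 + xk k) ^ (10 ^ 27 * k ^ 22) := by
    have h3 := one_add_mul_le_pow (show (-2 : ℝ) ≤ xk k by linarith) (10 ^ 27 * k ^ 22)
    linarith
  have h3 : (1 / (1 + xk k)) ^ (10 ^ 27 * k ^ 22) ≤ 1 / 2 := by
    rw [one_div_pow]
    exact one_div_le_one_div_of_le (by norm_num) h2
  refine le_trans ?_ (hk_ge hk)
  calc (1 / (1 + xk k)) ^ m ≤ (1 / (1 + xk k)) ^ (10 ^ 27 * k ^ 22 * (48 * k * k)) :=
        pow_le_pow_of_le_one hb0 hb1 hm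
    _ = ((1 / (1 + xk k)) ^ (10 ^ 27 * k ^ 22)) ^ (48 * k * k) := pow_mul _ _ _
    _ ≤ (1 / 2 : ℝ) ^ (48 * k * k) := pow_le_pow_left₀ (pow_nonneg hb0 _) h3 _

theorem c3k_ge {k : ℕ} (hk : 4 ≤ k) : (1 / 2 : ℝ) ^ (3 * k + 10) ≤ c3k k := by
  unfold c3k
  exact aux hk 3 10 (by norm_num) (by norm_num)

theorem ck_ge {k : ℕ} (hk : 4 ≤ k) : (1 / 2 : ℝ) ^ ((3 * k + 10) * k) ≤ ck k := by
  unfold ck
  rw [pow_mul]
  exact pow_le_pow_left₀ (by positivity) (aux hk 3 10 (by norm_num) (by norm_num)) k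

theorem cuk_ge {k : ℕ} (hk : 4 ≤ k) : (1 / 2 : ℝ) ^ (7 * k * k) ≤ cuk k := by
  have h1 := c3k_ge hk
  have h2 := ck_ge hk
  have h3 : c3k k ≤ 1 := by
    unfold c3k
    have h4 : mu k ^ 3 ≤ 1 := pow_le_one₀ (mu_pos hk).le (mu_le hk)
    linarith
  have h0 : 0 < c3k k := lt_of_lt_of_le (by positivity) h1
  have h4 : c3k k / 2 ≤ c3k k / (1 + c3k k) :=
    div_le_div_of_nonneg_left h0.le (by linarith) (by linarith)
  unfold cuk
  have h5 : (1 / 2 : ℝ) ^ (7 * k * k) ≤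
      (1 / 2 : ℝ) ^ ((3 * k + 10) * k + (3 * k + 10) + 2) := by
    refine pow_le_pow_of_le_one (by norm_num) (by norm_num) ?_
    nlinarith
  refine h5.trans ?_
  rw [pow_add, pow_add]
  have h6 : 0 ≤ ck k := le_trans (by positivity) h2
  calc (1 / 2 : ℝ) ^ ((3 * k + 10) * k) * (1 / 2 : ℝ) ^ (3 * k + 10) * (1 / 2 : ℝ) ^ 2 ≤
        ck k * c3k k * (1 / 2 : ℝ) ^ 2 := by gcongr
    _ = ck k * (c3k k / 2) / 2 := by ring
    _ ≤ ck k * (c3k k / (1 + c3k k)) / 2 := by gcongr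

theorem part2 {k : ℕ} (hk : 4 ≤ k) {m : ℕ} (hm : 4 * (7 * k * k + 3) + 4 ≤ m) :
    ((k : ℝ) ^ 2 + m) * (2 / 5 : ℝ) ^ m ≤ cuk k * (3 / 5 : ℝ) ^ m := by
  have h1 : (2 / 5 : ℝ) ^ m = (2 / 3 : ℝ) ^ m * (3 / 5 : ℝ) ^ m := by
    rw [← mul_pow]
    norm_num
  rw [h1, ← mul_assoc]
  refine mul_le_mul_of_nonneg_right ?_ (by positivity)
  refine le_trans ?_ (cuk_ge hk)
  obtain ⟨p, hp⟩ : ∃ p : ℕ, p = m / 4 := ⟨_, rfl⟩
  have hp1 : 4 * p ≤ m := by omega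
  have hp2 : m < 4 * (p + 1) := by omega
  have hp3 : 7 * k * k + 3 ≤ p := by omega
  have hkm : k * k ≤ m := by nlinarith
  have h2 : (k : ℝ) ^ 2 + m ≤ 8 * 2 ^ p := by
    have h3 : p + 1 ≤ 2 ^ p := Nat.lt_two_pow_self
    have h4 : k ^ 2 + m ≤ 8 * 2 ^ p := by
      rw [sq]
      omega
    exact_mod_cast h4
  have h3 : (2 / 3 : ℝ) ^ m ≤ (1 / 2 : ℝ) ^ p * (1 / 2 : ℝ) ^ p := by
    calc (2 / 3 : ℝ) ^ m ≤ (2 / 3 : ℝ) ^ (4 * p) :=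
          pow_le_pow_of_le_one (by norm_num) (by norm_num) hp1
      _ = ((2 / 3 : ℝ) ^ 4) ^ p := pow_mul _ _ _
      _ ≤ (1 / 2 * (1 / 2) : ℝ) ^ p := pow_le_pow_left₀ (by positivity) (by norm_num) p
      _ = _ := mul_pow _ _ _
  calc ((k : ℝ) ^ 2 + m) * (2 / 3 : ℝ) ^ m ≤
        8 * 2 ^ p * ((1 / 2 : ℝ) ^ p * (1 / 2 : ℝ) ^ p) := by gcongr
    _ = 8 * (1 / 2 : ℝ) ^ p * (2 * (1 / 2) : ℝ) ^ p := by
        rw [mul_pow]
        ring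
    _ = 8 * (1 / 2 : ℝ) ^ p := by norm_num
    _ ≤ 8 * (1 / 2 : ℝ) ^ (7 * k * k + 3) := by
        refine mul_le_mul_of_nonneg_left ?_ (by norm_num)
        exact pow_le_pow_of_le_one (by norm_num) (by norm_num) hp3
    _ = _ := by
        rw [pow_add]
        ring

end NumEAux

open NumEAux

theorem numE : SNumE := by
  refine ⟨10 ^ 30, ?_⟩
  intro k hk m hm
  have hk1 : 1 ≤ k := by omega
  have h24 : k ^ 24 ≤ k ^ 30 := Nat.pow_le_pow_right hk1 (by norm_num)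
  have h2 : k ^ 2 ≤ k ^ 30 := Nat.pow_le_pow_right hk1 (by norm_num)
  have h3 : k ^ 3 ≤ k ^ 30 := Nat.pow_le_pow_right hk1 (by norm_num)
  have h1 : 1 ≤ k ^ 30 := Nat.one_le_pow _ _ hk1
  refine ⟨part1 hk ?_, part2 hk ?_, ?_⟩
  · have e : 10 ^ 27 * k ^ 22 * (48 * k * k) = 48 * 10 ^ 27 * k ^ 24 := by ring
    rw [e]
    omega
  · have e : 7 * k * k = 7 * k ^ 2 := by ring
    rw [e]
    omega
  · omega

end Pool.Agent.N412.PE
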