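import Pool.Agent.N412.PE.Stm

/-!
Project PEND (helper412), problem MP_333fa2_co, part PAT: the pattern at every vertex of an optimal
colouring (compare `Pool.Agent.N412.LB.Pat`).
-/

set_option autoImplicit false

open Finset

namespace Pool.Agent.N412.PE

open Pool.Agent.W297.LP Pool.Agent.N412.LB

namespace PatEAux

theorem mu_pos {k : ℕ} (hk : 4 ≤ k) : 0 < mu k := by
  have h : (4 : ℝ) ≤ k := by exact_mod_cast hk
  unfold mu
  apply one_div_pos.2
  linarith

theorem mu_le {k : ℕ} (hk : 4 ≤ k) : mu k ≤ 1 / 3 := by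
  have h : (4 : ℝ) ≤ k := by exact_mod_cast hk
  unfold mu
  rw [div_le_div_iff₀ (by linarith) (by norm_num)]
  linarith

theorem near_mono {k n : ℕ} {d d' : ℝ} (hd : d ≤ d') {G : SimpleGraph (Fin n)}
    {P : Fin n → Fin (k - 1)} (h : NearP k d G P) : NearP k d' G P := by
  refine ⟨fun i => (h.1 i).trans ?_, h.2.trans ?_⟩
  · exact mul_le_mul_of_nonneg_right hd (Nat.cast_nonneg _)
  · exact mul_le_mul_of_nonneg_right hd (by positivity)

/-- Sum of the red degrees into the parts. -/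
theorem sum_rp {n r : ℕ} (G : SimpleGraph (Fin n)) (P : Fin n → Fin r) (x : Fin n) :
    ∑ i, rp G P i x = rd G x := by
  classical
  unfold rp rd
  rw [Finset.card_eq_sum_card_fiberwise (f := P) (t := univ) (fun _ _ => Finset.mem_coe.2 (mem_univ _))]
  refine Finset.sum_congr rfl fun i _ => ?_
  congr 1
  ext y
  simp only [mem_filter, mem_univ, true_and]
  tauto

/-- Size of a part. -/
theorem card_pt {n r : ℕ} (G : SimpleGraph (Fin n)) (P : Fin n → Fin r) (i : Fin r) (x : Fin n) :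
    (pt P i).card ≤ rp G P i x + bp G P i x + 1 := by
  classical
  have h : pt P i ⊆ (univ.filter (fun y => P y = i ∧ G.Adj x y) ∪
      univ.filter (fun y => P y = i ∧ y ≠ x ∧ ¬ G.Adj x y)) ∪ {x} := by
    intro y hy
    simp only [pt, mem_filter, mem_univ, true_and] at hy
    simp only [mem_union, mem_filter, mem_univ, true_and, mem_singleton]
    by_cases h1 : y = x
    · exact Or.inr h1
    · by_cases h2 : G.Adj x y
      · exact Or.inl (Or.inl ⟨hy, h2⟩)
      · exact Or.inl (Or.inr ⟨hy, h1, h2⟩)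
  refine (Finset.card_le_card h).trans ?_
  refine (Finset.card_union_le _ _).trans ?_
  rw [Finset.card_singleton]
  refine Nat.add_le_add_right ((Finset.card_union_le _ _).trans ?_) 1
  unfold rp bp
  exact le_of_eq (by congr!)

/-- Bound for the number of copies through a vertex. -/
theorem cx_le (h0 : SClone) (q : ℝ) (t n : ℕ) (H : SimpleGraph (Fin t)) (ht : 2 ≤ t) (e : ℝ)
    (G : SimpleGraph (Fin n)) (hG : Opt H G) (G' : SimpleGraph (Fin n))
    (hG' : (MC H G' : ℝ) ≤ (q ^ (t - 1) + e) * (n : ℝ) ^ t) (hn : 0 < n)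
    (hne : (t : ℝ) ≤ e * n) (x : Fin n) :
    (cx H G x : ℝ) ≤ t * (q ^ (t - 1) + 2 * e) * (n : ℝ) ^ (t - 1) := by
  have h1 := h0 t n H G ht hG x
  have h2 : (MC H G : ℝ) ≤ MC H G' := by exact_mod_cast hG G'
  have hn' : (0 : ℝ) < n := by exact_mod_cast hn
  have h3 : (n : ℝ) ^ t = n * (n : ℝ) ^ (t - 1) := by
    rw [← pow_succ']
    congr 1
    omega
  have hp : (0 : ℝ) < (n : ℝ) ^ (t - 1) := by positivity
  have h4 : (n : ℝ) * cx H G x ≤
      n * (t * (q ^ (t - 1) + 2 * e) * (n : ℝ) ^ (t - 1)) := by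
    calc (n : ℝ) * cx H G x ≤ t * MC H G + (t : ℝ) ^ 2 * (n : ℝ) ^ (t - 1) := h1
      _ ≤ t * ((q ^ (t - 1) + e) * (n : ℝ) ^ t) + (t : ℝ) * (e * n) * (n : ℝ) ^ (t - 1) := by
          refine add_le_add (mul_le_mul_of_nonneg_left (h2.trans hG') (Nat.cast_nonneg _)) ?_
          refine mul_le_mul_of_nonneg_right ?_ hp.le
          rw [sq]
          exact mul_le_mul_of_nonneg_left hne (Nat.cast_nonneg _)
      _ = _ := by rw [h3]; ring
  exact le_of_mul_le_mul_left h4 hn'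

theorem nine_lt (c : ℕ) (hc : 6 ≤ c) : 9 * c < 2 ^ c := by
  induction c, hc using Nat.le_induction with
  | base => norm_num
  | succ c hc ih =>
    have h1 : 2 ^ 6 ≤ 2 ^ c := Nat.pow_le_pow_right (by norm_num) hc
    rw [pow_succ]
    omega

/-- the numerical condition -/
theorem num {k m : ℕ} (hk : 4 ≤ k) (hm : 1000 * k ^ 3 ≤ m) :
    2 * ((m : ℝ) + k) * (400 * (k : ℝ) ^ 3) ^ (k - 1) < (177 / 100 : ℝ) ^ m := by
  set r := m / 2 with hr
  have hr1 : 2 * r ≤ m := by omega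
  have hr2 : m ≤ 2 * r + 1 := by omega
  have hk3 : k ^ 3 = k * k ^ 2 := by ring
  have hK : 16 ≤ k ^ 2 := by nlinarith
  have hrK : 2000 * k ^ 2 ≤ r := by
    have h1 : 4 * k ^ 2 ≤ k ^ 3 := by rw [hk3]; exact Nat.mul_le_mul_right _ hk
    omega
  have hkm : k ≤ m := by
    have : k ≤ k ^ 3 := Nat.le_self_pow (by norm_num) k
    omega
  -- natural number inequality
  have hN : (8 * r + 4) * 2 ^ (6 * k ^ 2) < 2 ^ r := by
    obtain ⟨c, hc⟩ : ∃ c, r = c + 6 * k ^ 2 := ⟨r - 6 * k ^ 2, by omega⟩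
    have hc6 : 8 * r + 4 ≤ 9 * c := by omega
    have hc7 : 6 ≤ c := by omega
    rw [hc, pow_add, ← hc]
    exact Nat.mul_lt_mul_of_pos_right (hc6.trans_lt (nine_lt c hc7)) (by positivity)
  have h400 : (400 * k ^ 3) ^ (k - 1) ≤ 2 ^ (6 * k ^ 2) := by
    have e1 : k ≤ 2 ^ k := Nat.lt_two_pow_self.le
    have e2 : 400 * k ^ 3 ≤ 2 ^ (9 + 3 * k) := by
      calc 400 * k ^ 3 ≤ 2 ^ 9 * (2 ^ k) ^ 3 :=
            Nat.mul_le_mul (by norm_num) (Nat.pow_le_pow_left e1 3)
        _ = 2 ^ (9 + 3 * k) := by rw [pow_add, ← pow_mul, mul_comm k 3]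
    calc (400 * k ^ 3) ^ (k - 1) ≤ (2 ^ (9 + 3 * k)) ^ (k - 1) := Nat.pow_le_pow_left e2 _
      _ = 2 ^ ((9 + 3 * k) * (k - 1)) := by rw [← pow_mul]
      _ ≤ 2 ^ (6 * k ^ 2) := by
          refine Nat.pow_le_pow_right (by norm_num) ?_
          calc (9 + 3 * k) * (k - 1) ≤ (6 * k) * k := Nat.mul_le_mul (by omega) (by omega)
            _ = 6 * k ^ 2 := by ring
  have hNR : ((8 * (r : ℝ) + 4)) * (2 : ℝ) ^ (6 * k ^ 2) < (2 : ℝ) ^ r := by exact_mod_cast hN
  have h400R : (400 * (k : ℝ) ^ 3) ^ (k - 1) ≤ (2 : ℝ) ^ (6 * k ^ 2) := by exact_mod_cast h400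
  have hmk : 2 * ((m : ℝ) + k) ≤ 8 * (r : ℝ) + 4 := by
    have : 2 * (m + k) ≤ 8 * r + 4 := by omega
    exact_mod_cast this
  have h2r : (2 : ℝ) ^ r ≤ (177 / 100 : ℝ) ^ m := by
    calc (2 : ℝ) ^ r ≤ ((177 / 100 : ℝ) ^ 2) ^ r := pow_le_pow_left₀ (by norm_num) (by norm_num) _
      _ = (177 / 100 : ℝ) ^ (2 * r) := by rw [← pow_mul]
      _ ≤ (177 / 100 : ℝ) ^ m := pow_le_pow_right₀ (by norm_num) hr1
  calc 2 * ((m : ℝ) + k) * (400 * (k : ℝ) ^ 3) ^ (k - 1)
      ≤ (8 * (r : ℝ) + 4) * (2 : ℝ) ^ (6 * k ^ 2) :=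
        mul_le_mul hmk h400R (by positivity) (by positivity)
    _ < (2 : ℝ) ^ r := hNR
    _ ≤ _ := h2r

/-- some blue degree is small -/
theorem stepA {k t n : ℕ} (hk : 4 ≤ k) (ht : 1000 * k ^ 3 + k ≤ t) (b e c : ℝ)
    (hb : b = mu k / (200 * (k : ℝ) ^ 3)) (he : 2 * e ≤ mu k ^ (t - 1)) (hn : 0 < n)
    (G : SimpleGraph (Fin n)) (P : Fin n → Fin (k - 1)) (x : Fin n)
    (hall : ∀ j, b * n < bp G P j x)
    (h1 : (∏ j, ((bp G P j x : ℝ) - b / 2 * n)) * ((3 / 5 - b / 2) * n) ^ (t - k) ≤ c)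
    (h2 : c ≤ t * (mu k ^ (t - 1) + 2 * e) * (n : ℝ) ^ (t - 1)) : False := by
  have hm0 := mu_pos hk
  have hm3 := mu_le hk
  have hk4 : (4 : ℝ) ≤ k := by exact_mod_cast hk
  have hk0 : (0 : ℝ) < k := by linarith
  have hk3 : (64 : ℝ) ≤ (k : ℝ) ^ 3 := by
    have := pow_le_pow_left₀ (by norm_num : (0 : ℝ) ≤ 4) hk4 3
    norm_num at this
    exact this
  have hn' : (0 : ℝ) < n := by exact_mod_cast hn
  have hb0 : 0 < b := by rw [hb]; positivity
  have hb1 : b / 2 ≤ 1 / 100 := by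
    rw [hb, div_div, div_le_div_iff₀ (by positivity) (by norm_num)]
    nlinarith
  have h3 : (b / 2 * n) ^ (k - 1) ≤ ∏ j : Fin (k - 1), ((bp G P j x : ℝ) - b / 2 * n) := by
    have : (b / 2 * n) ^ (k - 1) = ∏ _j : Fin (k - 1), (b / 2 * (n : ℝ)) := by simp
    rw [this]
    refine Finset.prod_le_prod (fun _ _ => by positivity) fun j _ => ?_
    have := hall j
    linarith
  have h4 : (59 / 100 * (n : ℝ)) ^ (t - k) ≤ ((3 / 5 - b / 2) * n) ^ (t - k) := by
    refine pow_le_pow_left₀ (by positivity) ?_ _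
    refine mul_le_mul_of_nonneg_right ?_ hn'.le
    linarith
  have h5 : (b / 2 * n) ^ (k - 1) * (59 / 100 * (n : ℝ)) ^ (t - k)
      ≤ t * (mu k ^ (t - 1) + 2 * e) * (n : ℝ) ^ (t - 1) := by
    refine le_trans ?_ (h1.trans h2)
    exact mul_le_mul h3 h4 (by positivity) (le_trans (by positivity) h3)
  obtain ⟨m, hm⟩ : ∃ m, t = m + k := ⟨t - k, by omega⟩
  have hmk : t - k = m := by omega
  have ht1 : t - 1 = (k - 1) + m := by omega
  have h6 : (b / 2 * n) ^ (k - 1) * (59 / 100 * (n : ℝ)) ^ (t - k)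
      = (b / 2) ^ (k - 1) * (59 / 100) ^ m * (n : ℝ) ^ (t - 1) := by
    rw [mul_pow, mul_pow, hmk, ht1, pow_add]
    ring
  rw [h6] at h5
  have h7 : (b / 2) ^ (k - 1) * (59 / 100) ^ m ≤ t * (mu k ^ (t - 1) + 2 * e) :=
    le_of_mul_le_mul_right h5 (by positivity)
  have h8 : (t : ℝ) * (mu k ^ (t - 1) + 2 * e) ≤ 2 * t * (mu k ^ (k - 1) * (1 / 3) ^ m) := by
    have e1 : mu k ^ (t - 1) ≤ mu k ^ (k - 1) * (1 / 3) ^ m := by
      rw [ht1, pow_add]
      gcongr
    calc (t : ℝ) * (mu k ^ (t - 1) + 2 * e) ≤ t * (mu k ^ (t - 1) + mu k ^ (t - 1)) := by gcongr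
      _ = 2 * t * mu k ^ (t - 1) := by ring
      _ ≤ _ := by gcongr
  have h9 : (b / 2) ^ (k - 1) * (400 * (k : ℝ) ^ 3) ^ (k - 1) = mu k ^ (k - 1) := by
    rw [← mul_pow]
    congr 1
    rw [hb]
    field_simp
    norm_num
  have h10 : (59 / 100 : ℝ) ^ m = (177 / 100) ^ m * (1 / 3) ^ m := by
    rw [← mul_pow]
    norm_num
  have h11 := h7.trans h8
  rw [← h9, h10] at h11
  have hbp : 0 < (b / 2) ^ (k - 1) := by positivity
  have h13 : (0 : ℝ) < (1 / 3) ^ m := by positivity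
  have h12 : (177 / 100 : ℝ) ^ m ≤ 2 * t * (400 * (k : ℝ) ^ 3) ^ (k - 1) := by
    have e1 : (b / 2) ^ (k - 1) * (1 / 3) ^ m * (177 / 100 : ℝ) ^ m ≤
        (b / 2) ^ (k - 1) * (1 / 3) ^ m * (2 * t * (400 * (k : ℝ) ^ 3) ^ (k - 1)) := by
      calc _ = (b / 2) ^ (k - 1) * ((177 / 100) ^ m * (1 / 3) ^ m) := by ring
        _ ≤ _ := h11
        _ = _ := by ring
    exact le_of_mul_le_mul_left e1 (by positivity)
  have h14 := num hk (m := m) (by omega)
  have h15 : (t : ℝ) = (m : ℝ) + k := by rw [hm]; push_cast; ring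
  rw [h15] at h12
  linarith

/-- the red degree is not large -/
theorem stepB {k t n : ℕ} (hk : 4 ≤ k) (ht : 1000 * k ^ 3 + k ≤ t) (h e c R : ℝ)
    (hh : h = 1 / (20000 * (k : ℝ) ^ 2)) (hn : 0 < n) (he : 2 * e ≤ mu k ^ (t - 1) * (h / 4))
    (hR : mu k * (1 + 1 / (900 * (k : ℝ) ^ 2)) * n < R)
    (h1 : ((t : ℝ) - k) * (R - mu k * h / (4 * t) * n)
      * ((mu k - mu k * h / (4 * t)) * n) ^ (t - 2) ≤ c)
    (h2 : c ≤ t * (mu k ^ (t - 1) + 2 * e) * (n : ℝ) ^ (t - 1)) : False := by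
  have hm0 := mu_pos hk
  have hn' : (0 : ℝ) < n := by exact_mod_cast hn
  have hk4 : (4 : ℝ) ≤ k := by exact_mod_cast hk
  have hk0 : (0 : ℝ) < k := by linarith
  have htk : (1000 : ℝ) * k ^ 3 + k ≤ t := by exact_mod_cast ht
  have ht2 : 2 ≤ t := by omega
  have ht0 : (0 : ℝ) < t := by
    have : 0 < t := by omega
    exact_mod_cast this
  have ht1 : (1 : ℝ) ≤ t := by
    have : 1 ≤ t := by omega
    exact_mod_cast this
  set u : ℝ := 1 / (k : ℝ) ^ 2 with hu
  have hu0 : 0 < u := by positivity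
  have hu1 : u ≤ 1 / 16 := by
    rw [hu]
    apply one_div_le_one_div_of_le (by norm_num)
    nlinarith
  have hhu : h = u / 20000 := by rw [hh, hu]; field_simp
  have hη : 1 / (900 * (k : ℝ) ^ 2) = u / 900 := by rw [hu]; field_simp
  have hh0 : 0 < h := by rw [hhu]; positivity
  rw [hη] at hR
  set s : ℝ := h / (4 * t) with hs
  have hs0 : 0 < s := by positivity
  have hst : s * t = h / 4 := by rw [hs]; field_simp
  have hs1 : s ≤ h / 4 := by
    rw [← hst]
    nlinarith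
  have hms : mu k * h / (4 * t) = mu k * s := by rw [hs]; ring
  rw [hms] at h1
  have hs2 : s ≤ 1 := by
    have : h / 4 ≤ 1 := by rw [hhu]; linarith
    linarith
  -- lower bound for the linear factor
  have e1 : mu k * (1 + u / 900 - s) * n ≤ R - mu k * s * n := by
    have : mu k * (1 + u / 900 - s) * n = mu k * (1 + u / 900) * n - mu k * s * n := by ring
    rw [this]
    linarith
  -- lower bound for the power
  have e3 : (1 - h / 4) ≤ (1 - s) ^ (t - 2) := by
    have hb := one_add_mul_le_pow (a := -s) (by linarith) (t - 2)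
    have : ((t - 2 : ℕ) : ℝ) * s ≤ h / 4 := by
      rw [← hst, mul_comm s]
      refine mul_le_mul_of_nonneg_right ?_ hs0.le
      exact_mod_cast Nat.sub_le _ _
    have e : (1 + -s) ^ (t - 2) = (1 - s) ^ (t - 2) := by ring
    rw [← e]
    linarith
  have e4 : mu k ^ (t - 2) * (1 - h / 4) * (n : ℝ) ^ (t - 2)
      ≤ ((mu k - mu k * s) * n) ^ (t - 2) := by
    have : (mu k - mu k * s) * n = mu k * (1 - s) * n := by ring
    rw [this, mul_pow, mul_pow]
    gcongr
  have h14 : 0 < 1 - h / 4 := by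
    rw [hhu]; linarith
  have htk0 : 0 < (t : ℝ) - k := by
    have : (0 : ℝ) < 1000 * k ^ 3 := by positivity
    linarith
  have hus : 0 < 1 + u / 900 - s := by linarith
  have e6 : ((t : ℝ) - k) * (mu k * (1 + u / 900 - s) * n)
      * (mu k ^ (t - 2) * (1 - h / 4) * (n : ℝ) ^ (t - 2))
      ≤ t * (mu k ^ (t - 1) + 2 * e) * (n : ℝ) ^ (t - 1) := by
    refine le_trans ?_ (h1.trans h2)
    refine mul_le_mul (mul_le_mul_of_nonneg_left e1 htk0.le) e4 (by positivity) ?_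
    refine mul_nonneg htk0.le (le_trans (by positivity) e1)
  have e8 : ((t : ℝ) - k) * (mu k * (1 + u / 900 - s) * n)
      * (mu k ^ (t - 2) * (1 - h / 4) * (n : ℝ) ^ (t - 2))
      = (mu k ^ (t - 1) * (((t : ℝ) - k) * ((1 + u / 900 - s) * (1 - h / 4)))) * (n : ℝ) ^ (t - 1) := by
    have : t - 1 = (t - 2) + 1 := by omega
    rw [this, pow_succ, pow_succ]
    ring
  rw [e8] at e6
  have e9 := le_of_mul_le_mul_right e6 (by positivity)
  have e10 : t * (mu k ^ (t - 1) + 2 * e) ≤ mu k ^ (t - 1) * (t * (1 + h / 4)) := by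
    calc (t : ℝ) * (mu k ^ (t - 1) + 2 * e) ≤ t * (mu k ^ (t - 1) + mu k ^ (t - 1) * (h / 4)) := by
          gcongr
      _ = _ := by ring
  have e11 : ((t : ℝ) - k) * ((1 + u / 900 - s) * (1 - h / 4)) ≤ t * (1 + h / 4) :=
    le_of_mul_le_mul_left (e9.trans e10) (by positivity)
  -- `t = (t - k) + k` with `k ≤ (u / 1000) (t - k)`
  have e12 : (k : ℝ) ≤ u / 1000 * ((t : ℝ) - k) := by
    have e : (1000 : ℝ) * k ^ 3 ≤ (t : ℝ) - k := by linarith
    have e' : u / 1000 * (1000 * (k : ℝ) ^ 3) = k := by rw [hu]; field_simp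
    calc (k : ℝ) = u / 1000 * (1000 * (k : ℝ) ^ 3) := e'.symm
      _ ≤ _ := by gcongr
  have e13 : t * (1 + h / 4) ≤ ((t : ℝ) - k) * ((1 + u / 1000) * (1 + h / 4)) := by
    have : (t : ℝ) ≤ ((t : ℝ) - k) * (1 + u / 1000) := by linarith
    calc (t : ℝ) * (1 + h / 4) ≤ (((t : ℝ) - k) * (1 + u / 1000)) * (1 + h / 4) :=
          mul_le_mul_of_nonneg_right this (by linarith)
      _ = _ := by ring
  have e14 : (1 + u / 900 - s) * (1 - h / 4) ≤ (1 + u / 1000) * (1 + h / 4) :=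
    le_of_mul_le_mul_left (e11.trans e13) htk0
  have e15 : (1 + u / 900 - h / 4) * (1 - h / 4) ≤ (1 + u / 900 - s) * (1 - h / 4) :=
    mul_le_mul_of_nonneg_right (by linarith) h14.le
  have e16 := e15.trans e14
  rw [hhu] at e16
  nlinarith

end PatEAux

open PatEAux in
theorem patE (h0 : SClone) (h1 : SUpbE) (h2 : SCntL) (h3 : SCntBE) : SPatE := by
  intro k t g hk hg ht
  have hm0 := mu_pos hk
  have hm3 := mu_le hk
  have hk4 : (4 : ℝ) ≤ k := by exact_mod_cast hk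
  have hk0 : (0 : ℝ) < k := by linarith
  have hk3 : (64 : ℝ) ≤ (k : ℝ) ^ 3 := by
    have := pow_le_pow_left₀ (by norm_num : (0 : ℝ) ≤ 4) hk4 3
    norm_num at this
    exact this
  have hkt : k < t := by
    have : 0 < k ^ 3 := by positivity
    omega
  have ht0 : (0 : ℝ) < t := by
    have : 0 < t := by omega
    exact_mod_cast this
  have ht1 : (1 : ℝ) ≤ t := by
    have : 1 ≤ t := by omega
    exact_mod_cast this
  set m : ℝ := mu k with hm
  set b : ℝ := m / (200 * (k : ℝ) ^ 3) with hb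
  have hb0 : 0 < b := by positivity
  have hb1 : b / 2 ≤ 1 / 10 := by
    rw [hb, div_div, div_le_div_iff₀ (by positivity) (by norm_num)]
    nlinarith
  set h : ℝ := 1 / (20000 * (k : ℝ) ^ 2) with hh
  have hh0 : 0 < h := by positivity
  have hh1 : h ≤ 1 := by
    rw [hh, div_le_one (by positivity)]
    nlinarith
  -- the small numbers
  set e : ℝ := m ^ (t - 1) * (h / 8) with he
  have he0 : 0 < e := by positivity
  set s : ℝ := m * h / (4 * t) with hs
  have hs0 : 0 < s := by positivity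
  have hsm : s ≤ m := by
    rw [hs, div_le_iff₀ (by positivity)]
    have : m * h ≤ m * 1 := by gcongr
    have : m * 1 ≤ m * (4 * t) := by gcongr; linarith
    linarith
  obtain ⟨N1, hN1⟩ := h1 k t g hk hkt hg e he0
  obtain ⟨δ2, N2, hδ2, hN2⟩ := h2 k t g hk hkt hg s hs0 hsm
  obtain ⟨δ3, N3, hδ3, hN3⟩ := h3 k t g hk hkt hg (b / 2) (by positivity) hb1
  obtain ⟨N4, hN4⟩ := exists_nat_ge ((t : ℝ) / e)
  obtain ⟨N5, hN5⟩ := exists_nat_ge (1000 * (k : ℝ) / m)
  refine ⟨min (min δ2 δ3) (m / (1000 * k)), max (max N1 N2) (max (max N3 N4) (max N5 1)),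
    lt_min (lt_min hδ2 hδ3) (by positivity), ?_⟩
  intro n hn G P hG hP x
  have n1 : N1 ≤ n := le_trans (le_trans (le_max_left _ _) (le_max_left _ _)) hn
  have n2 : N2 ≤ n := le_trans (le_trans (le_max_right _ _) (le_max_left _ _)) hn
  have n3 : N3 ≤ n :=
    le_trans (le_trans (le_trans (le_max_left _ _) (le_max_left _ _)) (le_max_right _ _)) hn
  have n4 : N4 ≤ n :=
    le_trans (le_trans (le_trans (le_max_right _ _) (le_max_left _ _)) (le_max_right _ _)) hn
  have n5 : N5 ≤ n :=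
    le_trans (le_trans (le_trans (le_max_left _ _) (le_max_right _ _)) (le_max_right _ _)) hn
  have n6 : 1 ≤ n :=
    le_trans (le_trans (le_trans (le_max_right _ _) (le_max_right _ _)) (le_max_right _ _)) hn
  have hn0 : (0 : ℝ) < n := by exact_mod_cast n6
  have hne : (t : ℝ) ≤ e * n := by
    have : (t : ℝ) / e ≤ n := hN4.trans (by exact_mod_cast n4)
    rw [div_le_iff₀ he0] at this
    linarith
  have hnm : 1 ≤ m / (1000 * k) * n := by
    have : 1000 * (k : ℝ) / m ≤ n := hN5.trans (by exact_mod_cast n5)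
    rw [div_le_iff₀ hm0] at this
    have e : m / (1000 * k) * n = (n * m) / (1000 * k) := by ring
    rw [e, le_div_iff₀ (by positivity)]
    linarith
  obtain ⟨G', hG'⟩ := hN1 n n1
  have hcx := cx_le h0 m t n (Pg k t g) (by omega) e G hG G' hG' n6 hne x
  -- the red degree
  have hB : (rd G x : ℝ) ≤ m * (1 + 1 / (900 * (k : ℝ) ^ 2)) * n := by
    by_contra hcon
    push Not at hcon
    have hsr : s * n ≤ rd G x := by
      refine le_trans ?_ hcon.le
      refine mul_le_mul_of_nonneg_right (hsm.trans ?_) hn0.le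
      have : 0 < 1 / (900 * (k : ℝ) ^ 2) := by positivity
      nlinarith
    have hc2 := hN2 n n2 G P (near_mono ((min_le_left _ _).trans (min_le_left _ _)) hP) x hsr
    refine stepB hk ht h e _ (rd G x) hh n6 ?_ hcon hc2 hcx
    rw [he]
    exact le_of_eq (by ring)
  have hk2 : (16 : ℝ) ≤ (k : ℝ) ^ 2 := by nlinarith
  have hB' : (rd G x : ℝ) ≤ 2 / 5 * n := by
    refine hB.trans (mul_le_mul_of_nonneg_right ?_ hn0.le)
    have : 1 / (900 * (k : ℝ) ^ 2) ≤ 1 / 14400 := by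
      apply one_div_le_one_div_of_le (by norm_num)
      linarith
    calc m * (1 + 1 / (900 * (k : ℝ) ^ 2)) ≤ 1 / 3 * (1 + 1 / 14400) := by gcongr
      _ ≤ 2 / 5 := by norm_num
  -- a small blue degree
  have hA : ∃ j, (bp G P j x : ℝ) ≤ b * n := by
    by_contra hcon
    push Not at hcon
    have hc3 := hN3 n n3 G P (near_mono ((min_le_left _ _).trans (min_le_right _ _)) hP) x hB'
      (fun j => by have := hcon j; nlinarith)
    refine stepA hk ht b e _ hb ?_ n6 G P x hcon hc3 hcx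
    rw [he]
    have : 0 < m ^ (t - 1) := by positivity
    nlinarith
  obtain ⟨j, hj⟩ := hA
  have hkk : (k : ℝ) ≤ (k : ℝ) ^ 2 := by nlinarith
  have hkkk : (k : ℝ) ≤ (k : ℝ) ^ 3 := by
    calc (k : ℝ) = (k : ℝ) ^ 1 := by ring
      _ ≤ (k : ℝ) ^ 3 := pow_le_pow_right₀ (by linarith) (by norm_num)
  have hbk : b ≤ m / (200 * k) := by
    rw [hb]
    gcongr
  refine ⟨j, hj.trans ?_, ?_⟩
  · refine mul_le_mul_of_nonneg_right (hbk.trans ?_) hn0.le
    gcongr
    norm_num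
  · have hpt : m * n - m / (1000 * k) * n ≤ (pt P j).card := by
      have e1 := (abs_le.1 (hP.1 j)).1
      have e2 : min (min δ2 δ3) (m / (1000 * k)) * n ≤ m / (1000 * k) * n :=
        mul_le_mul_of_nonneg_right (min_le_right _ _) hn0.le
      linarith
    have hcp : ((pt P j).card : ℝ) ≤ rp G P j x + bp G P j x + 1 := by
      exact_mod_cast card_pt G P j x
    have hsum : (rp G P j x : ℝ) + ∑ i ∈ univ.erase j, (rp G P i x : ℝ) = rd G x := by
      rw [← sum_rp G P x]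
      push_cast
      exact Finset.add_sum_erase univ (fun i => (rp G P i x : ℝ)) (mem_univ j)
    have hmh : m * (1 + 1 / (900 * (k : ℝ) ^ 2)) * n ≤ m * n + m / (900 * k) * n := by
      have : 1 / (900 * (k : ℝ) ^ 2) ≤ 1 / (900 * k) := by gcongr
      calc m * (1 + 1 / (900 * (k : ℝ) ^ 2)) * n ≤ m * (1 + 1 / (900 * k)) * n := by gcongr
        _ = _ := by ring
    have hfin : m / (900 * k) * n + m / (200 * k) * n + 2 * (m / (1000 * k) * n)
        ≤ m / (32 * k) * n := by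
      have : m / (32 * k) * n - (m / (900 * k) * n + m / (200 * k) * n + 2 * (m / (1000 * k) * n))
          = m * n / k * (1 / 32 - 1 / 900 - 1 / 200 - 1 / 500) := by
        field_simp
        ring
      have h' : 0 ≤ m * n / k * (1 / 32 - 1 / 900 - 1 / 200 - 1 / 500) := by positivity
      linarith
    have hbn : b * n ≤ m / (200 * k) * n := mul_le_mul_of_nonneg_right hbk hn0.le
    linarith

end Pool.Agent.N412.PE
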