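import Pool.Agent.N412.PE.Stm
import Pool.Agent.W688.LP.ELIM

/-!
Project PEND (helper412), part RAM: quantitative Ramsey for kernels.
-/

set_option autoImplicit false

open Finset

namespace Pool.Agent.N412.PE

open Pool.Agent.W297.LP

namespace RamEAux

open Pool.Agent.W688.LP (mem_cl cl_mono cl_zero ker_co nb nb_sub nb_card cons_le)

/-- two sided form with an explicit constant -/
lemma ram2e (a : ℕ) : ∀ b : ℕ, ∀ (V : Type) [Fintype V] (W : V → V → ℝ), Ker W →
    ∀ D : Finset V, (D.card : ℝ) ^ (a + b) ≤ 2 ^ ((a + b).choose 2) *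
      (((cl W D a).card : ℝ) * (D.card : ℝ) ^ b +
      ((cl (co W) D b).card : ℝ) * (D.card : ℝ) ^ a) := by
  induction a with
  | zero =>
    intro b V _ W _ D
    rw [cl_zero, zero_add]
    have h1 : (0 : ℝ) ≤ ((cl (co W) D b).card : ℝ) * (D.card : ℝ) ^ 0 := by positivity
    have h2 : (1 : ℝ) ≤ 2 ^ (b.choose 2) := one_le_pow₀ (by norm_num)
    have h3 : (0 : ℝ) ≤ (D.card : ℝ) ^ b := by positivity
    push_cast
    nlinarith
  | succ a iha =>
    intro b
    induction b with
    | zero =>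
      intro V _ W _ D
      rw [cl_zero, add_zero]
      have h1 : (0 : ℝ) ≤ ((cl W D (a + 1)).card : ℝ) * (D.card : ℝ) ^ 0 := by positivity
      have h2 : (1 : ℝ) ≤ 2 ^ ((a + 1).choose 2) := one_le_pow₀ (by norm_num)
      have h3 : (0 : ℝ) ≤ (D.card : ℝ) ^ (a + 1) := by positivity
      push_cast
      nlinarith
    | succ b ihb =>
      intro V _ W hW D
      have h1 := iha (b + 1)
      have h2 := ihb
      set d : ℝ := (D.card : ℝ) with hd
      have hd0 : 0 ≤ d := Nat.cast_nonneg _
      set p : ℝ := ((cl W D (a + 1)).card : ℝ) with hp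
      set q : ℝ := ((cl (co W) D (b + 1)).card : ℝ) with hq
      have hp0 : 0 ≤ p := Nat.cast_nonneg _
      have hq0 : 0 ≤ q := Nat.cast_nonneg _
      have hW' := ker_co hW
      obtain ⟨K, hK⟩ : ∃ K : ℝ, K = 2 ^ ((a + b + 1).choose 2) := ⟨_, rfl⟩
      have hK0 : 0 < K := by rw [hK]; positivity
      have key : ∀ x ∈ D, d ^ (a + b + 1) ≤ 2 ^ (a + b) * K * (
          ((cl W (nb W D x) a).card : ℝ) * d ^ (b + 1) + q * d ^ a + p * d ^ b +
            ((cl (co W) (nb (co W) D x) b).card : ℝ) * d ^ (a + 1)) := by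
        intro x _
        set n1 : ℝ := ((nb W D x).card : ℝ) with hn1
        set n2 : ℝ := ((nb (co W) D x).card : ℝ) with hn2
        have hn : n1 + n2 = d := by
          have := nb_card hW D x
          rw [hn1, hn2, hd]
          exact_mod_cast this
        have hn10 : 0 ≤ n1 := Nat.cast_nonneg _
        have hn20 : 0 ≤ n2 := Nat.cast_nonneg _
        have e1 := h1 V W hW (nb W D x)
        have e2 := h2 V W hW (nb (co W) D x)
        rw [← hn1, show a + (b + 1) = a + b + 1 by ring, ← hK] at e1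
        rw [← hn2, show a + 1 + b = a + b + 1 by ring, ← hK] at e2
        have m1 : ((cl (co W) (nb W D x) (b + 1)).card : ℝ) ≤ q := by
          rw [hq]; exact_mod_cast Finset.card_le_card (cl_mono (nb_sub D x) _)
        have m2 : ((cl W (nb (co W) D x) (a + 1)).card : ℝ) ≤ p := by
          rw [hp]; exact_mod_cast Finset.card_le_card (cl_mono (nb_sub D x) _)
        have z1 : (0 : ℝ) ≤ ((cl W (nb W D x) a).card : ℝ) := Nat.cast_nonneg _
        have z2 : (0 : ℝ) ≤ ((cl (co W) (nb (co W) D x) b).card : ℝ) := Nat.cast_nonneg _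
        have hl1 : n1 ≤ d := by linarith
        have hl2 : n2 ≤ d := by linarith
        have f3 : ((cl W (nb W D x) a).card : ℝ) * n1 ^ (b + 1) ≤
            ((cl W (nb W D x) a).card : ℝ) * d ^ (b + 1) :=
          mul_le_mul_of_nonneg_left (pow_le_pow_left₀ hn10 hl1 _) z1
        have f4 : ((cl (co W) (nb W D x) (b + 1)).card : ℝ) * n1 ^ a ≤ q * d ^ a :=
          mul_le_mul m1 (pow_le_pow_left₀ hn10 hl1 _) (by positivity) hq0
        have f5 : ((cl (co W) (nb (co W) D x) b).card : ℝ) * n2 ^ (a + 1) ≤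
            ((cl (co W) (nb (co W) D x) b).card : ℝ) * d ^ (a + 1) :=
          mul_le_mul_of_nonneg_left (pow_le_pow_left₀ hn20 hl2 _) z2
        have f6 : ((cl W (nb (co W) D x) (a + 1)).card : ℝ) * n2 ^ b ≤ p * d ^ b :=
          mul_le_mul m2 (pow_le_pow_left₀ hn20 hl2 _) (by positivity) hp0
        have f7 := add_pow_le hn10 hn20 (a + b + 1)
        rw [hn, Nat.add_sub_cancel] at f7
        have g1 : n1 ^ (a + b + 1) ≤ K * (((cl W (nb W D x) a).card : ℝ) * d ^ (b + 1) +
            q * d ^ a) := e1.trans (mul_le_mul_of_nonneg_left (by linarith) hK0.le)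
        have g2 : n2 ^ (a + b + 1) ≤ K * (p * d ^ b +
            ((cl (co W) (nb (co W) D x) b).card : ℝ) * d ^ (a + 1)) :=
          e2.trans (mul_le_mul_of_nonneg_left (by linarith) hK0.le)
        calc d ^ (a + b + 1) ≤ 2 ^ (a + b) * (n1 ^ (a + b + 1) + n2 ^ (a + b + 1)) := f7
          _ ≤ 2 ^ (a + b) * (K * (((cl W (nb W D x) a).card : ℝ) * d ^ (b + 1) + q * d ^ a) +
              K * (p * d ^ b +
              ((cl (co W) (nb (co W) D x) b).card : ℝ) * d ^ (a + 1))) :=
            mul_le_mul_of_nonneg_left (by linarith) (by positivity)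
          _ = _ := by ring
      have hsum := Finset.sum_le_sum key
      rw [Finset.sum_const, nsmul_eq_mul, ← hd, ← Finset.mul_sum, Finset.sum_add_distrib,
        Finset.sum_add_distrib, Finset.sum_add_distrib, Finset.sum_const, Finset.sum_const,
        nsmul_eq_mul, nsmul_eq_mul, ← hd, ← Finset.sum_mul, ← Finset.sum_mul] at hsum
      have g1 : ∑ x ∈ D, ((cl W (nb W D x) a).card : ℝ) ≤ p := by
        rw [hp]; exact_mod_cast cons_le hW D a
      have g2 : ∑ x ∈ D, ((cl (co W) (nb (co W) D x) b).card : ℝ) ≤ q := by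
        rw [hq]; exact_mod_cast cons_le hW' D b
      have g3 := mul_le_mul_of_nonneg_right g1 (pow_nonneg hd0 (b + 1))
      have g4 := mul_le_mul_of_nonneg_right g2 (pow_nonneg hd0 (a + 1))
      have hc : (2 : ℝ) ^ ((a + 1 + (b + 1)).choose 2) = 2 * (2 ^ (a + b) * K) := by
        rw [hK, show a + 1 + (b + 1) = (a + b + 1) + 1 by ring, Nat.choose_succ_succ' _ 1,
          Nat.choose_one_right, pow_add, pow_succ]
        ring
      rw [hc]
      have e5 : d ^ (a + 1 + (b + 1)) = d * d ^ (a + b + 1) := by ring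
      rw [e5]
      refine hsum.trans ?_
      have e6 : d * (q * d ^ a) = q * d ^ (a + 1) := by ring
      have e7 : d * (p * d ^ b) = p * d ^ (b + 1) := by ring
      rw [e6, e7]
      have hP : 0 ≤ (2 : ℝ) ^ (a + b) * K := by positivity
      calc 2 ^ (a + b) * K * ((∑ x ∈ D, ((cl W (nb W D x) a).card : ℝ)) * d ^ (b + 1) +
            q * d ^ (a + 1) + p * d ^ (b + 1) +
            (∑ x ∈ D, ((cl (co W) (nb (co W) D x) b).card : ℝ)) * d ^ (a + 1))
          ≤ 2 ^ (a + b) * K * (2 * (p * d ^ (b + 1) + q * d ^ (a + 1))) :=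
            mul_le_mul_of_nonneg_left (by linarith) hP
        _ = _ := by ring

lemma choose_le (k : ℕ) : (k + k).choose 2 ≤ 2 * k * k := by
  rw [Nat.choose_two_right]
  have h : (k + k) * (k + k - 1) ≤ (2 * k * k) * 2 := by
    calc (k + k) * (k + k - 1) ≤ (k + k) * (k + k) := Nat.mul_le_mul_left _ (Nat.sub_le _ _)
      _ = (2 * k * k) * 2 := by ring
  exact Nat.div_le_of_le_mul (by linarith)

end RamEAux

open RamEAux

theorem ramE : SRamE := by
  intro k V _ W hW D
  have hC : (2 : ℝ) ^ ((k + k).choose 2) ≤ ((4 : ℝ) ^ k) ^ k := by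
    have h1 : ((4 : ℝ) ^ k) ^ k = 2 ^ (2 * k * k) := by
      rw [show (4 : ℝ) = 2 ^ 2 by norm_num, ← pow_mul, ← pow_mul, mul_assoc 2 k k]
    rw [h1]
    exact pow_le_pow_right₀ (by norm_num) (choose_le k)
  have hs : 0 ≤ ((cl W D k).card : ℝ) + ((cl (co W) D k).card : ℝ) := by positivity
  rcases Nat.eq_zero_or_pos D.card with h0 | h0
  · rw [h0]
    rcases Nat.eq_zero_or_pos k with hk | hk
    · subst hk
      rw [Pool.Agent.W688.LP.cl_zero, Pool.Agent.W688.LP.cl_zero]
      norm_num
    · rw [Nat.cast_zero, zero_pow hk.ne']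
      positivity
  · have hd : (0 : ℝ) < (D.card : ℝ) := by exact_mod_cast h0
    have h1 := ram2e k k V W hW D
    rw [← add_mul, pow_add, ← mul_assoc] at h1
    have h2 := le_of_mul_le_mul_right h1 (pow_pos hd k)
    exact h2.trans (mul_le_mul_of_nonneg_right hC hs)

end Pool.Agent.N412.PE
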