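import Pool.Agent.N412.LB.Stab2
import Pool.Agent.N412.PE.UnionE

/-!
Project PEND (helper412), part STAB: near-optimal colourings are close to the Turan colouring.
-/

set_option autoImplicit false

open Finset

namespace Pool.Agent.N412.PE

open Pool.Agent.W297.LP Pool.Agent.N412.LB Pool.Agent.N412.LB.Stab2Aux

theorem sz_star (a : ℕ) : (star a).sz = a := by
  induction a with
  | zero => rfl
  | succ a ih => simp [star, Tr.sz, ih]

theorem tot_St {k : ℕ} (a : Fin k → ℕ) : tot (St a) = ∑ i, a i := by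
  unfold tot St
  exact sum_congr rfl fun i _ => sz_star (a i)

theorem td_star {V : Type} [Fintype V] (W : V → V → ℝ) (a : ℕ) (x : V) :
    td W (star a) x = dg W x ^ a := by
  induction a with
  | zero => simp [star, td]
  | succ a ih =>
    simp only [star, td, ih, mul_one]
    rw [pow_succ]
    rfl

theorem locE (hTyp : STypE) (hCost : SCostE) (hU : SPart) (hG : SGainE) (hP : SPart2)
    (hZ : SSize) (k : ℕ) (hk : 4 ≤ k) (a : Fin k → ℕ) (hbig : Big k (∑ i, a i)) (δ : ℝ)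
    (hδ : 0 < δ) : ∃ η : ℝ, 0 < η ∧ ∀ (V : Type) [Fintype V] (W : V → V → ℝ), Ker W →
        0 < Fintype.card V → Near k (nk k) W →
        lol W (St a) + lol (co W) (St a) ≤ mu k ^ ((∑ i, a i) + (k - 1)) + η → Near k δ W := by
  obtain ⟨-, hb2, hb3⟩ := hbig
  rw [← tot_St a] at hb2 hb3
  have hC := hCost k hk
  have hG := hG k hk
  simp only [← tot_St] at hC hG ⊢
  have hm := mu_pos hk
  have hm1 := mu_le hk
  have hq2 : mu k ^ 3 ≤ mu k ^ 2 := pow_le_pow_of_le_one hm.le (by linarith) (by norm_num)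
  have hq8 : mu k ^ 8 ≤ mu k ^ 2 := pow_le_pow_of_le_one hm.le (by linarith) (by norm_num)
  have hqp : 0 < mu k ^ 2 := by positivity
  obtain ⟨e, hedef⟩ : ∃ e : ℝ, e = ek k := ⟨_, rfl⟩
  obtain ⟨d, hddef⟩ : ∃ d : ℝ, d = dk k := ⟨_, rfl⟩
  obtain ⟨c3, hc3def⟩ : ∃ c3 : ℝ, c3 = c3k k := ⟨_, rfl⟩
  obtain ⟨c, hcdef⟩ : ∃ c : ℝ, c = ck k := ⟨_, rfl⟩
  obtain ⟨c', hc'def⟩ : ∃ c' : ℝ, c' = cuk k := ⟨_, rfl⟩
  have he1 : e ≤ mu k ^ 2 / 16 := by rw [hedef]; unfold ek; linarith
  have hdc : d ≤ mu k ^ 2 / 16 := by rw [hddef]; unfold dk; linarith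
  have hc3 : 0 < c3 := by rw [hc3def]; unfold c3k; positivity
  have hc : 0 < c := by rw [hcdef]; unfold ck; positivity
  have hc' : c' = c * (c3 / (1 + c3)) / 2 := by rw [hc'def, hcdef, hc3def]; rfl
  have hcc : 0 < c' := by rw [hc']; positivity
  have hU := unionE hU k hk c' e d hdc
  rw [← hc'def] at hb2
  have hT := hTyp k hk
  rw [← hedef, ← hddef] at hT hC hG
  rw [← hcdef] at hC
  rw [← hc3def] at hG
  obtain ⟨T, hTdef⟩ : ∃ T : Fin k → Tr, T = St a := ⟨_, rfl⟩
  have hN1 : 20 * k ^ 2 ≤ tot T := by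
    rw [hTdef]
    refine le_trans ?_ hb3
    nlinarith [pow_pos (show 0 < k by omega) 2, hk]
  have hN3 : 0 < tot T := by
    have : 0 < k ^ 2 := by positivity
    omega
  rw [← hTdef] at hb2
  simp only [← hTdef]
  obtain ⟨cP, hcP, hP⟩ := hP k hk T hN3
  obtain ⟨ξ, hξ, hZ⟩ := hZ k (tot T + k) hk (by omega) (δ / 2) (by linarith)
  obtain ⟨M, hM⟩ : ∃ M : ℝ, M = mu k ^ (tot T + (k - 1)) := ⟨_, rfl⟩
  have hM0 : 0 < M := by rw [hM]; positivity
  have hM' : mu k ^ (tot T + k - 1) = M := by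
    rw [hM]; congr 1; omega
  obtain ⟨K, hK⟩ : ∃ K : ℝ, K = (k : ℝ) ^ 2 + (tot T : ℝ) := ⟨_, rfl⟩
  have hK0 : 0 ≤ K := by rw [hK]; positivity
  obtain ⟨F, hF⟩ : ∃ F : ℝ, F = (3 / 5 : ℝ) ^ (tot T) := ⟨_, rfl⟩
  have hF0 : 0 < F := by rw [hF]; positivity
  obtain ⟨B, hB⟩ : ∃ B : ℝ, B = (1 + c3) / M + 1 / (c' * F) := ⟨_, rfl⟩
  have hB0 : 0 < B := by rw [hB]; positivity
  obtain ⟨Z, hZdef⟩ : ∃ Z : ℝ, Z = 1 + (M * (tot T + k : ℕ) + K) * B := ⟨_, rfl⟩
  have hZ0 : 0 < Z := by rw [hZdef]; positivity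
  obtain ⟨η, hη, e1, e2, e3, e4⟩ : ∃ η : ℝ, 0 < η ∧ B * η ≤ 1 ∧ B * η ≤ δ / 8 ∧
      B * η + Z * η ≤ ξ ∧ Z * η ≤ cP * (δ / 4) := by
    have r1 : 0 < 1 / B := by positivity
    have r2 : 0 < δ / 8 / B := by positivity
    have r3 : 0 < ξ / (B + Z) := by positivity
    have r4 : 0 < cP * (δ / 4) / Z := by positivity
    refine ⟨min (min (1 / B) (δ / 8 / B)) (min (ξ / (B + Z)) (cP * (δ / 4) / Z)),
      lt_min (lt_min r1 r2) (lt_min r3 r4), ?_, ?_, ?_, ?_⟩
    · have := (min_le_left (min (1 / B) (δ / 8 / B)) (min (ξ / (B + Z)) (cP * (δ / 4) / Z))).trans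
        (min_le_left _ _)
      rw [le_div_iff₀ hB0] at this
      linarith
    · have := (min_le_left (min (1 / B) (δ / 8 / B)) (min (ξ / (B + Z)) (cP * (δ / 4) / Z))).trans
        (min_le_right _ _)
      rw [le_div_iff₀ hB0] at this
      linarith
    · have := (min_le_right (min (1 / B) (δ / 8 / B)) (min (ξ / (B + Z)) (cP * (δ / 4) / Z))).trans
        (min_le_left _ _)
      rw [le_div_iff₀ (by positivity)] at this
      linarith
    · have := (min_le_right (min (1 / B) (δ / 8 / B)) (min (ξ / (B + Z)) (cP * (δ / 4) / Z))).trans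
        (min_le_right _ _)
      rw [le_div_iff₀ hZ0] at this
      linarith
  refine ⟨η, hη, ?_⟩
  intro V _ W hW hV hN hopt
  classical
  rw [← hM] at hopt
  obtain ⟨Vi, A1, A2, ht⟩ := hT V W hW hV hN
  have hb := bl_nonneg hW Vi
  have ha1 := ms_nonneg A1
  have ha2 := ms_nonneg A2
  have hl := lol_nonneg (ker_co hW) T
  have hl2 := lol_nonneg hW T
  -- the defect is small
  have hdef : bl W Vi + ms A1 + ms A2 ≤ B * η := by
    by_cases hcase : bl W Vi + ms A2 ≤ c3 * ms A1 ∧ 0 < ms A1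
    · have h1 := hG V W Vi A1 A2 hW hV ht hcase.1 hcase.2 a (by rw [← hTdef]; exact hN1)
      rw [← hTdef] at h1
      rw [← hM] at h1
      have h2 : M * ms A1 ≤ η := by nlinarith
      have h3 : ms A1 ≤ η / M := by
        rw [le_div_iff₀ hM0]
        linarith
      have h4 : bl W Vi + ms A1 + ms A2 ≤ (1 + c3) * ms A1 := by
        have := hcase.1
        linarith
      have h5 : (1 + c3) * ms A1 ≤ (1 + c3) * (η / M) := mul_le_mul_of_nonneg_left h3 (by linarith)
      have h6 : B * η = (1 + c3) * (η / M) + 1 / (c' * F) * η := by rw [hB]; ring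
      have h7 : 0 ≤ 1 / (c' * F) * η := by positivity
      linarith
    · have h1 : c3 * ms A1 ≤ bl W Vi + ms A2 := by
        rcases lt_or_ge 0 (ms A1) with h | h
        · by_contra h2
          exact hcase ⟨(not_le.1 h2).le, h⟩
        · have : ms A1 = 0 := le_antisymm h ha1
          rw [this, mul_zero]
          linarith
      have h2 : c3 / (1 + c3) * (bl W Vi + ms A1 + ms A2) ≤ bl W Vi + ms A2 := by
        rw [div_mul_eq_mul_div, div_le_iff₀ (by linarith)]
        nlinarith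
      have h3 := hC V W Vi A1 A2 hW hV ht a
      rw [← hTdef] at h3
      rw [← hF] at h3
      have h4 := hU V W Vi A1 A2 hW hV ht T hb2
      rw [← hM, ← hF] at h4
      have h5 : 2 * (c' * (bl W Vi + ms A1 + ms A2) * F) ≤ lol (co W) T := by
        refine le_trans ?_ h3
        have h6 := mul_le_mul_of_nonneg_left h2 hc.le
        have h7 := mul_le_mul_of_nonneg_right h6 hF0.le
        refine le_trans (le_of_eq ?_) h7
        rw [hc']; ring
      have h8 : (c' * F) * (bl W Vi + ms A1 + ms A2) ≤ η := by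
        have : c' * (bl W Vi + ms A1 + ms A2) * F = (c' * F) * (bl W Vi + ms A1 + ms A2) := by ring
        linarith
      have h9 : bl W Vi + ms A1 + ms A2 ≤ 1 / (c' * F) * η := by
        rw [one_div, inv_mul_eq_div, le_div_iff₀ (by positivity)]
        linarith
      have h6 : B * η = (1 + c3) / M * η + 1 / (c' * F) * η := by rw [hB]; ring
      have h7 : 0 ≤ (1 + c3) / M * η := by positivity
      linarith
  -- sizes
  have hp := hP e d he1 hdc V W Vi A1 A2 hW hV ht
  rw [← hK] at hp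
  have hcov : 1 - (ms A1 + ms A2) ≤ ∑ i, ms (Vi i) := by
    have hn' : (0 : ℝ) < Fintype.card V := by exact_mod_cast hV
    have h1 : (univ : Finset V) ⊆ (A1 ∪ A2) ∪ univ.biUnion Vi := by
      intro x _
      rcases ht.cov x with h | h | ⟨i, h⟩
      · exact mem_union_left _ (mem_union_left _ h)
      · exact mem_union_left _ (mem_union_right _ h)
      · exact mem_union_right _ (mem_biUnion.2 ⟨i, mem_univ _, h⟩)
    have h2 : Fintype.card V ≤ (A1.card + A2.card) + ∑ i, (Vi i).card := by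
      calc Fintype.card V = (univ : Finset V).card := rfl
        _ ≤ ((A1 ∪ A2) ∪ univ.biUnion Vi).card := card_le_card h1
        _ ≤ (A1 ∪ A2).card + (univ.biUnion Vi).card := card_union_le _ _
        _ ≤ _ := add_le_add (card_union_le _ _) card_biUnion_le
    have h3 : (Fintype.card V : ℝ) ≤ ((A1.card : ℝ) + A2.card) + ∑ i, ((Vi i).card : ℝ) := by
      exact_mod_cast h2
    have h4 : (ms A1 + ms A2) + ∑ i, ms (Vi i) =
        (((A1.card : ℝ) + A2.card) + ∑ i, ((Vi i).card : ℝ)) / Fintype.card V := by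
      unfold ms
      rw [← sum_div]
      ring
    have h5 : 1 ≤ (ms A1 + ms A2) + ∑ i, ms (Vi i) := by
      rw [h4, le_div_iff₀ hn']
      linarith
    linarith
  have hle : ∑ i, ms (Vi i) ≤ 1 := by
    have hn' : (0 : ℝ) < Fintype.card V := by exact_mod_cast hV
    have h1 : ∑ i, (Vi i).card = (univ.biUnion Vi).card := by
      rw [card_biUnion]
      intro i _ j _ hij
      exact ht.disj i j hij
    have h2 : ((∑ i, (Vi i).card : ℕ) : ℝ) ≤ (Fintype.card V : ℝ) := by
      rw [h1]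
      exact_mod_cast card_le_univ _
    unfold ms
    rw [← sum_div, div_le_one hn']
    push_cast at h2
    exact h2
  have hs1 : ms A1 + ms A2 ≤ B * η := by linarith
  have hs2 : 1 - ξ ≤ ∑ i, ms (Vi i) := by
    have : 0 ≤ Z * η := by positivity
    linarith
  obtain ⟨-, z2⟩ := hZ (fun i => ms (Vi i)) (fun i => ms_nonneg _) hs2 hle
  have hee : 0 ≤ ∑ i, ∑ j ∈ univ.erase i, ee W (Vi i) (Vi j) :=
    sum_nonneg fun i _ => sum_nonneg fun j _ => ee_nonneg (nn hW) _ _
  have hKb : K * bl W Vi ≤ K * (B * η) := mul_le_mul_of_nonneg_left (by linarith) hK0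
  have hMs : 0 ≤ M * (tot T + k : ℕ) * (B * η) := by positivity
  have hZη : Z * η = η + M * (tot T + k : ℕ) * (B * η) + K * (B * η) := by rw [hZdef]; ring
  have hcee : 0 ≤ cP * ∑ i, ∑ j ∈ univ.erase i, ee W (Vi i) (Vi j) := mul_nonneg hcP.le hee
  have hsz := z2 (by
    rw [hM']
    have : 0 ≤ B * η := by positivity
    linarith)
  have hlow := powlow (s := tot T + k) hk (by omega) (fun i => ms (Vi i)) (fun i => ms_nonneg _)
    (a := B * η) e1 (by linarith)
  rw [hM'] at hlow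
  refine back hk hW hV ht hsz (by linarith) ?_
  have hfin : cP * ∑ i, ∑ j ∈ univ.erase i, ee W (Vi i) (Vi j) ≤ cP * (δ / 4) := by
    refine le_trans ?_ e4
    rw [hZη]
    have : M * (1 - ((tot T + k : ℕ) : ℝ) * (B * η)) = M - M * (tot T + k : ℕ) * (B * η) := by ring
    rw [this] at hlow
    linarith
  exact le_of_mul_le_mul_left hfin hcP


theorem xk_pos {k : ℕ} (hk : 4 ≤ k) : 0 < xk k := by
  have := mu_pos hk
  unfold xk nk
  positivity

theorem clBound {k : ℕ} (hk4 : 4 ≤ k) (a : Fin k → ℕ) (hbig : Big k (∑ i, a i))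
    {V : Type} [Fintype V] {W : V → V → ℝ} (hW : Ker W) (hV : 0 < Fintype.card V)
    (hl : lol W (St a) ≤ 2 * mu k ^ ((∑ i, a i) + (k - 1))) :
    ((cl W (Dh W ((1 + xk k) * mu k)) k).card : ℝ) ≤ hk k * (Fintype.card V : ℝ) ^ k := by
  classical
  have hm := mu_pos hk4
  have hm1 := mu_le hk4
  have hx := xk_pos hk4
  have hn : (0 : ℝ) < (Fintype.card V : ℝ) := by exact_mod_cast hV
  obtain ⟨hb1, -, -⟩ := hbig
  set m := ∑ i, a i with hmdef
  obtain ⟨s, hs⟩ : ∃ s : ℝ, s = (1 + xk k) * mu k := ⟨_, rfl⟩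
  have hs0 : 0 < s := by rw [hs]; positivity
  rw [← hs]
  have hsub : cl W (Dh W s) k ⊆ cl W univ k := by
    intro x hx
    simp only [cl, mem_filter, mem_univ, true_and] at hx ⊢
    exact ⟨fun _ => trivial, hx.2⟩
  have h1 : ∀ x ∈ cl W (Dh W s) k, s ^ m ≤ ∏ i, td W (St a i) (x i) := by
    intro x hx
    simp only [cl, mem_filter, mem_univ, true_and] at hx
    have hd : ∀ i, s ≤ dg W (x i) := fun i => by
      have := hx.1 i
      simp only [Dh, mem_filter, mem_univ, true_and] at this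
      exact this
    rw [hmdef, ← prod_pow_eq_pow_sum]
    refine prod_le_prod (fun i _ => by positivity) fun i _ => ?_
    show s ^ a i ≤ td W (star (a i)) (x i)
    rw [td_star]
    exact pow_le_pow_left₀ hs0.le (hd i) _
  have h2 : ((cl W (Dh W s) k).card : ℝ) * s ^ m ≤ lol W (St a) * (Fintype.card V : ℝ) ^ k := by
    unfold lol
    rw [div_mul_cancel₀ _ (by positivity)]
    have h3 := card_nsmul_le_sum _ _ _ h1
    rw [nsmul_eq_mul] at h3
    refine h3.trans ?_
    refine sum_le_sum_of_subset_of_nonneg hsub fun x _ _ => prod_nonneg fun i _ => td_nonneg hW _ _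
  have h3 : s ^ m = (1 + xk k) ^ m * mu k ^ m := by rw [hs, mul_pow]
  have h4 : mu k ^ (m + (k - 1)) = mu k ^ m * mu k ^ (k - 1) := pow_add _ _ _
  have h5 : 2 * mu k ^ (k - 1) ≤ 1 := by
    have : mu k ^ (k - 1) ≤ mu k ^ 1 := pow_le_pow_of_le_one hm.le (by linarith) (by omega)
    rw [pow_one] at this
    linarith
  have hmm : 0 < mu k ^ m := pow_pos hm _
  have h1x : 0 < (1 + xk k) ^ m := by positivity
  have h6 : ((cl W (Dh W s) k).card : ℝ) * (1 + xk k) ^ m ≤ (Fintype.card V : ℝ) ^ k := by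
    have h7 : ((cl W (Dh W s) k).card : ℝ) * ((1 + xk k) ^ m * mu k ^ m) ≤
        (2 * (mu k ^ m * mu k ^ (k - 1))) * (Fintype.card V : ℝ) ^ k := by
      rw [← h3, ← h4]
      exact h2.trans (mul_le_mul_of_nonneg_right hl (by positivity))
    have h8 : (((cl W (Dh W s) k).card : ℝ) * (1 + xk k) ^ m) * mu k ^ m ≤
        (Fintype.card V : ℝ) ^ k * mu k ^ m := by
      have h9 : (2 * (mu k ^ m * mu k ^ (k - 1))) * (Fintype.card V : ℝ) ^ k =
          (2 * mu k ^ (k - 1)) * ((Fintype.card V : ℝ) ^ k * mu k ^ m) := by ring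
      have h10 : (2 * mu k ^ (k - 1)) * ((Fintype.card V : ℝ) ^ k * mu k ^ m) ≤
          1 * ((Fintype.card V : ℝ) ^ k * mu k ^ m) :=
        mul_le_mul_of_nonneg_right h5 (by positivity)
      linarith
    exact le_of_mul_le_mul_right h8 hmm
  have h7 : (1 / (1 + xk k)) ^ m = 1 / (1 + xk k) ^ m := by rw [div_pow, one_pow]
  rw [h7, div_le_iff₀ h1x] at hb1
  have h8 : ((cl W (Dh W s) k).card : ℝ) * (1 + xk k) ^ m ≤
      (hk k * (Fintype.card V : ℝ) ^ k) * (1 + xk k) ^ m := by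
    refine h6.trans ?_
    have := mul_le_mul_of_nonneg_right hb1 (show 0 ≤ (Fintype.card V : ℝ) ^ k by positivity)
    linarith
  exact le_of_mul_le_mul_right h8 h1x

theorem stabE (hDich : SDichE) (hNear : SNearE) (hTyp : STypE) (hCost : SCostE) (hU : SPart)
    (hG : SGainE) (hP : SPart2) (hZ : SSize) : SStabE := by
  intro k hk4 a hbig δ hδ
  obtain ⟨η, hη, hL⟩ := locE hTyp hCost hU hG hP hZ k hk4 a hbig δ hδ
  have hM0 : 0 < mu k ^ ((∑ i, a i) + (k - 1)) := pow_pos (mu_pos hk4) _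
  refine ⟨min η (mu k ^ ((∑ i, a i) + (k - 1))), 1, lt_min hη hM0, fun V _ W hW hn hopt => ?_⟩
  classical
  have hn1 : 0 < Fintype.card V := hn
  have hW' := ker_co hW
  have hl1 := lol_nonneg hW (St a)
  have hl2 := lol_nonneg hW' (St a)
  have m1 := min_le_left η (mu k ^ ((∑ i, a i) + (k - 1)))
  have m2 := min_le_right η (mu k ^ ((∑ i, a i) + (k - 1)))
  have c1 := clBound hk4 a hbig hW hn1 (by linarith)
  have c2 := clBound hk4 a hbig hW' hn1 (by linarith)
  rcases hDich k hk4 V W hW hn1 c1 c2 with ⟨h1, h2⟩ | ⟨h1, h2⟩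
  · exact Or.inl (hL V W hW hn1 (hNear k hk4 V W hW hn1 c2 h1 h2) (by linarith))
  · refine Or.inr (hL V (co W) hW' hn1 (hNear k hk4 V (co W) hW' hn1 ?_ ?_ h2) ?_)
    · rw [co_co]; exact c1
    · rw [co_co]; exact h1
    · rw [co_co]; linarith

end Pool.Agent.N412.PE
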