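import Pool.Agent.N412.LB.All
import Pool.Agent.N412.PE.RamE
import Pool.Agent.N412.PE.DensE
import Pool.Agent.N412.PE.DichE
import Pool.Agent.N412.PE.FurE
import Pool.Agent.N412.PE.NearE
import Pool.Agent.N412.PE.TypE
import Pool.Agent.N412.PE.CostE
import Pool.Agent.N412.PE.GaE
import Pool.Agent.N412.PE.GbE
import Pool.Agent.N412.PE.GainE
import Pool.Agent.N412.PE.NumE
import Pool.Agent.N412.PE.StabE
import Pool.Agent.N412.PE.LpfE
import Pool.Agent.N412.PE.HomE
import Pool.Agent.N412.PE.HomcE
import Pool.Agent.N412.PE.UpbE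
import Pool.Agent.N412.PE.CntL
import Pool.Agent.N412.PE.CntBE
import Pool.Agent.N412.PE.PatE
import Pool.Agent.N412.PE.CompRE
import Pool.Agent.N412.PE.CompBE
import Pool.Agent.N412.PE.CompE
import Pool.Agent.N412.PE.EmbPE
import Pool.Agent.N412.PE.Canon
import Pool.Agent.N412.PE.FinE

/-! PEND: everything together. -/

set_option autoImplicit false

open Finset

namespace Pool.Agent.N412.PE

open Pool.Agent.W297.LP Pool.Agent.N412.LB

theorem all : SMainE := by
  have hPart : SPart := Pool.Agent.W604.LP.part
  have hUp : SUp := Pool.Agent.W465.LPUp.up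
  have hDich : SDichE := dichE ramE densE
  have hNear : SNearE := nearE furE
  have hGain : SGainE := gainE gaE gbE
  have hStab : SStabE := stabE hDich hNear typE costE hPart hGain part2 size
  have hUpb : SUpbE := upbE hUp lpfE
  exact mainE hStab lpfE homE (homcE homE) hUpb (patE clone hUpb cntL cntBE) rep
    (compE compRE compBE) embPE bal iso inv canon numE

end Pool.Agent.N412.PE
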