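import Pool.Agent.N412.PE.Stm

/-!
Project PEND (helper412), part UPB: upper bound for the minimum number of monochromatic copies.
Adapted from `Pool/Agent/N412/LB/Upb.lean`.
-/

set_option autoImplicit false

open Finset

namespace Pool.Agent.N412.PE

open Pool.Agent.W297.LP Pool.Agent.N412.LB

namespace UpbEAux

theorem mu_pow {k t : ℕ} (ht : 1 ≤ t) : ((k : ℝ) - 1) ^ ((1 : ℤ) - (t : ℤ)) = mu k ^ (t - 1) := by
  rw [mu, one_div, inv_pow, ← zpow_natCast, ← zpow_neg]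
  congr 1
  push_cast [Nat.cast_sub ht]
  ring

theorem mu_nonneg {k : ℕ} (hk : 4 ≤ k) : 0 ≤ mu k := by
  have h : (4 : ℝ) ≤ k := by exact_mod_cast hk
  rw [mu]
  exact div_nonneg zero_le_one (by linarith)

end UpbEAux

theorem upbE (h1 : SUp) (h2 : SLpfE) : SUpbE := by
  intro k t g hk hkt hg ε hε
  obtain ⟨hc, -, S, hS⟩ := h2 k t g hk hkt hg
  obtain ⟨N, hN⟩ := h1 k hk t (Pg k t g) ⟨hc, S, hS⟩ ε hε
  refine ⟨max N t, fun n hn => ?_⟩
  obtain ⟨G, hG⟩ := hN n (le_trans (le_max_left _ _) hn)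
  refine ⟨G, ?_⟩
  have hMC : (MC (Pg k t g) G : ℝ) / ((n.descFactorial t : ℕ) : ℝ) ≤
      ((k : ℝ) - 1) ^ ((1 : ℤ) - (t : ℤ)) + ε := by
    unfold MC
    convert hG
  have htn : t ≤ n := le_trans (le_max_right _ _) hn
  have hpos : (0 : ℝ) < ((n.descFactorial t : ℕ) : ℝ) := by
    exact_mod_cast Nat.pos_of_ne_zero fun h =>
      absurd (Nat.descFactorial_eq_zero_iff_lt.1 h) (not_lt.2 htn)
  rw [div_le_iff₀ hpos, UpbEAux.mu_pow (by omega)] at hMC
  have hmu := UpbEAux.mu_nonneg hk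
  refine hMC.trans (mul_le_mul_of_nonneg_left ?_ (by positivity))
  exact_mod_cast Nat.descFactorial_le_pow n t

end Pool.Agent.N412.PE
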